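import Pool.Agent.H92.EL.ZStm

/-!
# Project T5 (MP_a3214d), assembly: definitions for a general permutation representation

`G` is a finite nilpotent group, `M` a set of elements of order `l` in the second center, closed
under conjugation and powers. Homomorphisms congruent modulo the subgroup generated by `M` to a
given one whose inertia outside `S` is in `M`, the two inner statements. Then `G` acts on the
cosets of a subgroup `H` with trivial core and `M` is the set of the elements of least index.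
-/

set_option autoImplicit false

open scoped BigOperators Pointwise Topology
open NumberField IsDedekindDomain Filter

namespace Pool.Agent.TF

open Pool.Agent.H98.MF (Om Gm ord Dec top nrm fld rdN rexp rex)
open Pool.Agent.H98.ML (norb hind)
open Pool.Agent.H92.EL (TM Hk Ctn HLo nO cyc)

/-! ### the inner statements -/

/-- `G` is finite and nilpotent, `M` a nonempty set of elements of prime order `l` in the second
center, closed under conjugation and under powers prime to `l` -/
structure HypM (l : ℕ) (G : Type) [Group G] (M : Set G) : Prop where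
  fin : Finite G
  nil : Group.IsNilpotent G
  prm : l.Prime
  ne : M.Nonempty
  one : (1 : G) ∉ M
  conj : ∀ g, ∀ m ∈ M, g * m * g⁻¹ ∈ M
  pow : ∀ m ∈ M, ∀ j : ℕ, ¬ l ∣ j → m ^ j ∈ M
  ord : ∀ m ∈ M, m ^ l = 1
  z2 : ∀ m ∈ M, m ∈ Subgroup.upperCentralSeries G 2

/-- the conjugacy classes in `M` -/
abbrev Mcl {G : Type} [Group G] (M : Set G) : Type :=
  {c : ConjClasses G // ∃ g : G, ConjClasses.mk g = c ∧ g ∈ M}

/-- trivial or in `M` -/
def OkM {G : Type} [Group G] (M : Set G) (g : G) : Prop := g = 1 ∨ g ∈ M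

section

variable {k : Type} [Field k] [NumberField k] {G : Type} [Group G] (M : Set G)

/-- congruent modulo the subgroup generated by `M` -/
def Cg5 (ρ ρ' : Gm k →* G) : Prop := ∀ σ, ρ σ * (ρ' σ)⁻¹ ∈ Subgroup.closure M

variable (T : TM k)

/-- the homomorphisms congruent to `ρ0` with condition `Q`, inertia trivial or in `M` outside `S`
and bounded ramification -/
def HI5 (ρ0 : Gm k →* G) (Q : (Gm k →* G) → Prop) (S : Finset (HeightOneSpectrum (𝓞 k)))
    (Y : ℝ) : Set (Gm k →* G) :=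
  {ρ | ρ ∈ Hk k G ∧ Cg5 M ρ ρ0 ∧ Q ρ ∧ (∀ P, P ∉ S → OkM M (ρ (T.tau P))) ∧
    (nO T S ρ : ℝ) ≤ Y}

/-- the inner statement for fixed data -/
def InnF5 (b : ℕ) : Prop := ∀ ρ0 : Gm k →* G, IsLocallyConstant ρ0 →
  ∀ S : Finset (HeightOneSpectrum (𝓞 k)), Ctn S (Nat.card G) → ∀ Q : (Gm k →* G) → Prop,
  HLo S Q → ∃ L : ℝ, 0 ≤ L ∧ Tendsto (fun Y : ℝ => ((HI5 M T ρ0 Q S Y).ncard : ℝ) /
    (Y * Real.log Y ^ (b - 1))) atTop (𝓝 L) ∧ ((∃ Y, (HI5 M T ρ0 Q S Y).Nonempty) → 0 < L)

open Classical in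
/-- the uniform inner statement -/
def InnU5 (b : ℕ) : Prop := ∃ S : Finset (HeightOneSpectrum (𝓞 k)), Ctn S (Nat.card G) ∧
  ∀ ε : ℝ, 0 < ε → ∃ C : ℝ, 0 ≤ C ∧ ∀ R : Finset (HeightOneSpectrum (𝓞 k)), Disjoint R S →
  ∀ ρ0 : Gm k →* G, IsLocallyConstant ρ0 → ∀ (u : HeightOneSpectrum (𝓞 k) → G) (Y : ℝ), 2 ≤ Y →
    ({ρ : Gm k →* G | ρ ∈ Hk k G ∧ Cg5 M ρ ρ0 ∧ (∀ P ∈ R, ρ (T.tau P) = u P) ∧
      (∀ P, P ∉ S → P ∉ R → OkM M (ρ (T.tau P))) ∧ (nO T (S ∪ R) ρ : ℝ) ≤ Y}.ncard : ℝ) ≤
      C * ((∏ P ∈ R, nrm P : ℕ) : ℝ) ^ ε * (Y * Real.log Y ^ (b - 1))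

end

/-- the two inner statements for the prime `l`; `b` is the number of classes up to the cyclotomic
action -/
def Inn5 (l : ℕ) : Prop := ∀ (k : Type) [Field k] [NumberField k] (T : TM k) (G : Type)
  [Group G] (M : Set G) (b : ℕ), HypM l G M → b * Nat.card (cyc k l) = Nat.card (Mcl M) →
  InnF5 M T b ∧ InnU5 M T b

/-! ### the action on the cosets of a subgroup -/

section

variable {G : Type} [Group G] (H : Subgroup G)

/-- the least index of an element different from `1` on the cosets of `H` -/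
noncomputable def mi : ℕ := sInf {j | ∃ g : G, g ≠ 1 ∧ hind H g = j}

/-- the elements of least index -/
def Mn : Set G := {g | g ≠ 1 ∧ hind H g = mi H}

/-- `G` is a finite nilpotent group, `H` a proper subgroup with trivial core, the elements of
least index lie in the second center -/
structure Hyp5 : Prop where
  fin : Finite G
  nil : Group.IsNilpotent G
  core : H.normalCore = ⊥
  ne : H ≠ ⊤
  z2 : ∀ g ∈ Mn H, g ∈ Subgroup.upperCentralSeries G 2

end

section

variable {k : Type} [Field k] [NumberField k] {G : Type} [Group G] (H : Subgroup G)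

/-- the norm of the relative discriminant of the field fixed by the preimage of `H` -/
noncomputable def dH (ρ : Gm k →* G) : ℕ := rdN (fld k (H.comap ρ))

/-- the part of the discriminant at the primes of `S` -/
noncomputable def qH (S : Finset (HeightOneSpectrum (𝓞 k))) (ρ : Gm k →* G) : ℕ :=
  ∏ P ∈ S, nrm P ^ rexp P (fld k (H.comap ρ))

variable (T : TM k)

/-- the primes outside `S` with inertia neither trivial nor of least index -/
def Rw5 (S : Finset (HeightOneSpectrum (𝓞 k))) (ρ : Gm k →* G) :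
    Set (HeightOneSpectrum (𝓞 k)) := {P | P ∉ S ∧ ¬ OkM (Mn H) (ρ (T.tau P))}

/-- the homomorphisms with given `Rw5` and bounded discriminant -/
def AR5 (S R : Finset (HeightOneSpectrum (𝓞 k))) (X : ℝ) : Set (Gm k →* G) :=
  {ρ | ρ ∈ Hk k G ∧ Rw5 H T S ρ = (R : Set (HeightOneSpectrum (𝓞 k))) ∧ (dH H ρ : ℝ) ≤ X}

end

/-- the growth of the counting function -/
noncomputable def gr5 (m b : ℕ) (X : ℝ) : ℝ := X ^ (1 / (m : ℝ)) * Real.log X ^ (b - 1)

/-- the asymptotic formula for the homomorphisms, or there are none -/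
def Asy5 (k : Type) [Field k] [NumberField k] {G : Type} [Group G] (H : Subgroup G) (b : ℕ) :
    Prop :=
  Hk k G = ∅ ∨ ∃ L : ℝ, 0 < L ∧ Tendsto (fun X : ℝ =>
    ({ρ : Gm k →* G | ρ ∈ Hk k G ∧ (dH H ρ : ℝ) ≤ X}.ncard : ℝ) / gr5 (mi H) b X) atTop (𝓝 L)

end Pool.Agent.TF
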