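import Pool.Agent.TF.Stm
import Pool.Agent.H92.EL.DHer
import Pool.Agent.H98.MF.D.CmpDec
import Pool.Agent.H98.ML.LhTauA
import Pool.Agent.H98.ML.Hind
import Pool.Agent.H67.MU.Exp

/-!
# Project T5 (MP_a3214d), rows F2 to F6: discriminants for a general permutation representation
-/

set_option autoImplicit false

open scoped BigOperators Pointwise Topology
open NumberField IsDedekindDomain Filter

namespace Pool.Agent.TF

open Pool.Agent.H98.MF (Om Gm ord Dec top nrm fld rdN rexp rex rdN_eq rexp_finite rdN_natAbs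
  rexp_dec rexp_eq nf_of_fd fldK_finite fldK_finrank fldK_nf)
open Pool.Agent.H98.ML (norb hind m3_norb hind_pos)
open Pool.Agent.H92.EL (TM TmU Hk Ctn HLo nO cyc d6h_nrm_pos d6h_groups d6h_fib)
open Pool.Agent.H67.MU (vexp vexp_le mu3_not_mem relDisc)

section

variable {k : Type} [Field k] [NumberField k] {G : Type} [Group G]

omit [NumberField k] in
/-- the kernel is open -/
private theorem f2_open {ρ : Gm k →* G} (h : IsLocallyConstant ρ) :
    IsOpen (ρ.ker : Set (Gm k)) := h.isOpen_fiber 1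

omit [NumberField k] in
/-- the preimage of a subgroup is open -/
private theorem f2_open_comap {ρ : Gm k →* G} (h : IsLocallyConstant ρ) (H : Subgroup G) :
    IsOpen (H.comap ρ : Set (Gm k)) := h (H : Set G)

omit [NumberField k] in
private theorem f2_index {ρ : Gm k →* G} (hs : Function.Surjective ρ) (H : Subgroup G) :
    (H.comap ρ).index = H.index := Subgroup.index_comap_of_surjective H hs

omit [NumberField k] in
private theorem f2_index_le [Finite G] {ρ : Gm k →* G} (hs : Function.Surjective ρ)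
    (H : Subgroup G) : (H.comap ρ).index ≤ Nat.card G := by
  rw [f2_index hs]
  exact Nat.le_of_dvd Nat.card_pos H.index_dvd_card

/-- `hind H 1 = 0` -/
private theorem f2_hind_one (H : Subgroup G) : hind H 1 = 0 := by
  have h : norb H 1 = H.index := by
    unfold norb
    symm
    refine Nat.card_congr (Equiv.ofBijective (fun x : G ⧸ H =>
      (Quotient.mk _ x : MulAction.orbitRel.Quotient (Subgroup.zpowers (1 : G)) (G ⧸ H)))
      ⟨?_, Quotient.mk_surjective⟩)
    intro x y hxy
    obtain ⟨⟨z, hz⟩, h2⟩ := Quotient.exact hxy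
    have h3 : z = 1 := by
      rw [Subgroup.zpowers_one_eq_bot] at hz
      exact Subgroup.mem_bot.1 hz
    subst h3
    rw [← h2]
    exact one_smul G y
  unfold hind
  rw [h, Nat.sub_self]

/-- exponents of open subgroups of bounded index are bounded -/
private theorem f2_bd (P : HeightOneSpectrum (𝓞 k)) (n : ℕ) : ∃ C : ℕ, ∀ U : Subgroup (Gm k),
    IsOpen (U : Set (Gm k)) → U.index ≤ n → rexp P (fld k U) ≤ C := by
  refine ⟨n * (n ^ Module.finrank ℚ k + 1), fun U hU hi => ?_⟩
  have hnf := fldK_nf U hU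
  have hp : P.asIdeal.IsPrime := P.isPrime
  have hf := fldK_finrank U hU
  rw [rexp_eq P (fld k U)]
  have h1 := vexp_le k (fld k U) P.asIdeal P.ne_bot (n ^ Module.finrank ℚ k + 1)
    (Nat.le_add_left 1 _)
    (fun j hj1 hj2 => mu3_not_mem P.asIdeal P.ne_bot n j hj1 (by
      rw [hf] at hj2
      exact le_trans hj2 hi))
  rw [hf] at h1
  exact le_trans h1 (Nat.mul_le_mul_right _ hi)

omit [NumberField k] in
/-- the kernel is the core of the preimage of a subgroup with trivial core -/
private theorem f2_core {ρ : Gm k →* G} (hs : Function.Surjective ρ) (H : Subgroup G)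
    (hc : H.normalCore = ⊥) : ρ.ker = (H.comap ρ).normalCore := by
  apply le_antisymm
  · rw [Subgroup.normal_le_normalCore]
    intro σ hσ
    rw [Subgroup.mem_comap, MonoidHom.mem_ker.1 hσ]
    exact H.one_mem
  · intro σ hσ
    have h1 : ρ σ ∈ H.normalCore := by
      intro b
      obtain ⟨c, rfl⟩ := hs b
      have h2 : c * σ * c⁻¹ ∈ H.comap ρ := hσ c
      rwa [Subgroup.mem_comap, map_mul, map_mul, map_inv] at h2
    rw [hc] at h1
    exact MonoidHom.mem_ker.2 (Subgroup.mem_bot.1 h1)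

end

/-- F2: the exponent at a tame prime -/
theorem sdis5 : SDis5 := by
  intro k _ _ T G _ _ H ρ hρ P hP
  obtain ⟨hs, hl⟩ := hρ
  have hi : ρ.ker.index = Nat.card G := by
    rw [Subgroup.index_ker, MonoidHom.range_eq_top.2 hs, Subgroup.card_top]
  have hU : TmU P ρ.ker := ⟨inferInstance, f2_open hl, by rw [hi]; exact hP⟩
  have hle : ρ.ker ≤ H.comap ρ := by
    intro σ hσ
    rw [Subgroup.mem_comap, MonoidHom.mem_ker.1 hσ]
    exact H.one_mem
  have h1 := (T.tm P).disc ρ.ker hU (H.comap ρ) hle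
  rw [m3_norb ρ hs, f2_index hs] at h1
  unfold hind
  omega

/-- F3: the discriminant -/
theorem sprod5 : SProd5 := by
  classical
  intro k _ _ T G _ _ H hc ρ hρ S hS
  have hfin : {P : HeightOneSpectrum (𝓞 k) | P ∉ S ∧ ρ (T.tau P) ≠ 1}.Finite := by
    refine (rexp_finite (fld k (H.comap ρ))).subset ?_
    rintro P ⟨h1, h2⟩
    show rexp P (fld k (H.comap ρ)) ≠ 0
    rw [sdis5 k T G H ρ hρ P (hS P h1)]
    exact (hind_pos H hc _ h2).ne'
  refine ⟨hfin.toFinset, fun P => by rw [Set.Finite.mem_toFinset]; rfl, ?_⟩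
  have hFD : FiniteDimensional k (fld k (H.comap ρ)) :=
    fldK_finite (H.comap ρ) (f2_open_comap hρ.2 H)
  unfold dH qH
  rw [rdN_eq, finprod_eq_prod_of_mulSupport_subset (s := S ∪ hfin.toFinset)]
  · rw [Finset.prod_union]
    · congr 1
      refine Finset.prod_congr rfl fun P hP => ?_
      have h3 : P ∉ S ∧ ρ (T.tau P) ≠ 1 := (Set.Finite.mem_toFinset hfin).1 hP
      rw [sdis5 k T G H ρ hρ P (hS P h3.1)]
      rfl
    · rw [Finset.disjoint_left]
      intro P h1 h2
      have h3 : P ∉ S ∧ ρ (T.tau P) ≠ 1 := (Set.Finite.mem_toFinset hfin).1 h2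
      exact h3.1 h1
  · intro P hP
    rw [Function.mem_mulSupport] at hP
    rw [Finset.mem_coe, Finset.mem_union]
    by_cases h1 : P ∈ S
    · exact Or.inl h1
    · refine Or.inr ((Set.Finite.mem_toFinset hfin).2 ⟨h1, fun h2 => hP ?_⟩)
      rw [sdis5 k T G H ρ hρ P (hS P h1), h2, f2_hind_one, pow_zero]

/-- F4: the exponent is a local function -/
theorem sloc5 : SLoc5 := by
  intro k _ _ G _ _ H ρ ρ' hρ hρ' P h
  exact rexp_dec P H ρ ρ' (f2_open hρ.2) (f2_open hρ'.2) hρ.1 hρ'.1 1
    (fun σ hσ => by rw [h σ hσ, one_mul, inv_one, mul_one])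

/-- F5: finitely many values of the part at `S` -/
theorem sval5 : SVal5 := by
  classical
  intro k _ _ G _ _ H S
  constructor
  · choose C hC using fun P : HeightOneSpectrum (𝓞 k) => f2_bd P (Nat.card G)
    refine Set.Finite.subset (Set.finite_Iic (∏ P ∈ S, nrm P ^ C P)) ?_
    rintro q ⟨ρ, hρ, rfl⟩
    rw [Set.mem_Iic]
    unfold qH
    refine Finset.prod_le_prod' fun P _ => Nat.pow_le_pow_right (d6h_nrm_pos P) ?_
    exact hC P (H.comap ρ) (f2_open_comap hρ.2 H) (f2_index_le hρ.1 H)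
  · intro ρ
    unfold qH
    exact Finset.one_le_prod' fun P _ => Nat.one_le_pow _ _ (d6h_nrm_pos P)

/-- F6: finitely many homomorphisms of bounded discriminant -/
theorem sfin5 : SFin5 := by
  intro k _ _ G _ _ H hc X
  set B : ℕ := (discr k).natAbs ^ Nat.card G * ⌊X⌋₊ with hBd
  have hd1 : 1 ≤ (discr k).natAbs := Int.natAbs_pos.2 (discr_ne_zero k)
  refine Set.Finite.subset (Set.Finite.biUnion (d6h_groups (k := k) B)
    (t := fun U => {ρ : Gm k →* G | ρ ∈ Hk k G ∧ H.comap ρ = U}) ?_) ?_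
  · rintro U ⟨_, _⟩
    by_cases hU : IsOpen (U.normalCore : Set (Gm k))
    · refine (d6h_fib G U.normalCore hU).subset ?_
      rintro ρ ⟨hρ, rfl⟩
      exact f2_core hρ.1 H hc
    · refine Set.Finite.subset Set.finite_empty ?_
      rintro ρ ⟨hρ, rfl⟩
      refine hU ?_
      rw [← f2_core hρ.1 H hc]
      exact f2_open hρ.2
  · rintro ρ ⟨hρ, hX⟩
    have hUo : IsOpen (H.comap ρ : Set (Gm k)) := f2_open_comap hρ.2 H
    have hle : (H.comap ρ).index ≤ Nat.card G := f2_index_le hρ.1 H
    have hfd : FiniteDimensional k (fld k (H.comap ρ)) := fldK_finite _ hUo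
    have hnf : NumberField (fld k (H.comap ρ)) := nf_of_fd _
    have hrd : rdN (fld k (H.comap ρ)) ≤ ⌊X⌋₊ := Nat.le_floor hX
    have hdis : (discr (fld k (H.comap ρ))).natAbs ≤ B := by
      rw [(rdN_natAbs (fld k (H.comap ρ))).2, fldK_finrank _ hUo]
      exact Nat.mul_le_mul (Nat.pow_le_pow_right hd1 hle) hrd
    rw [Set.mem_iUnion₂]
    exact ⟨H.comap ρ, ⟨hUo, hnf, hdis⟩, hρ, rfl⟩

end Pool.Agent.TF
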