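import Pool.Agent.TF.Stm
import Pool.Agent.H92.EL.DbM

/-!
# Project T5 (MP_a3214d), row P3: the number of classes of least index up to the cyclotomic action
-/

set_option autoImplicit false

open scoped BigOperators Pointwise
open NumberField IsDedekindDomain

namespace Pool.Agent.TF

open Pool.Agent.H98.ML (hind)
open Pool.Agent.H92.EL (cyc dbmH dbm_pow dbm_val_mul dbm_val_one)
open Pool.Agent.H32.MA (pind mInd bM MinCl cycRel)

section

variable {l : ℕ} {G : Type} [Group G] {M : Set G}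

theorem p3_mem (hM : HypM l G M) (c : Mcl M) (g : G) (hg : ConjClasses.mk g = c.1) : g ∈ M := by
  obtain ⟨g', hg', hm⟩ := c.2
  rw [← hg'] at hg
  obtain ⟨x, hx⟩ := isConj_iff.1 (ConjClasses.mk_eq_mk_iff_isConj.1 hg.symm)
  rw [← hx]
  exact hM.conj x g' hm

theorem p3_ord (hM : HypM l G M) {g : G} (hg : g ∈ M) : orderOf g = l := by
  have h1 : g ≠ 1 := fun h => hM.one (h ▸ hg)
  have h2 : orderOf g ∣ l := orderOf_dvd_of_pow_eq_one (hM.ord g hg)
  rcases (Nat.dvd_prime hM.prm).1 h2 with h3 | h3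
  · exact absurd (orderOf_eq_one_iff.1 h3) h1
  · exact h3

theorem p3_pow (hM : HypM l G M) {g : G} (hg : g ∈ M) (u : (ZMod l)ˣ) :
    g ^ (u : ZMod l).val ∈ M := by
  refine hM.pow g hg _ fun hd => ?_
  have h1 := ZMod.val_coe_unit_coprime u
  have h2 : l ∣ 1 := by
    have h3 := Nat.dvd_gcd hd (dvd_refl l)
    rwa [h1] at h3
  exact hM.prm.one_lt.ne' (Nat.dvd_one.1 h2)

/-- the action on the classes -/
noncomputable def p3Act (hM : HypM l G M) (u : (ZMod l)ˣ) (c : Mcl M) : Mcl M :=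
  ⟨@Quotient.map G G (IsConj.setoid G) (IsConj.setoid G) (fun g => g ^ (u : ZMod l).val)
    (fun _ _ h => IsConj.pow _ h) c.1, by
    obtain ⟨g, hg, hm⟩ := c.2
    refine ⟨g ^ (u : ZMod l).val, ?_, p3_pow hM hm u⟩
    rw [← hg]
    rfl⟩

theorem p3Act_mk (hM : HypM l G M) (u : (ZMod l)ˣ) (c : Mcl M) (g : G)
    (hg : ConjClasses.mk g = c.1) :
    (p3Act hM u c).1 = ConjClasses.mk (g ^ (u : ZMod l).val) := by
  obtain ⟨c0, hc0⟩ := c
  have hg' : ConjClasses.mk g = c0 := hg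
  subst hg'
  rfl

/-- the action of the group -/
@[reducible] noncomputable def p3MA (k : Type) [Field k] (hl : l.Prime) (hM : HypM l G M) :
    MulAction (dbmH k hl) (Mcl M) where
  smul u c := p3Act hM u.1 c
  one_smul c := by
    obtain ⟨g, hg, hm⟩ := c.2
    apply Subtype.ext
    show (p3Act hM 1 c).1 = c.1
    rw [p3Act_mk hM 1 c g hg, dbm_val_one hl, pow_one, hg]
  mul_smul u v c := by
    obtain ⟨g, hg, hm⟩ := c.2
    apply Subtype.ext
    show (p3Act hM (u.1 * v.1) c).1 = (p3Act hM u.1 (p3Act hM v.1 c)).1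
    have hgl : g ^ l = 1 := hM.ord g hm
    rw [p3Act_mk hM (u.1 * v.1) c g hg,
      p3Act_mk hM u.1 (p3Act hM v.1 c) (g ^ (v.1 : ZMod l).val) (p3Act_mk hM v.1 c g hg).symm,
      ← pow_mul, dbm_pow hgl (dbm_val_mul u.1 v.1), mul_comm]

/-- the action is free -/
theorem p3_free (hM : HypM l G M) (u : (ZMod l)ˣ) (c : Mcl M) (h : p3Act hM u c = c) :
    u = 1 := by
  have hl := hM.prm
  obtain ⟨g, hg, hm⟩ := c.2
  have ho := p3_ord hM hm
  have hgl : g ^ l = 1 := hM.ord g hm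
  have h1 := congrArg Subtype.val h
  rw [p3Act_mk hM u c g hg, ← hg] at h1
  obtain ⟨x, hx⟩ := isConj_iff.1 (ConjClasses.mk_eq_mk_iff_isConj.1 h1.symm)
  have hcop := ZMod.val_coe_unit_coprime u
  have : NeZero l := ⟨hl.ne_zero⟩
  have hlt : (u : ZMod l).val < l := ZMod.val_lt _
  have hpos : 0 < (u : ZMod l).val := by
    rcases Nat.eq_zero_or_pos (u : ZMod l).val with h0 | h0
    · rw [h0, Nat.coprime_zero_left] at hcop
      exact absurd hcop hl.one_lt.ne'
    · exact h0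
  -- the commutator is central
  have h2 : g ∈ Subgroup.upperCentralSeries G (1 + 1) := hM.z2 g hm
  have h3 : g * x⁻¹ * g⁻¹ * x ∈ Subgroup.center G := by
    have h4 := Subgroup.mem_upperCentralSeries_succ_iff.1 h2 x⁻¹
    rw [Subgroup.upperCentralSeries_one] at h4
    have h5 : g * x⁻¹ * g⁻¹ * x⁻¹⁻¹ ∈ Subgroup.center G := h4
    rwa [inv_inv] at h5
  have hval : (u : ZMod l).val = 1 := by
    by_contra hne
    -- a power of `g` with exponent prime to `l` is central
    have h4 : g ^ ((u : ZMod l).val - 1) ∈ Subgroup.center G := by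
      have h5 : g ^ ((u : ZMod l).val - 1) * g = g ^ (u : ZMod l).val := by
        rw [← pow_succ]
        congr 1
        omega
      have h6 : g ^ ((u : ZMod l).val - 1) = x * g * x⁻¹ * g⁻¹ := by
        rw [hx, ← h5, mul_assoc, mul_inv_cancel, mul_one]
      have h7 : x * g * x⁻¹ * g⁻¹ = g * x⁻¹ * g⁻¹ * x := by
        have h8 := Subgroup.mem_center_iff.1 h3 x
        calc x * g * x⁻¹ * g⁻¹ = x * (g * x⁻¹ * g⁻¹ * x) * x⁻¹ := by group
          _ = g * x⁻¹ * g⁻¹ * x * x * x⁻¹ := by rw [h8]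
          _ = g * x⁻¹ * g⁻¹ * x := by group
      rw [h6, h7]
      exact h3
    have h5 : l.Coprime ((u : ZMod l).val - 1) := by
      rw [Nat.Prime.coprime_iff_not_dvd hl]
      intro hd
      have := Nat.le_of_dvd (by omega) hd
      omega
    have h6 : g ∈ Subgroup.center G := by
      obtain ⟨m, hm⟩ : ∃ m : ℕ, (g ^ ((u : ZMod l).val - 1)) ^ m = g :=
        exists_pow_eq_self_of_coprime (by rw [ho]; exact h5.symm)
      rw [← hm]
      exact Subgroup.pow_mem _ h4 m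
    have h7 : g ^ (u : ZMod l).val = g := by
      rw [← hx, Subgroup.mem_center_iff.1 h6 x, mul_assoc, mul_inv_cancel, mul_one]
    have h8 : g ^ ((u : ZMod l).val - 1) = 1 := by
      have h9 : g ^ ((u : ZMod l).val - 1) * g = 1 * g := by
        rw [← pow_succ, one_mul, Nat.sub_add_cancel hpos]
        exact h7
      exact mul_right_cancel h9
    have h9 := orderOf_dvd_of_pow_eq_one h8
    rw [ho] at h9
    have := Nat.le_of_dvd (by omega) h9
    omega
  apply Units.ext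
  apply ZMod.val_injective l
  rw [hval, dbm_val_one hl]

end

/-! ### the relation -/

theorem p3_rel {k : Type} [Field k] [CharZero k] {l N : ℕ} {G : Type} [Group G] {M : Set G}
    (hM : HypM l G M) (hn : Nat.card G = N) (hn1 : 1 < N) (hln : l ∣ N)
    (c c' : ConjClasses G) (hc : ∃ g : G, ConjClasses.mk g = c ∧ g ∈ M) :
    (∃ (σ : AlgebraicClosure k ≃ₐ[k] AlgebraicClosure k) (j : ℕ),
      (∀ ζ : AlgebraicClosure k, ζ ^ Nat.card G = 1 → σ ζ = ζ ^ j) ∧
      ∃ g : G, ConjClasses.mk g = c ∧ ConjClasses.mk (g ^ j) = c') ↔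
    ∃ u ∈ cyc k l, (p3Act hM u (⟨c, hc⟩ : Mcl M)).1 = c' := by
  have hl := hM.prm
  have : NeZero N := ⟨by omega⟩
  have : NeZero l := ⟨hl.ne_zero⟩
  obtain ⟨w, hw⟩ := HasEnoughRootsOfUnity.exists_primitiveRoot (AlgebraicClosure k) l
  constructor
  · rintro ⟨σ, j, hσ, g, hg, hg'⟩
    have hσl : ∀ ζ : AlgebraicClosure k, ζ ^ l = 1 → σ ζ = ζ ^ j := by
      intro ζ hζ
      apply hσ
      rw [hn]
      obtain ⟨m, rfl⟩ := hln
      rw [pow_mul, hζ, one_pow]
    have hw2 : IsPrimitiveRoot (w ^ j) l := by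
      rw [← hσl w hw.pow_eq_one]
      exact hw.map_of_injective σ.injective
    have hj : j.Coprime l := (hw.pow_iff_coprime hl.pos j).1 hw2
    refine ⟨ZMod.unitOfCoprime j hj, ⟨σ, fun ζ hζ => ?_⟩, ?_⟩
    · rw [hσl ζ hζ]
      refine dbm_pow hζ ?_
      rw [ZMod.coe_unitOfCoprime, ZMod.val_natCast]
      exact (Nat.mod_modEq _ _).symm
    · rw [p3Act_mk hM _ _ g hg, ← hg']
      have hgl : g ^ l = 1 := hM.ord g (p3_mem hM (⟨c, hc⟩ : Mcl M) g hg)
      have h1 : g ^ ((ZMod.unitOfCoprime j hj : (ZMod l)ˣ) : ZMod l).val = g ^ j := by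
        refine dbm_pow hgl ?_
        rw [ZMod.coe_unitOfCoprime, ZMod.val_natCast]
        exact Nat.mod_modEq _ _
      rw [h1]
  · rintro ⟨u, ⟨σ, hσ⟩, hu⟩
    obtain ⟨ξ, hξ⟩ := HasEnoughRootsOfUnity.exists_primitiveRoot (AlgebraicClosure k) N
    have h1 : (σ ξ) ^ N = 1 := by
      rw [← map_pow, hξ.pow_eq_one, map_one]
    obtain ⟨j, -, hj⟩ := hξ.eq_pow_of_pow_eq_one h1
    have h2 : ∀ ζ : AlgebraicClosure k, ζ ^ N = 1 → σ ζ = ζ ^ j := by
      intro ζ hζ
      obtain ⟨i, -, rfl⟩ := hξ.eq_pow_of_pow_eq_one hζ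
      rw [map_pow, ← hj, ← pow_mul, ← pow_mul, mul_comm]
    have h3 : j ≡ (u : ZMod l).val [MOD l] := by
      have h4 : w ^ j = w ^ (u : ZMod l).val := by
        rw [← hσ w hw.pow_eq_one]
        refine (h2 w ?_).symm
        obtain ⟨m, rfl⟩ := hln
        rw [pow_mul, hw.pow_eq_one, one_pow]
      have h5 : w ^ (j % l) = w ^ ((u : ZMod l).val % l) := by
        rw [← pow_eq_pow_mod j hw.pow_eq_one, ← pow_eq_pow_mod _ hw.pow_eq_one]
        exact h4
      exact hw.pow_inj (Nat.mod_lt _ hl.pos) (Nat.mod_lt _ hl.pos) h5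
    obtain ⟨g, hg, hm⟩ := hc
    refine ⟨σ, j, fun ζ hζ => h2 ζ (by rw [← hn]; exact hζ), g, hg, ?_⟩
    have hgl : g ^ l = 1 := hM.ord g hm
    rw [dbm_pow hgl h3, ← hu]
    exact (p3Act_mk hM u (⟨c, ⟨g, hg, hm⟩⟩ : Mcl M) g hg).symm

/-- P3: the number of classes of least index up to the cyclotomic action -/
theorem sbM5 (h : SPrm5) : SbM5 := by
  intro k _ _ n G hG hn1 i0 l hM
  have hl : l.Prime := hM.prm
  have hfin : Finite G := hM.fin
  obtain ⟨-, -, hp, hm⟩ := h n G hG hn1 i0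
  obtain ⟨g0, hg0⟩ := hM.ne
  have hln : l ∣ Nat.card G := by
    rw [← p3_ord hM hg0]
    exact orderOf_dvd_natCard g0
  have hN1 : 1 < Nat.card G := lt_of_lt_of_le hl.one_lt (Nat.le_of_dvd Nat.card_pos hln)
  -- the classes of least index
  have key : ∀ g : G, (g ≠ 1 ∧ pind (g : Equiv.Perm (Fin n)) = mInd G) ↔
      g ∈ Mn (MulAction.stabilizer G i0) := by
    intro g
    have h1 : g ∈ Mn (MulAction.stabilizer G i0) ↔ g ≠ 1 ∧
      hind (MulAction.stabilizer G i0) g = mi (MulAction.stabilizer G i0) := Iff.rfl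
    rw [h1, hp g, hm]
  let e : MinCl G ≃ Mcl (Mn (MulAction.stabilizer G i0)) := Equiv.subtypeEquivRight fun c => by
    constructor
    · rintro ⟨g, h1, h2, h3⟩
      exact ⟨g, h1, (key g).1 ⟨h2, h3⟩⟩
    · rintro ⟨g, h1, h2⟩
      exact ⟨g, h1, ((key g).2 h2).1, ((key g).2 h2).2⟩
  let _ : MulAction (dbmH k hl) (Mcl (Mn (MulAction.stabilizer G i0))) := p3MA k hl hM
  have hfree : ∀ c : Mcl (Mn (MulAction.stabilizer G i0)),
      MulAction.stabilizer (dbmH k hl) c = ⊥ := by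
    intro c
    rw [eq_bot_iff]
    intro u hu
    rw [Subgroup.mem_bot]
    apply Subtype.ext
    exact p3_free hM u.1 c hu
  have e1 := MulAction.selfEquivOrbitsQuotientProd hfree
  have e2 : Quot (cycRel k G) ≃ Quotient (MulAction.orbitRel (dbmH k hl)
      (Mcl (Mn (MulAction.stabilizer G i0)))) := by
    refine Quot.congr e fun c c' => ?_
    have h1 := p3_rel (k := k) hM rfl hN1 hln c.1 c'.1 (e c).2
    have h2 : cycRel k G c c' ↔ ∃ u ∈ cyc k l,
        (p3Act hM u (⟨c.1, (e c).2⟩ : Mcl (Mn (MulAction.stabilizer G i0)))).1 = c'.1 := h1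
    rw [h2]
    show _ ↔ (MulAction.orbitRel (dbmH k hl) (Mcl (Mn (MulAction.stabilizer G i0)))) (e c) (e c')
    rw [Setoid.comm', MulAction.orbitRel_apply]
    constructor
    · rintro ⟨u, hu, hcc⟩
      exact ⟨⟨u, hu⟩, Subtype.ext hcc⟩
    · rintro ⟨u, hu⟩
      exact ⟨u.1, u.2, congrArg Subtype.val hu⟩
  have h3 : Nat.card (Mcl (Mn (MulAction.stabilizer G i0))) =
      Nat.card (Quotient (MulAction.orbitRel (dbmH k hl)
        (Mcl (Mn (MulAction.stabilizer G i0))))) * Nat.card (dbmH k hl) := by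
    rw [← Nat.card_prod]
    exact Nat.card_congr e1
  rw [h3]
  congr 1
  exact Nat.card_congr e2

end Pool.Agent.TF
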