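import Pool.Agent.TF.Stm
import Pool.Agent.H92.EL.DTm
import Pool.Agent.H92.EL.DGen
import Pool.Agent.H92.EL.DOrb

/-!
# Project T5 (MP_a3214d), row P4: from homomorphisms to fields, the theorem for permutation
groups
-/

set_option autoImplicit false

open scoped BigOperators Pointwise Topology
open NumberField IsDedekindDomain Filter

namespace Pool.Agent.TF

open Pool.Agent.H98.MF (Om Gm ord Dec top nrm fld rdN rexp rex)
open Pool.Agent.H98.ML (norb hind)
open Pool.Agent.H92.EL (TM Hk Ctn HLo nO cyc)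
open Pool.Agent.H32.MA (pind mInd bM)
open Pool.Agent.H32.MZ (NK MalleK)

/-- P4: from homomorphisms to fields -/
theorem send5 (h1 : SPrm5) (h2 : SFld5) : SEnd5 := by
  intro k _ _ n G ht hn i0 b hb hA
  obtain ⟨κ, hκ, hN⟩ := h2 n G ht i0
  have hmi := (h1 n G ht hn i0).2.2.2
  rcases hA with h | ⟨L, hL, hlim⟩
  · left
    intro X
    have h3 := hN k X
    have h4 : {ρ : Gm k →* G | ρ ∈ Hk k G ∧
        (dH (MulAction.stabilizer G i0) ρ : ℝ) ≤ X} = ∅ := by
      ext ρ
      constructor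
      · rintro ⟨h5, -⟩
        rw [h] at h5
        exact h5
      · intro h5
        exact absurd h5 (Set.notMem_empty _)
    rw [h4, Set.ncard_empty, Nat.cast_zero, mul_zero] at h3
    exact_mod_cast h3
  · right
    refine ⟨κ * L, mul_pos hκ hL, ?_⟩
    rw [hmi, hb] at hlim
    have h4 := hlim.const_mul κ
    refine h4.congr fun X => ?_
    rw [hN k X, gr5, mul_div_assoc]

/-- the theorem for permutation groups from the pieces -/
theorem smain5 (h1 : SGrp5) (h2 : SPrm5) (h3 : SFld5) (h4 : SbM5) (h5 : ZAsy5)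
    (hI : ∀ l : ℕ, l.Prime → Inn5 l) : SMain5 := by
  intro k _ _ n G ht hn hnil hz
  have hn0 : 0 < n := by omega
  let i0 : Fin n := ⟨0, hn0⟩
  obtain ⟨hc, hne, hind', hmi⟩ := h2 n G ht hn i0
  have hH : Hyp5 (MulAction.stabilizer G i0) := by
    refine ⟨inferInstance, hnil, hc, hne, ?_⟩
    rintro g ⟨hg1, hg2⟩
    refine hz g hg1 ?_
    rw [← hind' g, hg2, hmi]
  obtain ⟨-, ⟨l, hM⟩, -⟩ := h1 G (MulAction.stabilizer G i0) hH
  have hb := h4 k n G ht hn i0 l hM
  obtain ⟨T⟩ := Pool.Agent.H92.EL.stm Pool.Agent.H92.EL.sgenT Pool.Agent.H92.EL.sorbT k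
  obtain ⟨hF, hU⟩ := hI l hM.prm k T G (Mn (MulAction.stabilizer G i0)) (bM k G) hM hb
  exact send5 h2 h3 k n G ht hn i0 (bM k G) rfl
    (h5 k T G (MulAction.stabilizer G i0) (bM k G) hH hF hU)

end Pool.Agent.TF
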