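import Pool.Agent.TF.Stm
import Pool.Agent.H92.EL.TStm
import Pool.Agent.H98.ML.NorbBurnside

/-!
# Project T5 (MP_a3214d): the case of a central element of least index
-/

set_option autoImplicit false

open scoped BigOperators Pointwise Topology
open NumberField IsDedekindDomain Filter

namespace Pool.Agent.TF

open Pool.Agent.H98.MF (Om Gm ord Dec top nrm fld rdN rexp rex)
open Pool.Agent.H98.ML (norb hind norb_burnside)
open Pool.Agent.H92.EL (TM Hk Ctn HLo nO cyc Hyp Zt Ncl Om1 Cg HI InnF InnU Inn)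

/-- P5: if an element of least index is central then the elements of least index are the elements
whose order is the least prime divisor of the order of the group -/
def SCen5 : Prop := ∀ (G : Type) [Group G] (H : Subgroup G), Hyp5 H →
  (∃ z ∈ Mn H, z ∈ Subgroup.center G) → ∀ l : ℕ, HypM l G (Mn H) →
    Hyp l G ∧ Zt l G ∧ ∀ g : G, g ∈ Mn H ↔ (g ^ l = 1 ∧ g ≠ 1)

/-- the orbits of an element of order `q` have at most `q` elements -/
theorem p5_ge {G : Type} [Group G] [Finite G] (H : Subgroup G) (g : G) :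
    H.index ≤ norb H g * orderOf g := by
  classical
  have _ : Fintype G := Fintype.ofFinite G
  have h1 := norb_burnside H g
  rw [Nat.card_zpowers] at h1
  have h2 : Nat.card G ≤ ∑ x : G, Nat.card
      (Subgroup.zpowers g ⊓ H.comap (MulAut.conj x).toMonoidHom : Subgroup G) := by
    rw [Nat.card_eq_fintype_card, ← Finset.card_univ, Finset.card_eq_sum_ones]
    exact Finset.sum_le_sum fun x _ => Nat.card_pos
  rw [← h1, ← Subgroup.card_mul_index H] at h2
  have h3 : Nat.card H * H.index ≤ Nat.card H * (norb H g * orderOf g) := by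
    calc Nat.card H * H.index ≤ norb H g * Nat.card H * orderOf g := h2
      _ = Nat.card H * (norb H g * orderOf g) := by ring
  exact Nat.le_of_mul_le_mul_left h3 Nat.card_pos

/-- the orbits of a central element -/
theorem p5_eq {G : Type} [Group G] [Finite G] (H : Subgroup G) (hc : H.normalCore = ⊥) (z : G)
    (hz : z ∈ Subgroup.center G) : norb H z * orderOf z = H.index := by
  classical
  have _ : Fintype G := Fintype.ofFinite G
  have h1 := norb_burnside H z
  rw [Nat.card_zpowers] at h1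
  have h2 : ∑ x : G, Nat.card
      (Subgroup.zpowers z ⊓ H.comap (MulAut.conj x).toMonoidHom : Subgroup G) = Nat.card G := by
    rw [Nat.card_eq_fintype_card, ← Finset.card_univ, Finset.card_eq_sum_ones]
    refine Finset.sum_congr rfl fun x _ => ?_
    have h3 : (Subgroup.zpowers z ⊓ H.comap (MulAut.conj x).toMonoidHom : Subgroup G) = ⊥ := by
      rw [eq_bot_iff]
      rintro y ⟨hy1, hy2⟩
      have hyc : y ∈ Subgroup.center G := (Subgroup.zpowers_le.2 hz) hy1
      have hyH : y ∈ H := by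
        have h4 : x * y * x⁻¹ ∈ H := hy2
        have h5 : x * y * x⁻¹ = y := by
          rw [Subgroup.mem_center_iff.1 hyc x, mul_assoc, mul_inv_cancel, mul_one]
        rwa [h5] at h4
      have h6 : y ∈ H.normalCore := by
        intro b
        have h5 : b * y * b⁻¹ = y := by
          rw [Subgroup.mem_center_iff.1 hyc b, mul_assoc, mul_inv_cancel, mul_one]
        rw [h5]
        exact hyH
      rw [hc] at h6
      exact h6
    rw [h3, Subgroup.card_bot]
  rw [h2, ← Subgroup.card_mul_index H] at h1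
  have h3 : Nat.card H * (norb H z * orderOf z) = Nat.card H * H.index := by
    rw [← h1]
    ring
  exact Nat.eq_of_mul_eq_mul_left Nat.card_pos h3

theorem p5_mi {G : Type} [Group G] (H : Subgroup G) {g : G} (hg : g ≠ 1) :
    mi H ≤ hind H g := Nat.sInf_le ⟨g, hg, rfl⟩

theorem scen5 : SCen5 := by
  intro G _ H hyp hz l hM
  obtain ⟨z, hzM, hzc⟩ := hz
  have hfin := hyp.fin
  have hlp : Fact l.Prime := ⟨hM.prm⟩
  have hz1 : z ≠ 1 := hzM.1
  have hoz : orderOf z = l := orderOf_eq_prime (hM.ord z hzM) hz1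
  have h1 := p5_eq H hyp.core z hzc
  rw [hoz] at h1
  have hpos : 0 < H.index := Nat.pos_of_ne_zero Subgroup.index_ne_zero_of_finite
  have hn0 : 0 < norb H z := by
    rcases Nat.eq_zero_or_pos (norb H z) with h | h
    · rw [h, zero_mul] at h1
      omega
    · exact h
  have hlt : norb H z < H.index := by
    rw [← h1]
    exact lt_mul_of_one_lt_right hn0 hM.prm.one_lt
  -- elements of prime order
  have key : ∀ (g : G) (q : ℕ), g ≠ 1 → orderOf g = q →
      norb H g ≤ norb H z ∧ H.index ≤ norb H g * q := by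
    intro g q hg hq
    have h2 := p5_ge H g
    rw [hq] at h2
    have h3 := p5_mi H hg
    have h4 : mi H = hind H z := hzM.2.symm
    rw [h4] at h3
    unfold hind at h3
    refine ⟨by omega, h2⟩
  have hle : ∀ (g : G) (q : ℕ), g ≠ 1 → orderOf g = q → l ≤ q := by
    intro g q hg hq
    obtain ⟨h2, h3⟩ := key g q hg hq
    have h4 : norb H z * l ≤ norb H z * q := by
      rw [h1]
      exact h3.trans (Nat.mul_le_mul_right q h2)
    exact Nat.le_of_mul_le_mul_left h4 hn0
  refine ⟨⟨hyp.fin, hyp.nil, hM.prm, ?_, ?_⟩, ?_, ?_⟩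
  · rw [← hoz]
    exact orderOf_dvd_natCard z
  · intro p hp hd
    have : Fact p.Prime := ⟨hp⟩
    have _ : Fintype G := Fintype.ofFinite G
    rw [Nat.card_eq_fintype_card] at hd
    obtain ⟨g, hg⟩ := exists_prime_orderOf_dvd_card p hd
    refine hle g p ?_ hg
    rintro rfl
    rw [orderOf_one] at hg
    exact hp.one_lt.ne hg
  · intro g hg
    rcases eq_or_ne g 1 with rfl | h2
    · exact Subgroup.one_mem _
    · refine hyp.z2 g ⟨h2, ?_⟩
      obtain ⟨h3, h4⟩ := key g l h2 (orderOf_eq_prime hg h2)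
      have h5 : norb H z ≤ norb H g := by
        have h8 : l * norb H z ≤ l * norb H g := by
          rw [mul_comm l, mul_comm l, h1]
          exact h4
        exact Nat.le_of_mul_le_mul_left h8 hM.prm.pos
      have h6 : norb H g = norb H z := le_antisymm h3 h5
      have h7 : mi H = hind H z := hzM.2.symm
      rw [h7]
      unfold hind
      rw [h6]
  · intro g
    constructor
    · intro hg
      exact ⟨hM.ord g hg, hg.1⟩
    · rintro ⟨hg, h2⟩
      refine ⟨h2, ?_⟩
      obtain ⟨h3, h4⟩ := key g l h2 (orderOf_eq_prime hg h2)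
      have h5 : norb H z ≤ norb H g := by
        have h8 : l * norb H z ≤ l * norb H g := by
          rw [mul_comm l, mul_comm l, h1]
          exact h4
        exact Nat.le_of_mul_le_mul_left h8 hM.prm.pos
      have h6 : norb H g = norb H z := le_antisymm h3 h5
      have h7 : mi H = hind H z := hzM.2.symm
      rw [h7]
      unfold hind
      rw [h6]

/-! ### the inner statements -/

section

variable {l : ℕ} {G : Type} [Group G] {M : Set G}

theorem p5_cl (hM : ∀ g : G, g ∈ M ↔ (g ^ l = 1 ∧ g ≠ 1)) :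
    Subgroup.closure M = Om1 l G := by
  unfold Om1
  apply le_antisymm
  · rw [Subgroup.closure_le]
    intro g hg
    exact Subgroup.subset_closure ((hM g).1 hg).1
  · rw [Subgroup.closure_le]
    intro g hg
    have hg' : g ^ l = 1 := hg
    rcases eq_or_ne g 1 with rfl | h2
    · exact Subgroup.one_mem _
    · exact Subgroup.subset_closure ((hM g).2 ⟨hg', h2⟩)

theorem p5_ok (hM : ∀ g : G, g ∈ M ↔ (g ^ l = 1 ∧ g ≠ 1)) (g : G) : OkM M g ↔ g ^ l = 1 := by
  unfold OkM
  rw [hM g]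
  constructor
  · rintro (h | h)
    · rw [h, one_pow]
    · exact h.1
  · intro h
    by_cases h2 : g = 1
    · exact Or.inl h2
    · exact Or.inr ⟨h, h2⟩

variable {k : Type} [Field k] [NumberField k] (T : TM k)

theorem p5_cg (hM : ∀ g : G, g ∈ M ↔ (g ^ l = 1 ∧ g ≠ 1)) (ρ ρ' : Gm k →* G) :
    Cg5 M ρ ρ' ↔ Cg l ρ ρ' := by
  unfold Cg5 Cg
  rw [p5_cl hM]

theorem p5_innF (hM : ∀ g : G, g ∈ M ↔ (g ^ l = 1 ∧ g ≠ 1)) {b : ℕ}
    (h : InnF T G l b) : InnF5 M T b := by
  intro ρ0 h0 S hS Q hQ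
  have h1 := h ρ0 h0 S hS Q hQ
  have h2 : ∀ Y, HI5 M T ρ0 Q S Y = HI T l ρ0 Q S Y := by
    intro Y
    ext ρ
    unfold HI5 HI
    rw [Set.mem_ofPred_eq, Set.mem_ofPred_eq, p5_cg hM]
    simp only [p5_ok hM]
  simp only [h2]
  exact h1

theorem p5_innU (hM : ∀ g : G, g ∈ M ↔ (g ^ l = 1 ∧ g ≠ 1)) {b : ℕ}
    (h : InnU T G l b) : InnU5 M T b := by
  obtain ⟨S, hS, h1⟩ := h
  refine ⟨S, hS, fun ε hε => ?_⟩
  obtain ⟨C, hC, h2⟩ := h1 ε hε
  refine ⟨C, hC, fun R hR ρ0 h0 u Y hY => ?_⟩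
  have h3 := h2 R hR ρ0 h0 u Y hY
  simp only [p5_cg hM, p5_ok hM]
  exact h3

theorem p5_card (hl : l.Prime) (hM : ∀ g : G, g ∈ M ↔ (g ^ l = 1 ∧ g ≠ 1)) :
    Nat.card (Mcl M) = Nat.card (Ncl l G) := by
  have _ : Fact l.Prime := ⟨hl⟩
  refine Nat.card_congr (Equiv.subtypeEquivRight fun c => exists_congr fun g => ?_)
  rw [hM g]
  refine and_congr_right fun _ => ?_
  constructor
  · rintro ⟨h1, h2⟩
    exact orderOf_eq_prime h1 h2
  · intro h
    refine ⟨by rw [← h]; exact pow_orderOf_eq_one g, ?_⟩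
    rintro rfl
    rw [orderOf_one] at h
    exact hl.one_lt.ne h

end

/-- the asymptotic formula for homomorphisms, central case -/
theorem asy_cen (h1 : SGrp5) (h2 : ZAsy5) (hI : ∀ l : ℕ, l.Prime → Inn l) {k : Type} [Field k]
    [NumberField k] (T : TM k) {G : Type} [Group G] (H : Subgroup G) (hyp : Hyp5 H)
    (hz : ∃ z ∈ Mn H, z ∈ Subgroup.center G) (b : ℕ)
    (hb : ∀ l : ℕ, HypM l G (Mn H) → b * Nat.card (cyc k l) = Nat.card (Mcl (Mn H))) :
    Asy5 k H b := by
  obtain ⟨-, ⟨l, hM⟩, -⟩ := h1 G H hyp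
  obtain ⟨hH, hZ, hg⟩ := scen5 G H hyp hz l hM
  have h3 := hb l hM
  rw [p5_card hM.prm hg] at h3
  obtain ⟨h4, h5⟩ := hI l hM.prm k T G b hH hZ h3
  exact h2 k T G H b hyp (p5_innF T hg h4) (p5_innU T hg h5)

/-- the theorem for permutation groups, one of the elements of least index is central -/
def SMain6 : Prop := ∀ (k : Type) [Field k] [NumberField k] (n : ℕ)
  (G : Subgroup (Equiv.Perm (Fin n))), MulAction.IsPretransitive G (Fin n) → 1 < n →
  Group.IsNilpotent G →
  (∀ g : G, g ≠ 1 → Pool.Agent.H32.MA.pind (g : Equiv.Perm (Fin n)) =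
    Pool.Agent.H32.MA.mInd G → g ∈ Subgroup.upperCentralSeries G 2) →
  (∃ z : G, z ∈ Subgroup.center G ∧ z ≠ 1 ∧
    Pool.Agent.H32.MA.pind (z : Equiv.Perm (Fin n)) = Pool.Agent.H32.MA.mInd G) →
    (∀ X, Pool.Agent.H32.MZ.NK k G X = 0) ∨ Pool.Agent.H32.MZ.MalleK k G

theorem smain6 (h1 : SGrp5) (h2 : SPrm5) (h4 : SbM5) (h5 : ZAsy5) (h6 : SEnd5)
    (hT : Pool.Agent.H92.EL.STm) (hI : ∀ l : ℕ, l.Prime → Inn l) : SMain6 := by
  intro k _ _ n G ht hn hnil hz2 hz
  obtain ⟨T⟩ := hT k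
  obtain ⟨hc, hne, hp, hm⟩ := h2 n G ht hn ⟨0, by omega⟩
  obtain ⟨H, hH⟩ : ∃ H, H = MulAction.stabilizer G (⟨0, by omega⟩ : Fin n) := ⟨_, rfl⟩
  have hmem : ∀ g : G, g ∈ Mn H ↔ (g ≠ 1 ∧ Pool.Agent.H32.MA.pind (g : Equiv.Perm (Fin n)) =
      Pool.Agent.H32.MA.mInd G) := by
    intro g
    show (g ≠ 1 ∧ hind H g = mi H) ↔ _
    rw [hH, hp g, hm]
  have hyp : Hyp5 H := ⟨inferInstance, hnil, by rw [hH]; exact hc, by rw [hH]; exact hne,
    fun g hg => hz2 g ((hmem g).1 hg).1 ((hmem g).1 hg).2⟩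
  refine h6 k n G ht hn ⟨0, by omega⟩ _ rfl ?_
  rw [← hH]
  refine asy_cen h1 h5 hI T H hyp ?_ _ ?_
  · obtain ⟨z, hz1, hz3⟩ := hz
    exact ⟨z, (hmem z).2 hz3, hz1⟩
  · intro l hl
    rw [hH] at hl ⊢
    exact h4 k n G ht hn _ l hl

end Pool.Agent.TF
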