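import Pool.Agent.TF.Stm

/-!
# Project T5 (MP_a3214d), assembly: the sum over the ramification data, by dominated convergence
-/

set_option autoImplicit false

open scoped BigOperators Pointwise Topology
open NumberField IsDedekindDomain Filter

namespace Pool.Agent.TF

open Pool.Agent.H98.MF (Om Gm ord Dec top nrm fld rdN rexp rex)
open Pool.Agent.H98.ML (norb hind)
open Pool.Agent.H92.EL (TM Hk Ctn HLo nO cyc SSumR)

theorem zasy5_pos (m b : ℕ) {X : ℝ} (hX : 2 ≤ X) : 0 < gr5 m b X := by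
  unfold gr5
  have h1 : 0 < X := by linarith
  exact mul_pos (Real.rpow_pos_of_pos h1 _) (pow_pos (Real.log_pos (by linarith)) _)

open Classical in
/-- the finite set of the primes of `Rw` -/
noncomputable def zasyR5 {k : Type} [Field k] [NumberField k] {G : Type} [Group G] (H : Subgroup G) (T : TM k)
    (S : Finset (HeightOneSpectrum (𝓞 k))) (ρ : Gm k →* G) :
    Finset (HeightOneSpectrum (𝓞 k)) :=
  if h : (Rw5 H T S ρ).Finite then h.toFinset else ∅

theorem zasyR5_iff {k : Type} [Field k] [NumberField k] {G : Type} [Group G] (H : Subgroup G) (T : TM k)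
    (S : Finset (HeightOneSpectrum (𝓞 k))) (ρ : Gm k →* G) (h : (Rw5 H T S ρ).Finite)
    (R : Finset (HeightOneSpectrum (𝓞 k))) :
    zasyR5 H T S ρ = R ↔ Rw5 H T S ρ = (R : Set (HeightOneSpectrum (𝓞 k))) := by
  unfold zasyR5
  rw [dif_pos h]
  constructor
  · intro h1
    rw [← h1, Set.Finite.coe_toFinset]
  · intro h1
    apply Finset.coe_injective
    rw [Set.Finite.coe_toFinset, h1]

/-- the count as a sum over the sets `Rw` -/
theorem zasy5_tsum {k : Type} [Field k] [NumberField k] {G : Type} [Group G] (H : Subgroup G) (T : TM k)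
    (S : Finset (HeightOneSpectrum (𝓞 k)))
    (hf : ∀ ρ : Gm k →* G, ρ ∈ Hk k G → (Rw5 H T S ρ).Finite) (X g : ℝ)
    (hX : {ρ : Gm k →* G | ρ ∈ Hk k G ∧ (dH H ρ : ℝ) ≤ X}.Finite) :
    ∑' R : Finset (HeightOneSpectrum (𝓞 k)), ((AR5 H T S R X).ncard : ℝ) / g =
      ({ρ : Gm k →* G | ρ ∈ Hk k G ∧ (dH H ρ : ℝ) ≤ X}.ncard : ℝ) / g := by
  classical
  have h1 : ∀ R : Finset (HeightOneSpectrum (𝓞 k)), (AR5 H T S R X).ncard =
      (hX.toFinset.filter (fun ρ => zasyR5 H T S ρ = R)).card := by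
    intro R
    rw [← Set.ncard_coe_finset]
    congr 1
    ext ρ
    rw [Finset.mem_coe, Finset.mem_filter, Set.Finite.mem_toFinset]
    constructor
    · rintro ⟨h2, h3, h4⟩
      exact ⟨⟨h2, h4⟩, (zasyR5_iff H T S ρ (hf ρ h2) R).2 h3⟩
    · rintro ⟨⟨h2, h4⟩, h3⟩
      exact ⟨h2, (zasyR5_iff H T S ρ (hf ρ h2) R).1 h3, h4⟩
  rw [tsum_eq_sum (s := hX.toFinset.image (zasyR5 H T S))]
  · rw [← Finset.sum_div, Set.ncard_eq_toFinset_card _ hX,
      Finset.card_eq_sum_card_image (zasyR5 H T S) hX.toFinset]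
    push_cast
    congr 1
    exact Finset.sum_congr rfl fun R _ => by rw [h1 R]
  · intro R hR
    have h2 : hX.toFinset.filter (fun ρ => zasyR5 H T S ρ = R) = ∅ := by
      rw [Finset.filter_eq_empty_iff]
      intro ρ hρ h3
      exact hR (Finset.mem_image.2 ⟨ρ, hρ, h3⟩)
    rw [h1 R, h2, Finset.card_empty, Nat.cast_zero, zero_div]

theorem zasy5 (h2 : ZDis5) (h3 : ZFix5) (h4 : ZUni5) (h5 : SSumR) : ZAsy5 := by
  intro k _ _ T G _ H b hyp hF hU
  rcases Set.eq_empty_or_nonempty (Hk k G) with hE | hE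
  · exact Or.inl hE
  refine Or.inr ?_
  obtain ⟨S, hS, C, w, hC, hw, hb⟩ := h4 k T G H b hyp hU
  obtain ⟨ha, -, -, hd⟩ := h2 k T G H hyp S hS
  choose L hL0 hLt hLp using fun R => h3 k T G H b hyp hF S hS R
  have hsum := h5 k C w hC hw
  have hbd : ∀ R : Finset (HeightOneSpectrum (𝓞 k)), ∀ X : ℝ, 2 ≤ X →
      ((AR5 H T S R X).ncard : ℝ) / gr5 (mi H) b X ≤
        C ^ (R.card + 1) * ((∏ P ∈ R, nrm P : ℕ) : ℝ) ^ (-w) := by
    intro R X hX
    rw [div_le_iff₀ (zasy5_pos (mi H) b hX)]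
    exact hb R X hX
  have hLle : ∀ R, L R ≤ C ^ (R.card + 1) * ((∏ P ∈ R, nrm P : ℕ) : ℝ) ^ (-w) := fun R =>
    le_of_tendsto (hLt R) ((eventually_ge_atTop 2).mono fun X hX => hbd R X hX)
  have hLs : Summable L := Summable.of_nonneg_of_le hL0 hLle hsum
  obtain ⟨ρ, hρ⟩ := hE
  have hfin := (ha ρ hρ).2.2
  have hR0 := hLp hfin.toFinset ⟨ρ, hρ, (Set.Finite.coe_toFinset hfin).symm⟩
  refine ⟨∑' R, L R, lt_of_lt_of_le hR0 (hLs.le_tsum _ fun R _ => hL0 R), ?_⟩
  have hlim := tendsto_tsum_of_dominated_convergence (𝓕 := atTop)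
    (f := fun (X : ℝ) (R : Finset (HeightOneSpectrum (𝓞 k))) =>
      ((AR5 H T S R X).ncard : ℝ) / gr5 (mi H) b X) hsum hLt
    ((eventually_ge_atTop 2).mono fun X hX R => by
      rw [Real.norm_of_nonneg (div_nonneg (Nat.cast_nonneg _) (zasy5_pos (mi H) b hX).le)]
      exact hbd R X hX)
  refine hlim.congr fun X => ?_
  exact zasy5_tsum H T S (fun ρ hρ => (ha ρ hρ).2.2) X (gr5 (mi H) b X) (hd X)

end Pool.Agent.TF
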