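import Pool.Agent.TF.Stm
import Pool.Agent.H92.EL.DHer

/-!
# Project T5 (MP_a3214d), assembly, row Z2: discriminants by ramified primes, finiteness
-/

set_option autoImplicit false

open scoped BigOperators Pointwise Topology
open NumberField IsDedekindDomain Filter

namespace Pool.Agent.TF

open Pool.Agent.H98.MF (Om Gm ord Dec top nrm fld rdN rexp rex)
open Pool.Agent.H98.ML (norb hind)
open Pool.Agent.H92.EL (TM Hk Ctn HLo nO cyc d6h_nrm_pos)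

section

variable {k : Type} [Field k] [NumberField k] {G : Type} [Group G]

private theorem zd_nO (T : TM k) {S F : Finset (HeightOneSpectrum (𝓞 k))} {ρ : Gm k →* G}
    (hF : ∀ P, P ∈ F ↔ (P ∉ S ∧ ρ (T.tau P) ≠ 1)) : nO T S ρ = ∏ P ∈ F, nrm P := by
  have h : {P : HeightOneSpectrum (𝓞 k) | P ∉ S ∧ ρ (T.tau P) ≠ 1} =
      (F : Set (HeightOneSpectrum (𝓞 k))) := by
    ext P
    exact (hF P).symm
  unfold nO
  rw [h, finprod_mem_coe_finset]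

end

open Classical in
/-- Row Z2: the discriminant in terms of the ramified primes, and finiteness. -/
theorem zdis5 (hG : SGrp5) (hP : SProd5) (hD : SFin5) : ZDis5 := by
  intro k _ _ T G _ H hyp S hS
  have hfin : Finite G := hyp.fin
  obtain ⟨hm0, ⟨l, hM⟩, w, hw, hE3⟩ := hG G H hyp
  obtain ⟨m, hm⟩ : ∃ m : ℕ, m = mi H := ⟨_, rfl⟩
  rw [← hm] at hE3 hm0
  have hord : ∀ g : G, OkM (Mn H) g → g ≠ 1 → hind H g = m := by
    intro g hg hg1
    rcases hg with hg | hg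
    · exact absurd hg hg1
    · rw [hm]
      exact hg.2
  have hok1 : ∀ g : G, g = 1 → OkM (Mn H) g := fun g hg => Or.inl hg
  rw [← hm]
  refine ⟨?_, ?_, ⟨w, hw, ?_⟩, fun X => hD k G H hyp.core X⟩
  · intro ρ hρ
    obtain ⟨F, hF, -⟩ := hP k T G H hyp.core ρ hρ S hS
    have hset : {P : HeightOneSpectrum (𝓞 k) | P ∉ S ∧ ρ (T.tau P) ≠ 1}.Finite := by
      have h : {P : HeightOneSpectrum (𝓞 k) | P ∉ S ∧ ρ (T.tau P) ≠ 1} =
          (F : Set (HeightOneSpectrum (𝓞 k))) := by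
        ext P
        exact (hF P).symm
      rw [h]
      exact F.finite_toSet
    refine ⟨?_, hset, hset.subset ?_⟩
    · rw [zd_nO T hF]
      exact Finset.prod_pos fun P _ => d6h_nrm_pos P
    · rintro P ⟨h1, h2⟩
      exact ⟨h1, fun h3 => h2 (hok1 _ h3)⟩
  · intro ρ hρ hl
    obtain ⟨F, hF, hd⟩ := hP k T G H hyp.core ρ hρ S hS
    rw [hd, zd_nO T hF, ← Finset.prod_pow]
    congr 1
    refine Finset.prod_congr rfl fun P hPF => ?_
    obtain ⟨h1, h2⟩ := (hF P).1 hPF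
    rw [hord _ (hl P h1) h2]
  · intro ρ hρ R hR
    obtain ⟨F, hF, hd⟩ := hP k T G H hyp.core ρ hρ S hS
    have hRm : ∀ P, P ∈ R ↔ (P ∉ S ∧ ¬ OkM (Mn H) (ρ (T.tau P))) := by
      intro P
      have h : P ∈ (R : Set (HeightOneSpectrum (𝓞 k))) ↔ P ∈ Rw5 H T S ρ := by rw [hR]
      exact h
    have hRF : R ⊆ F := by
      intro P hPR
      obtain ⟨h1, h2⟩ := (hRm P).1 hPR
      exact (hF P).2 ⟨h1, fun h3 => h2 (hok1 _ h3)⟩
    have hF' : ∀ P, P ∈ F \ R ↔ (P ∉ S ∪ R ∧ ρ (T.tau P) ≠ 1) := by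
      intro P
      rw [Finset.mem_sdiff, hF, Finset.mem_union]
      tauto
    rw [zd_nO T hF', hd]
    have hq : 1 ≤ qH H S ρ := by
      unfold qH
      exact Finset.prod_pos fun P _ => pow_pos (d6h_nrm_pos P) _
    have hsplit : ∏ P ∈ F, nrm P ^ hind H (ρ (T.tau P)) =
        (∏ P ∈ F \ R, nrm P ^ hind H (ρ (T.tau P))) * ∏ P ∈ R, nrm P ^ hind H (ρ (T.tau P)) :=
      (Finset.prod_sdiff hRF).symm
    have h1 : ∏ P ∈ F \ R, nrm P ^ hind H (ρ (T.tau P)) = (∏ P ∈ F \ R, nrm P) ^ m := by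
      rw [← Finset.prod_pow]
      refine Finset.prod_congr rfl fun P hPF => ?_
      rw [Finset.mem_sdiff] at hPF
      obtain ⟨h2, h3⟩ := (hF P).1 hPF.1
      have h4 : OkM (Mn H) (ρ (T.tau P)) := by
        by_contra h
        exact hPF.2 ((hRm P).2 ⟨h2, h⟩)
      rw [hord _ h4 h3]
    have h2 : (((∏ P ∈ R, nrm P : ℕ) : ℝ) ^ w) ^ m ≤
        ((∏ P ∈ R, nrm P ^ hind H (ρ (T.tau P)) : ℕ) : ℝ) := by
      rw [Nat.cast_prod, ← Real.finset_prod_rpow _ _ (fun P _ => Nat.cast_nonneg _),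
        ← Finset.prod_pow, Nat.cast_prod]
      refine Finset.prod_le_prod (fun P _ => by positivity) fun P hPR => ?_
      obtain ⟨_, h4⟩ := (hRm P).1 hPR
      have h5 : (1 : ℝ) ≤ nrm P := by exact_mod_cast d6h_nrm_pos P
      rw [Nat.cast_pow, ← Real.rpow_natCast, ← Real.rpow_mul (by positivity),
        ← Real.rpow_natCast (nrm P : ℝ)]
      exact Real.rpow_le_rpow_of_exponent_le h5 (hE3 _ h4)
    rw [mul_pow, hsplit, h1, Nat.cast_mul, Nat.cast_mul, Nat.cast_pow]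
    have hq' : (1 : ℝ) ≤ qH H S ρ := by exact_mod_cast hq
    have h6 : (0 : ℝ) ≤ ((∏ P ∈ F \ R, nrm P : ℕ) : ℝ) ^ m := by positivity
    have h7 : (0 : ℝ) ≤ ((∏ P ∈ R, nrm P ^ hind H (ρ (T.tau P)) : ℕ) : ℝ) := Nat.cast_nonneg _
    calc ((∏ P ∈ F \ R, nrm P : ℕ) : ℝ) ^ m * (((∏ P ∈ R, nrm P : ℕ) : ℝ) ^ w) ^ m
        ≤ ((∏ P ∈ F \ R, nrm P : ℕ) : ℝ) ^ m *
          ((∏ P ∈ R, nrm P ^ hind H (ρ (T.tau P)) : ℕ) : ℝ) := mul_le_mul_of_nonneg_left h2 h6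
      _ = 1 * (((∏ P ∈ F \ R, nrm P : ℕ) : ℝ) ^ m *
          ((∏ P ∈ R, nrm P ^ hind H (ρ (T.tau P)) : ℕ) : ℝ)) := (one_mul _).symm
      _ ≤ qH H S ρ * (((∏ P ∈ F \ R, nrm P : ℕ) : ℝ) ^ m *
          ((∏ P ∈ R, nrm P ^ hind H (ρ (T.tau P)) : ℕ) : ℝ)) :=
          mul_le_mul_of_nonneg_right hq' (mul_nonneg h6 h7)

end Pool.Agent.TF
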