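import Pool.Agent.TF.Stm

/-!
# Project T5 (MP_a3214d), assembly: the number of homomorphisms with given `Rw`
-/

set_option autoImplicit false

open scoped BigOperators Pointwise Topology
open NumberField IsDedekindDomain Filter

namespace Pool.Agent.TF

open Pool.Agent.H98.MF (Om Gm ord Dec top nrm fld rdN rexp rex)
open Pool.Agent.H98.ML (norb hind)
open Pool.Agent.H92.EL (TM Hk Ctn HLo nO cyc)

private theorem z3_growth (m : ℕ) (b q : ℕ) (hq : 1 ≤ q) :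
    Tendsto (fun X : ℝ => ((X / (q : ℝ)) ^ (1 / (m : ℝ)) *
      Real.log ((X / (q : ℝ)) ^ (1 / (m : ℝ))) ^ (b - 1)) /
      (X ^ (1 / (m : ℝ)) * Real.log X ^ (b - 1))) atTop
      (𝓝 (((q : ℝ) ^ (1 / (m : ℝ)))⁻¹ * (1 / (m : ℝ)) ^ (b - 1))) := by
  have hq0 : (0 : ℝ) < q := by exact_mod_cast hq
  have hlog : Tendsto (fun X : ℝ => Real.log (X / (q : ℝ)) / Real.log X) atTop (𝓝 1) := by
    have h1 : Tendsto (fun X : ℝ => 1 - Real.log (q : ℝ) / Real.log X) atTop (𝓝 (1 - 0)) :=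
      tendsto_const_nhds.sub (Tendsto.const_div_atTop Real.tendsto_log_atTop _)
    rw [sub_zero] at h1
    refine h1.congr' ?_
    filter_upwards [eventually_gt_atTop 1] with X hX
    have h2 : Real.log X ≠ 0 := (Real.log_pos hX).ne'
    rw [Real.log_div (by linarith) hq0.ne', sub_div, div_self h2]
  have h2 : Tendsto (fun X : ℝ => ((q : ℝ) ^ (1 / (m : ℝ)))⁻¹ *
      ((1 / (m : ℝ)) * (Real.log (X / (q : ℝ)) / Real.log X)) ^ (b - 1)) atTop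
      (𝓝 (((q : ℝ) ^ (1 / (m : ℝ)))⁻¹ * ((1 / (m : ℝ)) * 1) ^ (b - 1))) :=
    ((hlog.const_mul _).pow _).const_mul _
  rw [mul_one] at h2
  refine h2.congr' ?_
  filter_upwards [eventually_gt_atTop 1] with X hX
  have hX0 : 0 < X := by linarith
  have hl : Real.log X ^ (b - 1) ≠ 0 := pow_ne_zero _ (Real.log_pos hX).ne'
  have hA : X ^ (1 / (m : ℝ)) ≠ 0 := (Real.rpow_pos_of_pos hX0 _).ne'
  have hB : (q : ℝ) ^ (1 / (m : ℝ)) ≠ 0 := (Real.rpow_pos_of_pos hq0 _).ne'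
  rw [Real.log_rpow (div_pos hX0 hq0), Real.div_rpow hX0.le hq0.le, mul_pow, mul_pow,
    div_pow (Real.log (X / (q : ℝ))) (Real.log X)]
  generalize Real.log X ^ (b - 1) = c at hl
  generalize X ^ (1 / (m : ℝ)) = d at hA
  generalize (q : ℝ) ^ (1 / (m : ℝ)) = e at hB
  generalize Real.log (X / (q : ℝ)) ^ (b - 1) = f
  generalize (1 / (m : ℝ)) ^ (b - 1) = g
  field_simp

/-- Z3 -/
theorem zfix5 (h0 : SGrp5) (h1 : ZRep5) (h2 : ZDis5) (h3 : SVal5) (h4 : SLoc5) : ZFix5 := by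
  classical
  intro k _ _ T G _ H b hyp hInn S hS R
  have hfin := hyp.fin
  obtain ⟨hmi, ⟨l, hM⟩, -⟩ := h0 G H hyp
  by_cases hRS : Disjoint R S
  swap
  · obtain ⟨P, hPR, hPS⟩ := Finset.not_disjoint_iff.1 hRS
    have hne : ∀ ρ : Gm k →* G, Rw5 H T S ρ ≠ (R : Set (HeightOneSpectrum (𝓞 k))) := by
      intro ρ h
      have h5 : P ∈ Rw5 H T S ρ := by
        rw [h]
        exact hPR
      exact h5.1 hPS
    refine ⟨0, le_rfl, ?_, ?_⟩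
    · have h5 : ∀ X, AR5 H T S R X = ∅ := fun X =>
        Set.eq_empty_of_forall_notMem fun ρ h => hne ρ h.2.1
      simp only [h5, Set.ncard_empty, Nat.cast_zero, zero_div]
      exact tendsto_const_nhds
    · rintro ⟨ρ, -, h⟩
      exact absurd h (hne ρ)
  obtain ⟨C, -, hF⟩ := h1 k T G (Mn H) l hM S hS
  obtain ⟨F, -, hFl, hFu⟩ := hF R
  obtain ⟨S', hS'e⟩ : ∃ S' : Finset (HeightOneSpectrum (𝓞 k)), ∀ P, P ∈ S' ↔ P ∈ S ∨ P ∈ R :=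
    ⟨S ∪ R, fun P => Finset.mem_union⟩
  have hS' : Ctn S' (Nat.card G) := fun P hP => hS P (fun h => hP ((hS'e P).2 (Or.inl h)))
  obtain ⟨ha, hb, -, hd⟩ := h2 k T G H hyp S' hS'
  obtain ⟨hQ, hq1⟩ := h3 k G H S'
  obtain ⟨m, hm⟩ : ∃ m : ℕ, m = mi H := ⟨_, rfl⟩
  have hm0 : 0 < m := by
    rw [hm]
    exact hmi
  have hmR : (0 : ℝ) < m := by exact_mod_cast hm0
  rw [← hm] at hb
  let E : ℕ → (Gm k →* G) → Prop := fun q ρ => ∃ ρ' : Gm k →* G, ρ' ∈ Hk k G ∧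
    (∀ P ∈ S', ∀ σ ∈ Dec P, ρ' σ = ρ σ) ∧ qH H S' ρ' = q ∧ ∀ P ∈ R, ¬ OkM (Mn H) (ρ' (T.tau P))
  have hHLo : ∀ q, HLo S' (E q) := by
    rintro q ρ ρ1 he ⟨ρ', k1, k2, k3, k4⟩
    exact ⟨ρ', k1, fun P hP σ hσ => (k2 P hP σ hσ).trans (he P hP σ hσ), k3, k4⟩
  have hHiff : ∀ (q : ℕ) (ρ : Gm k →* G), ρ ∈ Hk k G →
      (E q ρ ↔ (qH H S' ρ = q ∧ ∀ P ∈ R, ¬ OkM (Mn H) (ρ (T.tau P)))) := by
    intro q ρ hρ
    constructor
    · rintro ⟨ρ', k1, k2, k3, k4⟩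
      constructor
      · rw [← k3]
        refine Finset.prod_congr rfl fun P hP => ?_
        rw [h4 k G H ρ ρ' hρ k1 P (fun σ hσ => (k2 P hP σ hσ).symm)]
      · intro P hP
        rw [← k2 P ((hS'e P).2 (Or.inr hP)) _ (T.tm P).decτ]
        exact k4 P hP
    · rintro ⟨k1, k2⟩
      exact ⟨ρ, hρ, fun _ _ _ _ => rfl, k1, k2⟩
  -- the sets of the decomposition
  have hB : ∀ (ρ0 : Gm k →* G) (q : ℕ) (X : ℝ), 0 < X → ∀ ρ : Gm k →* G,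
      ρ ∈ HI5 (Mn H) T ρ0 (E q) S' ((X / (q : ℝ)) ^ (1 / (m : ℝ))) ↔
        (ρ ∈ AR5 H T S R X ∧ Cg5 (Mn H) ρ ρ0 ∧ qH H S' ρ = q) := by
    intro ρ0 q X hX ρ
    have hdis : ρ ∈ Hk k G → (∀ P, P ∉ S' → OkM (Mn H) (ρ (T.tau P))) → qH H S' ρ = q →
        ((nO T S' ρ : ℝ) ≤ (X / (q : ℝ)) ^ (1 / (m : ℝ)) ↔ (dH H ρ : ℝ) ≤ X) := by
      intro e1 e2 e3
      have e4 := hb ρ e1 e2
      have e5 := (hq1 ρ)
      rw [e3] at e4 e5
      have hq0 : (0 : ℝ) < q := by exact_mod_cast e5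
      rw [e4, Nat.cast_mul, Nat.cast_pow]
      have e6 : (0 : ℝ) ≤ (nO T S' ρ : ℝ) := Nat.cast_nonneg _
      have e7 : 0 ≤ X / (q : ℝ) := (div_pos hX hq0).le
      rw [one_div, Real.le_rpow_inv_iff_of_pos e6 e7 hmR, Real.rpow_natCast, le_div_iff₀' hq0]
    constructor
    · rintro ⟨k1, k2, k3, k4, k5⟩
      obtain ⟨k6, k7⟩ := (hHiff q ρ k1).1 k3
      refine ⟨⟨k1, ?_, (hdis k1 k4 k6).1 k5⟩, k2, k6⟩
      ext P
      constructor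
      · rintro ⟨k8, k9⟩
        by_contra k10
        exact k9 (k4 P fun k11 => by
          rcases (hS'e P).1 k11 with k12 | k12
          · exact k8 k12
          · exact k10 k12)
      · intro k8
        exact ⟨fun k9 => Finset.disjoint_left.1 hRS k8 k9, k7 P k8⟩
    · rintro ⟨⟨k1, k2, k3⟩, k4, k5⟩
      have k6 : ∀ P, P ∉ S' → OkM (Mn H) (ρ (T.tau P)) := by
        intro P hP
        by_contra k7
        have k8 : P ∈ Rw5 H T S ρ := ⟨fun k9 => hP ((hS'e P).2 (Or.inl k9)), k7⟩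
        rw [k2] at k8
        exact hP ((hS'e P).2 (Or.inr k8))
      refine ⟨k1, k4, (hHiff q ρ k1).2 ⟨k5, ?_⟩, k6, (hdis k1 k6 k5).2 k3⟩
      intro P hP
      have k8 : P ∈ Rw5 H T S ρ := by
        rw [k2]
        exact hP
      exact k8.2
  have hAfin : ∀ X, (AR5 H T S R X).Finite := fun X =>
    (hd X).subset fun ρ h => ⟨h.1, h.2.2⟩
  have hpick : ∀ ρ : Gm k →* G, ρ ∈ Hk k G → Rw5 H T S ρ = (R : Set (HeightOneSpectrum (𝓞 k))) →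
      ∃! ρ0, ρ0 ∈ F ∧ Cg5 (Mn H) ρ ρ0 := fun ρ k1 k2 => hFu ρ k1 k2.le
  let f : (Gm k →* G) → (Gm k →* G) × ℕ := fun ρ =>
    (if h : ∃ ρ0, ρ0 ∈ F ∧ Cg5 (Mn H) ρ ρ0 then h.choose else ρ, qH H S' ρ)
  have hf : ∀ ρ : Gm k →* G, ρ ∈ Hk k G → Rw5 H T S ρ = (R : Set (HeightOneSpectrum (𝓞 k))) →
      (f ρ).1 ∈ F ∧ Cg5 (Mn H) ρ (f ρ).1 := by
    intro ρ k1 k2
    have k3 := (hpick ρ k1 k2).exists
    show (if h : ∃ ρ0, ρ0 ∈ F ∧ Cg5 (Mn H) ρ ρ0 then h.choose else ρ) ∈ F ∧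
      Cg5 (Mn H) ρ (if h : ∃ ρ0, ρ0 ∈ F ∧ Cg5 (Mn H) ρ ρ0 then h.choose else ρ)
    rw [dif_pos k3]
    exact k3.choose_spec
  have hcount : ∀ X : ℝ, 0 < X → (AR5 H T S R X).ncard =
      ∑ x ∈ F ×ˢ hQ.toFinset, (HI5 (Mn H) T x.1 (E x.2) S' ((X / (x.2 : ℝ)) ^ (1 / (m : ℝ)))).ncard := by
    intro X hX
    rw [Set.ncard_eq_toFinset_card _ (hAfin X),
      Finset.card_eq_sum_card_fiberwise (f := f) (t := F ×ˢ hQ.toFinset)]
    · refine Finset.sum_congr rfl fun x hx => ?_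
      rw [← Set.ncard_coe_finset]
      congr 1
      ext ρ
      rw [hB x.1 x.2 X hX ρ, Finset.coe_filter, Set.mem_ofPred_eq, Set.Finite.mem_toFinset]
      constructor
      · rintro ⟨k1, k2⟩
        have k3 := hf ρ k1.1 k1.2.1
        rw [k2] at k3
        refine ⟨k1, k3.2, ?_⟩
        rw [← k2]
      · rintro ⟨k1, k2, k3⟩
        refine ⟨k1, ?_⟩
        have k4 := hf ρ k1.1 k1.2.1
        have k5 := (hpick ρ k1.1 k1.2.1).unique k4 ⟨(Finset.mem_product.1 hx).1, k2⟩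
        exact Prod.ext k5 k3
    · intro ρ hρ
      have hρ' : ρ ∈ AR5 H T S R X := by simpa using hρ
      rw [Finset.mem_coe, Finset.mem_product]
      refine ⟨(hf ρ hρ'.1 hρ'.2.1).1, ?_⟩
      rw [Set.Finite.mem_toFinset]
      exact ⟨ρ, hρ'.1, rfl⟩
  -- the limits
  have hex : ∀ x : (Gm k →* G) × ℕ, ∃ L : ℝ, x ∈ F ×ˢ hQ.toFinset → (0 ≤ L ∧
      Tendsto (fun Y : ℝ => ((HI5 (Mn H) T x.1 (E x.2) S' Y).ncard : ℝ) /
        (Y * Real.log Y ^ (b - 1))) atTop (𝓝 L) ∧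
      ((∃ Y, (HI5 (Mn H) T x.1 (E x.2) S' Y).Nonempty) → 0 < L)) := by
    intro x
    by_cases hx : x ∈ F ×ˢ hQ.toFinset
    · obtain ⟨L, hL⟩ := hInn x.1 (hFl x.1 (Finset.mem_product.1 hx).1) S' hS' (E x.2) (hHLo x.2)
      exact ⟨L, fun _ => hL⟩
    · exact ⟨0, fun h => absurd h hx⟩
  choose L hL using hex
  have hxq : ∀ x ∈ F ×ˢ hQ.toFinset, 1 ≤ x.2 := by
    intro x hx
    have k1 := (Finset.mem_product.1 hx).2
    rw [Set.Finite.mem_toFinset] at k1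
    obtain ⟨ρ, -, k2⟩ := k1
    rw [← k2]
    exact hq1 ρ
  have hterm : ∀ x ∈ F ×ˢ hQ.toFinset, Tendsto (fun X : ℝ =>
      ((HI5 (Mn H) T x.1 (E x.2) S' ((X / (x.2 : ℝ)) ^ (1 / (m : ℝ)))).ncard : ℝ) / gr5 (mi H) b X) atTop
      (𝓝 (L x * (((x.2 : ℝ) ^ (1 / (m : ℝ)))⁻¹ * (1 / (m : ℝ)) ^ (b - 1)))) := by
    intro x hx
    have hq := hxq x hx
    have hq0 : (0 : ℝ) < x.2 := by exact_mod_cast hq
    have hY : Tendsto (fun X : ℝ => (X / (x.2 : ℝ)) ^ (1 / (m : ℝ))) atTop atTop :=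
      (tendsto_rpow_atTop (by positivity)).comp (tendsto_id.atTop_div_const hq0)
    have k1 := ((hL x hx).2.1.comp hY).mul (z3_growth m b x.2 hq)
    refine k1.congr' ?_
    filter_upwards [hY.eventually_gt_atTop 1, eventually_gt_atTop 1] with X hX1 hX2
    have k2 : 0 < Real.log ((X / (x.2 : ℝ)) ^ (1 / (m : ℝ))) := Real.log_pos hX1
    have k3 : (X / (x.2 : ℝ)) ^ (1 / (m : ℝ)) *
        Real.log ((X / (x.2 : ℝ)) ^ (1 / (m : ℝ))) ^ (b - 1) ≠ 0 :=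
      mul_ne_zero (by linarith) (pow_ne_zero _ k2.ne')
    show ((HI5 (Mn H) T x.1 (E x.2) S' ((X / (x.2 : ℝ)) ^ (1 / (m : ℝ)))).ncard : ℝ) /
        ((X / (x.2 : ℝ)) ^ (1 / (m : ℝ)) *
          Real.log ((X / (x.2 : ℝ)) ^ (1 / (m : ℝ))) ^ (b - 1)) *
        (((X / (x.2 : ℝ)) ^ (1 / (m : ℝ)) *
          Real.log ((X / (x.2 : ℝ)) ^ (1 / (m : ℝ))) ^ (b - 1)) /
        (X ^ (1 / (m : ℝ)) * Real.log X ^ (b - 1))) = _
    rw [div_mul_div_cancel₀ k3]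
    unfold gr5
    rw [← hm]
  refine ⟨∑ x ∈ F ×ˢ hQ.toFinset, L x * (((x.2 : ℝ) ^ (1 / (m : ℝ)))⁻¹ *
    (1 / (m : ℝ)) ^ (b - 1)), ?_, ?_, ?_⟩
  · refine Finset.sum_nonneg fun x hx => ?_
    have k1 := (hL x hx).1
    positivity
  · have k1 := tendsto_finsetSum _ hterm
    refine k1.congr' ?_
    filter_upwards [eventually_gt_atTop 0] with X hX
    rw [← Finset.sum_div, hcount X hX, Nat.cast_sum]
  · rintro ⟨ρ, k1, k2⟩
    have k3 := hf ρ k1 k2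
    have k4 : f ρ ∈ F ×ˢ hQ.toFinset := by
      rw [Finset.mem_product]
      refine ⟨k3.1, ?_⟩
      rw [Set.Finite.mem_toFinset]
      exact ⟨ρ, k1, rfl⟩
    refine Finset.sum_pos' (fun x hx => ?_) ⟨f ρ, k4, ?_⟩
    · have k5 := (hL x hx).1
      positivity
    · have hq0 : (0 : ℝ) < (f ρ).2 := by exact_mod_cast hxq _ k4
      refine mul_pos ((hL (f ρ) k4).2.2 ?_) (by positivity)
      have k6 : (0 : ℝ) < (dH H ρ : ℝ) + 1 := by positivity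
      exact ⟨_, ρ, (hB (f ρ).1 (f ρ).2 ((dH H ρ : ℝ) + 1) k6 ρ).2
        ⟨⟨k1, k2, by linarith⟩, k3.2, rfl⟩⟩

end Pool.Agent.TF
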