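import Pool.Agent.TF.Stm

/-!
# Project T5 (MP_a3214d), assembly, Z1: representatives of the classes of homomorphisms
-/

set_option autoImplicit false

open scoped BigOperators Pointwise Topology
open NumberField IsDedekindDomain Filter

namespace Pool.Agent.TF

open Pool.Agent.H98.MF (Om Gm ord Dec top nrm fld rdN rexp rex)
open Pool.Agent.H92.EL (TM Hk Ctn HLo nO cyc Hu SOut)

/-- the subgroup generated by `M` is normal -/
theorem cl_normal {l : ℕ} {G : Type} [Group G] {M : Set G} (h : HypM l G M) :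
    (Subgroup.closure M).Normal := by
  refine ⟨fun x hx g => ?_⟩
  have h1 : (Subgroup.closure M).map (MulAut.conj g).toMonoidHom ≤ Subgroup.closure M := by
    rw [MonoidHom.map_closure, Subgroup.closure_le]
    rintro _ ⟨y, hy, rfl⟩
    refine Subgroup.subset_closure ?_
    exact h.conj g y hy
  exact h1 ⟨x, hx, rfl⟩

private theorem zrep_cg {k : Type} [Field k] [NumberField k] {G : Type} [Group G] (M : Set G)
    [hn : (Subgroup.closure M).Normal] (ρ ρ' : Gm k →* G) : Cg5 M ρ ρ' ↔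
      (QuotientGroup.mk' (Subgroup.closure M)).comp ρ =
        (QuotientGroup.mk' (Subgroup.closure M)).comp ρ' := by
  constructor
  · intro h
    ext σ
    show ((ρ σ : G) : G ⧸ Subgroup.closure M) = ((ρ' σ : G) : G ⧸ Subgroup.closure M)
    rw [QuotientGroup.eq_iff_div_mem, div_eq_mul_inv]
    exact h σ
  · intro h σ
    have h1 : ((ρ σ : G) : G ⧸ Subgroup.closure M) = ((ρ' σ : G) : G ⧸ Subgroup.closure M) :=
      DFunLike.congr_fun h σ
    rw [QuotientGroup.eq_iff_div_mem, div_eq_mul_inv] at h1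
    exact h1

theorem zrep5 (h : SOut) : ZRep5 := by
  classical
  intro k _ _ T G _ M l hG S hS
  haveI := hG.fin
  haveI := hG.nil
  haveI := cl_normal hG
  have hnil : Group.IsNilpotent (G ⧸ Subgroup.closure M) := inferInstance
  have hS' : Ctn S (Nat.card (G ⧸ Subgroup.closure M)) := fun P hP =>
    Nat.Coprime.coprime_dvd_left (Subgroup.card_quotient_dvd_card _) (hS P hP)
  obtain ⟨C, hC1, hC⟩ := h k T (G ⧸ Subgroup.closure M) hnil S hS'
  refine ⟨C, hC1, fun R => ?_⟩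
  obtain ⟨hfin, hcard⟩ := hC R
  set q : (Gm k →* G) → (Gm k →* G ⧸ Subgroup.closure M) := fun ρ =>
    (QuotientGroup.mk' (Subgroup.closure M)).comp ρ with hq
  set D : Set (Gm k →* G) := {ρ | ρ ∈ Hk k G ∧
    {P | P ∉ S ∧ ¬ OkM M (ρ (T.tau P))} ⊆ (R : Set (HeightOneSpectrum (𝓞 k)))} with hDdef
  have hD : ∀ ρ ∈ D, q ρ ∈ Hu T (G ⧸ Subgroup.closure M) (S ∪ R) := by
    rintro ρ ⟨⟨-, hlc⟩, hR⟩
    refine ⟨?_, fun P hP => ?_⟩
    · show IsLocallyConstant fun σ => QuotientGroup.mk' (Subgroup.closure M) (ρ σ)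
      exact hlc.comp (QuotientGroup.mk' (Subgroup.closure M))
    · rw [Finset.mem_union, not_or] at hP
      have h1 : OkM M (ρ (T.tau P)) := by
        by_contra h2
        exact hP.2 (Finset.mem_coe.1 (hR ⟨hP.1, h2⟩))
      show ((ρ (T.tau P) : G) : G ⧸ Subgroup.closure M) = 1
      rw [QuotientGroup.eq_one_iff]
      rcases h1 with h1 | h1
      · rw [h1]
        exact Subgroup.one_mem _
      · exact Subgroup.subset_closure h1
  have hsub : q '' D ⊆ Hu T (G ⧸ Subgroup.closure M) (S ∪ R) := Set.image_subset_iff.2 hD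
  have himf : (q '' D).Finite := hfin.subset hsub
  have hch : ∀ y : (Gm k →* G ⧸ Subgroup.closure M), ∃ ρ : Gm k →* G,
      y ∈ q '' D → ρ ∈ D ∧ q ρ = y := by
    intro y
    by_cases hy : y ∈ q '' D
    · obtain ⟨ρ, h1, h2⟩ := hy
      exact ⟨ρ, fun _ => ⟨h1, h2⟩⟩
    · exact ⟨1, fun h1 => absurd h1 hy⟩
  choose g hg using hch
  refine ⟨himf.toFinset.image g, ?_, ?_, ?_⟩
  · refine Finset.card_image_le.trans ?_
    rw [← Set.ncard_eq_toFinset_card _ himf]
    exact (Set.ncard_le_ncard hsub hfin).trans hcard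
  · intro ρ hρ
    obtain ⟨y, hy, rfl⟩ := Finset.mem_image.1 hρ
    exact (hg y (himf.mem_toFinset.1 hy)).1.1.2
  · intro ρ hρ hR
    have hy : q ρ ∈ q '' D := ⟨ρ, ⟨hρ, hR⟩, rfl⟩
    refine ⟨g (q ρ), ⟨Finset.mem_image.2 ⟨q ρ, himf.mem_toFinset.2 hy, rfl⟩,
      (zrep_cg M ρ _).2 (hg _ hy).2.symm⟩, ?_⟩
    rintro ρ' ⟨h1, h2⟩
    obtain ⟨y, hy', rfl⟩ := Finset.mem_image.1 h1
    have h3 : q ρ = q (g y) := (zrep_cg M ρ _).1 h2
    have h4 : q (g y) = y := (hg y (himf.mem_toFinset.1 hy')).2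
    rw [h3, h4]

end Pool.Agent.TF
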