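import Pool.Agent.TF.Stm
import Pool.Agent.H92.EL.ZUni

/-!
# Project T5 (MP_a3214d), assembly: the uniform bound
-/

set_option autoImplicit false

open scoped BigOperators Pointwise Topology
open NumberField IsDedekindDomain Filter

namespace Pool.Agent.TF

open Pool.Agent.H98.MF (Om Gm ord Dec top nrm fld rdN rexp rex)
open Pool.Agent.H98.ML (norb hind)
open Pool.Agent.H92.EL (TM Hk Ctn HLo nO cyc dloc_nrm zuni_union zuni_real)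

/-- finiteness of the sets of the inner statement -/
theorem zuni5_fin (h2 : ZDis5) (h3 : SVal5) {k : Type} [Field k] [NumberField k] (T : TM k)
    {G : Type} [Group G] {H : Subgroup G} (hH : Hyp5 H) (S : Finset (HeightOneSpectrum (𝓞 k)))
    (hS : Ctn S (Nat.card G)) (Y : ℝ) :
    {ρ : Gm k →* G | ρ ∈ Hk k G ∧ (∀ P, P ∉ S → OkM (Mn H) (ρ (T.tau P))) ∧
      (nO T S ρ : ℝ) ≤ Y}.Finite := by
  have := hH.fin
  obtain ⟨-, hb, -, hd⟩ := h2 k T G H hH S hS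
  obtain ⟨hv, -⟩ := h3 k G H S
  obtain ⟨Q, hQ⟩ := hv.bddAbove
  refine (hd ((Q : ℝ) * Y ^ mi H)).subset ?_
  rintro ρ ⟨hρ, h3, h4⟩
  refine ⟨hρ, ?_⟩
  rw [hb ρ hρ h3]
  push_cast
  have h5 : ((qH H S ρ : ℕ) : ℝ) ≤ Q := by
    have h6 : qH H S ρ ≤ Q := hQ ⟨ρ, hρ, rfl⟩
    exact_mod_cast h6
  exact mul_le_mul h5 (pow_le_pow_left₀ (Nat.cast_nonneg _) h4 _) (by positivity) (by positivity)

open Classical in
/-- the number of homomorphisms with given class and given inertia at `R` -/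
theorem zuni5_one (h0 : SGrp5) (h2 : ZDis5) (hv : SVal5) {k : Type} [Field k] [NumberField k]
    (T : TM k) {G : Type} [Group G] {H : Subgroup G} {b : ℕ} (hH : Hyp5 H) (S : Finset (HeightOneSpectrum (𝓞 k)))
    (hS : Ctn S (Nat.card G)) {w0 ε C : ℝ} (hw0 : 1 < w0) (hC : 0 ≤ C)
    (hc : ∀ ρ : Gm k →* G, ρ ∈ Hk k G → ∀ R : Finset (HeightOneSpectrum (𝓞 k)),
      Rw5 H T S ρ = (R : Set (HeightOneSpectrum (𝓞 k))) →
      ((nO T (S ∪ R) ρ : ℝ) * ((∏ P ∈ R, nrm P : ℕ) : ℝ) ^ w0) ^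
        mi H ≤ (dH H ρ : ℝ))
    (R : Finset (HeightOneSpectrum (𝓞 k))) (ρ0 : Gm k →* G)
    (u : HeightOneSpectrum (𝓞 k) → G)
    (hI : ∀ Y : ℝ, 2 ≤ Y →
      ({ρ : Gm k →* G | ρ ∈ Hk k G ∧ Cg5 (Mn H) ρ ρ0 ∧ (∀ P ∈ R, ρ (T.tau P) = u P) ∧
        (∀ P, P ∉ S → P ∉ R → OkM (Mn H) (ρ (T.tau P))) ∧ (nO T (S ∪ R) ρ : ℝ) ≤ Y}.ncard : ℝ) ≤
        C * ((∏ P ∈ R, nrm P : ℕ) : ℝ) ^ ε * (Y * Real.log Y ^ (b - 1)))
    (X : ℝ) (hX : 2 ≤ X) :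
    (({ρ | ρ ∈ AR5 H T S R X ∧ Cg5 (Mn H) ρ ρ0 ∧ ∀ P ∈ R, ρ (T.tau P) = u P} :
      Set (Gm k →* G)).ncard : ℝ) ≤
      2 * C * ((∏ P ∈ R, nrm P : ℕ) : ℝ) ^ (-(w0 - ε)) * gr5 (mi H) b X := by
  have hm : 1 ≤ mi H := (h0 G H hH).1
  have hN : (1 : ℝ) ≤ ((∏ P ∈ R, nrm P : ℕ) : ℝ) := by
    have h3 : 1 ≤ ∏ P ∈ R, nrm P := Finset.one_le_prod' fun P _ => dloc_nrm P
    exact_mod_cast h3
  unfold gr5
  obtain ⟨m, hmd⟩ : ∃ m, m = mi H := ⟨_, rfl⟩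
  obtain ⟨N, hNd⟩ : ∃ N, N = ((∏ P ∈ R, nrm P : ℕ) : ℝ) := ⟨_, rfl⟩
  rw [← hmd, ← hNd]
  rw [← hmd] at hc hm
  rw [← hNd] at hI hN
  have hN0 : 0 < N := by linarith
  have hSR : Ctn (S ∪ R) (Nat.card G) := fun P hP =>
    hS P fun h3 => hP (Finset.mem_union_left _ h3)
  obtain ⟨ha, -, -, -⟩ := h2 k T G H hH (S ∪ R) hSR
  -- the bound for the norm
  have key : ∀ ρ ∈ AR5 H T S R X, (nO T (S ∪ R) ρ : ℝ) ≤ X ^ (1 / (m : ℝ)) * N ^ (-w0) := by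
    rintro ρ ⟨hρ, hR, hd⟩
    have h3 := (hc ρ hρ R hR).trans hd
    rw [← hNd] at h3
    have h4 : 0 ≤ (nO T (S ∪ R) ρ : ℝ) * N ^ w0 :=
      mul_nonneg (Nat.cast_nonneg _) (Real.rpow_nonneg hN0.le _)
    have h5 : (nO T (S ∪ R) ρ : ℝ) * N ^ w0 ≤ X ^ (1 / (m : ℝ)) := by
      have h6 := Real.rpow_le_rpow (pow_nonneg h4 m) h3
        (show (0 : ℝ) ≤ ((m : ℕ) : ℝ)⁻¹ by positivity)
      rw [Real.pow_rpow_inv_natCast h4 (by omega)] at h6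
      rwa [one_div]
    have h7 : (nO T (S ∪ R) ρ : ℝ) = ((nO T (S ∪ R) ρ : ℝ) * N ^ w0) * N ^ (-w0) := by
      rw [mul_assoc, ← Real.rpow_add hN0, add_neg_cancel, Real.rpow_zero, mul_one]
    rw [h7]
    exact mul_le_mul_of_nonneg_right h5 (Real.rpow_nonneg hN0.le _)
  have hlog : 0 ≤ Real.log X := Real.log_nonneg (by linarith)
  rcases lt_or_ge (X ^ (1 / (m : ℝ)) * N ^ (-w0)) 1 with hY | hY
  · have h3 : ({ρ | ρ ∈ AR5 H T S R X ∧ Cg5 (Mn H) ρ ρ0 ∧ ∀ P ∈ R, ρ (T.tau P) = u P} :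
        Set (Gm k →* G)) = ∅ := by
      rw [Set.eq_empty_iff_forall_notMem]
      rintro ρ ⟨hρ, -, -⟩
      have h4 := key ρ hρ
      have h5 : (1 : ℝ) ≤ (nO T (S ∪ R) ρ : ℝ) := by
        exact_mod_cast (ha ρ hρ.1).1
      linarith
    rw [h3, Set.ncard_empty, Nat.cast_zero]
    have h6 : 0 ≤ N ^ (-(w0 - ε)) := Real.rpow_nonneg hN0.le _
    have h7 : 0 ≤ X ^ (1 / (m : ℝ)) := Real.rpow_nonneg (by linarith) _
    have h8 : 0 ≤ Real.log X ^ (b - 1) := pow_nonneg hlog _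
    positivity
  · have h3 := hI (max (X ^ (1 / (m : ℝ)) * N ^ (-w0)) 2) (le_max_right _ _)
    refine le_trans ?_ (h3.trans (zuni_real hm hN hX (by linarith) hY hC))
    have h4 : ({ρ | ρ ∈ AR5 H T S R X ∧ Cg5 (Mn H) ρ ρ0 ∧ ∀ P ∈ R, ρ (T.tau P) = u P} :
        Set (Gm k →* G)).ncard ≤ ({ρ : Gm k →* G | ρ ∈ Hk k G ∧ Cg5 (Mn H) ρ ρ0 ∧
        (∀ P ∈ R, ρ (T.tau P) = u P) ∧ (∀ P, P ∉ S → P ∉ R → OkM (Mn H) (ρ (T.tau P))) ∧
        (nO T (S ∪ R) ρ : ℝ) ≤ max (X ^ (1 / (m : ℝ)) * N ^ (-w0)) 2}).ncard := by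
      refine Set.ncard_le_ncard ?_ ?_
      · rintro ρ ⟨hρ, h5, h6⟩
        refine ⟨hρ.1, h5, h6, fun P hP hPR => ?_, (key ρ hρ).trans (le_max_left _ _)⟩
        by_contra h7
        have h8 : P ∈ Rw5 H T S ρ := ⟨hP, h7⟩
        rw [hρ.2.1] at h8
        exact hPR h8
      · refine (zuni5_fin h2 hv T hH (S ∪ R) hSR (max (X ^ (1 / (m : ℝ)) * N ^ (-w0)) 2)).subset ?_
        rintro ρ ⟨h5, -, -, h6, h7⟩
        refine ⟨h5, fun P hP => ?_, h7⟩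
        rw [Finset.mem_union, not_or] at hP
        exact h6 P hP.1 hP.2
    exact_mod_cast h4

open Classical in
theorem zuni5 (h0 : SGrp5) (h1 : ZRep5) (h2 : ZDis5) (hv : SVal5) : ZUni5 := by
  intro k _ _ T G _ H b hH hU
  have := hH.fin
  obtain ⟨hmi, ⟨l, hM⟩, -⟩ := h0 G H hH
  let _ : Fintype G := Fintype.ofFinite G
  obtain ⟨S, hS, hI⟩ := hU
  obtain ⟨C1, hC1, hrep⟩ := h1 k T G (Mn H) l hM S hS
  obtain ⟨-, -, ⟨w0, hw0, hc⟩, hd⟩ := h2 k T G H hH S hS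
  obtain ⟨C2, hC2, hI2⟩ := hI ((w0 - 1) / 2) (by linarith)
  have hC1' : (1 : ℝ) ≤ C1 := by exact_mod_cast hC1
  have hG : (1 : ℝ) ≤ Fintype.card G := by
    exact_mod_cast Fintype.card_pos
  refine ⟨S, hS, (C1 * Fintype.card G) * (2 * C2 + 1), w0 - (w0 - 1) / 2, by positivity,
    by linarith, ?_⟩
  intro R X hX
  have hN : (1 : ℝ) ≤ ((∏ P ∈ R, nrm P : ℕ) : ℝ) := by
    have h3 : 1 ≤ ∏ P ∈ R, nrm P := Finset.one_le_prod' fun P _ => dloc_nrm P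
    exact_mod_cast h3
  have hgr : 0 ≤ gr5 (mi H) b X := by
    unfold gr5
    exact mul_nonneg (Real.rpow_nonneg (by linarith) _)
      (pow_nonneg (Real.log_nonneg (by linarith)) _)
  have hNw : 0 ≤ ((∏ P ∈ R, nrm P : ℕ) : ℝ) ^ (-(w0 - (w0 - 1) / 2)) :=
    Real.rpow_nonneg (by linarith) _
  by_cases hdis : Disjoint R S
  · obtain ⟨F, hF, hFl, hFr⟩ := hrep R
    obtain ⟨B, hB⟩ : ∃ B, B = 2 * C2 * ((∏ P ∈ R, nrm P : ℕ) : ℝ) ^ (-(w0 - (w0 - 1) / 2)) *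
      gr5 (mi H) b X := ⟨_, rfl⟩
    have hB0 : 0 ≤ B := by
      rw [hB]
      positivity
    -- the functions on `R`
    obtain ⟨e, he⟩ : ∃ e : ({P // P ∈ R} → G) → HeightOneSpectrum (𝓞 k) → G,
      e = fun v P => if h : P ∈ R then v ⟨P, h⟩ else 1 := ⟨_, rfl⟩
    have h3 := zuni_union (F ×ˢ (Finset.univ : Finset ({P // P ∈ R} → G))) (AR5 H T S R X)
      (fun i => {ρ | ρ ∈ AR5 H T S R X ∧ Cg5 (Mn H) ρ i.1 ∧ ∀ P ∈ R, ρ (T.tau P) = e i.2 P}) B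
      (fun i _ => (hd X).subset fun ρ hρ => ⟨hρ.1.1, hρ.1.2.2⟩)
      (fun i hi => by
        rw [hB]
        exact zuni5_one h0 h2 hv T hH S hS hw0 hC2 hc R i.1 (e i.2)
          (fun Y hY => hI2 R hdis i.1 (hFl i.1 (Finset.mem_product.1 hi).1) (e i.2) Y hY) X hX)
      (fun ρ hρ => by
        obtain ⟨ρ0, ⟨h4, h5⟩, -⟩ := hFr ρ hρ.1 (le_of_eq hρ.2.1)
        refine ⟨(ρ0, fun P => ρ (T.tau P.1)), Finset.mem_product.2 ⟨h4, Finset.mem_univ _⟩,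
          hρ, h5, fun P hP => ?_⟩
        rw [he]
        simp only [dif_pos hP])
    refine h3.trans ?_
    rw [Finset.card_product, Finset.card_univ, Fintype.card_fun, Fintype.card_coe]
    push_cast
    have h4 : (F.card : ℝ) ≤ (C1 : ℝ) ^ (R.card + 1) := by exact_mod_cast hF
    have h5 : (Fintype.card G : ℝ) ^ R.card ≤ (Fintype.card G : ℝ) ^ (R.card + 1) :=
      pow_le_pow_right₀ hG (Nat.le_succ _)
    have h6 : (2 * C2 + 1) ≤ (2 * C2 + 1) ^ (R.card + 1) :=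
      le_self_pow₀ (by linarith) (Nat.succ_ne_zero _)
    have h7 : 2 * C2 ≤ (2 * C2 + 1) ^ (R.card + 1) := by linarith
    have h8 : (F.card : ℝ) * (Fintype.card G : ℝ) ^ R.card ≤
        (C1 : ℝ) ^ (R.card + 1) * (Fintype.card G : ℝ) ^ (R.card + 1) :=
      mul_le_mul h4 h5 (by positivity) (by positivity)
    have h9 : B ≤ (2 * C2 + 1) ^ (R.card + 1) *
        ((∏ P ∈ R, nrm P : ℕ) : ℝ) ^ (-(w0 - (w0 - 1) / 2)) * gr5 (mi H) b X := by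
      rw [hB]
      exact mul_le_mul_of_nonneg_right (mul_le_mul_of_nonneg_right h7 hNw) hgr
    refine (mul_le_mul h8 h9 hB0 (by positivity)).trans (le_of_eq ?_)
    rw [mul_pow, mul_pow]
    push_cast
    ring
  · have h3 : AR5 H T S R X = ∅ := by
      rw [Set.eq_empty_iff_forall_notMem]
      rintro ρ ⟨-, hR, -⟩
      apply hdis
      rw [Finset.disjoint_left]
      intro P hP
      have h4 : P ∈ Rw5 H T S ρ := by
        rw [hR]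
        exact hP
      exact h4.1
    rw [h3, Set.ncard_empty, Nat.cast_zero]
    positivity

end Pool.Agent.TF
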