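import Pool.Agent.TF.P1
import Pool.Agent.TF.P3
import Pool.Agent.TF.P4
import Pool.Agent.TF.P5
import Pool.Agent.TF.F2
import Pool.Agent.TF.ZRep
import Pool.Agent.TF.ZDis
import Pool.Agent.TF.ZFix
import Pool.Agent.TF.ZUni
import Pool.Agent.TF.ZAsy
import Pool.Agent.H92.EL.DOut
import Pool.Agent.H92.EL.DSum
import Pool.Agent.H92.EL.DTm

/-!
# Project T5 (MP_a3214d): assembly, the case of a central element of least index
-/

set_option autoImplicit false

namespace Pool.Agent.TF

open Pool.Agent.H92.EL (Inn STm stm sgenT sorbT sout sher sbdT ssumR)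

theorem all_zrep : ZRep5 := zrep5 (sout (sher sbdT))

theorem all_zdis (h : SGrp5) : ZDis5 := zdis5 h sprod5 sfin5

theorem all_zasy (h : SGrp5) : ZAsy5 :=
  zasy5 (all_zdis h) (zfix5 h all_zrep (all_zdis h) sval5 sloc5)
    (zuni5 h all_zrep (all_zdis h) sval5) ssumR

theorem all_tm : STm := stm sgenT sorbT

/-- from the inner statements to permutation groups -/
theorem main6 (h : SGrp5) (hI : ∀ l : ℕ, l.Prime → Inn l) : SMain6 :=
  smain6 h sprm5 (sbM5 sprm5) (all_zasy h) (send5 sprm5 sfld5) all_tm hI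

end Pool.Agent.TF
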