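import Pool.Agent.TF.Flow
import Pool.Agent.TG.Grow

/-!
# Assembly: the a priori bound of all Leray solutions
-/

set_option autoImplicit false

namespace Pool.Agent.TF

open MeasureTheory Set Filter Topology Pool.Agent.TO Pool.Agent.TB Pool.Agent.TC Pool.Agent.TP
open scoped ENNReal NNReal Real InnerProductSpace SchwartzMap LineDeriv

theorem exists_LG {T : ℝ} {u₀ : V3} {v : ℝ → V3} (h : IsLeray T u₀ v) : ∃ Dv, LG T u₀ v Dv := by
  obtain ⟨D, h1, h2, h3⟩ := exists_grad_en h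
  exact ⟨D, h, h1, h2, h3⟩

theorem sq_le_Phi {T : ℝ} {u₀ : V3} {v : ℝ → V3} {Dv : ℝ → Fin 3 → V3} (h : LG T u₀ v Dv)
    {t : ℝ} (ht : t ∈ Ico 0 T) (U : V3) : ‖v t - U‖ ^ 2 ≤ Phi u₀ v Dv t U := by
  have h1 := h.en t ht
  unfold Phi
  rw [norm_sub_sq_real]
  linarith

theorem Coef.mono {c r Λ Λ' : ℝ} {b : E3 → E3} {lam : E3 → ℝ} (h : Coef c r Λ b lam)
    (hΛ : Λ ≤ Λ') : Coef c r Λ' b lam :=
  ⟨h.cb, h.cl, h.l0, fun x => (h.lΛ x).trans hΛ, fun x => (h.bΛ x).trans hΛ, h.div, h.b1, h.b2,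
    h.l1, h.l2⟩

theorem NrS.mono {M M' : ℝ} {σ : Sta} (h : NrS M σ) (hM : M ≤ M') : NrS M' σ :=
  ⟨fun k j => (h.g0 k j).trans hM, fun k => (h.h0 k).trans hM, fun k j i => (h.g1 k j i).trans hM,
    fun k i => (h.h1 k i).trans hM, fun k j i i' => (h.g2 k j i i').trans hM,
    fun k i i' => (h.h2 k i i').trans hM, fun k j i i' x => (h.gs k j i i' x).trans hM,
    fun k i i' x => (h.hs k i i' x).trans hM, h.l0.trans hM,
    let ⟨dl, h1⟩ := h.l1
    ⟨dl, fun i => ⟨(h1 i).1, (h1 i).2.trans hM⟩⟩⟩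

theorem SupS.mono {A A' : ℝ} {σ : Sta} (h : SupS A σ) (hA : A ≤ A') : SupS A' σ :=
  ⟨fun k j x => (h.1 k j x).trans hA, fun k x => (h.2 k x).trans hA⟩

theorem SupS1.mono {A A' : ℝ} {σ : Sta} (h : SupS1 A σ) (hA : A ≤ A') : SupS1 A' σ :=
  ⟨fun k j i x => (h.1 k j i x).trans hA, fun k i x => (h.2 k i x).trans hA⟩

theorem norm_S_sub {r : ℝ} (hr : 0 < r) (f : V3) :
    ‖cvO (et0 r) f - f‖ ≤ ∫ z, et0 1 z * ‖tau (r • z) f - f‖ := by
  have hcont : Continuous fun z => et0 1 z * ‖tau (r • z) f - f‖ :=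
    (continuous_et0 one_pos).mul (((continuous_tau f).comp (continuous_const_smul r)).sub
      continuous_const).norm
  have hi : Integrable (fun z => et0 1 z * ‖tau (r • z) f - f‖) (volume : Measure E3) := by
    refine Integrable.mono' ((kk_et0 one_pos).int.mul_const (2 * ‖f‖)) hcont.aestronglyMeasurable
      (Eventually.of_forall fun z => ?_)
    rw [norm_mul, norm_norm, Real.norm_eq_abs, abs_of_nonneg (et0_nonneg one_pos z)]
    apply mul_le_mul_of_nonneg_left _ (et0_nonneg one_pos z)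
    refine (norm_sub_le _ _).trans ?_
    rw [norm_tau]; linarith
  have key : ∀ h : V3, |⟪h, cvO (et0 r) f - f⟫_ℝ| ≤
      ‖h‖ * ∫ z, et0 1 z * ‖tau (r • z) f - f‖ := by
    intro h
    have e1 : ⟪h, cvO (et0 r) f - f⟫_ℝ = ∫ z, et0 r z * ⟪h, tau z f - f⟫_ℝ := by
      rw [cvO_eq (kk_et0 hr), inner_sub_right, inner_cvL_tau]
      have e2 : ⟪h, f⟫_ℝ = ∫ z, et0 r z * ⟪h, f⟫_ℝ := by
        rw [integral_mul_const, integral_et0 hr, one_mul]
      rw [e2, ← integral_sub]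
      · congr 1
        ext z
        rw [inner_sub_right]; ring
      · refine Integrable.mono' ((kk_et0 hr).int.mul_const (‖h‖ * ‖f‖))
          ((continuous_et0 hr).mul ((continuous_const).inner
            (continuous_tau f))).aestronglyMeasurable (Eventually.of_forall fun z => ?_)
        rw [norm_mul, Real.norm_eq_abs, abs_of_nonneg (et0_nonneg hr z)]
        apply mul_le_mul_of_nonneg_left _ (et0_nonneg hr z)
        refine (norm_inner_le_norm _ _).trans ?_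
        rw [norm_tau]
      · exact (kk_et0 hr).int.mul_const _
    have e3 : ∫ z, et0 r z * ⟪h, tau z f - f⟫_ℝ = ∫ z, et0 1 z * ⟪h, tau (r • z) f - f⟫_ℝ := by
      have h4 := Measure.integral_comp_smul (volume : Measure E3)
        (fun z => et0 r z * ⟪h, tau z f - f⟫_ℝ) r
      simp only [finrank_euclideanSpace, Fintype.card_fin, et0_scale hr] at h4
      rw [abs_of_pos (by positivity), smul_eq_mul] at h4
      have h6 : ∫ z : E3, (r ^ 3)⁻¹ * et0 1 z * ⟪h, tau (r • z) f - f⟫_ℝ =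
          (r ^ 3)⁻¹ * ∫ z, et0 1 z * ⟪h, tau (r • z) f - f⟫_ℝ := by
        rw [← integral_const_mul]
        congr 1
        ext z
        ring
      rw [h6] at h4
      exact (mul_left_cancel₀ (by positivity) h4).symm
    rw [e1, e3, ← integral_const_mul, ← Real.norm_eq_abs]
    refine norm_integral_le_of_norm_le (hi.const_mul ‖h‖) (Eventually.of_forall fun z => ?_)
    rw [norm_mul, Real.norm_eq_abs, abs_of_nonneg (et0_nonneg one_pos z)]
    calc et0 1 z * ‖⟪h, tau (r • z) f - f⟫_ℝ‖ ≤ et0 1 z * (‖h‖ * ‖tau (r • z) f - f‖) :=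
          mul_le_mul_of_nonneg_left (norm_inner_le_norm _ _) (et0_nonneg one_pos z)
      _ = _ := by ring
  have h1 := key (cvO (et0 r) f - f)
  rw [real_inner_self_eq_norm_sq, abs_of_nonneg (by positivity), sq] at h1
  rcases eq_or_lt_of_le (norm_nonneg (cvO (et0 r) f - f)) with h0 | h0
  · rw [← h0]
    exact integral_nonneg fun z => mul_nonneg (et0_nonneg one_pos z) (norm_nonneg _)
  · exact le_of_mul_le_mul_left h1 h0

theorem tendsto_S_zero (f : V3) : Tendsto (fun r => cvO (et0 r) f) (𝓝[>] 0) (𝓝 f) := by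
  rw [tendsto_iff_norm_sub_tendsto_zero]
  have h1 : Tendsto (fun y : ℝ => ∫ z, et0 1 z * ‖tau (y • z) f - f‖) (𝓝[>] 0) (𝓝 0) := by
    suffices h : Tendsto (fun y : ℝ => ∫ z, et0 1 z * ‖tau (y • z) f - f‖) (𝓝[>] 0)
        (𝓝 (∫ z : E3, (0:ℝ))) by simpa using h
    apply tendsto_integral_filter_of_dominated_convergence (fun z => et0 1 z * (2 * ‖f‖))
    · refine Eventually.of_forall fun y => ?_
      exact ((continuous_et0 one_pos).mul (((continuous_tau f).comp (continuous_const_smul y)).sub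
        continuous_const).norm).aestronglyMeasurable
    · refine Eventually.of_forall fun y => Eventually.of_forall fun z => ?_
      rw [norm_mul, norm_norm, Real.norm_eq_abs, abs_of_nonneg (et0_nonneg one_pos z)]
      apply mul_le_mul_of_nonneg_left _ (et0_nonneg one_pos z)
      refine (norm_sub_le _ _).trans ?_
      rw [norm_tau]; linarith
    · exact (kk_et0 one_pos).int.mul_const _
    · refine Eventually.of_forall fun z => ?_
      have h2 : Continuous fun y : ℝ => et0 1 z * ‖tau (y • z) f - f‖ :=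
        continuous_const.mul (((continuous_tau f).comp (continuous_id.smul continuous_const)).sub
          continuous_const).norm
      have h3 := (h2.tendsto 0).mono_left (nhdsWithin_le_nhds (s := Ioi 0))
      simp only [zero_smul, tau_zero, sub_self, norm_zero, mul_zero] at h3
      exact h3
  refine squeeze_zero' (Eventually.of_forall fun _ => norm_nonneg _) ?_ h1
  filter_upwards [self_mem_nhdsWithin] with y hy
  exact norm_S_sub hy f

/-- the initial value of the relative energy -/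
theorem init_small {T : ℝ} {u₀ : V3} {v : ℝ → V3} {Dv : ℝ → Fin 3 → V3} (h : LG T u₀ v Dv)
    (hT : 0 < T) (r : V3) : Tendsto (fun s => ‖u₀‖ ^ 2 - 2 * ⟪v s, cvO (et0 (√s)) (u₀ - r)⟫_ℝ +
      ‖cvO (et0 (√s)) (u₀ - r)‖ ^ 2) (𝓝[>] 0) (𝓝 (‖r‖ ^ 2)) := by
  have hs : Tendsto (fun s : ℝ => √s) (𝓝[>] 0) (𝓝[>] 0) := by
    rw [tendsto_nhdsWithin_iff]
    refine ⟨?_, ?_⟩
    · have := (Real.continuous_sqrt.tendsto 0).mono_left (nhdsWithin_le_nhds (s := Ioi (0:ℝ)))
      rwa [Real.sqrt_zero] at this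
    · filter_upwards [self_mem_nhdsWithin] with s hs
      exact Real.sqrt_pos.2 hs
  have hX : Tendsto (fun s => cvO (et0 (√s)) (u₀ - r)) (𝓝[>] 0) (𝓝 (u₀ - r)) :=
    (tendsto_S_zero (u₀ - r)).comp hs
  have hv0 : Tendsto (fun s => ⟪v s, u₀ - r⟫_ℝ) (𝓝[>] 0) (𝓝 ⟪u₀, u₀ - r⟫_ℝ) := by
    have h1 := (h.hv.wcont (u₀ - r)) 0 ⟨le_rfl, hT⟩
    rw [ContinuousWithinAt, h.hv.init] at h1
    have h2 : Tendsto (fun t => ⟪u₀ - r, v t⟫_ℝ) (𝓝[>] 0) (𝓝 ⟪u₀ - r, u₀⟫_ℝ) := by
      refine h1.mono_left ?_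
      rw [nhdsWithin_le_iff]
      have : Ico 0 T ∈ 𝓝[≥] (0:ℝ) := Ico_mem_nhdsGE hT
      exact nhdsWithin_mono _ Ioi_subset_Ici_self this
    simpa only [real_inner_comm] using h2
  have hv1 : Tendsto (fun s => ⟪v s, cvO (et0 (√s)) (u₀ - r) - (u₀ - r)⟫_ℝ) (𝓝[>] 0) (𝓝 0) := by
    have h1 : Tendsto (fun s => ‖u₀‖ * ‖cvO (et0 (√s)) (u₀ - r) - (u₀ - r)‖) (𝓝[>] 0) (𝓝 0) := by
      have := (tendsto_iff_norm_sub_tendsto_zero.1 hX).const_mul ‖u₀‖
      rwa [mul_zero] at this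
    refine squeeze_zero_norm' ?_ h1
    filter_upwards [Ioo_mem_nhdsGT hT] with s hs
    refine (norm_inner_le_norm _ _).trans ?_
    exact mul_le_mul_of_nonneg_right (h.hv.norm_le ⟨hs.1.le, hs.2⟩) (norm_nonneg _)
  have h3 := ((hv0.add hv1).const_mul 2)
  have h4 := (hX.norm.pow 2).sub h3
  have h5 := h4.const_add (‖u₀‖ ^ 2)
  refine (h5.congr fun s => ?_).trans (le_of_eq ?_)
  · rw [inner_sub_right (v s) (cvO (et0 (√s)) (u₀ - r)) (u₀ - r)]
    ring
  · congr 1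
    rw [add_zero, norm_sub_sq_real, inner_sub_right, real_inner_self_eq_norm_sq]
    ring

/-- the flow -/
noncomputable def flow (R : Fin 3 → V3 →L[ℝ] V3) (η s d : ℝ) (v : ℝ → V3) (σ₀ : Sta) : ℕ → Sta
  | 0 => σ₀
  | k + 1 => nxt R η d (bO (√(tk s d k)) (v (tk s d k) - Hh R (flow R η s d v σ₀ k)))
      (lO (√(tk s d k)) (v (tk s d k) - Hh R (flow R η s d v σ₀ k))) (flow R η s d v σ₀ k)

theorem tk_zero (s d : ℝ) : tk s d 0 = s := by simp [tk]

theorem tk_succ (s d : ℝ) (k : ℕ) : tk s d (k + 1) = tk s d k + d := by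
  unfold tk
  push_cast
  ring

theorem tk_mono {s d : ℝ} (hd : 0 < d) {j k : ℕ} (h : j ≤ k) : tk s d j ≤ tk s d k := by
  unfold tk
  have : (j:ℝ) ≤ k := by exact_mod_cast h
  nlinarith

theorem le_tk {s d : ℝ} (hd : 0 < d) (k : ℕ) : s ≤ tk s d k := by
  have := tk_mono (s := s) hd (Nat.zero_le k)
  rwa [tk_zero] at this

/-- crude growth -/
noncomputable def grw (M0 N C d : ℝ) (k : ℕ) : ℝ := (M0 + N) * (1 + C * d) ^ k - N

theorem grw_zero (M0 N C d : ℝ) : grw M0 N C d 0 = M0 := by simp [grw]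

theorem grw_succ (M0 N C d : ℝ) (k : ℕ) :
    grw M0 N C d (k + 1) = grw M0 N C d k + C * d * (grw M0 N C d k + N) := by
  unfold grw
  ring

/-- what is known at the step `k` -/
structure Inv (T : ℝ) (u₀ : V3) (v : ℝ → V3) (Dv : ℝ → Fin 3 → V3) (R : Fin 3 → V3 →L[ℝ] V3)
    (CB A L s d M : ℝ) (E : ℝ) (k : ℕ) (σ : Sta) : Prop where
  nc : NcS σ
  anti : Anti σ
  div : IsDivFree σ.l
  bdl : Bd σ.l L
  sup : SupS A σ
  bd : Bd (Hh R σ) (CB * A / √(tk s d k))
  sup1 : SupS1 (CB * A / √(tk s d k)) σ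
  nr : NrS M σ
  phi : Phi u₀ v Dv (tk s d k) (Hh R σ) ≤ E

theorem run_ind {T : ℝ} {u₀ : V3} {v : ℝ → V3} {Dv : ℝ → Fin 3 → V3}
    {R : Fin 3 → V3 →L[ℝ] V3} {c Ci CB A L s d η Λ ε θ x N C M0 M' : ℝ} {K : ℕ} {e : ℕ → ℝ}
    (hLG : LG T u₀ v Dv) (hRZ : RZ R) (hs : 0 < s) (hd : 0 < d) (hK1 : tk s d K ≤ 1)
    (hKT : tk s d K < T) {σ₀ : Sta} (hini : Ini Ci A L s σ₀) (hN0 : NrS M0 σ₀) (hdiv : StDiv)
    (hCBA : 0 ≤ CB * A)
    (hcoef : ∀ r, √s ≤ r → r ≤ 1 → ∀ w : V3, IsDivFree w → ‖w‖ ^ 2 ≤ ε →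
      Coef c r Λ (bO r w) (lO r w))
    (hstep : ∀ r b lam, √s ≤ r → Coef c r Λ b lam → ∀ σ M', NcS σ → Anti σ →
      IsDivFree σ.l → Bd (Hh R σ) (CB * A / √s) → NrS M' σ → Bd σ.l L → SupS A σ →
      SupS1 (CB * A / √s) σ → NcS (nxt R η d b lam σ) ∧ Anti (nxt R η d b lam σ) ∧
      IsDivFree (nxt R η d b lam σ).l ∧ Bd (nxt R η d b lam σ).l L ∧
      SupS (2 * A) (nxt R η d b lam σ) ∧ NrS (M' + C * d * (M' + N)) (nxt R η d b lam σ))
    (hsup : ∀ k ≤ K, ∀ σ b lam, Ini Ci A L s (σ 0) → Run c Λ s d η R k σ b lam →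
      (∀ j ≤ k, ∀ i x, ‖(σ j).h i x‖ ≤ 2 * A) →
      (∀ j < k, Bd (Hh R (σ j)) (CB * A / √(tk s d j))) →
      SupS A (σ k) ∧ Bd (Hh R (σ k)) (CB * A / √(tk s d k)) ∧
      SupS1 (CB * A / √(tk s d k)) (σ k))
    (hRR : ∀ k < K, ∀ σ, NcS σ → Anti σ → IsDivFree σ.l → SupS A σ →
      SupS1 (CB * A / √(tk s d k)) σ → Bd (Hh R σ) (CB * A / √s) → Bd σ.l L → NrS M' σ →
      Phi u₀ v Dv (tk s d k + d) (Hh R (nxt R η d (bO (√(tk s d k)) (v (tk s d k) - Hh R σ))
        (lO (√(tk s d k)) (v (tk s d k) - Hh R σ)) σ)) ≤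
        (1 + x) * Phi u₀ v Dv (tk s d k) (Hh R σ) + e k)
    (hM' : ∀ k ≤ K, grw M0 N C d k ≤ M') (hx : 0 ≤ x) (he : ∀ k, 0 ≤ e k)
    (hE : ∀ k ≤ K, (1 + x) ^ k * (θ + ∑ i ∈ Finset.range k, e i) ≤ ε)
    (h0 : Phi u₀ v Dv s (Hh R σ₀) ≤ θ) :
    ∀ k ≤ K, Inv T u₀ v Dv R CB A L s d (grw M0 N C d k)
      ((1 + x) ^ k * (θ + ∑ i ∈ Finset.range k, e i)) k (flow R η s d v σ₀ k) := by
  set σ := flow R η s d v σ₀ with hσ
  have hsq : ∀ k, √s ≤ √(tk s d k) := fun k => Real.sqrt_le_sqrt (le_tk hd k)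
  have hspos : 0 < √s := Real.sqrt_pos.2 hs
  have hcb : ∀ k, CB * A / √(tk s d k) ≤ CB * A / √s := fun k =>
    div_le_div_of_nonneg_left hCBA hspos (hsq k)
  intro k
  induction k using Nat.strong_induction_on with
  | _ k ih =>
    intro hk
    -- the coefficients of the previous steps
    have hco : ∀ j < k, Coef c (√(tk s d j)) Λ (bO (√(tk s d j)) (v (tk s d j) - Hh R (σ j)))
        (lO (√(tk s d j)) (v (tk s d j) - Hh R (σ j))) := by
      intro j hj
      have I := ih j hj (hj.le.trans hk)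
      have htj : tk s d j ∈ Ico 0 T :=
        ⟨hs.le.trans (le_tk hd j), (tk_mono hd (hj.le.trans hk)).trans_lt hKT⟩
      refine hcoef _ (hsq j) ?_ _ (isDivFree_sub (hLG.hv.div _ htj) (hdiv R hRZ _ I.nc I.anti I.div))
        ?_
      · rw [Real.sqrt_le_one]
        exact (tk_mono hd (hj.le.trans hk)).trans hK1
      · exact (sq_le_Phi hLG htj _).trans (I.phi.trans (hE j (hj.le.trans hk)))
    -- structure, crude bounds and energy at `k`
    have hA : NcS (σ k) ∧ Anti (σ k) ∧ IsDivFree (σ k).l ∧ Bd (σ k).l L ∧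
        (∀ i x, ‖(σ k).h i x‖ ≤ 2 * A) ∧ NrS (grw M0 N C d k) (σ k) ∧
        Phi u₀ v Dv (tk s d k) (Hh R (σ k)) ≤
          (1 + x) ^ k * (θ + ∑ i ∈ Finset.range k, e i) := by
      rcases k with _ | k
      · have hA0 : 0 ≤ A := (norm_nonneg _).trans (hini.g0 0 none 0)
        refine ⟨hini.nc, hini.anti, hini.div, hini.bdl, fun i x => ?_, ?_, ?_⟩
        · change ‖σ₀.h i x‖ ≤ _
          rw [hini.h0, norm_zero]
          linarith
        · rw [grw_zero]
          exact hN0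
        · rw [tk_zero]
          have e : (1 + x) ^ 0 * (θ + ∑ i ∈ Finset.range 0, e i) = θ := by simp
          rw [e]
          exact h0
      · have I := ih k (Nat.lt_succ_self k) (Nat.le_of_succ_le hk)
        have hc := hco k (Nat.lt_succ_self k)
        have hst := hstep _ _ _ (hsq k) hc (σ k) _ I.nc I.anti I.div
          (bd_mono I.bd (hcb k)) I.nr I.bdl I.sup (I.sup1.mono (hcb k))
        have hphi := hRR k (Nat.lt_of_succ_le hk) (σ k) I.nc I.anti I.div I.sup I.sup1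
          (bd_mono I.bd (hcb k)) I.bdl (I.nr.mono (hM' k (Nat.le_of_succ_le hk)))
        refine ⟨hst.1, hst.2.1, hst.2.2.1, hst.2.2.2.1, hst.2.2.2.2.1.2, ?_, ?_⟩
        · rw [grw_succ]
          exact hst.2.2.2.2.2
        · rw [tk_succ]
          refine hphi.trans ?_
          have h1 := mul_le_mul_of_nonneg_left I.phi (by linarith : 0 ≤ 1 + x)
          have h2 : e k ≤ (1 + x) ^ (k + 1) * e k := by
            have : 1 ≤ (1 + x) ^ (k + 1) := one_le_pow₀ (by linarith)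
            nlinarith [he k]
          calc _ ≤ (1 + x) * ((1 + x) ^ k * (θ + ∑ i ∈ Finset.range k, e i)) + e k := by linarith
            _ ≤ (1 + x) * ((1 + x) ^ k * (θ + ∑ i ∈ Finset.range k, e i)) +
                (1 + x) ^ (k + 1) * e k := by linarith
            _ = _ := by rw [Finset.sum_range_succ]; ring
    obtain ⟨a1, a2, a3, a4, a5, a6, a7⟩ := hA
    have hrun : Run c Λ s d η R k σ
        (fun j => bO (√(tk s d j)) (v (tk s d j) - Hh R (σ j)))
        (fun j => lO (√(tk s d j)) (v (tk s d j) - Hh R (σ j))) := by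
      refine ⟨fun j _ => rfl, hco, fun j hj => ?_⟩
      rcases hj.eq_or_lt with h | h
      · rw [h]; exact a1
      · exact (ih j h (hj.trans hk)).nc
    have hfin := hsup k hk σ _ _ hini hrun (fun j hj i x => by
      rcases hj.eq_or_lt with h | h
      · rw [h]; exact a5 i x
      · have I := ih j h (hj.trans hk)
        have h1 := I.sup.2 i x
        have : 0 ≤ A := (norm_nonneg _).trans h1
        linarith) (fun j hj => (ih j hj (hj.le.trans hk)).bd)
    exact ⟨a1, a2, a3, a4, hfin.1, hfin.2.1, hfin.2.2, a6, a7⟩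

end Pool.Agent.TF
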