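import Pool.Agent.TF.Asm

/-!
# Assembly: the a priori bound of all Leray solutions, the choice of the constants
-/

set_option autoImplicit false

namespace Pool.Agent.TF

open MeasureTheory Set Filter Topology Pool.Agent.TO Pool.Agent.TB Pool.Agent.TC Pool.Agent.TP
open scoped ENNReal NNReal Real InnerProductSpace SchwartzMap LineDeriv

theorem sum_le_int {f : ℝ → ℝ} {s d : ℝ} (hs : 0 ≤ s) (hd : 0 < d) (hf : ∀ τ, 0 ≤ f τ) {K : ℕ}
    (hi : IntegrableOn f (Ioo 0 (tk s d K)) volume) :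
    ∀ k ≤ K, ∑ i ∈ Finset.range k, ∫ τ in Ioo (tk s d i) (tk s d i + d), f τ ≤
      ∫ τ in Ioo 0 (tk s d k), f τ := by
  intro k
  induction k with
  | zero =>
    intro _
    simp only [Finset.range_zero, Finset.sum_empty]
    exact integral_nonneg hf
  | succ k ih =>
    intro hk
    have h0 : 0 ≤ tk s d k := hs.trans (le_tk hd k)
    have hle : tk s d k ≤ tk s d (k + 1) := tk_mono hd (Nat.le_succ k)
    have hsub : Ioo 0 (tk s d (k + 1)) ⊆ Ioo 0 (tk s d K) := Ioo_subset_Ioo le_rfl (tk_mono hd hk)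
    rw [Finset.sum_range_succ]
    have h1 := ih (Nat.le_of_succ_le hk)
    have h2 : ∫ τ in Ioo 0 (tk s d (k + 1)), f τ = (∫ τ in Ioo 0 (tk s d k), f τ) +
        ∫ τ in Ioo (tk s d k) (tk s d (k + 1)), f τ := by
      have h3 : IntervalIntegrable f volume 0 (tk s d (k + 1)) := by
        rw [intervalIntegrable_iff_integrableOn_Ioo_of_le (h0.trans hle)]
        exact hi.mono_set hsub
      have h4 : IntervalIntegrable f volume 0 (tk s d k) := by
        rw [intervalIntegrable_iff_integrableOn_Ioo_of_le h0]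
        exact (hi.mono_set hsub).mono_set (Ioo_subset_Ioo le_rfl hle)
      have h5 : IntervalIntegrable f volume (tk s d k) (tk s d (k + 1)) := by
        rw [intervalIntegrable_iff_integrableOn_Ioo_of_le hle]
        exact (hi.mono_set hsub).mono_set (Ioo_subset_Ioo h0 le_rfl)
      rw [← integral_Ioc_eq_integral_Ioo, ← integral_Ioc_eq_integral_Ioo,
        ← integral_Ioc_eq_integral_Ioo, ← intervalIntegral.integral_of_le (h0.trans hle),
        ← intervalIntegral.integral_of_le h0, ← intervalIntegral.integral_of_le hle]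
      exact (intervalIntegral.integral_add_adjacent_intervals h4 h5).symm
    rw [h2, tk_succ]
    linarith

theorem one_add_pow_le {x : ℝ} (hx : 0 ≤ x) (k : ℕ) {y : ℝ} (h : k * x ≤ y) :
    (1 + x) ^ k ≤ Real.exp y := by
  calc (1 + x) ^ k ≤ (Real.exp x) ^ k :=
        pow_le_pow_left₀ (by linarith) (by linarith [Real.add_one_le_exp x]) k
    _ = Real.exp (k * x) := by rw [← Real.exp_nat_mul]
    _ ≤ _ := Real.exp_le_exp.2 h

theorem exists_step {δ L : ℝ} (hδ : 0 < δ) (hL : 0 < L) :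
    ∃ K : ℕ, 0 < K ∧ 0 < L / K ∧ L / K < δ ∧ K * (L / K) = L := by
  obtain ⟨K, hK⟩ := exists_nat_gt (L / δ)
  have hK0 : (0:ℝ) < K := lt_trans (by positivity) hK
  refine ⟨K, by exact_mod_cast hK0, by positivity, ?_, by field_simp⟩
  rw [div_lt_iff₀ hδ] at hK
  rw [div_lt_iff₀ hK0]
  linarith

theorem sqrt_le_of_sq {x y : ℝ} (hy : 0 ≤ y) (h : x ≤ y ^ 2) : √x ≤ y := by
  rw [Real.sqrt_le_left hy]
  exact h

theorem le_of_sq_le {x y : ℝ} (h : x ^ 2 ≤ y ^ 2) (hy : 0 ≤ y) : x ≤ y :=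
  (le_abs_self x).trans (abs_le_of_sq_le_sq h hy)

theorem le_sqrt_self {s : ℝ} (h0 : 0 ≤ s) (h1 : s ≤ 1) : s ≤ √s := by
  apply Real.le_sqrt_of_sq_le
  nlinarith

theorem stMain (hz : StZ) (hD : StD) (hcf : StCoef) (hin : StIni) (hdv : StDiv) (hst : StStep)
    (hsp : StSup) (hr : StR) : StMain := by
  intro u₀ hu0 hbmo a ha
  obtain ⟨R, hRZ⟩ := hz
  obtain ⟨c, hc, Cc, hCc, hcf⟩ := hcf
  obtain ⟨Ci, hCi, hin⟩ := hin
  obtain ⟨CB, hCB, A₀, hA₀, hsp⟩ := hsp c hc Ci hCi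
  obtain ⟨a₀, ha₀, hr⟩ := hr
  obtain ⟨A, hA, hA1, hA2, hA3, hA4⟩ : ∃ A : ℝ, 0 < A ∧ A ≤ A₀ ∧ A ≤ a₀ ∧ CB * A ≤ a₀ ∧
      CB * A ≤ a := by
    refine ⟨min (min A₀ a₀) (min (a₀ / CB) (a / CB)), by positivity,
      (min_le_left _ _).trans (min_le_left _ _), (min_le_left _ _).trans (min_le_right _ _), ?_, ?_⟩
    · calc CB * _ ≤ CB * (a₀ / CB) := mul_le_mul_of_nonneg_left
            ((min_le_right _ _).trans (min_le_left _ _)) hCB.le
        _ = a₀ := by field_simp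
    · calc CB * _ ≤ CB * (a / CB) := mul_le_mul_of_nonneg_left
            ((min_le_right _ _).trans (min_le_right _ _)) hCB.le
        _ = a := by field_simp
  obtain ⟨L, hL, hdat⟩ := hD R hRZ u₀ hu0 hbmo A hA
  obtain ⟨T₁, hT₁, hT1, hsp⟩ := hsp A hA hA1 L hL
  refine ⟨T₁, hT₁, fun T v hv t ht htT1 htT => ?_⟩
  obtain ⟨Dv, hLG⟩ := exists_LG hv
  have hT : 0 < T := ht.trans htT
  -- reduction to approximations
  suffices H : ∀ ε > 0, ∃ U : V3, ‖v t - U‖ ≤ ε ∧ Bd U (CB * A / √t) by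
    have h1 : ∀ n : ℕ, ∃ U : V3, ‖v t - U‖ ≤ 1 / ((n:ℝ) + 1) ∧ Bd U (CB * A / √t) :=
      fun n => H _ (by positivity)
    choose U hU1 hU2 using h1
    have h2 : Tendsto U atTop (𝓝 (v t)) := by
      rw [tendsto_iff_norm_sub_tendsto_zero]
      refine squeeze_zero (fun _ => norm_nonneg _) (fun n => ?_)
        tendsto_one_div_add_atTop_nhds_zero_nat
      rw [norm_sub_rev]
      exact hU1 n
    exact bd_mono (bd_of_tendsto h2 (Eventually.of_forall hU2))
      (div_le_div_of_nonneg_right hA4 (Real.sqrt_nonneg t))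
  intro ε' hε'
  set ε := ε' ^ 2 with hε
  have hεp : 0 < ε := by positivity
  set E := Real.exp (16 * L ^ 2) with hEd
  have hEp : 0 < E := Real.exp_pos _
  set θ := ε / (3 * E) with hθ
  have hθp : 0 < θ := by positivity
  obtain ⟨g, dg, l, r, hdec⟩ := hdat (√(θ / 2)) (Real.sqrt_pos.2 (by positivity))
  have hrr : ‖r‖ ^ 2 < θ := by
    have h1 := pow_le_pow_left₀ (norm_nonneg r) hdec.rr 2
    rw [Real.sq_sqrt (by positivity)] at h1
    linarith
  obtain ⟨s, hs0, hst', hs1⟩ : ∃ s, 0 < s ∧ s < t ∧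
      ‖u₀‖ ^ 2 - 2 * ⟪v s, cvO (et0 (√s)) (u₀ - r)⟫_ℝ + ‖cvO (et0 (√s)) (u₀ - r)‖ ^ 2 ≤ θ := by
    have h1 := (init_small hLG hT r).eventually (Iic_mem_nhds hrr)
    obtain ⟨s, h2, h3⟩ := (h1.and (Ioo_mem_nhdsGT ht)).exists
    exact ⟨s, h3.1, h3.2, h2⟩
  have hsq : 0 < √s := Real.sqrt_pos.2 hs0
  obtain ⟨hI, hH, M0, hN0⟩ := hin R hRZ A L _ s u₀ g dg l r hdec hA.le hL.le hs0
  have hM0 : 0 ≤ M0 := (norm_nonneg _).trans hN0.l0
  set B := CB * A / √s with hB
  have hBp : 0 < B := by positivity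
  set M := ‖u₀‖ + 1 / s + B + L + 1 with hM
  have hMp : 0 < M := by positivity
  have hu0n : 0 ≤ ‖u₀‖ := norm_nonneg _
  have h1s : 0 < 1 / s := by positivity
  have hMs : 1 / M ≤ s := by
    rw [div_le_iff₀ hMp]
    calc (1:ℝ) = s * (1 / s) := by field_simp
      _ ≤ s * M := mul_le_mul_of_nonneg_left (by rw [hM]; linarith) hs0.le
  have hBM : B ≤ M := by rw [hM]; linarith
  have hLM : L ≤ M := by rw [hM]; linarith
  have huM : ‖u₀‖ ≤ M := by rw [hM]; linarith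
  set Λ := Cc * ε' / (√s) ^ 3 with hΛ
  have hΛp : 0 < Λ := by positivity
  obtain ⟨η₀, hη0, C₁, hC₁, hr⟩ := hr M hMp
  obtain ⟨η₁, hη1, hsp⟩ := hsp s hs0 (hst'.trans htT1) Λ hΛp
  set q := θ / (C₁ * (‖u₀‖ ^ 2 + 1)) with hq
  have hqp : 0 < q := by positivity
  obtain ⟨η, hη, hη2, hη3, hη4⟩ : ∃ η : ℝ, 0 < η ∧ η < η₀ ∧ η < η₁ ∧ √η ≤ q := by
    refine ⟨min (min (η₀ / 2) (η₁ / 2)) (q ^ 2), by positivity, ?_, ?_, ?_⟩
    · exact lt_of_le_of_lt ((min_le_left _ _).trans (min_le_left _ _)) (by linarith)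
    · exact lt_of_le_of_lt ((min_le_left _ _).trans (min_le_right _ _)) (by linarith)
    · exact sqrt_le_of_sq hqp.le (min_le_right _ _)
  obtain ⟨d₁, hd1, hsp⟩ := hsp η hη hη3
  obtain ⟨Cs, hCs, d₂, hd2, hst⟩ := hst c Λ M η hc hΛp hMp hη
  set N := A + B + 1 with hN
  have hNp : 0 < N := by positivity
  set M' := (M0 + N) * Real.exp Cs with hM'
  have hM'p : 0 < M' := by positivity
  obtain ⟨C₂, hC2, d₀, hd0, hr⟩ := hr η hη hη2 M' hM'p
  set q' := θ / (C₂ * (‖u₀‖ ^ 2 + 1)) with hq'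
  have hq'p : 0 < q' := by positivity
  obtain ⟨K, hK, hd, hdδ, hKd⟩ := exists_step
    (show 0 < min (min (min d₁ d₂) (min d₀ 1)) (min (A / M ^ 2) (q' ^ 2)) by positivity)
    (show 0 < t - s by linarith)
  set d := (t - s) / K with hdd
  have hd1' : d < d₁ := lt_of_lt_of_le hdδ
    ((min_le_left _ _).trans ((min_le_left _ _).trans (min_le_left _ _)))
  have hd2' : d < d₂ := lt_of_lt_of_le hdδ
    ((min_le_left _ _).trans ((min_le_left _ _).trans (min_le_right _ _)))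
  have hd0' : d < d₀ := lt_of_lt_of_le hdδ
    ((min_le_left _ _).trans ((min_le_right _ _).trans (min_le_left _ _)))
  have hdone : d < 1 := lt_of_lt_of_le hdδ
    ((min_le_left _ _).trans ((min_le_right _ _).trans (min_le_right _ _)))
  have hdA : d * M ^ 2 ≤ A := by
    have h1 : d ≤ A / M ^ 2 := hdδ.le.trans ((min_le_right _ _).trans (min_le_left _ _))
    rwa [le_div_iff₀ (by positivity)] at h1
  have hdq : √d ≤ q' := sqrt_le_of_sq hq'p.le
    (hdδ.le.trans ((min_le_right _ _).trans (min_le_right _ _)))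
  have htK : tk s d K = t := by
    unfold tk
    rw [hKd]; ring
  have hkd : ∀ k ≤ K, (k:ℝ) * d ≤ 1 := by
    intro k hk
    have h1 : (k:ℝ) ≤ K := by exact_mod_cast hk
    calc (k:ℝ) * d ≤ K * d := mul_le_mul_of_nonneg_right h1 hd.le
      _ = t - s := hKd
      _ ≤ 1 := by linarith
  obtain ⟨ak, hak⟩ : ∃ ak : ℕ → ℝ, ∀ k, ak k =
    ∫ τ in Ioo (tk s d k) (tk s d k + d), ∑ i, ‖Dv τ i‖ ^ 2 := ⟨_, fun _ => rfl⟩
  have hak0 : ∀ k, 0 ≤ ak k := fun k => by
    rw [hak]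
    exact integral_nonneg fun τ => Finset.sum_nonneg fun i _ => by positivity
  obtain ⟨e, he⟩ : ∃ e : ℕ → ℝ, ∀ k, e k = C₁ * √η * ak k + C₂ * (d * √d) * (1 + ak k) :=
    ⟨_, fun _ => rfl⟩
  have he0 : ∀ k, 0 ≤ e k := fun k => by
    have h1 := hak0 k
    have h2 : 0 ≤ C₁ * √η * ak k := mul_nonneg (mul_nonneg hC₁.le (Real.sqrt_nonneg _)) h1
    have h3 : 0 ≤ C₂ * (d * √d) * (1 + ak k) :=
      mul_nonneg (mul_nonneg hC2.le (mul_nonneg hd.le (Real.sqrt_nonneg _))) (by linarith)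
    rw [he]
    linarith
  have htI : t ∈ Ico 0 T := ⟨ht.le, htT⟩
  have hsum : ∀ k ≤ K, ∑ i ∈ Finset.range k, ak i ≤ ‖u₀‖ ^ 2 := by
    intro k hk
    have h1 := sum_le_int (f := fun τ => ∑ i, ‖Dv τ i‖ ^ 2) hs0.le hd
      (fun τ => Finset.sum_nonneg fun i _ => by positivity) (K := K)
      (by rw [htK]; exact hLG.int t htI) k hk
    simp only [← hak] at h1
    have hkI : tk s d k ∈ Ico 0 T :=
      ⟨hs0.le.trans (le_tk hd k), ((tk_mono hd hk).trans_eq htK).trans_lt htT⟩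
    have h2 := hLG.en _ hkI
    have h3 : 0 ≤ ∑ i ∈ Finset.range k, ak i := Finset.sum_nonneg fun i _ => hak0 i
    have h4 : 0 ≤ ‖v (tk s d k)‖ ^ 2 := by positivity
    have h5 : 0 ≤ ∫ τ in Ioo 0 (tk s d k), ∑ i, ‖Dv τ i‖ ^ 2 :=
      integral_nonneg fun τ => Finset.sum_nonneg fun i _ => by positivity
    linarith
  have hesum : ∀ k ≤ K, ∑ i ∈ Finset.range k, e i ≤ 2 * θ := by
    intro k hk
    have h1 : ∑ i ∈ Finset.range k, e i = C₁ * √η * (∑ i ∈ Finset.range k, ak i) +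
        C₂ * (d * √d) * (k + ∑ i ∈ Finset.range k, ak i) := by
      simp only [he]
      rw [Finset.sum_add_distrib, ← Finset.mul_sum, ← Finset.mul_sum, Finset.sum_add_distrib]
      simp
    have h2 := hsum k hk
    have h3 : 0 ≤ ∑ i ∈ Finset.range k, ak i := Finset.sum_nonneg fun i _ => hak0 i
    have h4 : C₁ * √η * (∑ i ∈ Finset.range k, ak i) ≤ θ := by
      calc C₁ * √η * (∑ i ∈ Finset.range k, ak i) ≤ C₁ * q * (‖u₀‖ ^ 2 + 1) := by
            apply mul_le_mul (mul_le_mul_of_nonneg_left hη4 hC₁.le) (by linarith) h3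
              (by positivity)
        _ = θ := by rw [hq]; field_simp
    have h5 : C₂ * (d * √d) * (k + ∑ i ∈ Finset.range k, ak i) ≤ θ := by
      have h6 : d * (k + ∑ i ∈ Finset.range k, ak i) ≤ ‖u₀‖ ^ 2 + 1 := by
        have h7 := hkd k hk
        have h8 : d * ∑ i ∈ Finset.range k, ak i ≤ 1 * ‖u₀‖ ^ 2 :=
          mul_le_mul hdone.le h2 h3 zero_le_one
        linarith
      calc C₂ * (d * √d) * (k + ∑ i ∈ Finset.range k, ak i)
          = C₂ * √d * (d * (k + ∑ i ∈ Finset.range k, ak i)) := by ring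
        _ ≤ C₂ * q' * (‖u₀‖ ^ 2 + 1) := by
            apply mul_le_mul (mul_le_mul_of_nonneg_left hdq hC2.le) h6 (by positivity)
              (by positivity)
        _ = θ := by rw [hq']; field_simp
    rw [h1]
    linarith
  have hxpow : ∀ k ≤ K, (1 + 16 * L ^ 2 * d) ^ k ≤ E := by
    intro k hk
    apply one_add_pow_le (by positivity)
    calc (k:ℝ) * (16 * L ^ 2 * d) = 16 * L ^ 2 * (k * d) := by ring
      _ ≤ 16 * L ^ 2 * 1 := mul_le_mul_of_nonneg_left (hkd k hk) (by positivity)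
      _ = 16 * L ^ 2 := mul_one _
  have hEk : ∀ k ≤ K, (1 + 16 * L ^ 2 * d) ^ k * (θ + ∑ i ∈ Finset.range k, e i) ≤ ε := by
    intro k hk
    calc _ ≤ E * (3 * θ) := by
          apply mul_le_mul (hxpow k hk) (by linarith [hesum k hk]) _ hEp.le
          exact add_nonneg hθp.le (Finset.sum_nonneg fun i _ => he0 i)
      _ = ε := by rw [hθ]; field_simp
  have hfin := run_ind (K := K) (e := e) (c := c) (Ci := Ci) (CB := CB) (A := A) (L := L) (s := s)
    (d := d) (η := η) (Λ := Λ) (ε := ε) (θ := θ) (x := 16 * L ^ 2 * d) (N := N) (C := Cs)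
    (M0 := M0) (M' := M') hLG hRZ hs0 hd (by rw [htK]; linarith) (by rw [htK]; exact htT) hI hN0
    hdv (by positivity) ?_ ?_ ?_ ?_ ?_ (by positivity) he0 hEk ?_ K le_rfl
  · refine ⟨Hh R (flow R η s d v (ini s g l) K), ?_, ?_⟩
    · have h1 := sq_le_Phi hLG htI (Hh R (flow R η s d v (ini s g l) K))
      have h2 := hfin.phi
      rw [htK] at h2
      have h3 := h1.trans (h2.trans (hEk K le_rfl))
      rw [hε] at h3
      exact le_of_sq_le h3 hε'.le
    · have h1 := hfin.bd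
      rwa [htK] at h1
  · -- coefficients
    intro r' hr1 hr2 w hw hwε
    have hr0 : 0 < r' := hsq.trans_le hr1
    refine (hcf r' hr0 hr2 w hw).mono ?_
    have h1 : ‖w‖ ≤ ε' := le_of_sq_le hwε hε'.le
    rw [hΛ]
    apply div_le_div₀ (by positivity) (mul_le_mul_of_nonneg_left h1 hCc.le) (by positivity)
    exact pow_le_pow_left₀ hsq.le hr1 3
  · -- one step
    intro r' b lam hr1 hcc σ M'' h1 h2 h3 h4 h5 h6 h7 h8
    have hMr : 1 / M ≤ r' := by
      have h10 : s ≤ √s := le_sqrt_self hs0.le (by linarith)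
      linarith
    obtain ⟨k1, k2, k3, k4, k5, -, k7⟩ := hst d hd hd2' R hRZ r' b lam hMr hcc σ M'' L A B h1 h2 h3
      (bd_mono h4 hBM) h5 hL.le h6 h7 h8
    refine ⟨k1, k2, k3, k4, k5.mono (by linarith), k7.mono (le_of_eq ?_)⟩
    rw [hN]; ring
  · intro k hk σ b lam j1 j2 j3 j4
    exact hsp d hd hd1' R hRZ k σ b lam
      (((tk_mono hd hk).trans_eq htK).trans htT1.le) j1 j2 j3 j4
  · intro k hk σ j1 j2 j3 j4 j5 j6 j7 j8
    have hkt : tk s d k ≤ t := (tk_mono hd hk.le).trans_eq htK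
    have hks : s ≤ tk s d k := le_tk hd k
    have hsqk : 0 ≤ √(tk s d k) := Real.sqrt_nonneg _
    have hMt : 1 / M ≤ tk s d k := hMs.trans hks
    have hnext : tk s d k + d ≤ t := by
      rw [← tk_succ, ← htK]
      exact tk_mono hd hk
    have h1 := hr d hd hd0' R hRZ T u₀ v Dv hLG huM (tk s d k) L hMt
      (by linarith) (by linarith) hL.le hLM σ j1 j2 j3 (j4.mono hA2)
      (j5.mono (div_le_div_of_nonneg_right hA3 hsqk)) (bd_mono j6 hBM) j7 j8
    refine h1.trans (le_of_eq ?_)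
    simp only [he, hak]
    ring
  · intro k hk
    have h1 : (1 + Cs * d) ^ k ≤ Real.exp Cs := by
      apply one_add_pow_le (by positivity)
      calc (k:ℝ) * (Cs * d) = Cs * (k * d) := by ring
        _ ≤ Cs * 1 := mul_le_mul_of_nonneg_left (hkd k hk) hCs.le
        _ = Cs := mul_one _
    unfold grw
    rw [hM']
    have h2 : (M0 + N) * (1 + Cs * d) ^ k ≤ (M0 + N) * Real.exp Cs :=
      mul_le_mul_of_nonneg_left h1 (by positivity)
    linarith
  · rw [hH]
    unfold Phi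
    have h5 : 0 ≤ ∫ τ in Ioo 0 s, ∑ i, ‖Dv τ i‖ ^ 2 :=
      integral_nonneg fun τ => Finset.sum_nonneg fun i _ => by positivity
    linarith

end Pool.Agent.TF
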