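import Pool.Agent.TF.Flow

/-!
# Project TF, block S1: the Bernstein functional and the jump inequality (helper55)
-/

set_option autoImplicit false

namespace Pool.Agent.TF

open MeasureTheory Set Filter Topology Pool.Agent.TO Pool.Agent.TB
open scoped ENNReal NNReal Real InnerProductSpace

section N2

variable {ι κ : Type*} [Fintype ι] [Fintype κ] {F : Type*} [NormedAddCommGroup F] [NormedSpace ℝ F]

/-- the Euclidean norm of a finite family of vectors -/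
noncomputable def N2 (v : ι → F) : ℝ := √(∑ i, ‖v i‖ ^ 2)

theorem N2_eq (v : ι → F) : N2 v = ‖(WithLp.toLp 2 v : PiLp 2 fun _ : ι => F)‖ := by
  rw [PiLp.norm_eq_of_L2]
  rfl

theorem N2_nonneg (v : ι → F) : 0 ≤ N2 v := Real.sqrt_nonneg _

theorem N2_sq (v : ι → F) : N2 v ^ 2 = ∑ i, ‖v i‖ ^ 2 :=
  Real.sq_sqrt (Finset.sum_nonneg fun _ _ => by positivity)

theorem N2_add (v w : ι → F) : N2 (fun i => v i + w i) ≤ N2 v + N2 w := by
  rw [N2_eq, N2_eq, N2_eq]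
  exact norm_add_le (WithLp.toLp 2 v : PiLp 2 fun _ : ι => F) (WithLp.toLp 2 w)

theorem N2_sub (v w : ι → F) : N2 (fun i => v i - w i) ≤ N2 v + N2 w := by
  rw [N2_eq, N2_eq, N2_eq]
  exact norm_sub_le (WithLp.toLp 2 v : PiLp 2 fun _ : ι => F) (WithLp.toLp 2 w)

theorem N2_smul (c : ℝ) (v : ι → F) : N2 (fun i => c • v i) = |c| * N2 v := by
  rw [N2_eq, N2_eq]
  exact norm_smul c (WithLp.toLp 2 v : PiLp 2 fun _ : ι => F)

theorem N2_smul_const (a : ι → ℝ) (v : F) : N2 (fun i => a i • v) = N2 a * ‖v‖ := by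
  unfold N2
  rw [← Real.sqrt_sq (norm_nonneg v), ← Real.sqrt_mul (Finset.sum_nonneg fun _ _ => by positivity),
    Finset.sum_mul]
  congr 1
  refine Finset.sum_congr rfl fun i _ => ?_
  rw [norm_smul, mul_pow]

theorem N2_mul (a : ι → ℝ) (v : κ → F) :
    N2 (fun p : ι × κ => a p.1 • v p.2) = N2 a * N2 v := by
  unfold N2
  rw [← Real.sqrt_mul (Finset.sum_nonneg fun _ _ => by positivity), Fintype.sum_prod_type,
    Finset.sum_mul]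
  congr 1
  refine Finset.sum_congr rfl fun i _ => ?_
  rw [Finset.mul_sum]
  refine Finset.sum_congr rfl fun j _ => ?_
  rw [norm_smul, mul_pow]

theorem N2_swap (v : ι → κ → F) :
    N2 (fun p : ι × κ => v p.1 p.2) = N2 (fun p : κ × ι => v p.2 p.1) := by
  unfold N2
  congr 1
  rw [Fintype.sum_prod_type, Fintype.sum_prod_type, Finset.sum_comm]

/-- the norm of a matrix product -/
theorem N2_mat (B : ι → ι → ℝ) (w : ι → κ → F) :
    N2 (fun p : ι × κ => ∑ k, B p.1 k • w k p.2) ≤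
      N2 (fun p : ι × ι => B p.1 p.2) * N2 (fun p : ι × κ => w p.1 p.2) := by
  unfold N2
  rw [← Real.sqrt_mul (Finset.sum_nonneg fun _ _ => by positivity)]
  apply Real.sqrt_le_sqrt
  simp only [Fintype.sum_prod_type]
  have h1 : ∀ i j, ‖∑ k, B i k • w k j‖ ^ 2 ≤ (∑ k, ‖B i k‖ ^ 2) * ∑ k, ‖w k j‖ ^ 2 := by
    intro i j
    have h2 : ‖∑ k, B i k • w k j‖ ≤ ∑ k, ‖B i k‖ * ‖w k j‖ := by
      refine (norm_sum_le _ _).trans (le_of_eq ?_)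
      exact Finset.sum_congr rfl fun k _ => norm_smul _ _
    calc ‖∑ k, B i k • w k j‖ ^ 2 ≤ (∑ k, ‖B i k‖ * ‖w k j‖) ^ 2 := by gcongr
      _ ≤ _ := Finset.sum_mul_sq_le_sq_mul_sq _ _ _
  calc ∑ i, ∑ j, ‖∑ k, B i k • w k j‖ ^ 2
      ≤ ∑ i, ∑ j, (∑ k, ‖B i k‖ ^ 2) * ∑ k, ‖w k j‖ ^ 2 :=
        Finset.sum_le_sum fun i _ => Finset.sum_le_sum fun j _ => h1 i j
    _ = (∑ i, ∑ k, ‖B i k‖ ^ 2) * ∑ k, ∑ j, ‖w k j‖ ^ 2 := by
        rw [Finset.sum_mul]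
        refine Finset.sum_congr rfl fun i _ => ?_
        rw [← Finset.mul_sum, Finset.sum_comm]

theorem N2_mat1 (B : ι → ι → ℝ) (w : ι → F) :
    N2 (fun i => ∑ k, B i k • w k) ≤ N2 (fun p : ι × ι => B p.1 p.2) * N2 w := by
  have h := N2_mat B (fun k (_ : Unit) => w k)
  have h1 : ∀ v : ι → F, N2 (fun p : ι × Unit => v p.1) = N2 v := by
    intro v
    unfold N2
    congr 1
    simp [Fintype.sum_prod_type]
  rw [h1 (fun i => ∑ k, B i k • w k), h1 w] at h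
  exact h

end N2

section alg

/-- the algebra of one jump -/
theorem jump_alg {q a X Y Z X' Y' Z' : ℝ} (hq0 : 0 ≤ q) (hq : q ≤ 1 / 2) (ha : 0 ≤ a)
    (ha2 : a ^ 2 ≤ 1 / 8) (hX : 0 ≤ X) (hY : 0 ≤ Y) (hZ : 0 ≤ Z) (hX'0 : 0 ≤ X') (hY'0 : 0 ≤ Y')
    (hZ'0 : 0 ≤ Z') (hX' : X' ≤ (1 - q) * X) (hY' : Y' ≤ (1 - q / 2) * Y + a * q * X)
    (hZ' : Z' ≤ (1 - q / 2) * Z + a * q * (X + Y)) :
    X' ^ 2 + Y' ^ 2 + Z' ^ 2 ≤ X ^ 2 + Y ^ 2 + Z ^ 2 := by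
  have h1 : X' ^ 2 ≤ (1 - q) * X ^ 2 := by
    have h2 : X' ^ 2 ≤ ((1 - q) * X) ^ 2 := by gcongr
    have h3 : ((1 - q) * X) ^ 2 ≤ (1 - q) * X ^ 2 := by
      have : (1 - q) * X ^ 2 - ((1 - q) * X) ^ 2 = (1 - q) * q * X ^ 2 := by ring
      have h4 : 0 ≤ (1 - q) * q * X ^ 2 := by
        have : 0 ≤ 1 - q := by linarith
        positivity
      linarith
    linarith
  have conv : ∀ u v : ℝ, ((1 - q / 2) * u + q / 2 * v) ^ 2 ≤
      (1 - q / 2) * u ^ 2 + q / 2 * v ^ 2 := by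
    intro u v
    have h5 : (1 - q / 2) * u ^ 2 + q / 2 * v ^ 2 - ((1 - q / 2) * u + q / 2 * v) ^ 2 =
        (1 - q / 2) * (q / 2) * (u - v) ^ 2 := by ring
    have h6 : 0 ≤ (1 - q / 2) * (q / 2) * (u - v) ^ 2 := by
      have : 0 ≤ 1 - q / 2 := by linarith
      positivity
    linarith
  have h2 : Y' ^ 2 ≤ (1 - q / 2) * Y ^ 2 + q / 2 * (2 * a * X) ^ 2 := by
    have h3 : Y' ≤ (1 - q / 2) * Y + q / 2 * (2 * a * X) := by linarith
    calc Y' ^ 2 ≤ ((1 - q / 2) * Y + q / 2 * (2 * a * X)) ^ 2 := by gcongr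
      _ ≤ _ := conv _ _
  have h3 : Z' ^ 2 ≤ (1 - q / 2) * Z ^ 2 + q / 2 * (2 * a * (X + Y)) ^ 2 := by
    have h3 : Z' ≤ (1 - q / 2) * Z + q / 2 * (2 * a * (X + Y)) := by linarith
    calc Z' ^ 2 ≤ ((1 - q / 2) * Z + q / 2 * (2 * a * (X + Y))) ^ 2 := by gcongr
      _ ≤ _ := conv _ _
  have h4 : (X + Y) ^ 2 ≤ 2 * (X ^ 2 + Y ^ 2) := by nlinarith [sq_nonneg (X - Y)]
  have h5 : q / 2 * (2 * a * X) ^ 2 = 2 * (a ^ 2 * (q * X ^ 2)) := by ring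
  have h6 : q / 2 * (2 * a * (X + Y)) ^ 2 = 2 * (a ^ 2 * (q * (X + Y) ^ 2)) := by ring
  have h7 : a ^ 2 * (q * X ^ 2) ≤ 1 / 8 * (q * X ^ 2) := by gcongr
  have h8 : a ^ 2 * (q * (X + Y) ^ 2) ≤ 1 / 8 * (q * (2 * (X ^ 2 + Y ^ 2))) := by gcongr
  have h9 : 0 ≤ q * X ^ 2 := by positivity
  have h10 : 0 ≤ q * Y ^ 2 := by positivity
  have h11 : 0 ≤ q * Z ^ 2 := by positivity
  nlinarith

end alg

end Pool.Agent.TF
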