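import Pool.Agent.TF.BernA

/-!
# Project TF, block S1: partial derivatives and the jump inequality (helper55)
-/

set_option autoImplicit false

namespace Pool.Agent.TF

open MeasureTheory Set Filter Topology Pool.Agent.TO Pool.Agent.TB
open scoped ENNReal NNReal Real InnerProductSpace

section defs

variable {F : Type*} [NormedAddCommGroup F] [NormedSpace ℝ F]

/-- `C²` with bounds -/
structure C2b (f : E3 → F) : Prop where
  cd : ContDiff ℝ 2 f
  b0 : ∃ C, ∀ x, ‖f x‖ ≤ C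
  b1 : ∃ C, ∀ i x, ‖pd i f x‖ ≤ C
  b2 : ∃ C, ∀ i j x, ‖pd i (pd j f) x‖ ≤ C

/-- the Bernstein functional -/
noncomputable def Bs (p : ℝ) (f : E3 → F) (x : E3) : ℝ :=
  ‖f x‖ ^ 2 + p * ∑ i, ‖pd i f x‖ ^ 2 + p ^ 2 * ∑ i, ∑ j, ‖pd i (pd j f) x‖ ^ 2

/-- the shift `x ↦ x - d b(x)` -/
def Sh (d : ℝ) (b : E3 → E3) (x : E3) : E3 := x - d • b x

/-- the size of the gradient -/
noncomputable def D1 (f : E3 → F) (x : E3) : ℝ := N2 fun i => pd i f x

/-- the size of the second derivative -/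
noncomputable def D2 (f : E3 → F) (x : E3) : ℝ := N2 fun p : Fin 3 × Fin 3 => pd p.1 (pd p.2 f) x

theorem D1_nonneg (f : E3 → F) (x : E3) : 0 ≤ D1 f x := N2_nonneg _

theorem D2_nonneg (f : E3 → F) (x : E3) : 0 ≤ D2 f x := N2_nonneg _

theorem D1_sq (f : E3 → F) (x : E3) : D1 f x ^ 2 = ∑ i, ‖pd i f x‖ ^ 2 := N2_sq _

theorem D2_sq (f : E3 → F) (x : E3) : D2 f x ^ 2 = ∑ i, ∑ j, ‖pd i (pd j f) x‖ ^ 2 := by
  rw [D2, N2_sq, Fintype.sum_prod_type]

theorem Bs_eq {p : ℝ} (hp : 0 ≤ p) (f : E3 → F) (x : E3) :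
    Bs p f x = ‖f x‖ ^ 2 + (√p * D1 f x) ^ 2 + (p * D2 f x) ^ 2 := by
  rw [Bs, mul_pow, mul_pow, Real.sq_sqrt hp, D1_sq, D2_sq]

theorem Bs_nonneg {p : ℝ} (hp : 0 ≤ p) (f : E3 → F) (x : E3) : 0 ≤ Bs p f x := by
  rw [Bs_eq hp]
  positivity

theorem contDiff_pd {n : WithTop ℕ∞} {m : WithTop ℕ∞} {f : E3 → F} (hf : ContDiff ℝ n f)
    (hm : m + 1 ≤ n) (i : Fin 3) : ContDiff ℝ m (pd i f) :=
  (hf.fderiv_right hm).clm_apply contDiff_const

theorem cd_pd {f : E3 → F} (hf : ContDiff ℝ 2 f) (i : Fin 3) : ContDiff ℝ 1 (pd i f) :=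
  contDiff_pd hf (by norm_num) i

theorem diff_of {f : E3 → F} (hf : ContDiff ℝ 2 f) : Differentiable ℝ f :=
  hf.differentiable (by norm_num)

theorem diff_pd {f : E3 → F} (hf : ContDiff ℝ 2 f) (i : Fin 3) : Differentiable ℝ (pd i f) :=
  (cd_pd hf i).differentiable (by norm_num)

theorem sum_ee (v : E3) : v = ∑ k, v k • (ee k : E3) := by
  have h := (EuclideanSpace.basisFun (Fin 3) ℝ).sum_repr v
  simp only [EuclideanSpace.basisFun_apply, EuclideanSpace.basisFun_repr] at h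
  exact h.symm

theorem fderiv_eq_sum (f : E3 → F) (x v : E3) : fderiv ℝ f x v = ∑ k, v k • pd k f x := by
  conv_lhs => rw [sum_ee v]
  rw [map_sum]
  refine Finset.sum_congr rfl fun k _ => ?_
  rw [map_smul]
  rfl

theorem pd_smul_fun {m : E3 → ℝ} {u : E3 → F} {x : E3} (hm : DifferentiableAt ℝ m x)
    (hu : DifferentiableAt ℝ u x) (i : Fin 3) :
    pd i (fun y => m y • u y) x = m x • pd i u x + pd i m x • u x := by
  unfold pd
  rw [fderiv_fun_smul hm hu]
  simp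

theorem pd_sub {f g : E3 → F} {x : E3} (hf : DifferentiableAt ℝ f x)
    (hg : DifferentiableAt ℝ g x) (i : Fin 3) :
    pd i (fun y => f y - g y) x = pd i f x - pd i g x := by
  unfold pd
  rw [fderiv_fun_sub hf hg]
  simp

theorem pd_add {f g : E3 → F} {x : E3} (hf : DifferentiableAt ℝ f x)
    (hg : DifferentiableAt ℝ g x) (i : Fin 3) :
    pd i (fun y => f y + g y) x = pd i f x + pd i g x := by
  unfold pd
  rw [fderiv_fun_add hf hg]
  simp

theorem pd_const_smul {f : E3 → F} {x : E3} (hf : DifferentiableAt ℝ f x) (c : ℝ) (i : Fin 3) :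
    pd i (fun y => c • f y) x = c • pd i f x := by
  unfold pd
  rw [fderiv_fun_const_smul hf]
  simp

theorem pd_sum {ι : Type*} {s : Finset ι} {f : ι → E3 → F} {x : E3}
    (hf : ∀ k ∈ s, DifferentiableAt ℝ (f k) x) (i : Fin 3) :
    pd i (fun y => ∑ k ∈ s, f k y) x = ∑ k ∈ s, pd i (f k) x := by
  unfold pd
  rw [fderiv_fun_sum hf]
  simp

theorem pd_id (i : Fin 3) (x : E3) : pd i (fun y : E3 => y) x = ee i := by
  unfold pd
  simp

theorem pd_coord {b : E3 → E3} {x : E3} (hb : DifferentiableAt ℝ b x) (i k : Fin 3) :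
    pd i (fun y => b y k) x = pd i b x k := by
  unfold pd
  have h : HasFDerivAt (fun y => b y k)
      ((EuclideanSpace.proj k : E3 →L[ℝ] ℝ).comp (fderiv ℝ b x)) x :=
    (EuclideanSpace.proj k : E3 →L[ℝ] ℝ).hasFDerivAt.comp x hb.hasFDerivAt
  rw [h.fderiv]
  rfl

theorem norm_sq_E3 (v : E3) : ‖v‖ ^ 2 = ∑ k, ‖v k‖ ^ 2 := EuclideanSpace.norm_sq_eq v

theorem N2_coord {ι : Type*} [Fintype ι] (v : ι → E3) :
    N2 (fun p : ι × Fin 3 => v p.1 p.2) = N2 v := by
  unfold N2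
  congr 1
  rw [Fintype.sum_prod_type]
  exact Finset.sum_congr rfl fun i _ => (norm_sq_E3 _).symm

end defs

section chain

variable {F : Type*} [NormedAddCommGroup F] [NormedSpace ℝ F]
variable {d : ℝ} {b : E3 → E3} {f : E3 → F}

theorem contDiff_Sh {n : WithTop ℕ∞} (hb : ContDiff ℝ n b) : ContDiff ℝ n (Sh d b) := by
  unfold Sh
  fun_prop

theorem pd_Sh (hb : Differentiable ℝ b) (i : Fin 3) (x : E3) :
    pd i (Sh d b) x = ee i - d • pd i b x := by
  unfold Sh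
  have h1 : DifferentiableAt ℝ (fun y => d • b y) x := (hb x).fun_const_smul d
  rw [pd_sub differentiableAt_fun_id h1, pd_id, pd_const_smul (hb x)]

theorem pd_comp_Sh (hb : Differentiable ℝ b) (hf : Differentiable ℝ f) (i : Fin 3) (x : E3) :
    pd i (fun y => f (Sh d b y)) x =
      pd i f (Sh d b x) - d • ∑ k, pd i b x k • pd k f (Sh d b x) := by
  have hS : DifferentiableAt ℝ (Sh d b) x := differentiableAt_id.sub ((hb x).const_smul d)
  have h1 : pd i (fun y => f (Sh d b y)) x = fderiv ℝ f (Sh d b x) (pd i (Sh d b) x) := by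
    unfold pd
    have := fderiv_comp x (hf (Sh d b x)) hS
    change fderiv ℝ (f ∘ Sh d b) x (ee i) = _
    rw [this]
    rfl
  rw [h1, pd_Sh hb, map_sub, map_smul, fderiv_eq_sum f _ (pd i b x)]
  rfl

theorem pd_pd_comp_Sh (hb : ContDiff ℝ 2 b) (hf : ContDiff ℝ 2 f) (i j : Fin 3) (x : E3) :
    pd i (pd j (fun y => f (Sh d b y))) x =
      pd i (fun y => pd j f (Sh d b y)) x -
      d • ∑ k, (pd j b x k • pd i (fun y => pd k f (Sh d b y)) x +
        pd i (pd j b) x k • pd k f (Sh d b x)) := by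
  have h1 : pd j (fun y => f (Sh d b y)) = fun y =>
      pd j f (Sh d b y) - d • ∑ k, pd j b y k • pd k f (Sh d b y) := by
    ext y
    exact pd_comp_Sh (diff_of hb) (diff_of hf) j y
  have hS : Differentiable ℝ (Sh d b) := (contDiff_Sh hb).differentiable (by norm_num)
  have d1 : ∀ k, Differentiable ℝ (fun y => pd k f (Sh d b y)) := fun k =>
    (diff_pd hf k).comp hS
  have d2 : ∀ k : Fin 3, Differentiable ℝ (fun y => pd j b y k) := fun k => by
    have := diff_pd hb j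
    fun_prop
  rw [h1, pd_sub (d1 j x)]
  · congr 1
    rw [pd_const_smul]
    · congr 1
      rw [pd_sum]
      · refine Finset.sum_congr rfl fun k _ => ?_
        rw [pd_smul_fun (d2 k x) (d1 k x), pd_coord (diff_pd hb j x)]
      · intro k _
        exact (d2 k x).smul (d1 k x)
    · exact DifferentiableAt.fun_sum fun k _ => (d2 k x).smul (d1 k x)
  · exact (DifferentiableAt.fun_sum fun k _ => (d2 k x).smul (d1 k x)).const_smul d

theorem D1_comp_le (hd : 0 ≤ d) (hb : Differentiable ℝ b) (hf : Differentiable ℝ f) (x : E3) :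
    D1 (fun y => f (Sh d b y)) x ≤ (1 + d * D1 b x) * D1 f (Sh d b x) := by
  have h1 : D1 (fun y => f (Sh d b y)) x = N2 fun i => pd i f (Sh d b x) -
      d • ∑ k, pd i b x k • pd k f (Sh d b x) := by
    unfold D1
    congr 1
    ext i
    exact pd_comp_Sh hb hf i x
  rw [h1]
  refine (N2_sub _ _).trans ?_
  rw [N2_smul, abs_of_nonneg hd]
  have h2 := N2_mat1 (fun i k => pd i b x k) (fun k => pd k f (Sh d b x))
  rw [N2_coord (fun i => pd i b x)] at h2
  calc N2 (fun i => pd i f (Sh d b x)) + d * N2 (fun i => ∑ k, pd i b x k • pd k f (Sh d b x))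
      ≤ D1 f (Sh d b x) + d * (D1 b x * D1 f (Sh d b x)) := by
        gcongr
        · exact le_rfl
        · exact h2
    _ = (1 + d * D1 b x) * D1 f (Sh d b x) := by ring

theorem D2_comp_le (hd : 0 ≤ d) (hb : ContDiff ℝ 2 b) (hf : ContDiff ℝ 2 f) (x : E3) :
    D2 (fun y => f (Sh d b y)) x ≤ (1 + d * D1 b x) ^ 2 * D2 f (Sh d b x) +
      d * D2 b x * D1 f (Sh d b x) := by
  set H : Fin 3 → Fin 3 → F := fun i k => pd i (fun y => pd k f (Sh d b y)) x with hH
  have hHle : N2 (fun p : Fin 3 × Fin 3 => H p.1 p.2) ≤ (1 + d * D1 b x) * D2 f (Sh d b x) := by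
    have h1 : (fun p : Fin 3 × Fin 3 => H p.1 p.2) = fun p => pd p.1 (pd p.2 f) (Sh d b x) -
        d • ∑ l, pd p.1 b x l • pd l (pd p.2 f) (Sh d b x) := by
      ext p
      exact pd_comp_Sh (diff_of hb) (diff_pd hf p.2) p.1 x
    rw [h1]
    refine (N2_sub _ _).trans ?_
    rw [N2_smul, abs_of_nonneg hd]
    have h2 := N2_mat (fun i k => pd i b x k) (fun l k => pd l (pd k f) (Sh d b x))
    rw [N2_coord (fun i => pd i b x)] at h2
    calc N2 (fun p : Fin 3 × Fin 3 => pd p.1 (pd p.2 f) (Sh d b x)) +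
          d * N2 (fun p : Fin 3 × Fin 3 => ∑ l, pd p.1 b x l • pd l (pd p.2 f) (Sh d b x))
        ≤ D2 f (Sh d b x) + d * (D1 b x * D2 f (Sh d b x)) := by
          gcongr
          · exact le_rfl
          · exact h2
      _ = _ := by ring
  have h3 : D2 (fun y => f (Sh d b y)) x = N2 fun p : Fin 3 × Fin 3 =>
      (H p.1 p.2 - d • ∑ k, pd p.2 b x k • H p.1 k) -
        d • ∑ k, pd p.1 (pd p.2 b) x k • pd k f (Sh d b x) := by
    unfold D2
    congr 1
    ext p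
    rw [pd_pd_comp_Sh hb hf, Finset.sum_add_distrib, smul_add, ← sub_sub]
  rw [h3]
  refine (N2_sub _ _).trans ?_
  rw [N2_smul, abs_of_nonneg hd]
  have h4 : N2 (fun p : Fin 3 × Fin 3 => H p.1 p.2 - d • ∑ k, pd p.2 b x k • H p.1 k) ≤
      (1 + d * D1 b x) * N2 (fun p : Fin 3 × Fin 3 => H p.1 p.2) := by
    refine (N2_sub _ _).trans ?_
    rw [N2_smul, abs_of_nonneg hd]
    have h5 := N2_mat (fun j k => pd j b x k) (fun k i => H i k)
    rw [N2_coord (fun i => pd i b x), ← N2_swap (fun i j => ∑ k, pd j b x k • H i k),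
      ← N2_swap (fun i k => H i k)] at h5
    calc N2 (fun p : Fin 3 × Fin 3 => H p.1 p.2) +
          d * N2 (fun p : Fin 3 × Fin 3 => ∑ k, pd p.2 b x k • H p.1 k)
        ≤ N2 (fun p : Fin 3 × Fin 3 => H p.1 p.2) +
          d * (D1 b x * N2 (fun p : Fin 3 × Fin 3 => H p.1 p.2)) := by
          gcongr
          exact h5
      _ = _ := by ring
  have h6 : N2 (fun p : Fin 3 × Fin 3 => ∑ k, pd p.1 (pd p.2 b) x k • pd k f (Sh d b x)) ≤
      D2 b x * D1 f (Sh d b x) := by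
    unfold N2 D2 D1 N2
    rw [← Real.sqrt_mul (Finset.sum_nonneg fun _ _ => by positivity)]
    apply Real.sqrt_le_sqrt
    rw [Finset.sum_mul]
    refine Finset.sum_le_sum fun p _ => ?_
    have h7 : ‖∑ k, pd p.1 (pd p.2 b) x k • pd k f (Sh d b x)‖ ≤
        ∑ k, ‖pd p.1 (pd p.2 b) x k‖ * ‖pd k f (Sh d b x)‖ := by
      refine (norm_sum_le _ _).trans (le_of_eq ?_)
      exact Finset.sum_congr rfl fun k _ => norm_smul _ _
    rw [norm_sq_E3 (pd p.1 (pd p.2 b) x)]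
    calc ‖∑ k, pd p.1 (pd p.2 b) x k • pd k f (Sh d b x)‖ ^ 2
        ≤ (∑ k, ‖pd p.1 (pd p.2 b) x k‖ * ‖pd k f (Sh d b x)‖) ^ 2 := by gcongr
      _ ≤ _ := Finset.sum_mul_sq_le_sq_mul_sq _ _ _
  have h8 : 0 ≤ 1 + d * D1 b x := by
    have := D1_nonneg b x
    positivity
  calc N2 (fun p : Fin 3 × Fin 3 => H p.1 p.2 - d • ∑ k, pd p.2 b x k • H p.1 k) +
        d * N2 (fun p : Fin 3 × Fin 3 => ∑ k, pd p.1 (pd p.2 b) x k • pd k f (Sh d b x))
      ≤ (1 + d * D1 b x) * ((1 + d * D1 b x) * D2 f (Sh d b x)) +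
        d * (D2 b x * D1 f (Sh d b x)) := by
        gcongr
        exact h4.trans (by gcongr)
    _ = _ := by ring

end chain

section mult

variable {F : Type*} [NormedAddCommGroup F] [NormedSpace ℝ F]
variable {d : ℝ} {lam : E3 → ℝ} {u : E3 → F}

theorem pd_one_sub (hl : Differentiable ℝ lam) (i : Fin 3) (x : E3) :
    pd i (fun y => 1 - d * lam y) x = -(d * pd i lam x) := by
  unfold pd
  rw [fderiv_const_sub, fderiv_const_mul (hl x)]
  simp

theorem pd_mul_eq (hl : Differentiable ℝ lam) (hu : Differentiable ℝ u) (i : Fin 3) (x : E3) :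
    pd i (fun y => (1 - d * lam y) • u y) x =
      (1 - d * lam x) • pd i u x - d • (pd i lam x • u x) := by
  have h1 : DifferentiableAt ℝ (fun y => 1 - d * lam y) x := by
    have := hl x
    fun_prop
  rw [pd_smul_fun h1 (hu x), pd_one_sub hl, neg_smul, mul_smul, ← sub_eq_add_neg]

theorem D1_mul_le (hd : 0 ≤ d) (hl : Differentiable ℝ lam) (hu : Differentiable ℝ u) (x : E3)
    (h0 : d * lam x ≤ 1) :
    D1 (fun y => (1 - d * lam y) • u y) x ≤
      (1 - d * lam x) * D1 u x + d * D1 lam x * ‖u x‖ := by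
  have h1 : D1 (fun y => (1 - d * lam y) • u y) x = N2 fun i =>
      (1 - d * lam x) • pd i u x - d • (pd i lam x • u x) := by
    unfold D1
    congr 1
    ext i
    exact pd_mul_eq hl hu i x
  rw [h1]
  refine (N2_sub _ _).trans ?_
  rw [N2_smul, N2_smul, abs_of_nonneg hd, abs_of_nonneg (by linarith), N2_smul_const, mul_assoc]
  exact le_rfl

theorem D2_mul_le (hd : 0 ≤ d) (hl : ContDiff ℝ 2 lam) (hu : ContDiff ℝ 2 u) (x : E3)
    (h0 : d * lam x ≤ 1) :
    D2 (fun y => (1 - d * lam y) • u y) x ≤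
      (1 - d * lam x) * D2 u x + 2 * (d * D1 lam x * D1 u x) + d * D2 lam x * ‖u x‖ := by
  have h1 : D2 (fun y => (1 - d * lam y) • u y) x = N2 fun p : Fin 3 × Fin 3 =>
      (((1 - d * lam x) • pd p.1 (pd p.2 u) x - d • (pd p.1 lam x • pd p.2 u x)) -
        d • (pd p.2 lam x • pd p.1 u x)) - d • (pd p.1 (pd p.2 lam) x • u x) := by
    unfold D2
    congr 1
    ext p
    have h2 : pd p.2 (fun y => (1 - d * lam y) • u y) = fun y =>
        (1 - d * lam y) • pd p.2 u y - d • (pd p.2 lam y • u y) := by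
      ext y
      exact pd_mul_eq (diff_of hl) (diff_of hu) p.2 y
    have d1 : Differentiable ℝ (fun y => (1 - d * lam y) • pd p.2 u y) := by
      have := diff_of hl
      have := diff_pd hu p.2
      fun_prop
    have d2 : Differentiable ℝ (fun y => pd p.2 lam y • u y) :=
      (diff_pd hl p.2).smul (diff_of hu)
    rw [h2, pd_sub (d1 x) ((d2 x).fun_const_smul d), pd_mul_eq (diff_of hl) (diff_pd hu p.2),
      pd_const_smul (d2 x), pd_smul_fun (diff_pd hl p.2 x) (diff_of hu x), smul_add, sub_sub,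
      sub_sub, sub_sub]
  rw [h1]
  refine (N2_sub _ _).trans ?_
  refine (add_le_add ((N2_sub _ _).trans (add_le_add (N2_sub _ _) le_rfl)) le_rfl).trans ?_
  rw [N2_smul, N2_smul, N2_smul, N2_smul, abs_of_nonneg hd, abs_of_nonneg (by linarith),
    N2_smul_const, N2_mul (fun i => pd i lam x) (fun j => pd j u x)]
  have h3 : N2 (fun p : Fin 3 × Fin 3 => pd p.2 lam x • pd p.1 u x) = D1 lam x * D1 u x := by
    rw [N2_swap (fun i j => pd j lam x • pd i u x), N2_mul (fun i => pd i lam x)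
      (fun j => pd j u x)]
    rfl
  rw [h3]
  unfold D2 D1
  apply le_of_eq
  ring

end mult

section scal

variable {q C r s a X G K : ℝ}

theorem scal_a (hs : 0 ≤ s) (hr : 0 < r) (hC : 0 ≤ C) (ha : a = s * (3 * C + 1) / r)
    (hsr : 8 * (s ^ 2 * (3 * C + 1) ^ 2) ≤ r ^ 2) :
    0 ≤ a ∧ a ^ 2 ≤ 1 / 8 ∧ s / r ≤ a ∧ s / r * C ≤ a := by
  have ha0 : 0 ≤ a := by rw [ha]; positivity
  have ha2 : a ^ 2 ≤ 1 / 8 := by
    rw [ha, div_pow, mul_pow, div_le_iff₀ (by positivity)]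
    linarith
  have hsr0 : 0 ≤ s / r := by positivity
  refine ⟨ha0, ha2, ?_, ?_⟩
  · rw [ha, mul_div_right_comm]
    nlinarith
  · rw [ha, mul_div_right_comm]
    have : C ≤ 3 * C + 1 := by linarith
    gcongr

theorem scal_one (hq0 : 0 ≤ q) (hq : q ≤ 1 / 2) (hr : 0 < r)
    (hX : 0 ≤ X) (hG : 0 ≤ G) (hs : 0 ≤ s) (h2 : s / r * C ≤ a) :
    s * ((1 - q) * ((1 + q / 5) * G) + C * q / r * X) ≤ (1 - q / 2) * (s * G) + a * q * X := by
  calc s * ((1 - q) * ((1 + q / 5) * G) + C * q / r * X)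
      = ((1 - q) * (1 + q / 5)) * (s * G) + (s / r * C) * (q * X) := by
        field_simp
    _ ≤ (1 - q / 2) * (s * G) + a * (q * X) := by
        have e1 : (1 - q) * (1 + q / 5) ≤ 1 - q / 2 := by nlinarith
        gcongr
    _ = _ := by ring

theorem scal_two (hq0 : 0 ≤ q) (hq : q ≤ 1 / 2) (hr : 0 < r) (hC : 0 ≤ C)
    (hX : 0 ≤ X) (hG : 0 ≤ G) (hK : 0 ≤ K) (hs : 0 ≤ s) (ha : a = s * (3 * C + 1) / r)
    (ha1 : a ≤ 1) (h1 : s / r ≤ a) (h2 : s / r * C ≤ a) :
    s ^ 2 * ((1 - q) * ((1 + q / 5) ^ 2 * K + C * q / r * G) +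
          2 * (C * q / r * ((1 + q / 5) * G)) + C * q / r ^ 2 * X) ≤
      (1 - q / 2) * (s ^ 2 * K) + a * q * (X + s * G) := by
  have hsr0 : 0 ≤ s / r := by positivity
  have h1q : 0 ≤ 1 - q := by linarith
  calc s ^ 2 * ((1 - q) * ((1 + q / 5) ^ 2 * K + C * q / r * G) +
          2 * (C * q / r * ((1 + q / 5) * G)) + C * q / r ^ 2 * X)
      = ((1 - q) * (1 + q / 5) ^ 2) * (s ^ 2 * K) +
          (s / r * ((1 - q) * C + 2 * C * (1 + q / 5))) * (q * (s * G)) +
          (s / r * (s / r * C)) * (q * X) := by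
        field_simp
        ring
    _ ≤ (1 - q / 2) * (s ^ 2 * K) + a * (q * (s * G)) + a * (q * X) := by
        have e1 : (1 - q) * (1 + q / 5) ^ 2 ≤ 1 - q / 2 := by
          have : (1 + q / 5) ^ 2 ≤ 1 + q / 2 := by nlinarith
          calc (1 - q) * (1 + q / 5) ^ 2 ≤ (1 - q) * (1 + q / 2) := by gcongr
            _ ≤ 1 - q / 2 := by nlinarith
        have e2 : s / r * ((1 - q) * C + 2 * C * (1 + q / 5)) ≤ a := by
          rw [ha, mul_div_right_comm]
          have h5 : (1 - q) * C + 2 * C * (1 + q / 5) ≤ 3 * C + 1 := by nlinarith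
          gcongr
        have e3 : s / r * (s / r * C) ≤ a := by
          have h3 : s / r ≤ 1 := h1.trans ha1
          have h4 : 0 ≤ s / r * C := by positivity
          calc s / r * (s / r * C) ≤ 1 * (s / r * C) := by gcongr
            _ = s / r * C := one_mul _
            _ ≤ a := h2
        gcongr
    _ = _ := by ring

end scal

section jump

/-- the coefficients of one jump at the scale `r` -/
structure CoefB (r C d : ℝ) (lam : E3 → ℝ) (b : E3 → E3) : Prop where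
  r0 : 0 < r
  C0 : 0 ≤ C
  d0 : 0 ≤ d
  cl : ContDiff ℝ 2 lam
  cb : ContDiff ℝ 2 b
  l0 : ∀ x, 0 ≤ lam x
  dl : ∀ x, d * lam x ≤ 1 / 2
  b1 : ∀ x, 5 * D1 b x ≤ lam x
  b2 : ∀ x, r * D2 b x ≤ C * lam x
  l1 : ∀ x, r * D1 lam x ≤ C * lam x
  l2 : ∀ x, r ^ 2 * D2 lam x ≤ C * lam x

variable {r C d : ℝ} {lam : E3 → ℝ} {b : E3 → E3}

theorem CoefB.mono (h : CoefB r C d lam b) {d' : ℝ} (h0 : 0 ≤ d') (hd : d' ≤ d) :
    CoefB r C d' lam b where
  r0 := h.r0
  C0 := h.C0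
  d0 := h0
  cl := h.cl
  cb := h.cb
  l0 := h.l0
  dl := fun x => (mul_le_mul_of_nonneg_right hd (h.l0 x)).trans (h.dl x)
  b1 := h.b1
  b2 := h.b2
  l1 := h.l1
  l2 := h.l2

theorem CoefB.q0 (h : CoefB r C d lam b) (x : E3) : 0 ≤ d * lam x := mul_nonneg h.d0 (h.l0 x)

theorem CoefB.e1 (h : CoefB r C d lam b) (x : E3) : d * D1 b x ≤ d * lam x / 5 := by
  have := mul_le_mul_of_nonneg_left (h.b1 x) h.d0
  linarith

theorem CoefB.e2 (h : CoefB r C d lam b) (x : E3) : d * D2 b x ≤ C * (d * lam x) / r := by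
  have := mul_le_mul_of_nonneg_left (h.b2 x) h.d0
  have := h.r0
  rw [le_div_iff₀ (by positivity)]
  linarith

theorem CoefB.e3 (h : CoefB r C d lam b) (x : E3) : d * D1 lam x ≤ C * (d * lam x) / r := by
  have := mul_le_mul_of_nonneg_left (h.l1 x) h.d0
  rw [le_div_iff₀ h.r0]
  linarith

theorem CoefB.e4 (h : CoefB r C d lam b) (x : E3) : d * D2 lam x ≤ C * (d * lam x) / r ^ 2 := by
  have := mul_le_mul_of_nonneg_left (h.l2 x) h.d0
  rw [le_div_iff₀ (pow_pos h.r0 2)]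
  linarith

theorem Jst_D1 (h : CoefB r C d lam b) {f : E3 → E3} (hf : ContDiff ℝ 2 f) (x : E3) :
    D1 (Jst d b lam f) x ≤ (1 - d * lam x) * ((1 + d * lam x / 5) * D1 f (Sh d b x)) +
      C * (d * lam x) / r * ‖f (Sh d b x)‖ := by
  have hcomp : ContDiff ℝ 2 fun y => f (Sh d b y) := hf.comp (contDiff_Sh h.cb)
  have hq := h.dl x
  have h1q : 0 ≤ 1 - d * lam x := by linarith
  have u1 : D1 (fun y => f (Sh d b y)) x ≤ (1 + d * lam x / 5) * D1 f (Sh d b x) := by
    refine (D1_comp_le h.d0 (diff_of h.cb) (diff_of hf) x).trans ?_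
    have := h.e1 x
    have := D1_nonneg f (Sh d b x)
    gcongr
  refine (D1_mul_le h.d0 (diff_of h.cl) (diff_of hcomp) x (by linarith)).trans ?_
  have := h.e3 x
  gcongr

theorem Jst_D2 (h : CoefB r C d lam b) {f : E3 → E3} (hf : ContDiff ℝ 2 f) (x : E3) :
    D2 (Jst d b lam f) x ≤ (1 - d * lam x) * ((1 + d * lam x / 5) ^ 2 * D2 f (Sh d b x) +
        C * (d * lam x) / r * D1 f (Sh d b x)) +
      2 * (C * (d * lam x) / r * ((1 + d * lam x / 5) * D1 f (Sh d b x))) +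
      C * (d * lam x) / r ^ 2 * ‖f (Sh d b x)‖ := by
  have hcomp : ContDiff ℝ 2 fun y => f (Sh d b y) := hf.comp (contDiff_Sh h.cb)
  have hq := h.dl x
  have hq0 := h.q0 x
  have hr := h.r0
  have hC := h.C0
  have h1q : 0 ≤ 1 - d * lam x := by linarith
  have hG := D1_nonneg f (Sh d b x)
  have hK := D2_nonneg f (Sh d b x)
  have hb : 0 ≤ d * D1 b x := mul_nonneg h.d0 (D1_nonneg _ _)
  have u1 : D1 (fun y => f (Sh d b y)) x ≤ (1 + d * lam x / 5) * D1 f (Sh d b x) := by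
    refine (D1_comp_le h.d0 (diff_of h.cb) (diff_of hf) x).trans ?_
    have := h.e1 x
    gcongr
  have u10 : 0 ≤ D1 (fun y => f (Sh d b y)) x := D1_nonneg _ _
  have u2 : D2 (fun y => f (Sh d b y)) x ≤ (1 + d * lam x / 5) ^ 2 * D2 f (Sh d b x) +
      C * (d * lam x) / r * D1 f (Sh d b x) := by
    refine (D2_comp_le h.d0 h.cb hf x).trans ?_
    have := h.e1 x
    have := h.e2 x
    gcongr
  refine (D2_mul_le h.d0 h.cl hcomp x (by linarith)).trans ?_
  have := h.e3 x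
  have := h.e4 x
  gcongr

/-- the jump inequality -/
theorem Bs_Jst (h : CoefB r C d lam b) {f : E3 → E3} (hf : ContDiff ℝ 2 f) {p : ℝ} (hp : 0 ≤ p)
    (hpr : 8 * (p * (3 * C + 1) ^ 2) ≤ r ^ 2) (x : E3) :
    Bs p (Jst d b lam f) x ≤ Bs p f (Sh d b x) := by
  have hs0 : 0 ≤ √p := Real.sqrt_nonneg _
  have hsp : √p ^ 2 = p := Real.sq_sqrt hp
  have hq0 := h.q0 x
  have hq := h.dl x
  have hX0 : 0 ≤ ‖f (Sh d b x)‖ := norm_nonneg _
  have hG0 := D1_nonneg f (Sh d b x)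
  have hK0 := D2_nonneg f (Sh d b x)
  obtain ⟨ha0, ha2, h1, h2⟩ := scal_a hs0 h.r0 h.C0 rfl (by rw [hsp]; exact hpr)
  have ha1 : √p * (3 * C + 1) / r ≤ 1 := by nlinarith
  have v0 : ‖Jst d b lam f x‖ = (1 - d * lam x) * ‖f (Sh d b x)‖ := by
    unfold Jst
    rw [norm_smul, Real.norm_eq_abs, abs_of_nonneg (by linarith)]
    rfl
  have w1 : √p * D1 (Jst d b lam f) x ≤ (1 - d * lam x / 2) * (√p * D1 f (Sh d b x)) +
      √p * (3 * C + 1) / r * (d * lam x) * ‖f (Sh d b x)‖ :=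
    (mul_le_mul_of_nonneg_left (Jst_D1 h hf x) hs0).trans
      (scal_one hq0 hq h.r0 hX0 hG0 hs0 h2)
  have w2 : p * D2 (Jst d b lam f) x ≤ (1 - d * lam x / 2) * (p * D2 f (Sh d b x)) +
      √p * (3 * C + 1) / r * (d * lam x) * (‖f (Sh d b x)‖ + √p * D1 f (Sh d b x)) := by
    have w3 := scal_two hq0 hq h.r0 h.C0 hX0 hG0 hK0 hs0 rfl ha1 h1 h2
    rw [hsp] at w3
    exact (mul_le_mul_of_nonneg_left (Jst_D2 h hf x) hp).trans w3
  rw [Bs_eq hp, Bs_eq hp, v0]
  have h1q : 0 ≤ 1 - d * lam x := by linarith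
  exact jump_alg hq0 hq ha0 ha2 hX0 (by positivity) (by positivity) (by positivity)
    (mul_nonneg hs0 (D1_nonneg _ _)) (mul_nonneg hp (D2_nonneg _ _)) le_rfl w1 w2

/-- the coefficients of the scheme satisfy the hypotheses -/
theorem coefB_of {c Λ : ℝ} (h : Coef c r Λ b lam) (hc : 0 < c) (hr : 0 < r) (hd : 0 ≤ d)
    (hdΛ : d * Λ ≤ 1 / 2) : CoefB r (3 * c) d lam b where
  r0 := hr
  C0 := by positivity
  d0 := hd
  cl := h.cl
  cb := h.cb
  l0 := h.l0
  dl := fun x => (mul_le_mul_of_nonneg_left (h.lΛ x) hd).trans hdΛ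
  b1 := by
    intro x
    have h1 : D1 b x ≤ lam x / 8 := by
      have := h.l0 x
      exact Real.sqrt_le_iff.2 ⟨by positivity, h.b1 x⟩
    have := h.l0 x
    linarith
  b2 := by
    intro x
    have hl := h.l0 x
    have h1 : D2 b x ≤ 3 * (c * lam x / r) := by
      refine Real.sqrt_le_iff.2 ⟨by positivity, ?_⟩
      rw [Fintype.sum_prod_type]
      calc ∑ i, ∑ j, ‖pd i (pd j b) x‖ ^ 2 ≤ ∑ i : Fin 3, ∑ j : Fin 3, (c * lam x / r) ^ 2 := by
            refine Finset.sum_le_sum fun i _ => Finset.sum_le_sum fun j _ => ?_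
            have := h.b2 i j x
            gcongr
        _ = (3 * (c * lam x / r)) ^ 2 := by
            simp
            ring
    calc r * D2 b x ≤ r * (3 * (c * lam x / r)) := by gcongr
      _ = 3 * c * lam x := by field_simp
  l1 := by
    intro x
    have hl := h.l0 x
    have h1 : D1 lam x ≤ 3 * (c * lam x / r) := by
      refine Real.sqrt_le_iff.2 ⟨by positivity, ?_⟩
      calc ∑ i, ‖pd i lam x‖ ^ 2 ≤ ∑ i : Fin 3, (c * lam x / r) ^ 2 := by
            refine Finset.sum_le_sum fun i _ => ?_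
            have := h.l1 i x
            rw [Real.norm_eq_abs]
            gcongr
        _ ≤ (3 * (c * lam x / r)) ^ 2 := by
            simp only [Finset.sum_const, Finset.card_univ, Fintype.card_fin, nsmul_eq_mul]
            push_cast
            nlinarith [sq_nonneg (c * lam x / r)]
    calc r * D1 lam x ≤ r * (3 * (c * lam x / r)) := by gcongr
      _ = 3 * c * lam x := by field_simp
  l2 := by
    intro x
    have hl := h.l0 x
    have h1 : D2 lam x ≤ 3 * (c * lam x / r ^ 2) := by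
      refine Real.sqrt_le_iff.2 ⟨by positivity, ?_⟩
      rw [Fintype.sum_prod_type]
      calc ∑ i, ∑ j, ‖pd i (pd j lam) x‖ ^ 2 ≤
            ∑ i : Fin 3, ∑ j : Fin 3, (c * lam x / r ^ 2) ^ 2 := by
            refine Finset.sum_le_sum fun i _ => Finset.sum_le_sum fun j _ => ?_
            have := h.l2 i j x
            rw [Real.norm_eq_abs]
            gcongr
        _ = (3 * (c * lam x / r ^ 2)) ^ 2 := by
            simp
            ring
    calc r ^ 2 * D2 lam x ≤ r ^ 2 * (3 * (c * lam x / r ^ 2)) := by gcongr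
      _ = 3 * c * lam x := by field_simp

theorem Qf_eq (κ τ : ℝ) (f : E3 → E3) (x : E3) : Qf κ τ f x = Bs (κ * τ) f x := rfl

/-- the constant of Bernstein's method -/
noncomputable def kB (c : ℝ) : ℝ := 1 / (8 * (9 * c + 1) ^ 2)

theorem kB_pos {c : ℝ} (hc : 0 < c) : 0 < kB c := by
  unfold kB
  positivity

theorem kB_le {c : ℝ} (hc : 0 < c) : kB c ≤ 1 / 8 := by
  unfold kB
  apply one_div_le_one_div_of_le (by norm_num)
  nlinarith

/-- (S1), the jump part -/
theorem Qf_Jst {c Λ : ℝ} (h : Coef c r Λ b lam) (hc : 0 < c) (hr : 0 < r) (hd : 0 ≤ d)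
    (hdΛ : d * Λ ≤ 1 / 2) {f : E3 → E3} (hf : ContDiff ℝ 2 f) {κ τ : ℝ} (hκ : 0 ≤ κ)
    (hκc : κ ≤ kB c) (hτ : 0 ≤ τ) (hτr : τ ≤ r ^ 2) (x : E3) :
    Qf κ τ (Jst d b lam f) x ≤ Qf κ τ f (x - d • b x) := by
  rw [Qf_eq, Qf_eq]
  refine Bs_Jst (coefB_of h hc hr hd hdΛ) hf (by positivity) ?_ x
  have h1 : κ * (8 * (9 * c + 1) ^ 2) ≤ 1 := by
    unfold kB at hκc
    rwa [le_div_iff₀ (by positivity)] at hκc
  calc 8 * (κ * τ * (3 * (3 * c) + 1) ^ 2) = (κ * (8 * (9 * c + 1) ^ 2)) * τ := by ring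
    _ ≤ 1 * τ := by gcongr
    _ ≤ r ^ 2 := by linarith

end jump

end Pool.Agent.TF
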