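import Pool.Agent.TF.Def

/-!
# The Poisson semigroup (row Z1)
-/

set_option autoImplicit false

namespace Pool.Agent.TF

open MeasureTheory Set Filter Topology Pool.Agent.TO Pool.Agent.TB Pool.Agent.TC Pool.Agent.TP
open scoped ENNReal NNReal Real InnerProductSpace SchwartzMap LineDeriv

namespace Semi

/-- a convex function on the half line, bounded above, with limit zero at zero, is nonpositive -/
theorem nonpos_of_convex {φ φ' φ'' : ℝ → ℝ} {M : ℝ}
    (h1 : ∀ y, 0 < y → HasDerivAt φ (φ' y) y)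
    (h2 : ∀ y, 0 < y → HasDerivAt φ' (φ'' y) y)
    (h3 : ∀ y, 0 < y → 0 ≤ φ'' y) (hM : ∀ y, 0 < y → φ y ≤ M)
    (h0 : Tendsto φ (𝓝[>] 0) (𝓝 0)) {y : ℝ} (hy : 0 < y) : φ y ≤ 0 := by
  have hmono : MonotoneOn φ' (Ioi 0) := by
    refine monotoneOn_of_deriv_nonneg (convex_Ioi 0)
      (fun x hx => (h2 x hx).continuousAt.continuousWithinAt) ?_ ?_
    · rw [interior_Ioi]
      exact fun x hx => (h2 x hx).differentiableAt.differentiableWithinAt
    · rw [interior_Ioi]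
      intro x hx
      rw [(h2 x hx).deriv]
      exact h3 x hx
  have hneg : ∀ x, 0 < x → φ' x ≤ 0 := by
    intro x hx
    by_contra hcon
    rw [not_le] at hcon
    have hlin : ∀ z, x < z → φ x + φ' x * (z - x) ≤ φ z := by
      intro z hz
      obtain ⟨c, hc, hce⟩ := exists_hasDerivAt_eq_slope φ φ' hz
        (fun w hw => (h1 w (lt_of_lt_of_le hx hw.1)).continuousAt.continuousWithinAt)
        (fun w hw => h1 w (hx.trans hw.1))
      have h5 := hmono (show x ∈ Ioi 0 from hx) (show c ∈ Ioi 0 from hx.trans hc.1) hc.1.le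
      rw [hce, le_div_iff₀ (sub_pos.2 hz)] at h5
      linarith
    have hMx := hM x hx
    have hz : x < x + (M - φ x + 1) / φ' x := by
      have : 0 < (M - φ x + 1) / φ' x := div_pos (by linarith) hcon
      linarith
    have h6 := hlin _ hz
    have h7 := hM _ (hx.trans hz)
    have h8 : φ' x * (x + (M - φ x + 1) / φ' x - x) = M - φ x + 1 := by
      rw [add_sub_cancel_left, mul_div_cancel₀ _ hcon.ne']
    rw [h8] at h6
    linarith
  have hanti : AntitoneOn φ (Ioi 0) := by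
    refine antitoneOn_of_deriv_nonpos (convex_Ioi 0)
      (fun x hx => (h1 x hx).continuousAt.continuousWithinAt) ?_ ?_
    · rw [interior_Ioi]
      exact fun x hx => (h1 x hx).differentiableAt.differentiableWithinAt
    · rw [interior_Ioi]
      intro x hx
      rw [(h1 x hx).deriv]
      exact hneg x hx
  refine ge_of_tendsto h0 ?_
  filter_upwards [Ioo_mem_nhdsGT hy] with δ hδ
  exact hanti hδ.1 hy hδ.2.le

theorem weak_sub {k : Fin 3} {f g f' g' : V3} (h : IsWeakDeriv k f f')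
    (h' : IsWeakDeriv k g g') : IsWeakDeriv k (f - g) (f' - g') := by
  rw [sub_eq_add_neg, sub_eq_add_neg]
  exact weak_add h (weak_neg h')

theorem symP {y : ℝ} (hy : 0 < y) (f g : V3) : ⟪f, Pp y g⟫_ℝ = ⟪Pp y f, g⟫_ℝ := by
  unfold Pp
  rw [cvO_eq (kk_pk hy)]
  exact symm_cvL (kk_pk hy) (fun x => pk_neg x) f g

theorem symY {y : ℝ} (hy : 0 < y) (f g : V3) : ⟪f, Yp y g⟫_ℝ = ⟪Yp y f, g⟫_ℝ := by
  unfold Yp
  rw [cvO_eq (kk_yk hy)]
  exact symm_cvL (kk_yk hy) (fun x => yk_neg x) f g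

theorem antiD (j : Fin 3) {y : ℝ} (hy : 0 < y) (f g : V3) :
    ⟪f, Dp j y g⟫_ℝ = -⟪Dp j y f, g⟫_ℝ := by
  unfold Dp
  rw [cvO_eq (kk_dk j hy)]
  exact anti_cvL (kk_dk j hy) (fun x => dk_neg j x) f g

/-- the semigroup law -/
theorem pp {s t : ℝ} (hs : 0 < s) (ht : 0 < t) (f : V3) : Pp (s + t) f = Pp s (Pp t f) := by
  set E : ℝ → V3 := fun y => Pp (y + t) f - Pp y (Pp t f) with hE
  set E1 : ℝ → V3 := fun y => Yp (y + t) f - Yp y (Pp t f) with hE1
  set E2 : ℝ → V3 := fun y => YYp (y + t) f - YYp y (Pp t f) with hE2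
  have d1 : ∀ y, 0 < y → HasDerivAt E (E1 y) y := fun y hy =>
    ((deriv_Pp (by linarith : 0 < y + t) f).comp_add_const y t).sub (deriv_Pp hy _)
  have d2 : ∀ y, 0 < y → HasDerivAt E1 (E2 y) y := fun y hy =>
    ((deriv_Yp (by linarith : 0 < y + t) f).comp_add_const y t).sub (deriv_Yp hy _)
  have key : ∀ y, 0 < y → 0 ≤ ⟪E y, E2 y⟫_ℝ := by
    intro y hy
    have hyt : 0 < y + t := by linarith
    have w1 : ∀ k, IsWeakDeriv k (E y) (Dp k (y + t) f - Dp k y (Pp t f)) := fun k =>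
      weak_sub (weak_Pp k hyt f) (weak_Pp k hy _)
    have w2 : ∀ k, IsWeakDeriv k (Dp k (y + t) f - Dp k y (Pp t f))
        (DDp k k (y + t) f - DDp k k y (Pp t f)) := fun k =>
      weak_sub (weak_Dp k k hyt f) (weak_Dp k k hy _)
    have e1 : E2 y = -∑ k, (DDp k k (y + t) f - DDp k k y (Pp t f)) := by
      rw [Finset.sum_sub_distrib, sum_DDp hyt, sum_DDp hy]
      simp only [hE2]
      abel
    have e2 : ∀ k, ⟪E y, DDp k k (y + t) f - DDp k k y (Pp t f)⟫_ℝ =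
        -‖Dp k (y + t) f - Dp k y (Pp t f)‖ ^ 2 := by
      intro k
      have h3 := weak_parts w1 (k := k) (g := Dp k (y + t) f - Dp k y (Pp t f))
        (dg := fun k => DDp k k (y + t) f - DDp k k y (Pp t f)) (w2 k)
      rw [real_inner_self_eq_norm_sq] at h3
      linarith
    rw [e1, inner_neg_right, inner_sum]
    simp only [e2, Finset.sum_neg_distrib, neg_neg]
    exact Finset.sum_nonneg fun k _ => sq_nonneg _
  have hbd : ∀ y, 0 < y → ‖E y‖ ^ 2 ≤ (‖f‖ + ‖f‖) ^ 2 := by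
    intro y hy
    refine pow_le_pow_left₀ (norm_nonneg _) ?_ 2
    exact (norm_sub_le _ _).trans (add_le_add (norm_Pp_le (by linarith) f)
      ((norm_Pp_le hy _).trans (norm_Pp_le ht f)))
  have hlim : Tendsto (fun y => ‖E y‖ ^ 2) (𝓝[>] 0) (𝓝 0) := by
    have l1 : Tendsto (fun y : ℝ => Pp (y + t) f) (𝓝[>] 0) (𝓝 (Pp t f)) := by
      have h4 : Tendsto (fun y : ℝ => y + t) (𝓝[>] 0) (𝓝 t) := by
        have h5 : Tendsto (fun y : ℝ => y + t) (𝓝 0) (𝓝 (0 + t)) :=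
          (continuous_id.add continuous_const).tendsto 0
        rw [zero_add] at h5
        exact h5.mono_left nhdsWithin_le_nhds
      exact ((deriv_Pp ht f).continuousAt.tendsto).comp h4
    have l2 := l1.sub (tendsto_Pp_zero (Pp t f))
    rw [sub_self] at l2
    have l3 := (l2.norm).pow 2
    simpa using l3
  have h6 := nonpos_of_convex (φ := fun y => ‖E y‖ ^ 2) (φ' := fun y => 2 * ⟪E y, E1 y⟫_ℝ)
    (φ'' := fun y => 2 * (⟪E y, E2 y⟫_ℝ + ⟪E1 y, E1 y⟫_ℝ))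
    (fun y hy => (d1 y hy).norm_sq)
    (fun y hy => ((d1 y hy).inner ℝ (d2 y hy)).const_mul 2)
    (fun y hy => mul_nonneg (by norm_num) (add_nonneg (key y hy) real_inner_self_nonneg))
    hbd hlim hs
  have h7 : E s = 0 := by
    have h8 : ‖E s‖ ^ 2 = 0 := le_antisymm h6 (sq_nonneg _)
    rwa [sq_eq_zero_iff, norm_eq_zero] at h8
  exact sub_eq_zero.1 h7

theorem dp (j : Fin 3) {s t : ℝ} (hs : 0 < s) (ht : 0 < t) (f : V3) :
    Dp j (s + t) f = Dp j s (Pp t f) := by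
  have h1 := weak_Pp j (by linarith : 0 < s + t) f
  rw [pp hs ht] at h1
  exact weak_unique h1 (weak_Pp j hs (Pp t f))

theorem yp {s t : ℝ} (hs : 0 < s) (ht : 0 < t) (f : V3) : Yp (s + t) f = Yp s (Pp t f) := by
  have h1 := (deriv_Pp (by linarith : 0 < s + t) f).comp_add_const s t
  have h2 := deriv_Pp hs (Pp t f)
  refine h1.unique (h2.congr_of_eventuallyEq ?_)
  filter_upwards [Ioi_mem_nhds hs] with r hr
  exact pp hr ht f

theorem dd (i j : Fin 3) {s t : ℝ} (hs : 0 < s) (ht : 0 < t) (f : V3) :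
    DDp i j (s + t) f = Dp i s (Dp j t f) := by
  have h1 := weak_Dp i j (by linarith : 0 < s + t) f
  have h2 : Dp j (s + t) f = Pp s (Dp j t f) := by
    rw [add_comm, dp j ht hs]
    exact cvO_comm _ _ f
  rw [h2] at h1
  exact weak_unique h1 (weak_Pp i hs (Dp j t f))

theorem yy {s t : ℝ} (hs : 0 < s) (ht : 0 < t) (f : V3) : YYp (s + t) f = Yp s (Yp t f) := by
  have h1 := (deriv_Yp (by linarith : 0 < s + t) f).comp_add_const s t
  have h2 := deriv_Pp hs (Yp t f)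
  refine h1.unique (h2.congr_of_eventuallyEq ?_)
  filter_upwards [Ioi_mem_nhds hs] with r hr
  have h3 : Yp (r + t) f = Yp t (Pp r f) := by rw [add_comm, yp ht hr]
  rw [h3]
  exact cvO_comm _ _ f

theorem dyd (j : Fin 3) {y : ℝ} (hy : 0 < y) (f : V3) :
    HasDerivAt (fun s => Dp j s f) (Dp j (y / 2) (Yp (y / 2) f)) y := by
  have hy2 : 0 < y / 2 := by linarith
  have h0 : 0 < y - y / 2 := by linarith
  have h1 := (deriv_Pp h0 f).comp_sub_const y (y / 2)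
  have e : y - y / 2 = y / 2 := by ring
  rw [e] at h1
  have h2 := ((Dp j (y / 2)).hasFDerivAt).comp_hasDerivAt y h1
  refine h2.congr_of_eventuallyEq ?_
  filter_upwards [Ioi_mem_nhds (by linarith : y / 2 < y)] with r hr
  have hr' : 0 < r - y / 2 := sub_pos.2 hr
  have h3 := dp j hy2 hr' f
  rw [add_sub_cancel] at h3
  exact h3

/-! ### the limit at infinity -/

theorem pk_le {y : ℝ} (hy : 0 < y) (x : E3) : pk y x ≤ (JJ 4)⁻¹ * y⁻¹ ^ 3 := by
  have h1 := sg_le_inv hy x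
  have h2 := sg_pos hy x
  have h3 := JJ4_inv_pos
  unfold pk
  calc (JJ 4)⁻¹ * (y * sg y x ^ 4) ≤ (JJ 4)⁻¹ * (y * y⁻¹ ^ 4) := by gcongr
    _ = _ := by field_simp

theorem inner_emb_le {y : ℝ} (hy : 0 < y) (φ : 𝓢(E3, E3)) :
    ⟪emb φ, Pp y (emb φ)⟫_ℝ ≤ (JJ 4)⁻¹ * y⁻¹ ^ 3 * (∫ x, ‖φ x‖) ^ 2 := by
  have h0 : ⟪emb φ, Pp y (emb φ)⟫_ℝ = ∫ x, ⟪φ x, cvf (pk y) φ x⟫_ℝ := by
    rw [emb_apply, ← integral_inner_eq]
    apply integral_congr_ae
    have h1 : (Pp y (emb φ) : E3 → E3) =ᵐ[volume] cvf (pk y) φ := by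
      unfold Pp
      rw [cvO_eq (kk_pk hy)]
      exact coe_cvL_emb (kk_pk hy) φ
    filter_upwards [h1] with x hx
    rw [← emb_apply, hx]
  have hint : Integrable (fun x => ‖φ x‖) (volume : Measure E3) := φ.integrable.norm
  have h2 : ∀ x, ‖cvf (pk y) φ x‖ ≤ (JJ 4)⁻¹ * y⁻¹ ^ 3 * ∫ x, ‖φ x‖ := by
    intro x
    unfold cvf
    have h3 : ∫ z, ‖φ (x - z)‖ = ∫ z, ‖φ z‖ := integral_sub_left_eq_self (fun z => ‖φ z‖) volume x
    rw [← h3, ← integral_const_mul]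
    refine norm_integral_le_of_norm_le ((hint.comp_sub_left x).const_mul _)
      (Eventually.of_forall fun z => ?_)
    rw [norm_smul, Real.norm_eq_abs, abs_of_nonneg (pk_nonneg hy z)]
    exact mul_le_mul_of_nonneg_right (pk_le hy z) (norm_nonneg _)
  rw [h0]
  refine (le_abs_self _).trans ?_
  rw [← Real.norm_eq_abs]
  have h4 : (JJ 4)⁻¹ * y⁻¹ ^ 3 * (∫ x, ‖φ x‖) ^ 2 =
      ∫ x, ‖φ x‖ * ((JJ 4)⁻¹ * y⁻¹ ^ 3 * ∫ x, ‖φ x‖) := by
    rw [integral_mul_const]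
    ring
  rw [h4]
  refine norm_integral_le_of_norm_le (hint.mul_const _) (Eventually.of_forall fun x => ?_)
  exact (norm_inner_le_norm _ _).trans (mul_le_mul_of_nonneg_left (h2 x) (norm_nonneg _))

theorem lim_emb (φ : 𝓢(E3, E3)) : Tendsto (fun y => ‖Pp y (emb φ)‖) atTop (𝓝 0) := by
  have h1 : ∀ᶠ y : ℝ in atTop, ‖Pp y (emb φ)‖ ^ 2 ≤
      (JJ 4)⁻¹ * (y + y)⁻¹ ^ 3 * (∫ x, ‖φ x‖) ^ 2 := by
    filter_upwards [eventually_gt_atTop 0] with y hy
    rw [← real_inner_self_eq_norm_sq, ← symP hy, ← pp hy hy]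
    exact inner_emb_le (by linarith) φ
  have h2 : Tendsto (fun y : ℝ => (JJ 4)⁻¹ * (y + y)⁻¹ ^ 3 * (∫ x, ‖φ x‖) ^ 2) atTop (𝓝 0) := by
    have h3 : Tendsto (fun y : ℝ => (y + y)⁻¹) atTop (𝓝 0) :=
      tendsto_inv_atTop_zero.comp (tendsto_id.atTop_add_atTop tendsto_id)
    have h4 := ((h3.pow 3).const_mul (JJ 4)⁻¹).mul_const ((∫ x, ‖φ x‖) ^ 2)
    simpa using h4
  have h5 : Tendsto (fun y => ‖Pp y (emb φ)‖ ^ 2) atTop (𝓝 0) :=
    squeeze_zero' (Eventually.of_forall fun y => sq_nonneg _) h1 h2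
  have h6 := h5.sqrt
  rw [Real.sqrt_zero] at h6
  refine h6.congr fun y => ?_
  exact Real.sqrt_sq (norm_nonneg _)

theorem lim (f : V3) : Tendsto (fun y => Pp y f) atTop (𝓝 0) := by
  rw [Metric.tendsto_nhds]
  intro ε hε
  obtain ⟨φ, hφ⟩ := dense_emb.exists_dist_lt f (half_pos hε)
  filter_upwards [(lim_emb φ).eventually (gt_mem_nhds (half_pos hε)),
    eventually_gt_atTop 0] with y h1 hy
  rw [dist_zero_right]
  have h2 : Pp y f = Pp y (f - emb φ) + Pp y (emb φ) := by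
    rw [map_sub, sub_add_cancel]
  rw [dist_eq_norm] at hφ
  calc ‖Pp y f‖ ≤ ‖Pp y (f - emb φ)‖ + ‖Pp y (emb φ)‖ := by
        rw [h2]
        exact norm_add_le _ _
    _ < ε / 2 + ε / 2 := add_lt_add ((norm_Pp_le hy _).trans_lt hφ) h1
    _ = ε := add_halves ε

end Semi

/-- `Block Z`, (Z1): the Poisson semigroup -/
theorem sg_ok : SG where
  symP _ hy := Semi.symP hy
  symY _ hy := Semi.symY hy
  antiD j _ hy := Semi.antiD j hy
  pp _ _ hs ht := Semi.pp hs ht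
  dp j _ _ hs ht := Semi.dp j hs ht
  yp _ _ hs ht := Semi.yp hs ht
  dd i j _ _ hs ht := Semi.dd i j hs ht
  yy _ _ hs ht := Semi.yy hs ht
  dyd j _ hy := Semi.dyd j hy
  lim := Semi.lim

end Pool.Agent.TF
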