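import Pool.Agent.TF.Stmt

/-!
# Weak-strong uniqueness for data in `L² ∩ bmo⁻¹₀`: the a priori bounds (interface)
-/

set_option autoImplicit false

namespace Pool.Agent.TF

open MeasureTheory Set Filter Topology Pool.Agent.TO Pool.Agent.TB
open scoped Real ENNReal

/-- The a priori bound of all weak Leray solutions (output of the blocks D, C, E, S, R):
`|v(t)| ≤ a / √t` for `t < T₁`. -/
def AprioriSup : Prop := ∀ u₀ : V3, DivZero u₀ → BmoZ u₀ → ∀ a : ℝ, 0 < a →
  ∃ T₁ : ℝ, 0 < T₁ ∧ ∀ (T : ℝ) (v : ℝ → V3), Leray T u₀ v → ∀ t : ℝ, 0 < t → t < T₁ → t < T →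
    FBdd (v t) (a / √t)

end Pool.Agent.TF
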