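import Pool.Agent.TF.Poi
import Pool.Agent.TB.Stmt

/-!
# Interfaces of the blocks Z (Riesz transforms), C (commutators), D (data)
-/

set_option autoImplicit false

namespace Pool.Agent.TF

open MeasureTheory Set Filter Topology Pool.Agent.TO Pool.Agent.TB Pool.Agent.TC Pool.Agent.TP
open scoped ENNReal NNReal Real InnerProductSpace SchwartzMap LineDeriv

/-- the Riesz transforms `R_j = ∂_j |D|⁻¹` on `L²` (acting on each component) -/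
structure RZ (R : Fin 3 → V3 →L[ℝ] V3) : Prop where
  le : ∀ j f, ‖R j f‖ ≤ ‖f‖
  anti : ∀ j f g, ⟪f, R j g⟫_ℝ = -⟪R j f, g⟫_ℝ
  ti : ∀ j, TI (R j)
  comm : ∀ i j f, R i (R j f) = R j (R i f)
  sum_sq : ∀ f, ∑ j, R j (R j f) = -f
  yp : ∀ j (y : ℝ), 0 < y → ∀ f, Yp y (R j f) = -Dp j y f
  dp : ∀ i j (y : ℝ), 0 < y → ∀ f, Dp i y (R j f) = Dp j y (R i f)
  sum_dp : ∀ y : ℝ, 0 < y → ∀ f, ∑ j, Dp j y (R j f) = Yp y f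
  weak : ∀ j k f g, IsWeakDeriv k f g → IsWeakDeriv k (R j f) (R j g)
  pm : ∀ j i k f, R j (PM i k f) = PM i k (R j f)

/-- `Block Z`, (Z1): the Poisson semigroup -/
structure SG : Prop where
  symP : ∀ y : ℝ, 0 < y → ∀ f g, ⟪f, Pp y g⟫_ℝ = ⟪Pp y f, g⟫_ℝ
  symY : ∀ y : ℝ, 0 < y → ∀ f g, ⟪f, Yp y g⟫_ℝ = ⟪Yp y f, g⟫_ℝ
  antiD : ∀ j (y : ℝ), 0 < y → ∀ f g, ⟪f, Dp j y g⟫_ℝ = -⟪Dp j y f, g⟫_ℝ
  pp : ∀ s t : ℝ, 0 < s → 0 < t → ∀ f, Pp (s + t) f = Pp s (Pp t f)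
  dp : ∀ j (s t : ℝ), 0 < s → 0 < t → ∀ f, Dp j (s + t) f = Dp j s (Pp t f)
  yp : ∀ s t : ℝ, 0 < s → 0 < t → ∀ f, Yp (s + t) f = Yp s (Pp t f)
  dd : ∀ i j (s t : ℝ), 0 < s → 0 < t → ∀ f, DDp i j (s + t) f = Dp i s (Dp j t f)
  yy : ∀ s t : ℝ, 0 < s → 0 < t → ∀ f, YYp (s + t) f = Yp s (Yp t f)
  dyd : ∀ j (y : ℝ), 0 < y → ∀ f, HasDerivAt (fun s => Dp j s f) (Dp j (y / 2) (Yp (y / 2) f)) y
  lim : ∀ f, Tendsto (fun y => Pp y f) atTop (𝓝 0)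

/-- `Block Z`, (Z2): existence of the Riesz transforms -/
def StZ : Prop := ∃ R : Fin 3 → V3 →L[ℝ] V3, RZ R

/-- the product `R_{j₁} ⋯ R_{j_m}` -/
noncomputable def Wd (R : Fin 3 → V3 →L[ℝ] V3) : List (Fin 3) → V3 →L[ℝ] V3
  | [] => ContinuousLinearMap.id ℝ V3
  | j :: W => (R j).comp (Wd R W)

/-- the class `Carl(N)` -/
structure Carl (N : ℝ) (γ : V3) : Prop where
  nn : 0 ≤ N
  bx : ∀ j (y : ℝ), 0 < y → Bd (Dp j y γ) (N / y)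
  by' : ∀ y : ℝ, 0 < y → Bd (Yp y γ) (N / y)
  cx : ∀ n j (f : V3) (a b : ℝ), 0 < a → a ≤ b →
    ∫ y in a..b, y * ‖tens n (Pp y f) (Dp j y γ)‖ ^ 2 ≤ N ^ 2 * ‖f‖ ^ 2
  cy : ∀ n (f : V3) (a b : ℝ), 0 < a → a ≤ b →
    ∫ y in a..b, y * ‖tens n (Pp y f) (Yp y γ)‖ ^ 2 ≤ N ^ 2 * ‖f‖ ^ 2

/-- `Block C`, (C1): bounded functions are in the class `Carl` -/
def StC1 : Prop := ∃ C : ℝ, 0 < C ∧ ∀ (γ : V3) (A : ℝ), 0 ≤ A → Bd γ A → Carl (C * A) γ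

/-- `Block C`, (C2): the class `Carl` is preserved by the Riesz transforms -/
def StC2 : Prop := ∃ C : ℝ, 0 < C ∧ ∀ R, RZ R → ∀ (j : Fin 3) (γ : V3) (N : ℝ), Carl N γ →
  Carl (C * N) (R j γ)

/-- `Block C`, (C3): the commutator of one Riesz transform -/
def StC3 : Prop := ∃ C : ℝ, 0 < C ∧ ∀ R, RZ R → ∀ (j n k : Fin 3) (γ dγ w : V3)
  (dw : Fin 3 → V3) (N B : ℝ), Carl N γ → IsWeakDeriv k γ dγ → (∀ l, IsWeakDeriv l w (dw l)) →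
  Bd dγ B → Bd (R j dγ) B →
  ‖tens n w (R j dγ) - R j (tens n w dγ)‖ ≤ C * N * √(∑ l, ‖dw l‖ ^ 2)

/-- `Block C`, main statement (CC): `‖w_n W ∂_k g - W (w_n ∂_k g)‖₂ ≤ C |g|_∞ ‖∇ w‖₂` -/
def StCC : Prop := ∀ W : List (Fin 3), ∃ C : ℝ, 0 < C ∧ ∀ R, RZ R → ∀ (n k : Fin 3) (g dg w : V3)
  (dw : Fin 3 → V3) (A : ℝ), 0 ≤ A → Bd g A → IsWeakDeriv k g dg →
  (∀ l, IsWeakDeriv l w (dw l)) → (∀ W', ∃ B, Bd (Wd R W' dg) B) →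
  ‖tens n w (Wd R W dg) - Wd R W (tens n w dg)‖ ≤ C * A * √(∑ l, ‖dw l‖ ^ 2)

/-- `R_j` for `some j`, the identity for `none` -/
noncomputable def To (R : Fin 3 → V3 →L[ℝ] V3) : Option (Fin 3) → V3 →L[ℝ] V3
  | none => ContinuousLinearMap.id ℝ V3
  | some j => R j

/-- the norm of `s ↦ e^{s Δ} f` in `X_t` is at most `N` (both parts) -/
def XHeat (t N : ℝ) (f : V3) : Prop :=
  (∀ σ ∈ Ioo 0 t, ∀ x, ‖heatF σ f x‖ ≤ N / √σ) ∧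
  ∀ σ ∈ Ioo 0 t, ∀ z : E3, ∫⁻ s in Ioo 0 σ, ∫⁻ x in Metric.closedBall z (√σ),
    ‖heatF s f x‖ₑ ^ 2 ≤ ENNReal.ofReal (N ^ 2 * √σ ^ 3)

/-- `f ∈ bmo⁻¹₀` -/
def BmoX (f : V3) : Prop := ∀ η > 0, ∃ t > 0, XHeat t η f

/-- `u₀ = ∑ T_j ∂_k g_{kj} + l + r` with `|g| ≤ A`, `g` antisymmetric, `|l| ≤ L`, `‖r‖ ≤ η` -/
structure Deco (R : Fin 3 → V3 →L[ℝ] V3) (A L η : ℝ) (u₀ : V3)
    (g : Fin 3 → Option (Fin 3) → V3) (dg : Fin 3 → Option (Fin 3) → Fin 3 → V3)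
    (l r : V3) : Prop where
  weak : ∀ k j i, IsWeakDeriv i (g k j) (dg k j i)
  bd : ∀ k j, Bd (g k j) A
  anti : ∀ k j i, PM i 0 (g k j) = -PM k 0 (g i j)
  div : IsDivFree l
  bdl : Bd l L
  rr : ‖r‖ ≤ η
  eq : u₀ = (∑ k, ∑ j : Option (Fin 3), To R j (dg k j k)) + l + r

/-- `Block D`: the decomposition of the data -/
def StD : Prop := ∀ R, RZ R → ∀ u₀ : V3, IsDivFree u₀ → BmoX u₀ → ∀ A > 0, ∃ L > 0, ∀ η > 0,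
  ∃ g dg l r, Deco R A L η u₀ g dg l r

end Pool.Agent.TF
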