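import Pool.Agent.TF.Stm
import Pool.Agent.H98.ML.Hind

/-!
# Project T5 (MP_a3214d), assembly, row F1: the elements of least index

Their indices are divisible by the part prime to the order of the index of `H`, so that they have
a common prime order.
-/

set_option autoImplicit false

open scoped BigOperators Pointwise commutatorElement

namespace Pool.Agent.TF

open Pool.Agent.H98.ML (norb hind hind_pos hind_conj)

section

variable {G : Type} [Group G]

/-- elements of coprime orders, one of them in the second center, commute -/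
theorem f1_comm {b u : G} {N : ℕ} (hb : b ∈ Subgroup.upperCentralSeries G 2) (hN : b ^ N = 1)
    (hc : Nat.Coprime N (orderOf u)) : b * u = u * b := by
  rw [Subgroup.mem_upperCentralSeries_succ_iff] at hb
  have h1 := hb u
  rw [Subgroup.upperCentralSeries_one, Subgroup.mem_center_iff] at h1
  set c := ⁅b, u⁆ with hcdef
  have h2 : b * u = c * (u * b) := by
    rw [hcdef, commutatorElement_def]
    group
  have h3 : b * u * b⁻¹ = c * u := by
    rw [h2]
    group
  -- powers of `b`
  have h4 : ∀ j : ℕ, b ^ j * u * (b ^ j)⁻¹ = c ^ j * u := by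
    intro j
    induction j with
    | zero => simp
    | succ j ih =>
      have e1 : b ^ (j + 1) * u * (b ^ (j + 1))⁻¹ = b * (b ^ j * u * (b ^ j)⁻¹) * b⁻¹ := by
        rw [pow_succ' b j]
        group
      have e2 : b * c ^ j = c ^ j * b := by
        have : Commute b c := h1 b
        exact this.pow_right j
      rw [e1, ih, ← mul_assoc, e2, mul_assoc (c ^ j) b u, mul_assoc (c ^ j), h3, ← mul_assoc,
        ← pow_succ]
  have h5 : ∀ j : ℕ, (b * u * b⁻¹) ^ j = c ^ j * u ^ j := by
    intro j
    rw [h3]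
    have : Commute c u := (h1 u).symm
    exact this.mul_pow j
  have h6 : c ^ N = 1 := by
    have := h4 N
    rw [hN, inv_one, mul_one, one_mul] at this
    exact mul_eq_right.1 this.symm
  have h7 : c ^ orderOf u = 1 := by
    have h8 := h5 (orderOf u)
    rw [conj_pow, pow_orderOf_eq_one, mul_one, mul_inv_cancel, mul_one] at h8
    exact h8.symm
  have h9 : c = 1 := by
    have h10 : orderOf c ∣ 1 := by
      rw [← hc]
      exact Nat.dvd_gcd (orderOf_dvd_of_pow_eq_one h6) (orderOf_dvd_of_pow_eq_one h7)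
    exact orderOf_eq_one_iff.1 (Nat.dvd_one.1 h10)
  rw [h2, h9, one_mul]

/-- the subgroup of the elements preserving a set under right multiplication -/
def f1_st (F : Set G) : Subgroup G where
  carrier := {d | ∀ x : G, x ∈ F ↔ x * d ∈ F}
  one_mem' := fun x => by rw [mul_one]
  mul_mem' := by
    intro a b ha hb x
    rw [← mul_assoc, ← hb, ← ha]
  inv_mem' := by
    intro a ha x
    rw [ha (x * a⁻¹), inv_mul_cancel_right]

/-- the number of fixed points -/
theorem f1_fix [Finite G] (H : Subgroup G) {a : G} (ha : a ∈ Subgroup.upperCentralSeries G 2)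
    {N : ℕ} (hN : a ^ N = 1) {q : ℕ} (hq : q.Prime) (hqN : ¬ q ∣ N) {k : ℕ}
    (hk : q ^ k ∣ H.index) : q ^ k ∣ Nat.card {y : G ⧸ H // a • y = y} := by
  classical
  have hfq : Fact q.Prime := ⟨hq⟩
  obtain ⟨Q⟩ : Nonempty (Sylow q G) := inferInstance
  set D : Subgroup G := H ⊔ (Q : Subgroup G) with hD
  have hHD : H ≤ D := le_sup_left
  -- stability of the condition
  have hconj : ∀ x : G, x⁻¹ * a * x ∈ Subgroup.upperCentralSeries G 2 := by
    intro x
    have := (inferInstance : (Subgroup.upperCentralSeries G 2).Normal).conj_mem a ha x⁻¹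
    rwa [inv_inv] at this
  set F : Set G := {x | x⁻¹ * a * x ∈ H} with hF
  have hDF : D ≤ f1_st F := by
    rw [hD, sup_le_iff]
    constructor
    · intro d hd x
      show x⁻¹ * a * x ∈ H ↔ (x * d)⁻¹ * a * (x * d) ∈ H
      have e1 : (x * d)⁻¹ * a * (x * d) = d⁻¹ * (x⁻¹ * a * x) * d := by group
      rw [e1]
      constructor
      · intro h
        exact H.mul_mem (H.mul_mem (H.inv_mem hd) h) hd
      · intro h
        have := H.mul_mem (H.mul_mem hd h) (H.inv_mem hd)
        have e2 : d * (d⁻¹ * (x⁻¹ * a * x) * d) * d⁻¹ = x⁻¹ * a * x := by group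
        rwa [e2] at this
    · intro d hd x
      show x⁻¹ * a * x ∈ H ↔ (x * d)⁻¹ * a * (x * d) ∈ H
      have e1 : (x * d)⁻¹ * a * (x * d) = d⁻¹ * ((x⁻¹ * a * x) * d) := by group
      have hpow : (x⁻¹ * a * x) ^ N = 1 := by
        have e3 : x⁻¹ * a * x = x⁻¹ * a * (x⁻¹)⁻¹ := by rw [inv_inv]
        rw [e3, conj_pow, hN, mul_one, inv_inv, inv_mul_cancel]
      obtain ⟨j, hj⟩ := (IsPGroup.iff_orderOf.1 Q.2) ⟨d, hd⟩
      rw [Subgroup.orderOf_mk] at hj
      have hcop : Nat.Coprime N (orderOf d) := by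
        rw [hj]
        exact (Nat.Coprime.pow_left j ((Nat.Prime.coprime_iff_not_dvd hq).2 hqN)).symm
      have e2 := f1_comm (hconj x) hpow hcop
      rw [e1, e2, ← mul_assoc, inv_mul_cancel, one_mul]
  -- the fixed points are a union of fibres
  have hfix : ∀ x : G, a • (QuotientGroup.mk x : G ⧸ H) = QuotientGroup.mk x ↔ x ∈ F := by
    intro x
    show (QuotientGroup.mk (a * x) : G ⧸ H) = QuotientGroup.mk x ↔ x⁻¹ * a * x ∈ H
    rw [eq_comm, QuotientGroup.eq, mul_assoc]
  set P : G ⧸ D → Prop := fun z => ∃ x : G, QuotientGroup.mk x = z ∧ x ∈ F with hP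
  have e : {y : G ⧸ H // a • y = y} ≃ {z : G ⧸ D // P z} × (D ⧸ H.subgroupOf D) :=
    (Equiv.subtypeEquiv (Subgroup.quotientEquivProdOfLE hHD) (q := fun w => P w.1) (by
      intro y
      obtain ⟨x, rfl⟩ := QuotientGroup.mk_surjective y
      rw [hfix]
      have e1 : ((Subgroup.quotientEquivProdOfLE hHD) (QuotientGroup.mk x : G ⧸ H)).1 =
          (QuotientGroup.mk x : G ⧸ D) := rfl
      rw [e1]
      constructor
      · intro h
        exact ⟨x, rfl, h⟩
      · rintro ⟨x', hx', hxF⟩
        rw [QuotientGroup.eq] at hx'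
        have h1 := hDF hx' x'
        rw [mul_inv_cancel_left] at h1
        exact h1.1 hxF)).trans Equiv.prodSubtypeFstEquivSubtypeProd
  rw [Nat.card_congr e, Nat.card_prod]
  refine Dvd.dvd.mul_left ?_ _
  have h1 : Nat.card (D ⧸ H.subgroupOf D) = H.relIndex D := rfl
  rw [h1]
  rw [← Subgroup.relIndex_mul_index hHD] at hk
  have h2 : ¬ q ∣ D.index := fun h =>
    Q.not_dvd_index (h.trans (Subgroup.index_dvd_of_le le_sup_right))
  exact (Nat.Coprime.pow_left k ((Nat.Prime.coprime_iff_not_dvd hq).2 h2)).dvd_of_dvd_mul_right hk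

/-- the number of orbits -/
theorem f1_norb [Finite G] (H : Subgroup G) {g : G} (hg : g ∈ Subgroup.upperCentralSeries G 2)
    {q : ℕ} (hq : q.Prime) (hqN : ¬ q ∣ orderOf g) {k : ℕ} (hk : q ^ k ∣ H.index) :
    q ^ k ∣ norb H g := by
  classical
  have := Fintype.ofFinite G
  have := Fintype.ofFinite (Subgroup.zpowers g)
  have hB := MulAction.sum_card_fixedBy_eq_card_orbits_mul_card_group (Subgroup.zpowers g) (G ⧸ H)
  have h1 : norb H g = Fintype.card
      (Quotient (MulAction.orbitRel (Subgroup.zpowers g) (G ⧸ H))) := by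
    unfold norb
    exact Nat.card_eq_fintype_card
  rw [← h1, ← Nat.card_eq_fintype_card (α := Subgroup.zpowers g), Nat.card_zpowers] at hB
  have h2 : q ^ k ∣ norb H g * orderOf g := by
    rw [← hB]
    refine Finset.dvd_sum fun b _ => ?_
    have h3 : Fintype.card (MulAction.fixedBy (G ⧸ H) b) =
        Nat.card {y : G ⧸ H // (b : G) • y = y} := by
      rw [← Nat.card_eq_fintype_card]
      rfl
    rw [h3]
    refine f1_fix H ?_ (N := orderOf g) ?_ hq hqN hk
    · exact (Subgroup.zpowers_le.2 hg) b.2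
    · obtain ⟨i, hi⟩ := b.2
      rw [← hi]
      show (g ^ i) ^ orderOf g = 1
      rw [← zpow_natCast, ← zpow_mul, mul_comm, zpow_mul, zpow_natCast, pow_orderOf_eq_one,
        one_zpow]
  exact (Nat.Coprime.pow_left k ((Nat.Prime.coprime_iff_not_dvd hq).2 hqN)).dvd_of_dvd_mul_right h2

theorem f1_hind [Finite G] (H : Subgroup G) {g : G} (hg : g ∈ Subgroup.upperCentralSeries G 2)
    {q : ℕ} (hq : q.Prime) (hqN : ¬ q ∣ orderOf g) {k : ℕ} (hk : q ^ k ∣ H.index) :
    q ^ k ∣ hind H g := Nat.dvd_sub hk (f1_norb H hg hq hqN hk)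

private theorem f1_mem {H : Subgroup G} (g : G) (x y : G ⧸ H) :
    (MulAction.orbitRel (Subgroup.zpowers g) (G ⧸ H)) x y ↔ ∃ k : ℤ, g ^ k • y = x := by
  rw [MulAction.orbitRel_apply, MulAction.mem_orbit_iff]
  constructor
  · rintro ⟨⟨a, k, rfl⟩, h⟩
    exact ⟨k, h⟩
  · rintro ⟨k, h⟩
    exact ⟨⟨g ^ k, k, rfl⟩, h⟩

private theorem f1_norb_le [Finite G] (H : Subgroup G) (g : G) : norb H g ≤ H.index := by
  unfold norb
  exact Nat.card_le_card_of_surjective
    (Quotient.mk (MulAction.orbitRel (Subgroup.zpowers g) (G ⧸ H))) Quotient.mk_surjective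

private theorem f1_norb_pos [Finite G] (H : Subgroup G) (g : G) : 0 < norb H g := by
  unfold norb
  have : Nonempty (MulAction.orbitRel.Quotient (Subgroup.zpowers g) (G ⧸ H)) :=
    ⟨Quotient.mk'' (QuotientGroup.mk 1)⟩
  exact Nat.card_pos

private theorem f1_moves (H : Subgroup G) (hc : H.normalCore = ⊥) (g : G)
    (h : ∀ x : G ⧸ H, g • x = x) : g = 1 := by
  have h1 : g ∈ H.normalCore := by
    rw [Subgroup.normalCore_eq_ker, MonoidHom.mem_ker]
    apply Equiv.ext
    intro x
    exact h x
  rw [hc] at h1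
  exact Subgroup.mem_bot.1 h1

private theorem f1_card_lt {α β : Type} [Finite α] (f : α → β) (hs : Function.Surjective f)
    (hn : ¬ Function.Injective f) : Nat.card β < Nat.card α := by
  have h1 : Nat.card β ≤ Nat.card α := Nat.card_le_card_of_surjective f hs
  refine lt_of_le_of_ne h1 fun h => hn ?_
  exact ((Nat.bijective_iff_surjective_and_card f).2 ⟨hs, h.symm⟩).1

/-- the index of a power to a prime divisor of the order is smaller -/
theorem f1_lt [Finite G] (H : Subgroup G) (hc : H.normalCore = ⊥) {g : G} {p : ℕ} (hp : p.Prime)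
    (hpg : p ∣ orderOf g) : hind H (g ^ p) < hind H g := by
  have h1 : norb H g < norb H (g ^ p) := by
    have hle : ∀ a b : G ⧸ H,
        (MulAction.orbitRel (Subgroup.zpowers (g ^ p)) (G ⧸ H)) a b →
        (MulAction.orbitRel (Subgroup.zpowers g) (G ⧸ H)) a b := by
      intro a b hab
      rw [f1_mem] at hab ⊢
      obtain ⟨k, hk⟩ := hab
      refine ⟨p * k, ?_⟩
      rw [zpow_mul, zpow_natCast]
      exact hk
    unfold norb
    refine f1_card_lt (Quotient.map' (s₁ := MulAction.orbitRel (Subgroup.zpowers (g ^ p)) _)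
      (s₂ := MulAction.orbitRel (Subgroup.zpowers g) _) id hle) ?_ fun hi => ?_
    · intro q
      induction q using Quotient.inductionOn' with
      | h a => exact ⟨Quotient.mk'' a, rfl⟩
    · obtain ⟨N, hN⟩ := hpg
      have hfx : ∀ x : G ⧸ H, g ^ N • x = x := by
        intro x
        have h5 : (Quotient.mk'' (g • x) :
            MulAction.orbitRel.Quotient (Subgroup.zpowers (g ^ p)) (G ⧸ H)) =
            Quotient.mk'' x := by
          apply hi
          rw [Quotient.map'_mk'', Quotient.map'_mk'']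
          refine Quotient.sound ?_
          change (MulAction.orbitRel (Subgroup.zpowers g) (G ⧸ H)) (g • x) x
          rw [f1_mem]
          exact ⟨1, by rw [zpow_one]⟩
        have h6 := Quotient.exact h5
        change (MulAction.orbitRel (Subgroup.zpowers (g ^ p)) (G ⧸ H)) (g • x) x at h6
        rw [f1_mem] at h6
        obtain ⟨k, hk⟩ := h6
        -- `g ^ (p k - 1)` fixes `x`
        have h7 : g ^ (p * k - 1) • x = x := by
          have e1 : g ^ ((p : ℤ) * k - 1) = g⁻¹ * (g ^ p) ^ k := by
            rw [zpow_sub, zpow_one, zpow_mul, zpow_natCast, ← zpow_natCast g p, ← zpow_mul]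
            rw [(Commute.refl g).zpow_left _ |>.inv_right.eq]
          rw [e1, mul_smul, hk, inv_smul_smul]
        have h8 : (g ^ ((p : ℤ) * k - 1)) ^ (N : ℤ) • x = x := by
          have h9 : g ^ ((p : ℤ) * k - 1) ∈ MulAction.stabilizer G x := h7
          exact Subgroup.zpow_mem _ h9 _
        have h10 : (g ^ ((p : ℤ) * k - 1)) ^ (N : ℤ) = (g ^ N)⁻¹ := by
          rw [← zpow_mul]
          have e2 : ((p : ℤ) * k - 1) * N = (orderOf g : ℤ) * k - N := by
            rw [hN]
            push_cast
            ring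
          rw [e2, zpow_sub, zpow_mul, zpow_natCast g (orderOf g), pow_orderOf_eq_one, one_zpow,
            one_mul, zpow_natCast]
        rw [h10] at h8
        have h11 : (g ^ N)⁻¹ ∈ MulAction.stabilizer G x := h8
        have h12 := Subgroup.inv_mem _ h11
        rw [inv_inv] at h12
        exact h12
      have h13 := f1_moves H hc (g ^ N) hfx
      have h14 := orderOf_dvd_of_pow_eq_one h13
      have h15 : 0 < orderOf g := orderOf_pos g
      rw [hN] at h15
      have h16 : 0 < N := Nat.pos_of_mul_pos_left h15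
      rw [hN] at h14
      have h17 := Nat.le_of_dvd h16 h14
      have h18 := hp.two_le
      nlinarith
  have h2 := f1_norb_le H (g ^ p)
  unfold hind
  omega

end

/-- F1: the elements of least index -/
theorem sgrp5 : SGrp5 := by
  classical
  intro G _ H hH
  have hfin := hH.fin
  have hcore := hH.core
  -- a nontrivial element
  have hnt : ∃ g : G, g ≠ 1 := by
    by_contra hcon
    simp only [not_exists, ne_eq, not_not] at hcon
    apply hH.ne
    rw [eq_top_iff]
    intro x _
    rw [hcon x]
    exact H.one_mem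
  obtain ⟨g1, hg1⟩ := hnt
  have hne : {j | ∃ g : G, g ≠ 1 ∧ hind H g = j}.Nonempty := ⟨hind H g1, g1, hg1, rfl⟩
  obtain ⟨g0, hg0, hg0m⟩ : ∃ g : G, g ≠ 1 ∧ hind H g = mi H := Nat.sInf_mem hne
  have hmin : ∀ g : G, g ≠ 1 → mi H ≤ hind H g := fun g hg => Nat.sInf_le ⟨g, hg, rfl⟩
  have hpos : 0 < mi H := by
    rw [← hg0m]
    exact hind_pos H hcore g0 hg0
  -- prime orders
  have hprime : ∀ g ∈ Mn H, (orderOf g).Prime := by
    rintro g ⟨hg, hgm⟩
    have h1 : orderOf g ≠ 1 := fun h => hg (orderOf_eq_one_iff.1 h)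
    obtain ⟨p, hp, hpg⟩ := Nat.exists_prime_and_dvd h1
    have h2 := f1_lt H hcore hp hpg
    have h3 : g ^ p = 1 := by
      by_contra hcon
      have := hmin _ hcon
      omega
    have h4 := (Nat.dvd_prime hp).1 (orderOf_dvd_of_pow_eq_one h3)
    rcases h4 with h4 | h4
    · exact absurd h4 h1
    · rw [h4]
      exact hp
  -- the same order
  have hsame : ∀ g ∈ Mn H, ∀ g' ∈ Mn H, orderOf g = orderOf g' := by
    intro g hg g' hg'
    by_contra hne'
    have hp := hprime g hg
    have hp' := hprime g' hg'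
    have hdvd : H.index ∣ mi H := by
      rw [Nat.dvd_iff_prime_pow_dvd_dvd]
      intro q k hq hk
      by_cases h1 : q ∣ orderOf g
      · have h2 : ¬ q ∣ orderOf g' := fun h => hne'
          (((Nat.prime_dvd_prime_iff_eq hq hp).1 h1).symm.trans
            ((Nat.prime_dvd_prime_iff_eq hq hp').1 h))
        rw [← hg'.2]
        exact f1_hind H (hH.z2 g' hg') hq h2 hk
      · rw [← hg.2]
        exact f1_hind H (hH.z2 g hg) hq h1 hk
    have h3 := Nat.le_of_dvd hpos hdvd
    have h4 := f1_norb_pos H g0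
    have h5 := f1_norb_le H g0
    rw [← hg0m] at h3
    unfold hind at h3
    omega
  have hg0M : g0 ∈ Mn H := ⟨hg0, hg0m⟩
  refine ⟨hpos, ⟨orderOf g0, ?_⟩, ((mi H : ℝ) + 1) / mi H, ?_, ?_⟩
  · refine
      { fin := hfin
        nil := hH.nil
        prm := hprime g0 hg0M
        ne := ⟨g0, hg0M⟩
        one := fun h => h.1 rfl
        conj := ?_
        pow := ?_
        ord := ?_
        z2 := hH.z2 }
    · rintro g m ⟨hm, hmm⟩
      refine ⟨fun h => hm ?_, ?_⟩
      · exact conj_eq_one_iff.1 h
      · rw [hind_conj, hmm]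
    · intro m hm j hj
      have ho := hsame m hm g0 hg0M
      have hcop : Nat.Coprime j (orderOf m) := by
        rw [ho]
        exact ((Nat.Prime.coprime_iff_not_dvd (hprime g0 hg0M)).2 hj).symm
      obtain ⟨i, hi⟩ := exists_pow_eq_self_of_coprime hcop
      have hz : Subgroup.zpowers (m ^ j) = Subgroup.zpowers m := by
        apply le_antisymm
        · rw [Subgroup.zpowers_le]
          exact Subgroup.npow_mem_zpowers m j
        · rw [Subgroup.zpowers_le]
          have := Subgroup.npow_mem_zpowers (m ^ j) i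
          rwa [hi] at this
      refine ⟨fun h => hm.1 ?_, ?_⟩
      · rw [← hi, h, one_pow]
      · have : norb H (m ^ j) = norb H m :=
          congrArg (fun K : Subgroup G => Nat.card (MulAction.orbitRel.Quotient K (G ⧸ H))) hz
        unfold hind
        rw [this]
        exact hm.2
    · intro m hm
      rw [← hsame m hm g0 hg0M]
      exact pow_orderOf_eq_one m
  · have h1 : (0 : ℝ) < mi H := by exact_mod_cast hpos
    rw [lt_div_iff₀ h1]
    linarith
  · intro g hg
    have h1 : (0 : ℝ) < mi H := by exact_mod_cast hpos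
    rw [div_mul_cancel₀ _ h1.ne']
    have h2 : g ≠ 1 := fun h => hg (Or.inl h)
    have h3 : hind H g ≠ mi H := fun h => hg (Or.inr ⟨h2, h⟩)
    have h4 := hmin g h2
    have h5 : mi H + 1 ≤ hind H g := by omega
    exact_mod_cast h5

end Pool.Agent.TF
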