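import Pool.Agent.TF.Pk

/-!
# The Poisson semigroup on `L²`
-/

set_option autoImplicit false

namespace Pool.Agent.TF

open MeasureTheory Set Filter Topology Pool.Agent.TO Pool.Agent.TB Pool.Agent.TC Pool.Agent.TP
open scoped ENNReal NNReal Real InnerProductSpace SchwartzMap LineDeriv

variable {y : ℝ}

/-- differentiation of a family of convolution operators -/
theorem hasDerivAt_cvO {κ κ' : ℝ → E3 → ℝ} (hy : 0 < y) {C : ℝ}
    (hd : ∀ s, y / 2 < s → s < 2 * y → ∀ x, HasDerivAt (fun s => κ s x) (κ' s x) s)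
    (hb : ∀ s, y / 2 < s → s < 2 * y → ∀ x, |κ' s x| ≤ C * sg y x ^ 4)
    (hκ : ∀ s, 0 < s → ∃ L, KK (κ s) L) (hκ' : ∃ L, KK (κ' y) L) (f : V3) :
    HasDerivAt (fun s => cvO (κ s) f) (cvO (κ' y) f) y := by
  obtain ⟨Ly, hKy⟩ := hκ y hy
  obtain ⟨L', hK'⟩ := hκ'
  have hyI : ∀ᶠ s in 𝓝 y, y / 2 < s ∧ s < 2 * y :=
    (Ioo_mem_nhds (by linarith : y / 2 < y) (by linarith : y < 2 * y))
  -- the remainder kernel
  set R : ℝ → E3 → ℝ := fun s x => (κ s x - κ y x) - (s - y) * κ' y x with hR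
  have hRb : ∀ s, y / 2 < s → s < 2 * y → ∀ x, |R s x| ≤ (2 * C * sg y x ^ 4) * |s - y| := by
    intro s h1 h2 x
    have hconv : Convex ℝ (Ioo (y / 2) (2 * y)) := convex_Ioo _ _
    have hmv := hconv.norm_image_sub_le_of_norm_hasDerivWithin_le
      (f := fun s => κ s x) (f' := fun s => κ' s x) (C := C * sg y x ^ 4) (x := y) (y := s)
      (fun t ht => (hd t ht.1 ht.2 x).hasDerivWithinAt)
      (fun t ht => by rw [Real.norm_eq_abs]; exact hb t ht.1 ht.2 x)
      ⟨by linarith, by linarith⟩ ⟨h1, h2⟩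
    rw [Real.norm_eq_abs, Real.norm_eq_abs] at hmv
    have h3 := hb y (by linarith) (by linarith) x
    calc |R s x| ≤ |κ s x - κ y x| + |(s - y) * κ' y x| := abs_sub _ _
      _ ≤ C * sg y x ^ 4 * |s - y| + |s - y| * (C * sg y x ^ 4) := by
          rw [abs_mul]
          exact add_le_add hmv (mul_le_mul_of_nonneg_left h3 (abs_nonneg _))
      _ = _ := by ring
  have hRK : ∀ s, y / 2 < s → KK (R s) (∫ x, |R s x|) := by
    intro s h1
    obtain ⟨Ls, hKs⟩ := hκ s (by linarith)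
    exact kk_self (kk_sub (kk_sub hKs hKy) (kk_smul (s - y) hK'))
  have hlim : Tendsto (fun s => (∫ x, |R s x|) / |s - y|) (𝓝[≠] y) (𝓝 0) := by
    have e : ∀ s, (∫ x, |R s x|) / |s - y| = ∫ x, |R s x| / |s - y| := by
      intro s
      rw [integral_div]
    simp only [e]
    have h0 : (0:ℝ) = ∫ x : E3, (0:ℝ) := by simp
    rw [h0]
    apply tendsto_integral_filter_of_dominated_convergence (fun x => 2 * C * sg y x ^ 4)
    · filter_upwards [nhdsWithin_le_nhds hyI] with s hs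
      exact ((hRK s hs.1).cont.abs.div_const _).aestronglyMeasurable
    · filter_upwards [nhdsWithin_le_nhds hyI, self_mem_nhdsWithin] with s hs hne
      refine Eventually.of_forall fun x => ?_
      have hpos : 0 < |s - y| := abs_pos.2 (sub_ne_zero.2 hne)
      rw [Real.norm_eq_abs, abs_div, abs_abs, abs_abs, div_le_iff₀ hpos]
      exact hRb s hs.1 hs.2 x
    · exact (integrable_sg hy le_rfl).const_mul _
    · refine Eventually.of_forall fun x => ?_
      have h1 := (hasDerivAt_iff_tendsto.1 (hd y (by linarith) (by linarith) x)).mono_left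
        (nhdsWithin_le_nhds (s := {y}ᶜ))
      refine h1.congr fun s => ?_
      rw [Real.norm_eq_abs, Real.norm_eq_abs, smul_eq_mul, div_eq_inv_mul]
  rw [hasDerivAt_iff_tendsto]
  have h2 : Tendsto (fun s => ‖s - y‖⁻¹ * ‖cvO (κ s) f - cvO (κ y) f - (s - y) • cvO (κ' y) f‖)
      (𝓝[≠] y) (𝓝 0) := by
    have h3 : Tendsto (fun s => (∫ x, |R s x|) / |s - y| * ‖f‖) (𝓝[≠] y) (𝓝 0) := by
      have := hlim.mul_const ‖f‖
      rwa [zero_mul] at this
    refine squeeze_zero' (Eventually.of_forall fun s => by positivity) ?_ h3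
    filter_upwards [nhdsWithin_le_nhds hyI] with s hs
    obtain ⟨Ls, hKs⟩ := hκ s (by linarith [hs.1])
    have e : cvO (κ s) f - cvO (κ y) f - (s - y) • cvO (κ' y) f = cvO (R s) f := by
      rw [← cvO_smul (s - y) hK', ← cvO_sub hKs hKy,
        ← cvO_sub (kk_sub hKs hKy) (kk_smul (s - y) hK')]
    rw [e, Real.norm_eq_abs, div_eq_inv_mul, mul_assoc]
    exact mul_le_mul_of_nonneg_left (norm_cvO_le (hRK s hs.1) f) (by positivity)
  have h4 := (tendsto_nhdsWithin_iff.2 ⟨h2, Eventually.of_forall fun _ => mem_univ _⟩)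
  rw [← nhdsNE_sup_pure, tendsto_sup]
  refine ⟨h2, ?_⟩
  rw [tendsto_pure_left]
  intro s hs
  simp only [sub_self, norm_zero, inv_zero, zero_mul]
  exact mem_of_mem_nhds hs

/-- the Poisson semigroup -/
noncomputable def Pp (y : ℝ) : V3 →L[ℝ] V3 := cvO (pk y)
/-- `∂_j P_y` -/
noncomputable def Dp (j : Fin 3) (y : ℝ) : V3 →L[ℝ] V3 := cvO (dk j y)
/-- `∂_y P_y` -/
noncomputable def Yp (y : ℝ) : V3 →L[ℝ] V3 := cvO (yk y)
/-- `∂_i ∂_j P_y` -/
noncomputable def DDp (i j : Fin 3) (y : ℝ) : V3 →L[ℝ] V3 := cvO (ddk i j y)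
/-- `∂_y ∂_y P_y` -/
noncomputable def YYp (y : ℝ) : V3 →L[ℝ] V3 := cvO (yyk y)

theorem norm_Pp_le (hy : 0 < y) (f : V3) : ‖Pp y f‖ ≤ ‖f‖ := by
  have := norm_cvO_le (kk_pk hy) f
  rwa [one_mul] at this

theorem norm_Dp_le (j : Fin 3) (hy : 0 < y) (f : V3) : ‖Dp j y f‖ ≤ 4 / y * ‖f‖ :=
  norm_cvO_le (kk_dk j hy) f

theorem norm_Yp_le (hy : 0 < y) (f : V3) : ‖Yp y f‖ ≤ 4 / y * ‖f‖ := norm_cvO_le (kk_yk hy) f

theorem bd_Pp (hy : 0 < y) {f : V3} {A : ℝ} (hA : 0 ≤ A) (hf : Bd f A) : Bd (Pp y f) A := by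
  have := bd_cvO (kk_pk hy) hA hf
  rwa [one_mul] at this

theorem bd_Dp (j : Fin 3) (hy : 0 < y) {f : V3} {A : ℝ} (hA : 0 ≤ A) (hf : Bd f A) :
    Bd (Dp j y f) (4 / y * A) := bd_cvO (kk_dk j hy) hA hf

theorem bd_Yp (hy : 0 < y) {f : V3} {A : ℝ} (hA : 0 ≤ A) (hf : Bd f A) :
    Bd (Yp y f) (4 / y * A) := bd_cvO (kk_yk hy) hA hf

theorem weak_Pp (j : Fin 3) (hy : 0 < y) (f : V3) : IsWeakDeriv j (Pp y f) (Dp j y f) :=
  weak_kernel (kk_pk hy) (kk_dk j hy) (line_pk hy j) f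

theorem weak_Dp (i j : Fin 3) (hy : 0 < y) (f : V3) : IsWeakDeriv i (Dp j y f) (DDp i j y f) :=
  weak_kernel (kk_dk j hy) (kk_ddk i j hy) (line_dk hy i j) f

theorem sg_four_le (hy : 0 < y) {s : ℝ} (hs : y / 2 ≤ s) (x : E3) :
    sg s x ^ 4 ≤ 16 * sg y x ^ 4 := by
  calc sg s x ^ 4 ≤ (2 * sg y x) ^ 4 :=
        pow_le_pow_left₀ (sg_pos (by linarith) x).le (sg_le_two hy hs x) 4
    _ = _ := by ring

theorem deriv_Pp (hy : 0 < y) (f : V3) : HasDerivAt (fun s => Pp s f) (Yp y f) y := by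
  have hJ := JJ4_inv_pos
  refine hasDerivAt_cvO (κ := pk) (κ' := yk) hy (C := (JJ 4)⁻¹ * 4 * 16)
    (fun s h1 _ x => hasDerivAt_pk (by linarith) x) (fun s h1 _ x => ?_)
    (fun s hs => ⟨_, kk_pk hs⟩) ⟨_, kk_yk hy⟩ f
  have hs : 0 < s := by linarith
  calc |yk s x| ≤ (JJ 4)⁻¹ * 4 * sg s x ^ 4 := abs_yk_le hs x
    _ ≤ (JJ 4)⁻¹ * 4 * (16 * sg y x ^ 4) :=
        mul_le_mul_of_nonneg_left (sg_four_le hy h1.le x) (by positivity)
    _ = _ := by ring

theorem sg_six_le {s : ℝ} (hs : 0 < s) (x : E3) : s * sg s x ^ 6 ≤ s⁻¹ * sg s x ^ 4 := by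
  have h := sg_pow_le_inv hs 4 2 x
  have e : s * sg s x ^ 6 = s⁻¹ * (s ^ 2 * sg s x ^ (4 + 2)) := by field_simp
  rw [e]
  exact mul_le_mul_of_nonneg_left h (by positivity)

theorem sg_five_le {s : ℝ} (hs : 0 < s) (x : E3) : sg s x ^ 5 ≤ s⁻¹ * sg s x ^ 4 := by
  have h := sg_pow_le_inv hs 4 1 x
  have e : sg s x ^ 5 = s⁻¹ * (s ^ 1 * sg s x ^ (4 + 1)) := by field_simp
  rw [e]
  exact mul_le_mul_of_nonneg_left h (by positivity)

theorem deriv_Yp (hy : 0 < y) (f : V3) : HasDerivAt (fun s => Yp s f) (YYp y f) y := by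
  have hJ := JJ4_inv_pos
  refine hasDerivAt_cvO (κ := yk) (κ' := yyk) hy (C := (JJ 4)⁻¹ * 24 * (2 / y) * 16)
    (fun s h1 _ x => hasDerivAt_yk (by linarith) x) (fun s h1 _ x => ?_)
    (fun s hs => ⟨_, kk_yk hs⟩) ⟨_, kk_yyk hy⟩ f
  have hs : 0 < s := by linarith
  have h2 : s⁻¹ ≤ 2 / y := by
    rw [inv_le_comm₀ hs (by positivity), inv_div]
    exact h1.le
  calc |yyk s x| ≤ (JJ 4)⁻¹ * (24 * s) * sg s x ^ 6 := abs_yyk_le hs x
    _ = (JJ 4)⁻¹ * 24 * (s * sg s x ^ 6) := by ring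
    _ ≤ (JJ 4)⁻¹ * 24 * (s⁻¹ * sg s x ^ 4) :=
        mul_le_mul_of_nonneg_left (sg_six_le hs x) (by positivity)
    _ ≤ (JJ 4)⁻¹ * 24 * ((2 / y) * (16 * sg y x ^ 4)) := by
        apply mul_le_mul_of_nonneg_left _ (by positivity)
        exact mul_le_mul h2 (sg_four_le hy h1.le x) (pow_nonneg (sg_pos hs x).le _) (by positivity)
    _ = _ := by ring

theorem cvO_sum3 {κ : Fin 3 → E3 → ℝ} {L : Fin 3 → ℝ} (h : ∀ k, KK (κ k) (L k)) (f : V3) :
    cvO (fun x => ∑ k, κ k x) f = ∑ k, cvO (κ k) f := by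
  have e : (fun x => ∑ k, κ k x) = fun x => (κ 0 x + κ 1 x) + κ 2 x := by
    ext x
    rw [Fin.sum_univ_three]
  rw [e, cvO_add (kk_add (h 0) (h 1)) (h 2), cvO_add (h 0) (h 1), Fin.sum_univ_three]

theorem cvO_neg {κ : E3 → ℝ} {L : ℝ} (h : KK κ L) (f : V3) : cvO (fun x => -κ x) f = -cvO κ f := by
  have e : (fun x => -κ x) = fun x => (-1) * κ x := by ext x; ring
  rw [e, cvO_smul (-1) h, neg_one_smul]

theorem sum_DDp (hy : 0 < y) (f : V3) : ∑ k, DDp k k y f = -YYp y f := by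
  unfold DDp YYp
  rw [← cvO_sum3 (fun k => kk_ddk k k hy), ← cvO_neg (kk_yyk hy)]
  congr 2
  ext x
  exact sum_ddk hy x

/-! ### the limit at `y = 0` -/

theorem continuous_tau (f : V3) : Continuous fun a : E3 => tau a f := by
  have h := Continuous.compMeasurePreservingLp (p := 2) (μ := (volume : Measure E3))
    (ν := (volume : Measure E3)) (Z := E3)
    (f := fun _ => f) (g := fun a => (⟨fun x => x - a, by fun_prop⟩ : C(E3, E3)))
    continuous_const (by
      apply ContinuousMap.continuous_of_continuous_uncurry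
      simp only [Function.uncurry_def, ContinuousMap.coe_mk]
      fun_prop) (fun a => mp_sub a) (by norm_num)
  exact h

theorem Pp_sub (hy : 0 < y) (f : V3) :
    ‖Pp y f - f‖ ≤ ∫ z, pk 1 z * ‖tau (y • z) f - f‖ := by
  have hcont : Continuous fun z => pk 1 z * ‖tau (y • z) f - f‖ :=
    (continuous_pk one_pos).mul (((continuous_tau f).comp (continuous_const_smul y)).sub
      continuous_const).norm
  have hi : Integrable (fun z => pk 1 z * ‖tau (y • z) f - f‖) (volume : Measure E3) := by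
    refine Integrable.mono' ((kk_pk one_pos).int.mul_const (2 * ‖f‖)) hcont.aestronglyMeasurable
      (Eventually.of_forall fun z => ?_)
    rw [norm_mul, norm_norm, Real.norm_eq_abs, abs_of_nonneg (pk_nonneg one_pos z)]
    apply mul_le_mul_of_nonneg_left _ (pk_nonneg one_pos z)
    refine (norm_sub_le _ _).trans ?_
    rw [norm_tau]; linarith
  have key : ∀ h : V3, |⟪h, Pp y f - f⟫_ℝ| ≤ ‖h‖ * ∫ z, pk 1 z * ‖tau (y • z) f - f‖ := by
    intro h
    have e1 : ⟪h, Pp y f - f⟫_ℝ = ∫ z, pk y z * ⟪h, tau z f - f⟫_ℝ := by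
      unfold Pp
      rw [cvO_eq (kk_pk hy), inner_sub_right, inner_cvL_tau]
      have e2 : ⟪h, f⟫_ℝ = ∫ z, pk y z * ⟪h, f⟫_ℝ := by
        rw [integral_mul_const, integral_pk hy, one_mul]
      rw [e2, ← integral_sub]
      · congr 1
        ext z
        rw [inner_sub_right]; ring
      · refine Integrable.mono' ((kk_pk hy).int.mul_const (‖h‖ * ‖f‖))
          ((continuous_pk hy).mul ((continuous_const).inner
            (continuous_tau f))).aestronglyMeasurable (Eventually.of_forall fun z => ?_)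
        rw [norm_mul, Real.norm_eq_abs, abs_of_nonneg (pk_nonneg hy z)]
        apply mul_le_mul_of_nonneg_left _ (pk_nonneg hy z)
        refine (norm_inner_le_norm _ _).trans ?_
        rw [norm_tau]
      · exact (kk_pk hy).int.mul_const _
    have e3 : ∫ z, pk y z * ⟪h, tau z f - f⟫_ℝ = ∫ z, pk 1 z * ⟪h, tau (y • z) f - f⟫_ℝ := by
      have h4 := Measure.integral_comp_smul (volume : Measure E3)
        (fun z => pk y z * ⟪h, tau z f - f⟫_ℝ) y
      have h5 : ∀ z, pk y (y • z) = (y ^ 3)⁻¹ * pk 1 z := by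
        intro z
        unfold pk
        rw [sg_scale hy]
        field_simp
      simp only [finrank_euclideanSpace, Fintype.card_fin, h5] at h4
      rw [abs_of_pos (by positivity), smul_eq_mul] at h4
      have h6 : ∫ z : E3, (y ^ 3)⁻¹ * pk 1 z * ⟪h, tau (y • z) f - f⟫_ℝ =
          (y ^ 3)⁻¹ * ∫ z, pk 1 z * ⟪h, tau (y • z) f - f⟫_ℝ := by
        rw [← integral_const_mul]
        congr 1
        ext z
        ring
      rw [h6] at h4
      exact (mul_left_cancel₀ (by positivity) h4).symm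
    rw [e1, e3, ← integral_const_mul, ← Real.norm_eq_abs]
    refine norm_integral_le_of_norm_le (hi.const_mul ‖h‖) (Eventually.of_forall fun z => ?_)
    rw [norm_mul, Real.norm_eq_abs, abs_of_nonneg (pk_nonneg one_pos z)]
    calc pk 1 z * ‖⟪h, tau (y • z) f - f⟫_ℝ‖ ≤ pk 1 z * (‖h‖ * ‖tau (y • z) f - f‖) :=
          mul_le_mul_of_nonneg_left (norm_inner_le_norm _ _) (pk_nonneg one_pos z)
      _ = _ := by ring
  have h1 := key (Pp y f - f)
  rw [real_inner_self_eq_norm_sq, abs_of_nonneg (by positivity), sq] at h1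
  rcases eq_or_lt_of_le (norm_nonneg (Pp y f - f)) with h0 | h0
  · rw [← h0]
    exact integral_nonneg fun z => mul_nonneg (pk_nonneg one_pos z) (norm_nonneg _)
  · exact le_of_mul_le_mul_left h1 h0

theorem tendsto_Pp_zero (f : V3) : Tendsto (fun y => Pp y f) (𝓝[>] 0) (𝓝 f) := by
  rw [tendsto_iff_norm_sub_tendsto_zero]
  have h1 : Tendsto (fun y : ℝ => ∫ z, pk 1 z * ‖tau (y • z) f - f‖) (𝓝[>] 0) (𝓝 0) := by
    suffices h : Tendsto (fun y : ℝ => ∫ z, pk 1 z * ‖tau (y • z) f - f‖) (𝓝[>] 0)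
        (𝓝 (∫ z : E3, (0:ℝ))) by simpa using h
    apply tendsto_integral_filter_of_dominated_convergence (fun z => pk 1 z * (2 * ‖f‖))
    · refine Eventually.of_forall fun y => ?_
      exact ((continuous_pk one_pos).mul (((continuous_tau f).comp (continuous_const_smul y)).sub
        continuous_const).norm).aestronglyMeasurable
    · refine Eventually.of_forall fun y => Eventually.of_forall fun z => ?_
      rw [norm_mul, norm_norm, Real.norm_eq_abs, abs_of_nonneg (pk_nonneg one_pos z)]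
      apply mul_le_mul_of_nonneg_left _ (pk_nonneg one_pos z)
      refine (norm_sub_le _ _).trans ?_
      rw [norm_tau]; linarith
    · exact (kk_pk one_pos).int.mul_const _
    · refine Eventually.of_forall fun z => ?_
      have h2 : Continuous fun y : ℝ => pk 1 z * ‖tau (y • z) f - f‖ :=
        continuous_const.mul (((continuous_tau f).comp (continuous_id.smul continuous_const)).sub
          continuous_const).norm
      have h3 := (h2.tendsto 0).mono_left (nhdsWithin_le_nhds (s := Ioi 0))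
      simp only [zero_smul, tau_zero, sub_self, norm_zero, mul_zero] at h3
      exact h3
  refine squeeze_zero' (Eventually.of_forall fun _ => norm_nonneg _) ?_ h1
  filter_upwards [self_mem_nhdsWithin] with y hy
  exact Pp_sub hy f

end Pool.Agent.TF
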