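import Pool.Agent.TF.RieszK

/-!
# Existence of the Riesz transforms
-/

set_option autoImplicit false

namespace Pool.Agent.TF.Rz

open MeasureTheory Set Filter Topology Pool.Agent.TO Pool.Agent.TB Pool.Agent.TC Pool.Agent.TP
open scoped ENNReal NNReal Real InnerProductSpace SchwartzMap LineDeriv

/-- the lower cut-off -/
noncomputable def aa (n : ℕ) : ℝ := 1 / ((n : ℝ) + 1)

/-- the upper cut-off -/
noncomputable def bb (n : ℕ) : ℝ := (n : ℝ) + 1

theorem aa_pos (n : ℕ) : 0 < aa n := by unfold aa; positivity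

theorem bb_pos (n : ℕ) : 0 < bb n := by unfold bb; positivity

theorem tendsto_aa : Tendsto aa atTop (𝓝[>] 0) :=
  tendsto_nhdsWithin_iff.2 ⟨tendsto_one_div_add_atTop_nhds_zero_nat,
    Eventually.of_forall fun n => aa_pos n⟩

theorem tendsto_bb : Tendsto bb atTop atTop :=
  tendsto_atTop_add_const_right _ _ tendsto_natCast_atTop_atTop

theorem tendsto_Pa (f : V3) : Tendsto (fun n => Pp (aa n) f) atTop (𝓝 f) :=
  (tendsto_Pp_zero f).comp tendsto_aa

variable (hs : SG)

include hs

theorem tendsto_Pb (f : V3) : Tendsto (fun n => Pp (bb n) f) atTop (𝓝 0) :=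
  (hs.lim f).comp tendsto_bb

theorem cauchy_Xp (j : Fin 3) (f : V3) : CauchySeq fun n => Xp j (aa n) (bb n) f := by
  have h1 := (tendsto_Pa f).cauchySeq
  have h2 := (tendsto_Pb hs f).cauchySeq
  rw [Metric.cauchySeq_iff] at h1 h2 ⊢
  intro ε hε
  obtain ⟨N1, hN1⟩ := h1 (ε / 2) (by positivity)
  obtain ⟨N2, hN2⟩ := h2 (ε / 2) (by positivity)
  refine ⟨max N1 N2, fun m hm n hn => ?_⟩
  have k1 := hN1 m ((le_max_left _ _).trans hm) n ((le_max_left _ _).trans hn)
  have k2 := hN2 n ((le_max_right _ _).trans hn) m ((le_max_right _ _).trans hm)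
  rw [dist_eq_norm] at k1 k2 ⊢
  have e : Xp j (aa m) (bb m) f - Xp j (aa n) (bb n) f =
      Xp j (aa m) (aa n) f + Xp j (bb n) (bb m) f := by
    rw [Xp_add j (aa_pos m) (aa_pos n) (bb_pos m), Xp_add j (aa_pos n) (bb_pos n) (bb_pos m)]
    abel
  rw [e]
  have k3 := norm_Xp_le hs j (aa_pos m) (aa_pos n) f
  have k4 := norm_Xp_le hs j (bb_pos n) (bb_pos m) f
  have k5 := norm_add_le (Xp j (aa m) (aa n) f) (Xp j (bb n) (bb m) f)
  linarith

theorem exists_R (j : Fin 3) : ∃ R : V3 →L[ℝ] V3, ∀ f,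
    Tendsto (fun n => Xp j (aa n) (bb n) f) atTop (𝓝 (R f)) := by
  choose l hl using fun f => cauchySeq_tendsto_of_complete (cauchy_Xp hs j f)
  refine ⟨continuousLinearMapOfTendsto (fun n => Xp j (aa n) (bb n)) (f := l)
    (tendsto_pi_nhds.2 hl), fun f => ?_⟩
  exact hl f

theorem rz_of_lim {R : Fin 3 → V3 →L[ℝ] V3}
    (hR : ∀ j f, Tendsto (fun n => Xp j (aa n) (bb n) f) atTop (𝓝 (R j f))) : RZ R := by
  have hti : ∀ j, TI (R j) := by
    intro j a f
    have h1 := hR j (tau a f)
    have h2 := ((tau a).continuous.tendsto _).comp (hR j f)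
    refine tendsto_nhds_unique (h1.congr fun n => ?_) h2
    exact ti_cvO _ a f
  have hX : ∀ a b : ℝ, 0 < a → 0 < b → ∀ f, ∑ j, Xp j a b (R j f) = Pp b f - Pp a f := by
    intro a b ha hb f
    have h1 : Tendsto (fun n => ∑ j, Xp j a b (Xp j (aa n) (bb n) f)) atTop
        (𝓝 (∑ j, Xp j a b (R j f))) :=
      tendsto_finsetSum _ fun j _ => ((Xp j a b).continuous.tendsto _).comp (hR j f)
    have h2 : Tendsto (fun n => Pp (aa n) (Pp b f) - Pp (bb n) (Pp b f) -
        (Pp (aa n) (Pp a f) - Pp (bb n) (Pp a f))) atTop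
        (𝓝 (Pp b f - 0 - (Pp a f - 0))) :=
      ((tendsto_Pa _).sub (tendsto_Pb hs _)).sub ((tendsto_Pa _).sub (tendsto_Pb hs _))
    rw [sub_zero, sub_zero] at h2
    refine tendsto_nhds_unique h1 (h2.congr fun n => ?_)
    rw [sum_Xp_Xp hs ha hb (aa_pos n) (bb_pos n), hs.pp _ _ (aa_pos n) hb,
      hs.pp _ _ (bb_pos n) hb, hs.pp _ _ (aa_pos n) ha, hs.pp _ _ (bb_pos n) ha]
  exact
    { le := by
        intro j f
        have h1 := (hR j f).norm
        have h2 := ((tendsto_Pa f).sub (tendsto_Pb hs f)).norm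
        rw [sub_zero] at h2
        exact le_of_tendsto_of_tendsto' h1 h2 fun n => norm_Xp_le hs j (aa_pos n) (bb_pos n) f
      anti := by
        intro j f g
        have h1 : Tendsto (fun n => ⟪f, Xp j (aa n) (bb n) g⟫_ℝ) atTop (𝓝 ⟪f, R j g⟫_ℝ) :=
          tendsto_const_nhds.inner (hR j g)
        have h2 : Tendsto (fun n => -⟪Xp j (aa n) (bb n) f, g⟫_ℝ) atTop (𝓝 (-⟪R j f, g⟫_ℝ)) :=
          ((hR j f).inner tendsto_const_nhds).neg
        exact tendsto_nhds_unique h1 (h2.congr fun n => (Xp_anti j (aa_pos n) (bb_pos n) f g).symm)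
      ti := hti
      comm := by
        intro i j f
        have h1 : Tendsto (fun n => R i (Xp j (aa n) (bb n) f)) atTop (𝓝 (R i (R j f))) :=
          ((R i).continuous.tendsto _).comp (hR j f)
        exact tendsto_nhds_unique h1 ((hR j (R i f)).congr fun n => ((hti i).cvO _ f).symm)
      sum_sq := by
        intro f
        have h1 : Tendsto (fun n => ∑ j, Xp j (aa n) (bb n) (R j f)) atTop
            (𝓝 (∑ j, R j (R j f))) := tendsto_finsetSum _ fun j _ => hR j (R j f)
        have h2 := (tendsto_Pb hs f).sub (tendsto_Pa f)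
        rw [zero_sub] at h2
        exact tendsto_nhds_unique h1 (h2.congr fun n => (hX _ _ (aa_pos n) (bb_pos n) f).symm)
      yp := by
        intro j y hy f
        have h1 : Tendsto (fun n => Yp y (Xp j (aa n) (bb n) f)) atTop (𝓝 (Yp y (R j f))) :=
          ((Yp y).continuous.tendsto _).comp (hR j f)
        have h2 : Tendsto (fun n => Dp j y (Pp (bb n) f) - Dp j y (Pp (aa n) f)) atTop
            (𝓝 (Dp j y 0 - Dp j y f)) :=
          (((Dp j y).continuous.tendsto _).comp (tendsto_Pb hs f)).sub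
            (((Dp j y).continuous.tendsto _).comp (tendsto_Pa f))
        rw [map_zero, zero_sub] at h2
        refine tendsto_nhds_unique h1 (h2.congr fun n => ?_)
        rw [Yp_Xp hs j hy (aa_pos n) (bb_pos n), hs.dp j _ _ hy (bb_pos n),
          hs.dp j _ _ hy (aa_pos n)]
      dp := by
        intro i j y hy f
        have h1 : Tendsto (fun n => Dp i y (Xp j (aa n) (bb n) f)) atTop (𝓝 (Dp i y (R j f))) :=
          ((Dp i y).continuous.tendsto _).comp (hR j f)
        have h2 : Tendsto (fun n => Dp j y (Xp i (aa n) (bb n) f)) atTop (𝓝 (Dp j y (R i f))) :=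
          ((Dp j y).continuous.tendsto _).comp (hR i f)
        exact tendsto_nhds_unique h1 (h2.congr fun n =>
          (Dp_Xp hs i j hy (aa_pos n) (bb_pos n) f).symm)
      sum_dp := by
        intro y hy f
        have h1 : Tendsto (fun n => ∑ j, Dp j y (Xp j (aa n) (bb n) f)) atTop
            (𝓝 (∑ j, Dp j y (R j f))) :=
          tendsto_finsetSum _ fun j _ => ((Dp j y).continuous.tendsto _).comp (hR j f)
        have h2 : Tendsto (fun n => Yp y (Pp (aa n) f) - Yp y (Pp (bb n) f)) atTop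
            (𝓝 (Yp y f - Yp y 0)) :=
          (((Yp y).continuous.tendsto _).comp (tendsto_Pa f)).sub
            (((Yp y).continuous.tendsto _).comp (tendsto_Pb hs f))
        rw [map_zero, sub_zero] at h2
        refine tendsto_nhds_unique h1 (h2.congr fun n => ?_)
        rw [sum_Dp_Xp hs hy (aa_pos n) (bb_pos n), hs.yp _ _ hy (bb_pos n),
          hs.yp _ _ hy (aa_pos n)]
      weak := by
        intro j k f g h
        exact weak_of_tendsto (hR j f) (hR j g) fun n => weak_cvO _ h
      pm := by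
        intro j i k f
        have h1 := ((PM i k).continuous.tendsto _).comp (hR j f)
        refine tendsto_nhds_unique ((hR j (PM i k f)).congr fun n => ?_) h1
        obtain ⟨L, hL⟩ := kk_rk j (aa_pos n) (bb_pos n)
        simp only [Function.comp_apply]
        unfold Xp
        rw [cvO_eq hL]
        exact (PM_cvL hL i k f).symm }

end Pool.Agent.TF.Rz

namespace Pool.Agent.TF

/-- existence of the Riesz transforms -/
theorem exists_rz (hs : SG) : StZ := by
  choose R hR using Rz.exists_R hs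
  exact ⟨R, Rz.rz_of_lim hs hR⟩

end Pool.Agent.TF
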