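import Pool.Agent.TF.Asm2
import Pool.Agent.TF.Riesz
import Pool.Agent.TF.Semi
import Pool.Agent.TF.C.Main
import Pool.Agent.TF.D.Fin
import Pool.Agent.TF.E.Ini
import Pool.Agent.TF.R.Ok
import Pool.Agent.TF.S.Sup
import Pool.Agent.TF.S.Word
import Pool.Agent.TF.S2.All

/-!
# Project TF: the a priori estimate of the scheme
-/

set_option autoImplicit false

namespace Pool.Agent.TF

theorem word_ok : StWord := stWord sg_ok

theorem sup_ok : StSup := Cl.stSup_ok word_ok (S2.stQ_all cc_ok word_ok)

theorem main_ok : StMain :=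
  stMain (exists_rz sg_ok) std_ok coef_ok ini_ok stDiv (step_ok jb_ok) sup_ok (r_ok cc_ok word_ok)

end Pool.Agent.TF
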