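import Pool.Agent.TF.P5
import Pool.Agent.TF.P4
import Pool.Agent.H98.MF.CountHoms4
import Pool.Agent.H98.ML.HindPerm
import Pool.Agent.H98.MK.Final
import Pool.Agent.EX.Stm

/-!
# Project T4 (MP_a3214d): the final theorem for transitive nilpotent groups with a central element
of least index, extensions counted up to isomorphism
-/

set_option autoImplicit false

open scoped BigOperators Pointwise Topology
open NumberField IsDedekindDomain Filter

namespace Pool.Agent.TF

open Pool.Agent.H98.MF (Om Gm nrm fld rdN count_homs4 ch4_exists Ch4Emb)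
open Pool.Agent.H98.ML (norb hind)
open Pool.Agent.H92.EL (TM Hk cyc Hyp Zt Ncl InnF InnU Inn)
open Pool.Agent.H32.MA (pind mInd bM)

/-- the number of orbits of the Galois group on the classes of elements with `f g = m` -/
noncomputable def bF (k : Type) [Field k] {G : Type} [Group G] (f : G → ℕ) (m : ℕ) : ℕ :=
  Nat.card (Quot (fun c c' : {c : ConjClasses G // ∃ g : G, ConjClasses.mk g = c ∧ g ≠ 1 ∧
      f g = m} => ∃ (σ : AlgebraicClosure k ≃ₐ[k] AlgebraicClosure k) (j : ℕ),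
    (∀ ζ : AlgebraicClosure k, ζ ^ Nat.card G = 1 → σ ζ = ζ ^ j) ∧
    ∃ g : G, ConjClasses.mk g = c.1 ∧ ConjClasses.mk (g ^ j) = c'.1))

theorem finP_one {n : ℕ} {G : Subgroup (Equiv.Perm (Fin n))} (hne : G ≠ ⊥) : 1 < n := by
  by_contra h
  apply hne
  rw [eq_bot_iff]
  intro g _
  rw [Subgroup.mem_bot]
  ext i
  have h1 := i.2
  have h2 := (g i).2
  change ((g i : Fin n) : ℕ) = (i : ℕ)
  omega

/-- the final theorem from its parts -/
theorem finP_of (h1 : SGrp5) (h2 : SPrm5) (h4 : SbM5) (h5 : ZAsy5)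
    (hT : Pool.Agent.H92.EL.STm) (hI : ∀ l : ℕ, l.Prime → Inn l)
    (hE : ∀ (k : Type) [Field k] [NumberField k] (G : Type) [Group G] [Finite G],
      Group.IsNilpotent G → (∀ P : Sylow 2 G, commutator P ≤ Subgroup.center P) →
      (Hk k G).Nonempty)
    (k : Type) [Field k] [NumberField k] (n : ℕ) (G : Subgroup (Equiv.Perm (Fin n)))
    (hne : G ≠ ⊥) (htr : MulAction.IsPretransitive G (Fin n)) (hnil : Group.IsNilpotent G)
    (m : ℕ)
    (hm : IsLeast {j | ∃ g ∈ G, g ≠ 1 ∧ g.support.card - Multiset.card g.cycleType = j} m)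
    (hz : ∀ g : G, g ≠ 1 → (g : Equiv.Perm (Fin n)).support.card -
      Multiset.card (g : Equiv.Perm (Fin n)).cycleType = m → ∀ x y : G,
        g * x * g⁻¹ * x⁻¹ * y = y * (g * x * g⁻¹ * x⁻¹))
    (hc : ∃ g : G, g ≠ 1 ∧ (g : Equiv.Perm (Fin n)).support.card -
      Multiset.card (g : Equiv.Perm (Fin n)).cycleType = m ∧ ∀ x : G, g * x = x * g)
    (hex : (∀ P : Sylow 2 G, commutator P ≤ Subgroup.center P) ∨
      ∃ M : IntermediateField k (AlgebraicClosure k), Module.finrank k M = n ∧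
        ∃ e : (M →ₐ[k] AlgebraicClosure k) ≃ Fin n, ∀ π : Equiv.Perm (Fin n),
          π ∈ G ↔ ∃ σ : AlgebraicClosure k ≃ₐ[k] AlgebraicClosure k,
            ∀ φ : M →ₐ[k] AlgebraicClosure k, e (σ.toAlgHom.comp φ) = π (e φ)) :
    ∃ c : ℝ, 0 < c ∧
      Asymptotics.IsEquivalent Filter.atTop
        (fun B : ℝ => ((Nat.card (Quot (fun L L' : {M : IntermediateField k (AlgebraicClosure k) //
            Module.finrank k M = n ∧
            (∃ e : (M →ₐ[k] AlgebraicClosure k) ≃ Fin n, ∀ π : Equiv.Perm (Fin n),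
               π ∈ G ↔ ∃ σ : AlgebraicClosure k ≃ₐ[k] AlgebraicClosure k,
                 ∀ φ : M →ₐ[k] AlgebraicClosure k, e (σ.toAlgHom.comp φ) = π (e φ)) ∧
            ∃ h : NumberField M,
              ((|@NumberField.discr M _ h| : ℤ) : ℝ) ≤ B * ((|NumberField.discr k| : ℤ) : ℝ) ^ n}
          => Nonempty (L.1 ≃ₐ[k] L'.1))) : ℕ) : ℝ))
        (fun B : ℝ => c * B ^ (1 / m : ℝ) * Real.log B ^
          (Nat.card (Quot (fun c c' : {c : ConjClasses G // ∃ g : G, ConjClasses.mk g = c ∧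
              g ≠ 1 ∧ (g : Equiv.Perm (Fin n)).support.card -
                Multiset.card (g : Equiv.Perm (Fin n)).cycleType = m} =>
            ∃ (σ : AlgebraicClosure k ≃ₐ[k] AlgebraicClosure k) (j : ℕ),
              (∀ ζ : AlgebraicClosure k, ζ ^ Nat.card G = 1 → σ ζ = ζ ^ j) ∧
              ∃ g : G, ConjClasses.mk g = c.1 ∧ ConjClasses.mk (g ^ j) = c'.1)) - 1)) := by
  have hn : 1 < n := finP_one hne
  let i0 : Fin n := ⟨0, by omega⟩
  obtain ⟨hcore, hHt, hp, hmi⟩ := h2 n G htr hn i0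
  -- the index
  have hix : (fun g : G => (g : Equiv.Perm (Fin n)).support.card -
      Multiset.card (g : Equiv.Perm (Fin n)).cycleType) =
      fun g : G => pind (g : Equiv.Perm (Fin n)) := by
    funext g
    rw [← hp g]
    exact (Pool.Agent.H98.ML.hind_perm n G htr i0 g).symm
  have hix' : ∀ g : G, (g : Equiv.Perm (Fin n)).support.card -
      Multiset.card (g : Equiv.Perm (Fin n)).cycleType = pind (g : Equiv.Perm (Fin n)) :=
    fun g => congrFun hix g
  have hmm : mInd G = m := by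
    have hl : IsLeast {j | ∃ g ∈ G, g ≠ 1 ∧ g.support.card - Multiset.card g.cycleType = j}
        (mInd G) := by
      obtain ⟨g0, hg0, hg1, hg2⟩ := hm.1
      have hset : {j | ∃ g ∈ G, g ≠ 1 ∧ pind g = j} =
          {j | ∃ g ∈ G, g ≠ 1 ∧ g.support.card - Multiset.card g.cycleType = j} := by
        ext j
        constructor
        · rintro ⟨g, hg, hg1, rfl⟩
          exact ⟨g, hg, hg1, hix' ⟨g, hg⟩⟩
        · rintro ⟨g, hg, hg1, rfl⟩
          exact ⟨g, hg, hg1, (hix' ⟨g, hg⟩).symm⟩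
      have hne' : {j | ∃ g ∈ G, g ≠ 1 ∧ pind g = j}.Nonempty := by
        rw [hset]
        exact ⟨m, hm.1⟩
      have h3 : mInd G ∈ {j | ∃ g ∈ G, g ≠ 1 ∧ pind g = j} := Nat.sInf_mem hne'
      refine ⟨by rw [← hset]; exact h3, fun j hj => ?_⟩
      rw [← hset] at hj
      exact Nat.sInf_le hj
    exact hl.unique hm
  -- the hypotheses
  have hmem : ∀ g : G, g ∈ Mn (MulAction.stabilizer G i0) ↔
      (g ≠ 1 ∧ pind (g : Equiv.Perm (Fin n)) = mInd G) := by
    intro g
    show (g ≠ 1 ∧ hind (MulAction.stabilizer G i0) g = mi (MulAction.stabilizer G i0)) ↔ _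
    rw [hp g, hmi]
  have hyp : Hyp5 (MulAction.stabilizer G i0) := by
    refine ⟨inferInstance, hnil, hcore, hHt, fun g hg => ?_⟩
    obtain ⟨hg1, hg2⟩ := (hmem g).1 hg
    have h6 := hz g hg1 (by rw [hix' g, hg2, hmm])
    rw [show (2 : ℕ) = 1 + 1 from rfl, Subgroup.mem_upperCentralSeries_succ_iff]
    intro x
    rw [Subgroup.upperCentralSeries_one, Subgroup.mem_center_iff]
    intro y
    exact (h6 x y).symm
  have hcen : ∃ z ∈ Mn (MulAction.stabilizer G i0), z ∈ Subgroup.center G := by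
    obtain ⟨z, hz1, hz2, hz3⟩ := hc
    exact ⟨z, (hmem z).2 ⟨hz1, by rw [← hix' z, hz2, hmm]⟩,
      Subgroup.mem_center_iff.2 fun x => (hz3 x).symm⟩
  obtain ⟨T⟩ := hT k
  have hA := asy_cen h1 h5 hI T (MulAction.stabilizer G i0) hyp hcen (bM k G)
    (fun l hl => h4 k n G htr hn i0 l hl)
  -- existence
  have hHk : (Hk k G).Nonempty := by
    rcases hex with h | ⟨M, hM, he⟩
    · exact hE k G hnil h
    · have hfd : FiniteDimensional k M := by
        refine Module.finite_of_finrank_pos ?_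
        rw [hM]
        omega
      obtain ⟨ρ, hs, hl, -⟩ := ch4_exists i0 M hfd he
      exact ⟨ρ, hs, hl⟩
  rcases hA with hA | ⟨L, hL, hlim⟩
  · rw [hA] at hHk
    exact absurd hHk Set.not_nonempty_empty
  have hb : Nat.card (Quot (fun c c' : {c : ConjClasses G // ∃ g : G, ConjClasses.mk g = c ∧
      g ≠ 1 ∧ (g : Equiv.Perm (Fin n)).support.card -
        Multiset.card (g : Equiv.Perm (Fin n)).cycleType = m} =>
      ∃ (σ : AlgebraicClosure k ≃ₐ[k] AlgebraicClosure k) (j : ℕ),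
        (∀ ζ : AlgebraicClosure k, ζ ^ Nat.card G = 1 → σ ζ = ζ ^ j) ∧
        ∃ g : G, ConjClasses.mk g = c.1 ∧ ConjClasses.mk (g ^ j) = c'.1)) = bM k G := by
    change bF k (fun g : G => (g : Equiv.Perm (Fin n)).support.card -
      Multiset.card (g : Equiv.Perm (Fin n)).cycleType) m =
      bF k (fun g : G => pind (g : Equiv.Perm (Fin n))) (mInd G)
    rw [hix, hmm]
  have hA0 : 0 < Nat.card {α : MulAut G // ∃ g : G, ∀ x : G,
      x ∈ MulAction.stabilizer G i0 ↔ g * α x * g⁻¹ ∈ MulAction.stabilizer G i0} := by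
    have : Finite (MulAut G) := inferInstanceAs (Finite (G ≃* G))
    have : Nonempty {α : MulAut G // ∃ g : G, ∀ x : G,
        x ∈ MulAction.stabilizer G i0 ↔ g * α x * g⁻¹ ∈ MulAction.stabilizer G i0} :=
      ⟨⟨1, 1, fun x => by
        rw [one_mul, inv_one, mul_one]
        exact Iff.rfl⟩⟩
    exact Nat.card_pos
  have hA1 : (0 : ℝ) < Nat.card {α : MulAut G // ∃ g : G, ∀ x : G,
      x ∈ MulAction.stabilizer G i0 ↔ g * α x * g⁻¹ ∈ MulAction.stabilizer G i0} := by
    exact_mod_cast hA0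
  rw [hb]
  refine ⟨L / Nat.card {α : MulAut G // ∃ g : G, ∀ x : G,
      x ∈ MulAction.stabilizer G i0 ↔ g * α x * g⁻¹ ∈ MulAction.stabilizer G i0},
    by positivity, ?_⟩
  apply Pool.Agent.H98.MK.equiv_of_ratio _ _ _ _ (by positivity)
  rw [hmi, hmm] at hlim
  refine (hlim.div_const (Nat.card {α : MulAut G // ∃ g : G, ∀ x : G,
      x ∈ MulAction.stabilizer G i0 ↔
        g * α x * g⁻¹ ∈ MulAction.stabilizer G i0} : ℝ)).congr ?_
  intro B
  have hcnt := count_homs4 k n G htr i0 B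
  have h8 : ({ρ : Gm k →* G | ρ ∈ Hk k G ∧ (dH (MulAction.stabilizer G i0) ρ : ℝ) ≤ B}.ncard) =
      Nat.card {ρ : Gm k →* G // Function.Surjective ρ ∧ IsLocallyConstant ρ ∧
        (rdN (fld k ((MulAction.stabilizer G i0).comap ρ)) : ℝ) ≤ B} := by
    rw [← Nat.card_coe_set_eq]
    refine Nat.card_congr (Equiv.subtypeEquivRight fun ρ => ?_)
    constructor
    · rintro ⟨⟨h9, h10⟩, h11⟩
      exact ⟨h9, h10, h11⟩
    · rintro ⟨h9, h10, h11⟩
      exact ⟨⟨h9, h10⟩, h11⟩
  rw [h8, ← hcnt, gr5]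
  push_cast
  rw [div_right_comm, mul_div_assoc, div_self hA1.ne', mul_one]

end Pool.Agent.TF
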