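import Pool.Agent.TF.FinP
import Pool.Agent.TF.F1
import Pool.Agent.TF.All
import Pool.Agent.H92.EL.OddFin
import Pool.Agent.EV.Main
import Pool.Agent.H38.SR.Fin
import Pool.Agent.EX.Two

/-!
# Project T4 (MP_a3214d): assembly of the final theorem
-/

set_option autoImplicit false

open scoped BigOperators Pointwise Topology
open NumberField IsDedekindDomain Filter

namespace Pool.Agent.TF

open Pool.Agent.H92.EL (Hk Inn)

/-- the inner statements -/
theorem finT_inn (l : ℕ) (hl : l.Prime) : Inn l := by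
  by_cases h : l = 2
  · subst h
    intro k _ _ T G _ b hG hZ hb
    rw [Pool.Agent.EV.enil_cyc k, mul_one] at hb
    subst hb
    exact Pool.Agent.EV.inn_all k T G hG hZ
  · exact Pool.Agent.H92.EL.inn_odd l hl h

/-- nilpotent groups whose Sylow 2-subgroups have class at most two occur -/
theorem finT_occ (k : Type) [Field k] [NumberField k] (G : Type) [Group G] [Finite G]
    (hG : Group.IsNilpotent G) (h : ∀ P : Sylow 2 G, commutator P ≤ Subgroup.center P) :
    (Hk k G).Nonempty := by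
  obtain ⟨ρ, h1, h2⟩ := Pool.Agent.H38.SR.sodd_all k G hG fun P =>
    Pool.Agent.EX.exists_surj_two k P (h P)
  exact ⟨ρ, h1, h2⟩

/-- the final theorem -/
theorem finT
    (k : Type) [Field k] [NumberField k] (n : ℕ) (G : Subgroup (Equiv.Perm (Fin n)))
    (hne : G ≠ ⊥) (htr : MulAction.IsPretransitive G (Fin n)) (hnil : Group.IsNilpotent G)
    (m : ℕ)
    (hm : IsLeast {j | ∃ g ∈ G, g ≠ 1 ∧ g.support.card - Multiset.card g.cycleType = j} m)
    (hz : ∀ g : G, g ≠ 1 → (g : Equiv.Perm (Fin n)).support.card -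
      Multiset.card (g : Equiv.Perm (Fin n)).cycleType = m → ∀ x y : G,
        g * x * g⁻¹ * x⁻¹ * y = y * (g * x * g⁻¹ * x⁻¹))
    (hc : ∃ g : G, g ≠ 1 ∧ (g : Equiv.Perm (Fin n)).support.card -
      Multiset.card (g : Equiv.Perm (Fin n)).cycleType = m ∧ ∀ x : G, g * x = x * g)
    (hex : (∀ P : Sylow 2 G, commutator P ≤ Subgroup.center P) ∨
      ∃ M : IntermediateField k (AlgebraicClosure k), Module.finrank k M = n ∧
        ∃ e : (M →ₐ[k] AlgebraicClosure k) ≃ Fin n, ∀ π : Equiv.Perm (Fin n),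
          π ∈ G ↔ ∃ σ : AlgebraicClosure k ≃ₐ[k] AlgebraicClosure k,
            ∀ φ : M →ₐ[k] AlgebraicClosure k, e (σ.toAlgHom.comp φ) = π (e φ)) :
    ∃ c : ℝ, 0 < c ∧
      Asymptotics.IsEquivalent Filter.atTop
        (fun B : ℝ => ((Nat.card (Quot (fun L L' : {M : IntermediateField k (AlgebraicClosure k) //
            Module.finrank k M = n ∧
            (∃ e : (M →ₐ[k] AlgebraicClosure k) ≃ Fin n, ∀ π : Equiv.Perm (Fin n),
               π ∈ G ↔ ∃ σ : AlgebraicClosure k ≃ₐ[k] AlgebraicClosure k,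
                 ∀ φ : M →ₐ[k] AlgebraicClosure k, e (σ.toAlgHom.comp φ) = π (e φ)) ∧
            ∃ h : NumberField M,
              ((|@NumberField.discr M _ h| : ℤ) : ℝ) ≤ B * ((|NumberField.discr k| : ℤ) : ℝ) ^ n}
          => Nonempty (L.1 ≃ₐ[k] L'.1))) : ℕ) : ℝ))
        (fun B : ℝ => c * B ^ (1 / m : ℝ) * Real.log B ^
          (Nat.card (Quot (fun c c' : {c : ConjClasses G // ∃ g : G, ConjClasses.mk g = c ∧
              g ≠ 1 ∧ (g : Equiv.Perm (Fin n)).support.card -
                Multiset.card (g : Equiv.Perm (Fin n)).cycleType = m} =>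
            ∃ (σ : AlgebraicClosure k ≃ₐ[k] AlgebraicClosure k) (j : ℕ),
              (∀ ζ : AlgebraicClosure k, ζ ^ Nat.card G = 1 → σ ζ = ζ ^ j) ∧
              ∃ g : G, ConjClasses.mk g = c.1 ∧ ConjClasses.mk (g ^ j) = c'.1)) - 1)) :=
  finP_of sgrp5 sprm5 (sbM5 sprm5) (all_zasy sgrp5) all_tm finT_inn
    (fun k _ _ G _ _ hG h => finT_occ k G hG h) k n G hne htr hnil m hm hz hc hex

end Pool.Agent.TF
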