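import Pool.Agent.TF.Def
import Pool.Agent.TP.Test
import Pool.Agent.TB.Heat2

/-!
# The scheme: definitions and statements of the blocks E (scheme), S (sup bounds), R (energy)
-/

set_option autoImplicit false

namespace Pool.Agent.TF

open MeasureTheory Set Filter Topology Pool.Agent.TO Pool.Agent.TB Pool.Agent.TC Pool.Agent.TP
open scoped ENNReal NNReal Real InnerProductSpace SchwartzMap LineDeriv

/-- partial derivative of a function -/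
noncomputable def pd {F : Type*} [NormedAddCommGroup F] [NormedSpace ℝ F] (i : Fin 3) (f : E3 → F)
    (x : E3) : F := fderiv ℝ f x (ee i)

/-- the class of a function in `L²` (zero if it is not square integrable) -/
noncomputable def vL (f : E3 → E3) : V3 := by
  classical
  exact if h : MemLp f 2 (volume : Measure E3) then h.toLp else 0

/-- nice functions: `C²`, bounded and square integrable with the derivatives up to order two -/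
structure Nc (f : E3 → E3) : Prop where
  c2 : ContDiff ℝ 2 f
  b0 : ∃ C, ∀ x, ‖f x‖ ≤ C
  b1 : ∃ C, ∀ i x, ‖pd i f x‖ ≤ C
  b2 : ∃ C, ∀ i j x, ‖pd i (pd j f) x‖ ≤ C
  m0 : MemLp f 2 (volume : Measure E3)
  m1 : ∀ i, MemLp (pd i f) 2 (volume : Measure E3)
  m2 : ∀ i j, MemLp (pd i (pd j f)) 2 (volume : Measure E3)

/-- `∂_i (et0 r)` -/
noncomputable def dE (i : Fin 3) (r : ℝ) (x : E3) : ℝ := -(105 / 2) * c0 * r ^ 4 * sg r x ^ 9 * x i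

/-- the transport field `b = S_r S_r w` -/
noncomputable def bO (r : ℝ) (w : V3) : E3 → E3 := cvf (et0 r) (cvO (et0 r) w : V3)

/-- `|∇ S_r w|` -/
noncomputable def gS (r : ℝ) (w : V3) (x : E3) : ℝ := √(∑ i, ‖cvf (dE i r) w x‖ ^ 2)

/-- the damping `λ = 8 S_r |∇ S_r w|` -/
noncomputable def lO (r : ℝ) (w : V3) (x : E3) : ℝ := 8 * cvf (et0 r) (gS r w) x

/-- properties of the coefficients of one step -/
structure Coef (c r Λ : ℝ) (b : E3 → E3) (lam : E3 → ℝ) : Prop where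
  cb : ContDiff ℝ 2 b
  cl : ContDiff ℝ 2 lam
  l0 : ∀ x, 0 ≤ lam x
  lΛ : ∀ x, lam x ≤ Λ
  bΛ : ∀ x, ‖b x‖ ≤ Λ
  div : ∀ x, ∑ i, (pd i b x) i = 0
  b1 : ∀ x, ∑ i, ‖pd i b x‖ ^ 2 ≤ (lam x / 8) ^ 2
  b2 : ∀ i j x, ‖pd i (pd j b) x‖ ≤ c * lam x / r
  l1 : ∀ i x, |pd i lam x| ≤ c * lam x / r
  l2 : ∀ i j x, |pd i (pd j lam) x| ≤ c * lam x / r ^ 2

/-- (E1) the coefficients have the required properties -/
def StCoef : Prop := ∃ c > 0, ∃ C > 0, ∀ r : ℝ, 0 < r → r ≤ 1 → ∀ w : V3, IsDivFree w →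
  Coef c r (C * ‖w‖ / r ^ 3) (bO r w) (lO r w)

/-- transport and damping -/
noncomputable def Jst (d : ℝ) (b : E3 → E3) (lam : E3 → ℝ) (f : E3 → E3) (x : E3) : E3 :=
  (1 - d * lam x) • f (x - d • b x)

/-- the state of the scheme: potentials of the data, potentials of the nonlinear term, and the
bounded low frequency part -/
structure Sta where
  g : Fin 3 → Option (Fin 3) → E3 → E3
  h : Fin 3 → E3 → E3
  l : V3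

/-- the Leray projection `f + ∑ R_i R_l (f_l e_i)` -/
noncomputable def LP (R : Fin 3 → V3 →L[ℝ] V3) (f : V3) : V3 :=
  f + ∑ i, ∑ l, R i (R l (PM l i f))

/-- the field of a state: `∑ T_j ∂_k g_{kj} + ℙ ∑ ∂_k h_k + l` -/
noncomputable def Hh (R : Fin 3 → V3 →L[ℝ] V3) (σ : Sta) : V3 :=
  (∑ k, ∑ j, To R j (vL (pd k (σ.g k j)))) + LP R (∑ k, vL (pd k (σ.h k))) + σ.l

/-- the source `-e^{η Δ} (U_k U)` -/
noncomputable def src (R : Fin 3 → V3 →L[ℝ] V3) (η : ℝ) (σ : Sta) (k : Fin 3) (x : E3) : E3 :=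
  -heat η (tens k (Hh R σ) (Hh R σ) : V3) x

/-- the state at time `t_n + s` (`0 < s ≤ d`), from the state `σ` at time `t_n`: transport and
damping, then heat flow -/
noncomputable def nxt (R : Fin 3 → V3 →L[ℝ] V3) (η s : ℝ) (b : E3 → E3) (lam : E3 → ℝ)
    (σ : Sta) : Sta where
  g k j := heat s (Jst s b lam (σ.g k j))
  h k := heat s (fun x => Jst s b lam (σ.h k) x + s • src R η σ k x)
  l := cvO (hk s) σ.l

/-- all potentials are nice -/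
def NcS (σ : Sta) : Prop := (∀ k j, Nc (σ.g k j)) ∧ ∀ k, Nc (σ.h k)

/-- antisymmetry of the potentials of the data -/
def Anti (σ : Sta) : Prop := ∀ k j i x, (σ.g k j x) i = -(σ.g i j x) k

/-- all potentials are bounded by `A` -/
def SupS (A : ℝ) (σ : Sta) : Prop := (∀ k j x, ‖σ.g k j x‖ ≤ A) ∧ ∀ k x, ‖σ.h k x‖ ≤ A

/-- the first derivatives of the potentials are bounded by `A` -/
def SupS1 (A : ℝ) (σ : Sta) : Prop :=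
  (∀ k j i x, ‖pd i (σ.g k j) x‖ ≤ A) ∧ ∀ k i x, ‖pd i (σ.h k) x‖ ≤ A

/-- crude bounds of the potentials: in `L²`, with the derivatives up to order two, and in the sup
norm for the derivatives of order two -/
structure NrS (M : ℝ) (σ : Sta) : Prop where
  g0 : ∀ k j, ‖vL (σ.g k j)‖ ≤ M
  h0 : ∀ k, ‖vL (σ.h k)‖ ≤ M
  g1 : ∀ k j i, ‖vL (pd i (σ.g k j))‖ ≤ M
  h1 : ∀ k i, ‖vL (pd i (σ.h k))‖ ≤ M
  g2 : ∀ k j i i', ‖vL (pd i (pd i' (σ.g k j)))‖ ≤ M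
  h2 : ∀ k i i', ‖vL (pd i (pd i' (σ.h k)))‖ ≤ M
  gs : ∀ k j i i' x, ‖pd i (pd i' (σ.g k j)) x‖ ≤ M
  hs : ∀ k i i' x, ‖pd i (pd i' (σ.h k)) x‖ ≤ M
  l0 : ‖σ.l‖ ≤ M
  l1 : ∃ dl : Fin 3 → V3, ∀ i, IsWeakDeriv i σ.l (dl i) ∧ ‖dl i‖ ≤ M

/-- the initial state -/
structure Ini (C A L s : ℝ) (σ : Sta) : Prop where
  nc : NcS σ
  anti : Anti σ
  g0 : ∀ k j x, ‖σ.g k j x‖ ≤ A
  g1 : ∀ k j i x, ‖pd i (σ.g k j) x‖ ≤ C * A / √s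
  g2 : ∀ k j i i' x, ‖pd i (pd i' (σ.g k j)) x‖ ≤ C * A / s
  h0 : ∀ k x, σ.h k x = 0
  div : IsDivFree σ.l
  bdl : Bd σ.l L

/-- the state made of the data, smoothed at the scale `√s` -/
noncomputable def ini (s : ℝ) (g : Fin 3 → Option (Fin 3) → V3) (l : V3) : Sta where
  g k j := cvf (et0 (√s)) (g k j : V3)
  h _ _ := 0
  l := cvO (et0 (√s)) l

/-- (E2) the initial state -/
def StIni : Prop := ∃ C > 0, ∀ R, RZ R → ∀ (A L η s : ℝ) (u₀ : V3) g dg l r,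
  Deco R A L η u₀ g dg l r → 0 ≤ A → 0 ≤ L → 0 < s →
  Ini C A L s (ini s g l) ∧ Hh R (ini s g l) = cvO (et0 (√s)) (u₀ - r) ∧ ∃ M, NrS M (ini s g l)

/-- (E3) the field is divergence-free -/
def StDiv : Prop := ∀ R, RZ R → ∀ σ : Sta, NcS σ → Anti σ → IsDivFree σ.l → IsDivFree (Hh R σ)

/-- (E4) one step preserves the structure, with crude bounds -/
def StStep : Prop := ∀ c Λ M η : ℝ, 0 < c → 0 < Λ → 0 < M → 0 < η → ∃ C > 0, ∃ d₀ > 0,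
  ∀ d : ℝ, 0 < d → d < d₀ → ∀ R, RZ R → ∀ (r : ℝ) b lam, 1 / M ≤ r → Coef c r Λ b lam →
  ∀ (σ : Sta) (M' L A B : ℝ), NcS σ → Anti σ → IsDivFree σ.l → Bd (Hh R σ) M → NrS M' σ → 0 ≤ L →
  Bd σ.l L → SupS A σ → SupS1 B σ →
  NcS (nxt R η d b lam σ) ∧ Anti (nxt R η d b lam σ) ∧ IsDivFree (nxt R η d b lam σ).l ∧
  Bd (nxt R η d b lam σ).l L ∧ SupS (A + d * M ^ 2) (nxt R η d b lam σ) ∧
  SupS1 (B + C * d * (A + B + 1)) (nxt R η d b lam σ) ∧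
  NrS (M' + C * d * (M' + A + B + 1)) (nxt R η d b lam σ)

/-- the functional of Bernstein's method -/
noncomputable def Qf (κ τ : ℝ) (f : E3 → E3) (x : E3) : ℝ :=
  ‖f x‖ ^ 2 + κ * τ * ∑ i, ‖pd i f x‖ ^ 2 + (κ * τ) ^ 2 * ∑ i, ∑ j, ‖pd i (pd j f) x‖ ^ 2

/-- (S1) Bernstein's method, one step -/
def StBern : Prop := ∀ c > 0, ∃ κ : ℝ, 0 < κ ∧ κ ≤ 1 ∧ ∀ (r d Λ : ℝ) (b : E3 → E3) (lam : E3 → ℝ),
  0 < r → 0 < d → Coef c r Λ b lam → d * Λ ≤ 1 / 4 → d ≤ r ^ 2 → ∀ τ : ℝ, 0 ≤ τ →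
  τ ≤ r ^ 2 → ∀ f, Nc f → ∀ x, Qf κ (τ + d) (heat d (Jst d b lam f)) x ≤
    heat d (fun x => Qf κ τ f (x - d • b x)) x

/-- (S2) sup bound of `W ∂_k f` -/
def StWord : Prop := ∀ W : List (Fin 3), ∃ C > 0, ∀ R, RZ R → ∀ (k : Fin 3) (f : E3 → E3)
  (A B : ℝ), Nc f → (∀ x, ‖f x‖ ≤ A) → (∀ i j x, ‖pd i (pd j f) x‖ ≤ B) → ∀ τ : ℝ, 0 < τ →
  Bd (Wd R W (vL (pd k f))) (C * (τ * B + A / τ))

/-- the time `t_k` -/
noncomputable def tk (s d : ℝ) (k : ℕ) : ℝ := s + k * d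

/-- `K` steps of the scheme with given coefficients -/
structure Run (c Λ s d η : ℝ) (R : Fin 3 → V3 →L[ℝ] V3) (K : ℕ) (σ : ℕ → Sta)
    (b : ℕ → E3 → E3) (lam : ℕ → E3 → ℝ) : Prop where
  step : ∀ k < K, σ (k + 1) = nxt R η d (b k) (lam k) (σ k)
  coef : ∀ k < K, Coef c (√(tk s d k)) Λ (b k) (lam k)
  nc : ∀ k ≤ K, NcS (σ k)

/-- `Block S`: the sup bounds. With `A` small, `T₁` small (depending on `A`, `L`), then `η` small and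
`d` small (depending on `s`, `Λ`): the bounds `|h| ≤ 2 A` up to `K` and `|H| ≤ C A / √t_k` before
`K` imply `|g|, |h| ≤ A`, `|H| ≤ C A / √t_k` and `|∇ g|, |∇ h| ≤ C A / √t_k` at `K`. -/
def StSup : Prop := ∀ c > 0, ∀ Ci > 0, ∃ CB > 0, ∃ A₀ > 0, ∀ A : ℝ, 0 < A → A ≤ A₀ → ∀ L > 0,
  ∃ T₁ > 0, T₁ ≤ 1 ∧ ∀ s : ℝ, 0 < s → s < T₁ → ∀ Λ > 0, ∃ η₁ > 0, ∀ η : ℝ, 0 < η → η < η₁ →
  ∃ d₁ > 0, ∀ d : ℝ, 0 < d → d < d₁ → ∀ R, RZ R → ∀ (K : ℕ) σ b lam, tk s d K ≤ T₁ →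
  Ini Ci A L s (σ 0) → Run c Λ s d η R K σ b lam →
  (∀ k ≤ K, ∀ j x, ‖(σ k).h j x‖ ≤ 2 * A) →
  (∀ k < K, Bd (Hh R (σ k)) (CB * A / √(tk s d k))) →
  SupS A (σ K) ∧ Bd (Hh R (σ K)) (CB * A / √(tk s d K)) ∧
  SupS1 (CB * A / √(tk s d K)) (σ K)

/-- the functional of the relative energy; it is at least `‖v(t) - U‖²` -/
noncomputable def Phi (u₀ : V3) (v : ℝ → V3) (Dv : ℝ → Fin 3 → V3) (t : ℝ) (U : V3) : ℝ :=
  ‖u₀‖ ^ 2 - 2 * (∫ τ in Ioo 0 t, ∑ k, ‖Dv τ k‖ ^ 2) - 2 * ⟪v t, U⟫_ℝ + ‖U‖ ^ 2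

/-- the Leray solution together with its gradient -/
structure LG (T : ℝ) (u₀ : V3) (v : ℝ → V3) (Dv : ℝ → Fin 3 → V3) : Prop where
  hv : IsLeray T u₀ v
  weak : ∀ᵐ t ∂(volume.restrict (Ioo 0 T)), ∀ k, IsWeakDeriv k (v t) (Dv t k)
  int : ∀ t ∈ Ico 0 T, IntegrableOn (fun τ => ∑ k, ‖Dv τ k‖ ^ 2) (Ioo 0 t) volume
  en : ∀ t ∈ Ico 0 T, ‖v t‖ ^ 2 + 2 * ∫ τ in Ioo 0 t, ∑ k, ‖Dv τ k‖ ^ 2 ≤ ‖u₀‖ ^ 2

/-- `Block R`: the relative energy, one step. The coefficients are those of `w = v(t) - U`. -/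
def StR : Prop := ∃ a₀ > 0, ∀ M > 0, ∃ η₀ > 0, ∃ C₁ > 0, ∀ η : ℝ, 0 < η → η < η₀ → ∀ M' > 0,
  ∃ C₂ > 0, ∃ d₀ > 0, ∀ d : ℝ, 0 < d → d < d₀ → ∀ R, RZ R → ∀ (T : ℝ) (u₀ : V3) (v : ℝ → V3)
  (Dv : ℝ → Fin 3 → V3), LG T u₀ v Dv → ‖u₀‖ ≤ M → ∀ t L : ℝ, 1 / M ≤ t → t ≤ 1 →
  t + d < T → 0 ≤ L → L ≤ M → ∀ σ : Sta, NcS σ → Anti σ → IsDivFree σ.l → SupS a₀ σ →
  SupS1 (a₀ / √t) σ → Bd (Hh R σ) M → Bd σ.l L → NrS M' σ →
  Phi u₀ v Dv (t + d) (Hh R (nxt R η d (bO (√t) (v t - Hh R σ)) (lO (√t) (v t - Hh R σ)) σ)) ≤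
    (1 + 16 * L ^ 2 * d) * Phi u₀ v Dv t (Hh R σ) +
      C₁ * √η * (∫ τ in Ioo t (t + d), ∑ k, ‖Dv τ k‖ ^ 2) +
      C₂ * (d * √d) * (1 + ∫ τ in Ioo t (t + d), ∑ k, ‖Dv τ k‖ ^ 2)

/-- every Leray solution from `u₀` satisfies `|v(t)| ≤ a / √t` for `t < T₁` -/
def StMain : Prop := ∀ u₀ : V3, IsDivFree u₀ → BmoX u₀ → ∀ a > 0, ∃ T₁ > 0,
  ∀ (T : ℝ) (v : ℝ → V3), IsLeray T u₀ v → ∀ t, 0 < t → t < T₁ → t < T → Bd (v t) (a / √t)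

end Pool.Agent.TF
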