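import Pool.Agent.TF.Tau

/-!
# The Poisson kernel of the half space and its derivatives
-/

set_option autoImplicit false

namespace Pool.Agent.TF

open MeasureTheory Set Filter Topology Pool.Agent.TO Pool.Agent.TB Pool.Agent.TC Pool.Agent.TP
open scoped ENNReal NNReal Real InnerProductSpace SchwartzMap LineDeriv

/-- the Poisson kernel -/
noncomputable def pk (y : ℝ) (x : E3) : ℝ := (JJ 4)⁻¹ * (y * sg y x ^ 4)

/-- `∂_j` of the Poisson kernel -/
noncomputable def dk (j : Fin 3) (y : ℝ) (x : E3) : ℝ := (JJ 4)⁻¹ * (-(4 * y * (x j * sg y x ^ 6)))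

/-- `∂_y` of the Poisson kernel -/
noncomputable def yk (y : ℝ) (x : E3) : ℝ := (JJ 4)⁻¹ * (sg y x ^ 4 - 4 * y ^ 2 * sg y x ^ 6)

/-- `∂_i ∂_j` of the Poisson kernel -/
noncomputable def ddk (i j : Fin 3) (y : ℝ) (x : E3) : ℝ :=
  (JJ 4)⁻¹ * (-(4 * y) * ((if i = j then sg y x ^ 6 else 0) - 6 * (x i * x j * sg y x ^ 8)))

/-- `∂_y ∂_y` of the Poisson kernel -/
noncomputable def yyk (y : ℝ) (x : E3) : ℝ :=
  (JJ 4)⁻¹ * (-(12 * y * sg y x ^ 6) + 24 * y ^ 3 * sg y x ^ 8)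

/-- `∂_y ∂_j` of the Poisson kernel -/
noncomputable def dyk (j : Fin 3) (y : ℝ) (x : E3) : ℝ :=
  (JJ 4)⁻¹ * (-(4 * (x j * sg y x ^ 6)) + 24 * y ^ 2 * (x j * sg y x ^ 8))

variable {y : ℝ}

theorem hasDerivAt_sg_pow_rho (hy : 0 < y) (n : ℕ) (x : E3) :
    HasDerivAt (fun y => sg y x ^ n) (-(n * y * sg y x ^ (n + 2))) y := by
  have h := (hasDerivAt_sg_rho hy x).pow n
  refine h.congr_deriv ?_
  rcases n with _ | n
  · simp
  · simp only [Nat.add_sub_cancel]
    push_cast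
    ring

theorem hasDerivAt_pk (hy : 0 < y) (x : E3) : HasDerivAt (fun y => pk y x) (yk y x) y := by
  unfold pk yk
  have h := ((hasDerivAt_id y).mul (hasDerivAt_sg_pow_rho hy 4 x)).const_mul (JJ 4)⁻¹
  refine h.congr_deriv ?_
  simp only [id, Nat.cast_ofNat]
  ring

theorem hasDerivAt_yk (hy : 0 < y) (x : E3) : HasDerivAt (fun y => yk y x) (yyk y x) y := by
  unfold yk yyk
  have h := ((hasDerivAt_sg_pow_rho hy 4 x).sub
    ((((hasDerivAt_id y).pow 2).const_mul 4).mul (hasDerivAt_sg_pow_rho hy 6 x))).const_mul (JJ 4)⁻¹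
  refine h.congr_deriv ?_
  simp only [id, Nat.cast_ofNat, Pi.pow_apply]
  push_cast
  ring

theorem hasDerivAt_dk (j : Fin 3) (hy : 0 < y) (x : E3) :
    HasDerivAt (fun y => dk j y x) (dyk j y x) y := by
  unfold dk dyk
  have h := (((hasDerivAt_id y).const_mul 4).mul
    ((hasDerivAt_sg_pow_rho hy 6 x).const_mul (x j))).neg.const_mul (JJ 4)⁻¹
  refine h.congr_deriv ?_
  simp only [id, Nat.cast_ofNat]
  ring

theorem line_sg_pow (hy : 0 < y) (n : ℕ) (j : Fin 3) (x : E3) :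
    HasLineDerivAt ℝ (fun x => sg y x ^ n) (-(n * (x j * sg y x ^ (n + 2)))) x (ee j) := by
  have h := (hasFDerivAt_sg_pow hy n x).hasLineDerivAt (ee j)
  have e : (-(n * sg y x ^ (n + 2)) • innerSL ℝ x : E3 →L[ℝ] ℝ) (ee j) =
      -(n * (x j * sg y x ^ (n + 2))) := by
    rw [ContinuousLinearMap.smul_apply, inner_ee', smul_eq_mul]
    ring
  rwa [e] at h

theorem line_pk (hy : 0 < y) (j : Fin 3) (x : E3) :
    HasLineDerivAt ℝ (pk y) (dk j y x) x (ee j) := by
  have h := line_sg_pow hy 4 j x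
  unfold HasLineDerivAt at h ⊢
  have h2 := (h.const_mul y).const_mul (JJ 4)⁻¹
  refine h2.congr_deriv ?_
  unfold dk
  push_cast
  ring

theorem line_dk (hy : 0 < y) (i j : Fin 3) (x : E3) :
    HasLineDerivAt ℝ (dk j y) (ddk i j y x) x (ee i) := by
  have h := line_sg_pow hy 6 i x
  have hc := (hasFDerivAt_coord j x).hasLineDerivAt (ee i)
  have e : (EuclideanSpace.proj (𝕜 := ℝ) j : E3 →L[ℝ] ℝ) (ee i) = if i = j then 1 else 0 := by
    exact ee_apply i j
  rw [e] at hc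
  unfold HasLineDerivAt at h hc ⊢
  have h2 := (((hc.mul h).const_mul (4 * y)).neg).const_mul (JJ 4)⁻¹
  refine h2.congr_deriv ?_
  unfold ddk
  simp only [zero_smul, add_zero]
  split_ifs <;> (push_cast; ring)

/-- the Poisson kernel is harmonic -/
theorem sum_ddk (hy : 0 < y) (x : E3) : ∑ k, ddk k k y x = -yyk y x := by
  have h := sg_sq hy x
  have hn : ‖x‖ ^ 2 = x 0 ^ 2 + x 1 ^ 2 + x 2 ^ 2 := by
    rw [EuclideanSpace.norm_sq_eq, Fin.sum_univ_three]
    simp only [Real.norm_eq_abs, sq_abs]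
  rw [hn] at h
  unfold ddk yyk
  rw [Fin.sum_univ_three]
  simp only [if_true]
  have e : sg y x ^ 6 = sg y x ^ 8 * (y ^ 2 + (x 0 ^ 2 + x 1 ^ 2 + x 2 ^ 2)) := by
    calc sg y x ^ 6 = sg y x ^ 6 * 1 := by ring
      _ = sg y x ^ 6 * (sg y x ^ 2 * (y ^ 2 + (x 0 ^ 2 + x 1 ^ 2 + x 2 ^ 2))) := by rw [h]
      _ = _ := by ring
  rw [e]
  ring

/-! ### bounds -/

theorem sg_le_two {s : ℝ} (hy : 0 < y) (hs : y / 2 ≤ s) (x : E3) : sg s x ≤ 2 * sg y x := by
  have hs0 : 0 < s := by linarith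
  unfold sg
  rw [inv_le_comm₀ (by positivity) (by positivity), mul_inv, inv_inv]
  rw [show (2:ℝ)⁻¹ * √(y ^ 2 + ‖x‖ ^ 2) = √(y ^ 2 + ‖x‖ ^ 2) / 2 by ring]
  apply Real.le_sqrt_of_sq_le
  rw [div_pow, Real.sq_sqrt (by positivity)]
  nlinarith [norm_nonneg x]

theorem abs_coord_le (x : E3) (j : Fin 3) : |x j| ≤ ‖x‖ := by
  have := EuclideanSpace.norm_eq x
  rw [this]
  apply Real.le_sqrt_of_sq_le
  rw [← Real.norm_eq_abs]
  exact Finset.single_le_sum (f := fun i => ‖x i‖ ^ 2) (fun i _ => by positivity) (Finset.mem_univ j)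

theorem abs_coord_sg (hy : 0 < y) (j : Fin 3) (n : ℕ) (x : E3) :
    |x j * sg y x ^ (n + 1)| ≤ sg y x ^ n := by
  have h1 := nrm_sg hy x
  have h2 := sg_pos hy x
  rw [abs_mul, abs_of_pos (pow_pos h2 _), pow_succ]
  calc |x j| * (sg y x ^ n * sg y x) = (|x j| * sg y x) * sg y x ^ n := by ring
    _ ≤ 1 * sg y x ^ n := by
        apply mul_le_mul_of_nonneg_right _ (by positivity)
        exact (mul_le_mul_of_nonneg_right (abs_coord_le x j) h2.le).trans h1
    _ = _ := one_mul _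

theorem abs_coord2_sg (hy : 0 < y) (i j : Fin 3) (n : ℕ) (x : E3) :
    |x i * x j * sg y x ^ (n + 2)| ≤ sg y x ^ n := by
  have h1 := abs_coord_sg hy j n x
  have h2 := sg_pos hy x
  have h3 : |x i| * sg y x ≤ 1 :=
    (mul_le_mul_of_nonneg_right (abs_coord_le x i) h2.le).trans (nrm_sg hy x)
  calc |x i * x j * sg y x ^ (n + 2)| = (|x i| * sg y x) * |x j * sg y x ^ (n + 1)| := by
        rw [abs_mul, abs_mul, abs_mul, abs_of_pos (pow_pos h2 _), abs_of_pos (pow_pos h2 _)]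
        ring
    _ ≤ 1 * sg y x ^ n := mul_le_mul h3 h1 (abs_nonneg _) (by norm_num)
    _ = _ := one_mul _

theorem JJ_anti {m n : ℕ} (hm : 4 ≤ m) (hmn : m ≤ n) : JJ n ≤ JJ m := by
  unfold JJ
  apply integral_mono (integrable_sg_one (hm.trans hmn)) (integrable_sg_one hm)
  intro x
  apply pow_le_pow_of_le_one (sg_pos one_pos x).le _ hmn
  have := rho_sg one_pos x
  linarith

theorem int_sg (hy : 0 < y) (n : ℕ) : y ^ n * ∫ x : E3, sg y x ^ n = y ^ 3 * JJ n := by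
  rw [integral_sg hy]
  have : y ^ n * y⁻¹ ^ n = 1 := by rw [← mul_pow, mul_inv_cancel₀ hy.ne', one_pow]
  calc y ^ n * (y ^ 3 * y⁻¹ ^ n * JJ n) = (y ^ n * y⁻¹ ^ n) * (y ^ 3 * JJ n) := by ring
    _ = _ := by rw [this, one_mul]

theorem continuous_sg_pow (hy : 0 < y) (n : ℕ) : Continuous fun x => sg y x ^ n :=
  (continuous_sg hy).pow n

/-- a kernel bounded by a power of `sg` -/
theorem kk_of_le (hy : 0 < y) {κ : E3 → ℝ} {C : ℝ} {n : ℕ} (hn : 4 ≤ n) (hc : Continuous κ)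
    (hC : 0 ≤ C) (hb : ∀ x, |κ x| ≤ C * sg y x ^ n) :
    KK κ (C * (y ^ 3 * y⁻¹ ^ n * JJ n)) where
  cont := hc
  int := by
    refine Integrable.mono' ((integrable_sg hy hn).const_mul C) hc.aestronglyMeasurable
      (Eventually.of_forall fun x => ?_)
    rw [Real.norm_eq_abs]
    exact hb x
  le := by
    rw [← integral_sg hy, ← integral_const_mul]
    refine integral_mono_of_nonneg (Eventually.of_forall fun x => abs_nonneg _)
      ((integrable_sg hy hn).const_mul C) (Eventually.of_forall hb)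
  bdd := by
    refine ⟨C * y⁻¹ ^ n, by positivity, fun x => (hb x).trans ?_⟩
    exact mul_le_mul_of_nonneg_left (pow_le_pow_left₀ (sg_pos hy x).le (sg_le_inv hy x) n) hC

theorem JJ4_inv_pos : 0 < (JJ 4)⁻¹ := inv_pos.2 (JJ_pos le_rfl)

theorem JJ_ratio {n : ℕ} (hn : 4 ≤ n) : (JJ 4)⁻¹ * JJ n ≤ 1 := by
  rw [inv_mul_le_iff₀ (JJ_pos le_rfl), mul_one]
  exact JJ_anti le_rfl hn

theorem continuous_pk (hy : 0 < y) : Continuous (pk y) :=
  continuous_const.mul (continuous_const.mul (continuous_sg_pow hy 4))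

theorem continuous_dk (j : Fin 3) (hy : 0 < y) : Continuous (dk j y) :=
  continuous_const.mul ((continuous_const.mul
    ((continuous_coord j).mul (continuous_sg_pow hy 6))).neg)

theorem continuous_yk (hy : 0 < y) : Continuous (yk y) :=
  continuous_const.mul ((continuous_sg_pow hy 4).sub
    (continuous_const.mul (continuous_sg_pow hy 6)))

theorem continuous_yyk (hy : 0 < y) : Continuous (yyk y) :=
  continuous_const.mul ((continuous_const.mul (continuous_sg_pow hy 6)).neg.add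
    (continuous_const.mul (continuous_sg_pow hy 8)))

theorem continuous_ddk (i j : Fin 3) (hy : 0 < y) : Continuous (ddk i j y) := by
  unfold ddk
  split_ifs
  · exact continuous_const.mul (continuous_const.mul ((continuous_sg_pow hy 6).sub
      (continuous_const.mul (((continuous_coord i).mul (continuous_coord j)).mul
        (continuous_sg_pow hy 8)))))
  · exact continuous_const.mul (continuous_const.mul (continuous_const.sub
      (continuous_const.mul (((continuous_coord i).mul (continuous_coord j)).mul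
        (continuous_sg_pow hy 8)))))

theorem pk_nonneg (hy : 0 < y) (x : E3) : 0 ≤ pk y x := by
  have := sg_pos hy x
  have := JJ4_inv_pos
  unfold pk
  positivity

theorem abs_pk_le (hy : 0 < y) (x : E3) : |pk y x| ≤ (JJ 4)⁻¹ * y * sg y x ^ 4 := by
  rw [abs_of_nonneg (pk_nonneg hy x)]
  exact le_of_eq (by unfold pk; ring)

theorem sg_pow_le_inv (hy : 0 < y) (n m : ℕ) (x : E3) :
    y ^ m * sg y x ^ (n + m) ≤ sg y x ^ n := by
  have h := rho_sg hy x
  have h2 := sg_pos hy x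
  calc y ^ m * sg y x ^ (n + m) = (y * sg y x) ^ m * sg y x ^ n := by ring
    _ ≤ 1 * sg y x ^ n := by
        apply mul_le_mul_of_nonneg_right (pow_le_one₀ (by positivity) h) (by positivity)
    _ = _ := one_mul _

theorem abs_dk_le (j : Fin 3) (hy : 0 < y) (x : E3) :
    |dk j y x| ≤ (JJ 4)⁻¹ * (4 * y) * sg y x ^ 5 := by
  have h := abs_coord_sg hy j 5 x
  have := JJ4_inv_pos
  unfold dk
  rw [abs_mul, abs_neg, abs_mul, abs_of_pos this, abs_of_pos (by positivity : (0:ℝ) < 4 * y),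
    mul_assoc (JJ 4)⁻¹]
  exact mul_le_mul_of_nonneg_left (mul_le_mul_of_nonneg_left h (by positivity)) this.le

theorem abs_yk_le (hy : 0 < y) (x : E3) : |yk y x| ≤ (JJ 4)⁻¹ * 4 * sg y x ^ 4 := by
  have h1 := sg_pow_le_inv hy 4 2 x
  have h2 := sg_pos hy x
  have := JJ4_inv_pos
  have h3 : 0 ≤ y ^ 2 * sg y x ^ 6 := by positivity
  have h4 : 0 ≤ sg y x ^ 4 := by positivity
  unfold yk
  rw [abs_mul, abs_of_pos this, mul_assoc (JJ 4)⁻¹]
  apply mul_le_mul_of_nonneg_left _ this.le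
  simp only [Nat.reduceAdd] at h1
  rw [abs_le]
  constructor <;> nlinarith

theorem abs_yyk_le (hy : 0 < y) (x : E3) :
    |yyk y x| ≤ (JJ 4)⁻¹ * (24 * y) * sg y x ^ 6 := by
  have h1 := sg_pow_le_inv hy 6 2 x
  have h2 := sg_pos hy x
  have := JJ4_inv_pos
  unfold yyk
  rw [abs_mul, abs_of_pos this, mul_assoc (JJ 4)⁻¹]
  apply mul_le_mul_of_nonneg_left _ this.le
  have h3 : 24 * y ^ 3 * sg y x ^ 8 ≤ 24 * y * sg y x ^ 6 := by
    calc 24 * y ^ 3 * sg y x ^ 8 = 24 * y * (y ^ 2 * sg y x ^ (6 + 2)) := by ring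
      _ ≤ _ := mul_le_mul_of_nonneg_left h1 (by positivity)
  have h4 : 0 ≤ 12 * y * sg y x ^ 6 := by positivity
  have h5 : 0 ≤ 24 * y ^ 3 * sg y x ^ 8 := by positivity
  rw [abs_le]
  constructor
  · nlinarith
  · nlinarith

theorem abs_ddk_le (i j : Fin 3) (hy : 0 < y) (x : E3) :
    |ddk i j y x| ≤ (JJ 4)⁻¹ * (28 * y) * sg y x ^ 6 := by
  have h1 := abs_coord2_sg hy i j 6 x
  have h2 := sg_pos hy x
  have := JJ4_inv_pos
  unfold ddk
  rw [abs_mul, abs_of_pos this, mul_assoc (JJ 4)⁻¹, abs_mul, abs_neg, abs_of_pos (by positivity : 0 < 4 * y)]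
  apply mul_le_mul_of_nonneg_left _ this.le
  have h3 : |(if i = j then sg y x ^ 6 else 0) - 6 * (x i * x j * sg y x ^ 8)| ≤
      7 * sg y x ^ 6 := by
    refine (abs_sub _ _).trans ?_
    rw [abs_mul, abs_of_pos (by norm_num : (0:ℝ) < 6)]
    have h4 : |if i = j then sg y x ^ 6 else 0| ≤ sg y x ^ 6 := by
      split_ifs
      · rw [abs_of_pos (by positivity)]
      · rw [abs_zero]; positivity
    linarith
  calc 4 * y * _ ≤ 4 * y * (7 * sg y x ^ 6) := mul_le_mul_of_nonneg_left h3 (by positivity)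
    _ = _ := by ring

theorem abs_dyk_le (j : Fin 3) (hy : 0 < y) (x : E3) :
    |dyk j y x| ≤ (JJ 4)⁻¹ * 28 * sg y x ^ 5 := by
  have h1 := abs_coord_sg hy j 5 x
  have h2 := abs_coord_sg hy j 7 x
  have h3 := sg_pow_le_inv hy 5 2 x
  have h4 := sg_pos hy x
  have := JJ4_inv_pos
  unfold dyk
  rw [abs_mul, abs_of_pos this, mul_assoc (JJ 4)⁻¹]
  apply mul_le_mul_of_nonneg_left _ this.le
  refine (abs_add_le _ _).trans ?_
  rw [abs_neg, abs_mul 4, abs_of_pos (by norm_num : (0:ℝ) < 4), abs_mul (24 * y ^ 2),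
    abs_of_nonneg (by positivity : (0:ℝ) ≤ 24 * y ^ 2)]
  have h5 : y ^ 2 * |x j * sg y x ^ 8| ≤ sg y x ^ 5 :=
    (mul_le_mul_of_nonneg_left h2 (by positivity)).trans h3
  simp only [Nat.reduceAdd] at h1 h5
  nlinarith

theorem kk_pk (hy : 0 < y) : KK (pk y) 1 := by
  have h := kk_of_le hy le_rfl (continuous_pk hy) (by have := JJ4_inv_pos; positivity)
    (abs_pk_le hy)
  refine kk_mono h (le_of_eq ?_)
  have : JJ 4 ≠ 0 := (JJ_pos le_rfl).ne'
  field_simp

theorem kk_dk (j : Fin 3) (hy : 0 < y) : KK (dk j y) (4 / y) := by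
  have h := kk_of_le hy (by norm_num) (continuous_dk j hy) (by have := JJ4_inv_pos; positivity)
    (abs_dk_le j hy)
  refine kk_mono h ?_
  have h1 := JJ_ratio (n := 5) (by norm_num)
  calc (JJ 4)⁻¹ * (4 * y) * (y ^ 3 * y⁻¹ ^ 5 * JJ 5) = (4 / y) * ((JJ 4)⁻¹ * JJ 5) := by
        field_simp
    _ ≤ (4 / y) * 1 := mul_le_mul_of_nonneg_left h1 (by positivity)
    _ = _ := mul_one _

theorem kk_yk (hy : 0 < y) : KK (yk y) (4 / y) := by
  have h := kk_of_le hy le_rfl (continuous_yk hy) (by have := JJ4_inv_pos; positivity)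
    (abs_yk_le hy)
  refine kk_mono h (le_of_eq ?_)
  have : JJ 4 ≠ 0 := (JJ_pos le_rfl).ne'
  field_simp

theorem kk_yyk (hy : 0 < y) : KK (yyk y) (24 / y ^ 2) := by
  have h := kk_of_le hy (by norm_num) (continuous_yyk hy) (by have := JJ4_inv_pos; positivity)
    (abs_yyk_le hy)
  refine kk_mono h ?_
  have h1 := JJ_ratio (n := 6) (by norm_num)
  calc (JJ 4)⁻¹ * (24 * y) * (y ^ 3 * y⁻¹ ^ 6 * JJ 6) = (24 / y ^ 2) * ((JJ 4)⁻¹ * JJ 6) := by
        field_simp
    _ ≤ (24 / y ^ 2) * 1 := mul_le_mul_of_nonneg_left h1 (by positivity)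
    _ = _ := mul_one _

theorem kk_ddk (i j : Fin 3) (hy : 0 < y) : KK (ddk i j y) (28 / y ^ 2) := by
  have h := kk_of_le hy (by norm_num) (continuous_ddk i j hy)
    (by have := JJ4_inv_pos; positivity) (abs_ddk_le i j hy)
  refine kk_mono h ?_
  have h1 := JJ_ratio (n := 6) (by norm_num)
  calc (JJ 4)⁻¹ * (28 * y) * (y ^ 3 * y⁻¹ ^ 6 * JJ 6) = (28 / y ^ 2) * ((JJ 4)⁻¹ * JJ 6) := by
        field_simp
    _ ≤ (28 / y ^ 2) * 1 := mul_le_mul_of_nonneg_left h1 (by positivity)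
    _ = _ := mul_one _

theorem pk_neg (x : E3) : pk y (-x) = pk y x := by unfold pk; rw [sg_neg]

theorem yk_neg (x : E3) : yk y (-x) = yk y x := by unfold yk; rw [sg_neg]

theorem dk_neg (j : Fin 3) (x : E3) : dk j y (-x) = -dk j y x := by
  unfold dk
  rw [sg_neg, PiLp.neg_apply]
  ring

theorem integral_pk (hy : 0 < y) : ∫ x, pk y x = 1 := by
  unfold pk
  rw [integral_const_mul, integral_const_mul, integral_sg hy]
  have : JJ 4 ≠ 0 := (JJ_pos le_rfl).ne'
  field_simp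

end Pool.Agent.TF
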