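import Pool.Agent.TF.Stm
import Pool.Agent.H32.MQ.G3

/-!
# Project T5 (MP_a3214d), assembly, P1 and P2: point stabilizers, fields
-/

set_option autoImplicit false

open scoped BigOperators Pointwise Topology
open NumberField IsDedekindDomain Filter

namespace Pool.Agent.TF

open Pool.Agent.H98.MF (Om Gm ord Dec top nrm fld rdN rexp rex)
open Pool.Agent.H98.ML (norb hind)
open Pool.Agent.H92.EL (TM Hk Ctn HLo nO cyc)
open Pool.Agent.H32.MA (pind mInd bM)
open Pool.Agent.H32.MZ (NK MalleK)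

private theorem p1_core (n : ℕ) (G : Subgroup (Equiv.Perm (Fin n)))
    (ht : MulAction.IsPretransitive G (Fin n)) (i0 : Fin n) :
    (MulAction.stabilizer G i0).normalCore = ⊥ := by
  rw [eq_bot_iff]
  intro g hg
  rw [Subgroup.mem_bot]
  apply Subtype.ext
  apply Equiv.ext
  intro j
  obtain ⟨h, hh⟩ := ht.exists_smul_eq i0 j
  have h1 : h⁻¹ * g * h⁻¹⁻¹ ∈ MulAction.stabilizer G i0 := hg h⁻¹
  rw [inv_inv, MulAction.mem_stabilizer_iff, mul_smul, mul_smul, hh] at h1
  have h2 : g • j = h • i0 := by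
    rw [← h1, smul_inv_smul]
  rw [hh] at h2
  exact h2

private theorem p1_ne (n : ℕ) (G : Subgroup (Equiv.Perm (Fin n)))
    (ht : MulAction.IsPretransitive G (Fin n)) (hn : 1 < n) (i0 : Fin n) :
    MulAction.stabilizer G i0 ≠ ⊤ := by
  intro h
  have h1 : ∀ j : Fin n, j = i0 := by
    intro j
    obtain ⟨g, hg⟩ := ht.exists_smul_eq i0 j
    have h2 : g ∈ MulAction.stabilizer G i0 := by
      rw [h]
      exact Subgroup.mem_top g
    rw [MulAction.mem_stabilizer_iff] at h2
    rw [← hg, h2]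
  have h3 : (⟨0, by omega⟩ : Fin n) = ⟨1, hn⟩ := (h1 _).trans (h1 _).symm
  have h4 : (0 : ℕ) = 1 := congrArg Fin.val h3
  exact absurd h4 zero_ne_one

private theorem p1_ind (n : ℕ) (G : Subgroup (Equiv.Perm (Fin n)))
    (ht : MulAction.IsPretransitive G (Fin n)) (i0 : Fin n) (g : G) :
    hind (MulAction.stabilizer G i0) g = pind (g : Equiv.Perm (Fin n)) := by
  set σ : Equiv.Perm (Fin n) := (g : Equiv.Perm (Fin n)) with hσ
  set e : G ⧸ MulAction.stabilizer G i0 → Fin n := MulAction.ofQuotientStabilizer G i0 with he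
  have einj : Function.Injective e := MulAction.injective_ofQuotientStabilizer G i0
  have esurj : Function.Surjective e := by
    intro y
    obtain ⟨h, hh⟩ := MulAction.exists_smul_eq G i0 y
    exact ⟨QuotientGroup.mk h, by rw [he, MulAction.ofQuotientStabilizer_mk, hh]⟩
  have hidx : (MulAction.stabilizer G i0).index = n := by
    rw [Subgroup.index, Nat.card_congr (Equiv.ofBijective e ⟨einj, esurj⟩), Nat.card_fin]
  have hpow : ∀ (k : ℤ) (x : G ⧸ MulAction.stabilizer G i0), e (g ^ k • x) = (σ ^ k) • e x := by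
    intro k x
    rw [he, MulAction.ofQuotientStabilizer_smul]
    rfl
  have hrel : ∀ x y : G ⧸ MulAction.stabilizer G i0,
      (MulAction.orbitRel (Subgroup.zpowers g) (G ⧸ MulAction.stabilizer G i0)) x y ↔
        (MulAction.orbitRel (Subgroup.zpowers σ) (Fin n)) (e x) (e y) := by
    intro x y
    rw [MulAction.orbitRel_apply, MulAction.orbitRel_apply]
    constructor
    · rintro ⟨⟨h, hh⟩, h2⟩
      obtain ⟨k, hk⟩ := Subgroup.mem_zpowers_iff.mp hh
      refine ⟨⟨σ ^ k, Subgroup.mem_zpowers_iff.mpr ⟨k, rfl⟩⟩, ?_⟩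
      show σ ^ k • e y = e x
      rw [← hpow, hk]
      exact congrArg e h2
    · rintro ⟨⟨h, hh⟩, h2⟩
      obtain ⟨k, hk⟩ := Subgroup.mem_zpowers_iff.mp hh
      refine ⟨⟨g ^ k, Subgroup.mem_zpowers_iff.mpr ⟨k, rfl⟩⟩, ?_⟩
      apply einj
      show e (g ^ k • y) = e x
      rw [hpow, hk]
      exact h2
  have hnb : norb (MulAction.stabilizer G i0) g =
      Nat.card (MulAction.orbitRel.Quotient (Subgroup.zpowers σ) (Fin n)) := by
    refine Nat.card_congr (Quotient.congr (Equiv.ofBijective e ⟨einj, esurj⟩) ?_)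
    intro x y
    exact hrel x y
  rw [hind, hidx, hnb]
  rfl

/-- P1: the point stabilizer of a transitive permutation group -/
theorem sprm5 : SPrm5 := by
  intro n G ht hn i0
  refine ⟨p1_core n G ht i0, p1_ne n G ht hn i0, p1_ind n G ht i0, ?_⟩
  unfold mi mInd
  congr 1
  ext j
  constructor
  · rintro ⟨g, hg, hj⟩
    refine ⟨(g : Equiv.Perm (Fin n)), g.2, fun h => hg (Subtype.ext h), ?_⟩
    rw [← p1_ind n G ht i0, hj]
  · rintro ⟨g, hg, h1, hj⟩
    refine ⟨⟨g, hg⟩, fun h => h1 (congrArg Subtype.val h), ?_⟩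
    rw [p1_ind n G ht i0, ← hj]

/-- P2: fields and homomorphisms -/
theorem sfld5 : SFld5 := by
  intro n G ht i0
  obtain ⟨κ, hκ, h⟩ := Pool.Agent.H32.MQ.G.stNK n G ht i0 G G.subtype
    G.subtype_injective G.range_subtype
  refine ⟨κ, hκ, fun k _ _ X => ?_⟩
  have h4 := h k X
  have h5 : (MulAction.stabilizer (Equiv.Perm (Fin n)) i0).comap G.subtype =
      MulAction.stabilizer G i0 := by
    ext g
    rfl
  have h6 : {ρ : Gm k →* G | ρ ∈ Hk k G ∧ (dH (MulAction.stabilizer G i0) ρ : ℝ) ≤ X} =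
      {ρ : Gm k →* G | Function.Surjective ρ ∧ IsLocallyConstant ρ ∧
        (rdN (fld k (((MulAction.stabilizer (Equiv.Perm (Fin n)) i0).comap
          G.subtype).comap ρ)) : ℝ) ≤ X} := by
    ext ρ
    show ((Function.Surjective ρ ∧ IsLocallyConstant ρ) ∧
      (rdN (fld k ((MulAction.stabilizer G i0).comap ρ)) : ℝ) ≤ X) ↔ _
    rw [Set.mem_ofPred_eq, h5, and_assoc]
  rw [h6, h4]

end Pool.Agent.TF
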