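import Pool.Agent.TF.Def

/-!
# Truncated Riesz transforms
-/

set_option autoImplicit false

namespace Pool.Agent.TF.Rz

open MeasureTheory Set Filter Topology Pool.Agent.TO Pool.Agent.TB Pool.Agent.TC Pool.Agent.TP
open scoped ENNReal NNReal Real InnerProductSpace SchwartzMap LineDeriv

/-- the kernel `∫_a^b ∂_j p_y dy` -/
noncomputable def rk (j : Fin 3) (a b : ℝ) (x : E3) : ℝ :=
  (JJ 4)⁻¹ * (x j * (sg b x ^ 4 - sg a x ^ 4))

variable {a b c y : ℝ}

theorem sg_anti (ha : 0 < a) (hab : a ≤ b) (x : E3) : sg b x ≤ sg a x := by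
  unfold sg
  apply inv_anti₀ (Real.sqrt_pos.2 (by positivity))
  apply Real.sqrt_le_sqrt
  have : a ^ 2 ≤ b ^ 2 := pow_le_pow_left₀ ha.le hab 2
  linarith

theorem sg_four_sub (ha : 0 < a) (hb : 0 < b) (x : E3) :
    sg b x ^ 4 - sg a x ^ 4 =
      (a ^ 2 - b ^ 2) * (sg a x ^ 2 * sg b x ^ 2 * (sg a x ^ 2 + sg b x ^ 2)) := by
  have h1 := sg_sq ha x
  have h2 := sg_sq hb x
  have h3 : sg b x ^ 2 - sg a x ^ 2 = (a ^ 2 - b ^ 2) * (sg a x ^ 2 * sg b x ^ 2) := by
    linear_combination (-(sg b x ^ 2)) * h1 + sg a x ^ 2 * h2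
  calc sg b x ^ 4 - sg a x ^ 4 = (sg b x ^ 2 - sg a x ^ 2) * (sg a x ^ 2 + sg b x ^ 2) := by ring
    _ = _ := by rw [h3]; ring

theorem abs_rk_le (j : Fin 3) (ha : 0 < a) (hb : 0 < b) (x : E3) :
    |rk j a b x| ≤ (JJ 4)⁻¹ * (2 * |a ^ 2 - b ^ 2|) * sg (min a b) x ^ 5 := by
  have hm : 0 < min a b := lt_min ha hb
  have hJ := JJ4_inv_pos
  have h1 := sg_anti hm (min_le_left a b) x
  have h2 := sg_anti hm (min_le_right a b) x
  have pa := sg_pos ha x
  have pb := sg_pos hb x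
  have pm := sg_pos hm x
  have h3 := abs_coord_sg hm j 5 x
  have qa : sg a x ^ 2 ≤ sg (min a b) x ^ 2 := pow_le_pow_left₀ pa.le h1 2
  have qb : sg b x ^ 2 ≤ sg (min a b) x ^ 2 := pow_le_pow_left₀ pb.le h2 2
  have h4 : sg a x ^ 2 * sg b x ^ 2 * (sg a x ^ 2 + sg b x ^ 2) ≤ 2 * sg (min a b) x ^ 6 := by
    calc sg a x ^ 2 * sg b x ^ 2 * (sg a x ^ 2 + sg b x ^ 2)
        ≤ sg (min a b) x ^ 2 * sg (min a b) x ^ 2 *
          (sg (min a b) x ^ 2 + sg (min a b) x ^ 2) := by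
          gcongr
      _ = _ := by ring
  unfold rk
  rw [sg_four_sub ha hb, abs_mul, abs_of_pos hJ, mul_assoc (JJ 4)⁻¹]
  apply mul_le_mul_of_nonneg_left _ hJ.le
  rw [abs_mul, abs_mul (a ^ 2 - b ^ 2), abs_of_nonneg (by positivity :
    0 ≤ sg a x ^ 2 * sg b x ^ 2 * (sg a x ^ 2 + sg b x ^ 2))]
  rw [abs_mul, abs_of_pos (pow_pos pm _)] at h3
  calc |x j| * (|a ^ 2 - b ^ 2| * (sg a x ^ 2 * sg b x ^ 2 * (sg a x ^ 2 + sg b x ^ 2)))
      ≤ |x j| * (|a ^ 2 - b ^ 2| * (2 * sg (min a b) x ^ 6)) := by gcongr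
    _ = 2 * |a ^ 2 - b ^ 2| * (|x j| * sg (min a b) x ^ (5 + 1)) := by ring
    _ ≤ 2 * |a ^ 2 - b ^ 2| * sg (min a b) x ^ 5 :=
        mul_le_mul_of_nonneg_left h3 (by positivity)

theorem continuous_rk (j : Fin 3) (ha : 0 < a) (hb : 0 < b) : Continuous (rk j a b) :=
  continuous_const.mul ((continuous_coord j).mul
    ((continuous_sg_pow hb 4).sub (continuous_sg_pow ha 4)))

theorem kk_rk (j : Fin 3) (ha : 0 < a) (hb : 0 < b) : ∃ L, KK (rk j a b) L :=
  ⟨_, kk_of_le (lt_min ha hb) (by norm_num) (continuous_rk j ha hb)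
    (by have := JJ4_inv_pos; positivity) (abs_rk_le j ha hb)⟩

/-- the truncated Riesz transform -/
noncomputable def Xp (j : Fin 3) (a b : ℝ) : V3 →L[ℝ] V3 := cvO (rk j a b)

theorem Xp_self (j : Fin 3) (ha : 0 < a) (f : V3) : Xp j a a f = 0 := by
  obtain ⟨L, hL⟩ := kk_rk j ha ha
  have h := cvO_smul 0 hL f
  rw [zero_smul] at h
  have e : (fun y => (0:ℝ) * rk j a a y) = rk j a a := by
    ext x
    unfold rk
    ring
  rw [e] at h
  exact h

theorem Xp_add (j : Fin 3) (ha : 0 < a) (hb : 0 < b) (hc : 0 < c) (f : V3) :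
    Xp j a c f = Xp j a b f + Xp j b c f := by
  obtain ⟨L, hL⟩ := kk_rk j ha hb
  obtain ⟨L', hL'⟩ := kk_rk j hb hc
  unfold Xp
  rw [← cvO_add hL hL']
  congr 2
  ext x
  unfold rk
  ring

theorem Xp_anti (j : Fin 3) (ha : 0 < a) (hb : 0 < b) (f g : V3) :
    ⟪f, Xp j a b g⟫_ℝ = -⟪Xp j a b f, g⟫_ℝ := by
  obtain ⟨L, hL⟩ := kk_rk j ha hb
  unfold Xp
  rw [cvO_eq hL]
  apply anti_cvL hL
  intro x
  unfold rk
  rw [sg_neg, sg_neg, PiLp.neg_apply]
  ring

theorem deriv_Xp (j : Fin 3) (ha : 0 < a) (hb : 0 < b) (f : V3) :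
    HasDerivAt (fun s => Xp j a s f) (Dp j b f) b := by
  have hJ := JJ4_inv_pos
  refine hasDerivAt_cvO (κ := fun s => rk j a s) (κ' := fun s => dk j s) hb
    (C := (JJ 4)⁻¹ * 4 * 16) (fun s h1 _ x => ?_) (fun s h1 _ x => ?_)
    (fun s hs => kk_rk j ha hs) ⟨_, kk_dk j hb⟩ f
  · have hs : 0 < s := by linarith
    have h := ((((hasDerivAt_sg_pow_rho hs 4 x).sub_const (sg a x ^ 4)).const_mul (x j)).const_mul
      (JJ 4)⁻¹)
    unfold rk dk
    refine h.congr_deriv ?_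
    push_cast
    ring
  · have hs : 0 < s := by linarith
    have hp := sg_pos hs x
    have h2 := rho_sg hs x
    calc |dk j s x| ≤ (JJ 4)⁻¹ * (4 * s) * sg s x ^ 5 := abs_dk_le j hs x
      _ = (JJ 4)⁻¹ * 4 * ((s * sg s x) * sg s x ^ 4) := by ring
      _ ≤ (JJ 4)⁻¹ * 4 * (1 * (16 * sg b x ^ 4)) := by
          apply mul_le_mul_of_nonneg_left _ (by positivity)
          exact mul_le_mul h2 (sg_four_le hb h1.le x) (by positivity) (by norm_num)
      _ = _ := by ring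

/-- two curves with the same derivative -/
theorem eq_of_deriv {F G F' : ℝ → V3} (hF : ∀ s, 0 < s → HasDerivAt F (F' s) s)
    (hG : ∀ s, 0 < s → HasDerivAt G (F' s) s) (ha : 0 < a) (hb : 0 < b) (h : F a = G a) :
    F b = G b := by
  have h1 := (convex_Ioi (0:ℝ)).norm_image_sub_le_of_norm_hasDerivWithin_le
    (f := fun s => F s - G s) (f' := fun _ => (0:V3)) (C := 0) (x := a) (y := b)
    (fun s hs => by
      have := (hF s hs).sub (hG s hs)
      rw [sub_self] at this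
      exact this.hasDerivWithinAt)
    (fun s _ => by rw [norm_zero]) ha hb
  rw [zero_mul, h, sub_self, sub_zero] at h1
  exact sub_eq_zero.1 (norm_le_zero_iff.1 h1)

theorem deriv_apply (T : V3 →L[ℝ] V3) {F : ℝ → V3} {F' : V3} {s : ℝ} (h : HasDerivAt F F' s) :
    HasDerivAt (fun s => T (F s)) (T F') s := T.hasFDerivAt.comp_hasDerivAt s h

theorem deriv_shift {F : ℝ → V3} {F' : V3} {s : ℝ} (h : HasDerivAt F F' (y + s)) :
    HasDerivAt (fun s => F (y + s)) F' s := h.comp_const_add y s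

variable (hs : SG)

include hs

/-- `Y_s D_t` depends only on `s + t` -/
theorem yd_eq (j : Fin 3) {s t : ℝ} (h1 : 0 < s) (h2 : 0 < t) (f : V3) :
    Dp j ((s + t) / 2) (Yp ((s + t) / 2) f) = Yp s (Dp j t f) := by
  set m := (s + t) / 2 with hm
  have hm0 : 0 < m := by positivity
  obtain ⟨e, he, h3, h4, h5⟩ : ∃ e : ℝ, 0 < e ∧ e < s ∧ e < t ∧ e < m :=
    ⟨min (min s t) m / 2, by positivity, by
      have : min (min s t) m ≤ s := (min_le_left _ _).trans (min_le_left _ _)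
      linarith, by
      have : min (min s t) m ≤ t := (min_le_left _ _).trans (min_le_right _ _)
      linarith, by
      have : min (min s t) m ≤ m := min_le_right _ _
      linarith⟩
  have key : ∀ u v : ℝ, e < u → e < v → Yp u (Dp j v f) =
      Yp e (Dp j e (Pp (u + v - 2 * e) f)) := by
    intro u v hu hv
    have e1 : Yp u (Dp j v f) = Yp e (Pp (u - e) (Dp j v f)) := by
      have := hs.yp e (u - e) he (by linarith) (Dp j v f)
      rwa [add_sub_cancel] at this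
    have e2 : Dp j v f = Dp j e (Pp (v - e) f) := by
      have := hs.dp j e (v - e) he (by linarith) f
      rwa [add_sub_cancel] at this
    have e3 : Pp (u + v - 2 * e) f = Pp (u - e) (Pp (v - e) f) := by
      rw [← hs.pp (u - e) (v - e) (by linarith) (by linarith)]
      congr 2
      ring
    rw [e1, e2, e3]
    congr 1
    exact cvO_comm _ _ _
  have k1 := key s t h3 h4
  have k2 := key m m h5 h5
  have e4 : Dp j m (Yp m f) = Yp m (Dp j m f) := cvO_comm _ _ _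
  have e5 : m + m - 2 * e = s + t - 2 * e := by rw [hm]; ring
  rw [e4, k1, k2, e5]

theorem Yp_Xp (j : Fin 3) (hy : 0 < y) (ha : 0 < a) (hb : 0 < b) (f : V3) :
    Yp y (Xp j a b f) = Dp j (y + b) f - Dp j (y + a) f := by
  refine eq_of_deriv (F := fun s => Yp y (Xp j a s f))
    (G := fun s => Dp j (y + s) f - Dp j (y + a) f) (F' := fun s => Yp y (Dp j s f))
    (fun s h => deriv_apply _ (deriv_Xp j ha h f)) (fun s h => ?_) ha hb ?_
  · have h1 := hs.dyd j (y + s) (by positivity) f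
    rw [yd_eq hs j hy h] at h1
    exact (deriv_shift (F := fun s => Dp j s f) h1).sub_const _
  · simp only [sub_self]
    rw [Xp_self j ha, map_zero]

omit hs in
theorem ddk_comm (i j : Fin 3) (s : ℝ) : ddk i j s = ddk j i s := by
  ext x
  unfold ddk
  by_cases h : i = j
  · rw [if_pos h, if_pos h.symm, mul_comm (x i)]
  · rw [if_neg h, if_neg (Ne.symm h), mul_comm (x i)]

theorem Dp_Xp (i j : Fin 3) (hy : 0 < y) (ha : 0 < a) (hb : 0 < b) (f : V3) :
    Dp i y (Xp j a b f) = Dp j y (Xp i a b f) := by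
  refine eq_of_deriv (F := fun s => Dp i y (Xp j a s f)) (G := fun s => Dp j y (Xp i a s f))
    (F' := fun s => DDp i j (y + s) f) (fun s h => ?_) (fun s h => ?_) ha hb ?_
  · rw [hs.dd i j y s hy h]
    exact deriv_apply _ (deriv_Xp j ha h f)
  · have e : DDp i j (y + s) = DDp j i (y + s) := by
      unfold DDp
      rw [ddk_comm]
    rw [e, hs.dd j i y s hy h]
    exact deriv_apply _ (deriv_Xp i ha h f)
  · rw [Xp_self j ha, Xp_self i ha, map_zero, map_zero]

theorem sum_Dp_Xp (hy : 0 < y) (ha : 0 < a) (hb : 0 < b) (f : V3) :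
    ∑ j, Dp j y (Xp j a b f) = Yp (y + a) f - Yp (y + b) f := by
  refine eq_of_deriv (F := fun s => ∑ j, Dp j y (Xp j a s f))
    (G := fun s => Yp (y + a) f - Yp (y + s) f) (F' := fun s => -YYp (y + s) f)
    (fun s h => ?_) (fun s h => ?_) ha hb ?_
  · rw [← sum_DDp (by positivity : 0 < y + s)]
    have h1 : ∀ j ∈ (Finset.univ : Finset (Fin 3)),
        HasDerivAt (fun s => Dp j y (Xp j a s f)) (DDp j j (y + s) f) s := by
      intro j _
      rw [hs.dd j j y s hy h]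
      exact deriv_apply _ (deriv_Xp j ha h f)
    exact HasDerivAt.fun_sum h1
  · have h1 := deriv_shift (F := fun s => Yp s f) (deriv_Yp (by positivity : 0 < y + s) f)
    exact h1.const_sub _
  · simp only [sub_self]
    refine Finset.sum_eq_zero fun j _ => ?_
    rw [Xp_self j ha, map_zero]

theorem sum_Xp_Xp {a' b' : ℝ} (ha : 0 < a) (hb : 0 < b) (ha' : 0 < a') (hb' : 0 < b') (f : V3) :
    ∑ j, Xp j a b (Xp j a' b' f) =
      Pp (a' + b) f - Pp (b' + b) f - (Pp (a' + a) f - Pp (b' + a) f) := by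
  refine eq_of_deriv (F := fun s => ∑ j, Xp j a s (Xp j a' b' f))
    (G := fun s => Pp (a' + s) f - Pp (b' + s) f - (Pp (a' + a) f - Pp (b' + a) f))
    (F' := fun s => Yp (a' + s) f - Yp (b' + s) f)
    (fun s h => ?_) (fun s h => ?_) ha hb ?_
  · have h2 := sum_Dp_Xp hs h ha' hb' f
    rw [add_comm s a', add_comm s b'] at h2
    rw [← h2]
    have h1 : ∀ j ∈ (Finset.univ : Finset (Fin 3)),
        HasDerivAt (fun s => Xp j a s (Xp j a' b' f)) (Dp j s (Xp j a' b' f)) s :=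
      fun j _ => deriv_Xp j ha h _
    exact HasDerivAt.fun_sum h1
  · have h1 := deriv_shift (F := fun s => Pp s f) (deriv_Pp (by positivity : 0 < a' + s) f)
    have h2 := deriv_shift (F := fun s => Pp s f) (deriv_Pp (by positivity : 0 < b' + s) f)
    exact (h1.sub h2).sub_const _
  · simp only [sub_self]
    refine Finset.sum_eq_zero fun j _ => ?_
    rw [Xp_self j ha]

theorem sum_norm_Xp (ha : 0 < a) (hb : 0 < b) (f : V3) :
    ∑ j, ‖Xp j a b f‖ ^ 2 = ‖Pp a f - Pp b f‖ ^ 2 := by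
  have h1 : ∀ j, ‖Xp j a b f‖ ^ 2 = -⟪f, Xp j a b (Xp j a b f)⟫_ℝ := by
    intro j
    rw [Xp_anti j ha hb, neg_neg, real_inner_self_eq_norm_sq]
  simp only [h1]
  rw [Finset.sum_neg_distrib, ← inner_sum, sum_Xp_Xp hs ha hb ha hb]
  rw [hs.pp a b ha hb, hs.pp b b hb hb, hs.pp a a ha ha, hs.pp b a hb ha]
  have e1 := hs.symP a ha f (Pp b f)
  have e2 := hs.symP b hb f (Pp b f)
  have e3 := hs.symP a ha f (Pp a f)
  have e4 := hs.symP b hb f (Pp a f)
  rw [real_inner_self_eq_norm_sq] at e2 e3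
  rw [inner_sub_right, inner_sub_right, inner_sub_right, e1, e2, e3, e4, norm_sub_sq_real,
    real_inner_comm (Pp a f) (Pp b f)]
  ring

theorem norm_Xp_le (j : Fin 3) (ha : 0 < a) (hb : 0 < b) (f : V3) :
    ‖Xp j a b f‖ ≤ ‖Pp a f - Pp b f‖ := by
  have h1 := sum_norm_Xp hs ha hb f
  have h2 : ‖Xp j a b f‖ ^ 2 ≤ ‖Pp a f - Pp b f‖ ^ 2 := by
    rw [← h1]
    exact Finset.single_le_sum (f := fun j => ‖Xp j a b f‖ ^ 2) (fun _ _ => by positivity)
      (Finset.mem_univ j)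
  exact (abs_le_of_sq_le_sq' h2 (norm_nonneg _)).2

end Pool.Agent.TF.Rz
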