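import Pool.Agent.TF.Defs

/-!
# Project T5 (MP_a3214d), assembly: statements
-/

set_option autoImplicit false

open scoped BigOperators Pointwise Topology
open NumberField IsDedekindDomain Filter

namespace Pool.Agent.TF

open Pool.Agent.H98.MF (Om Gm ord Dec top nrm fld rdN rexp rex)
open Pool.Agent.H98.ML (norb hind)
open Pool.Agent.H92.EL (TM Hk Ctn HLo nO cyc)
open Pool.Agent.H32.MA (pind mInd bM)
open Pool.Agent.H32.MZ (NK MalleK)

/-! ### the elements of least index -/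

/-- F1: the elements of least index have a common prime order and the other indices are larger by
a factor -/
def SGrp5 : Prop := ∀ (G : Type) [Group G] (H : Subgroup G), Hyp5 H →
  0 < mi H ∧ (∃ l : ℕ, HypM l G (Mn H)) ∧
  ∃ w : ℝ, 1 < w ∧ ∀ g : G, ¬ OkM (Mn H) g → w * (mi H : ℝ) ≤ (hind H g : ℝ)

/-! ### discriminants -/

/-- F2: the exponent at a tame prime -/
def SDis5 : Prop := ∀ (k : Type) [Field k] [NumberField k] (T : TM k) (G : Type) [Group G]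
  [Finite G] (H : Subgroup G) (ρ : Gm k →* G), ρ ∈ Hk k G → ∀ P,
  Nat.Coprime (Nat.card G) (nrm P) → rexp P (fld k (H.comap ρ)) = hind H (ρ (T.tau P))

/-- F3: the discriminant -/
def SProd5 : Prop := ∀ (k : Type) [Field k] [NumberField k] (T : TM k) (G : Type) [Group G]
  [Finite G] (H : Subgroup G), H.normalCore = ⊥ → ∀ ρ : Gm k →* G, ρ ∈ Hk k G →
  ∀ S : Finset (HeightOneSpectrum (𝓞 k)), Ctn S (Nat.card G) →
    ∃ F : Finset (HeightOneSpectrum (𝓞 k)), (∀ P, P ∈ F ↔ (P ∉ S ∧ ρ (T.tau P) ≠ 1)) ∧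
      dH H ρ = qH H S ρ * ∏ P ∈ F, nrm P ^ hind H (ρ (T.tau P))

/-- F4: the exponent is a local function -/
def SLoc5 : Prop := ∀ (k : Type) [Field k] [NumberField k] (G : Type) [Group G] [Finite G]
  (H : Subgroup G) (ρ ρ' : Gm k →* G), ρ ∈ Hk k G → ρ' ∈ Hk k G → ∀ P,
  (∀ σ ∈ Dec P, ρ σ = ρ' σ) → rexp P (fld k (H.comap ρ)) = rexp P (fld k (H.comap ρ'))

/-- F5: finitely many values of the part at `S` -/
def SVal5 : Prop := ∀ (k : Type) [Field k] [NumberField k] (G : Type) [Group G] [Finite G]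
  (H : Subgroup G) (S : Finset (HeightOneSpectrum (𝓞 k))),
    {q | ∃ ρ : Gm k →* G, ρ ∈ Hk k G ∧ qH H S ρ = q}.Finite ∧ ∀ ρ : Gm k →* G, 1 ≤ qH H S ρ

/-- F6: finitely many homomorphisms of bounded discriminant -/
def SFin5 : Prop := ∀ (k : Type) [Field k] [NumberField k] (G : Type) [Group G] [Finite G]
  (H : Subgroup G), H.normalCore = ⊥ → ∀ X : ℝ,
    {ρ : Gm k →* G | ρ ∈ Hk k G ∧ (dH H ρ : ℝ) ≤ X}.Finite

/-! ### the sum over the outer data -/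

/-- Z1: representatives of the classes of homomorphisms modulo the subgroup generated by `M` -/
def ZRep5 : Prop := ∀ (k : Type) [Field k] [NumberField k] (T : TM k) (G : Type) [Group G]
  (M : Set G) (l : ℕ), HypM l G M → ∀ S : Finset (HeightOneSpectrum (𝓞 k)),
  Ctn S (Nat.card G) → ∃ C : ℕ, 1 ≤ C ∧ ∀ R : Finset (HeightOneSpectrum (𝓞 k)),
    ∃ F : Finset (Gm k →* G), F.card ≤ C ^ (R.card + 1) ∧ (∀ ρ ∈ F, IsLocallyConstant ρ) ∧
    ∀ ρ : Gm k →* G, ρ ∈ Hk k G →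
      {P | P ∉ S ∧ ¬ OkM M (ρ (T.tau P))} ⊆ (R : Set (HeightOneSpectrum (𝓞 k))) →
      ∃! ρ0, ρ0 ∈ F ∧ Cg5 M ρ ρ0

open Classical in
/-- Z2: the discriminant in terms of the ramified primes, and finiteness -/
def ZDis5 : Prop := ∀ (k : Type) [Field k] [NumberField k] (T : TM k) (G : Type) [Group G]
  (H : Subgroup G), Hyp5 H → ∀ S : Finset (HeightOneSpectrum (𝓞 k)), Ctn S (Nat.card G) →
  (∀ ρ : Gm k →* G, ρ ∈ Hk k G → 1 ≤ nO T S ρ ∧
    {P | P ∉ S ∧ ρ (T.tau P) ≠ 1}.Finite ∧ (Rw5 H T S ρ).Finite) ∧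
  (∀ ρ : Gm k →* G, ρ ∈ Hk k G → (∀ P, P ∉ S → OkM (Mn H) (ρ (T.tau P))) →
    dH H ρ = qH H S ρ * nO T S ρ ^ mi H) ∧
  (∃ w : ℝ, 1 < w ∧ ∀ ρ : Gm k →* G, ρ ∈ Hk k G → ∀ R : Finset (HeightOneSpectrum (𝓞 k)),
    Rw5 H T S ρ = (R : Set (HeightOneSpectrum (𝓞 k))) →
    ((nO T (S ∪ R) ρ : ℝ) * ((∏ P ∈ R, nrm P : ℕ) : ℝ) ^ w) ^ mi H ≤ (dH H ρ : ℝ)) ∧
  ∀ X : ℝ, {ρ : Gm k →* G | ρ ∈ Hk k G ∧ (dH H ρ : ℝ) ≤ X}.Finite

/-- Z3: the number of homomorphisms with given `Rw5` -/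
def ZFix5 : Prop := ∀ (k : Type) [Field k] [NumberField k] (T : TM k) (G : Type) [Group G]
  (H : Subgroup G) (b : ℕ), Hyp5 H → InnF5 (Mn H) T b →
  ∀ S : Finset (HeightOneSpectrum (𝓞 k)), Ctn S (Nat.card G) →
  ∀ R : Finset (HeightOneSpectrum (𝓞 k)), ∃ L : ℝ, 0 ≤ L ∧
    Tendsto (fun X : ℝ => ((AR5 H T S R X).ncard : ℝ) / gr5 (mi H) b X) atTop (𝓝 L) ∧
    ((∃ ρ : Gm k →* G, ρ ∈ Hk k G ∧ Rw5 H T S ρ = (R : Set (HeightOneSpectrum (𝓞 k)))) → 0 < L)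

/-- Z4: the uniform bound -/
def ZUni5 : Prop := ∀ (k : Type) [Field k] [NumberField k] (T : TM k) (G : Type) [Group G]
  (H : Subgroup G) (b : ℕ), Hyp5 H → InnU5 (Mn H) T b →
  ∃ S : Finset (HeightOneSpectrum (𝓞 k)), Ctn S (Nat.card G) ∧ ∃ C w : ℝ, 0 ≤ C ∧ 1 < w ∧
    ∀ (R : Finset (HeightOneSpectrum (𝓞 k))) (X : ℝ), 2 ≤ X →
      ((AR5 H T S R X).ncard : ℝ) ≤
        C ^ (R.card + 1) * ((∏ P ∈ R, nrm P : ℕ) : ℝ) ^ (-w) * gr5 (mi H) b X

/-- Z5: the number of homomorphisms -/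
def ZAsy5 : Prop := ∀ (k : Type) [Field k] [NumberField k] (T : TM k) (G : Type) [Group G]
  (H : Subgroup G) (b : ℕ), Hyp5 H → InnF5 (Mn H) T b → InnU5 (Mn H) T b → Asy5 k H b

/-! ### permutation groups -/

/-- P1: the point stabilizer of a transitive permutation group -/
def SPrm5 : Prop := ∀ (n : ℕ) (G : Subgroup (Equiv.Perm (Fin n))),
  MulAction.IsPretransitive G (Fin n) → 1 < n → ∀ i0 : Fin n,
    (MulAction.stabilizer G i0).normalCore = ⊥ ∧ MulAction.stabilizer G i0 ≠ ⊤ ∧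
    (∀ g : G, hind (MulAction.stabilizer G i0) g = pind (g : Equiv.Perm (Fin n))) ∧
    mi (MulAction.stabilizer G i0) = mInd G

/-- P2: fields and homomorphisms -/
def SFld5 : Prop := ∀ (n : ℕ) (G : Subgroup (Equiv.Perm (Fin n))),
  MulAction.IsPretransitive G (Fin n) → ∀ i0 : Fin n,
  ∃ κ : ℝ, 0 < κ ∧ ∀ (k : Type) [Field k] [NumberField k] (X : ℝ), (NK k G X : ℝ) =
    κ * ({ρ : Gm k →* G | ρ ∈ Hk k G ∧ (dH (MulAction.stabilizer G i0) ρ : ℝ) ≤ X}.ncard : ℝ)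

/-- P3: the number of classes of least index up to the cyclotomic action -/
def SbM5 : Prop := ∀ (k : Type) [Field k] [NumberField k] (n : ℕ)
  (G : Subgroup (Equiv.Perm (Fin n))), MulAction.IsPretransitive G (Fin n) → 1 < n →
  ∀ (i0 : Fin n) (l : ℕ), HypM l G (Mn (MulAction.stabilizer G i0)) →
    bM k G * Nat.card (cyc k l) = Nat.card (Mcl (Mn (MulAction.stabilizer G i0)))

/-- P4: from homomorphisms to fields -/
def SEnd5 : Prop := ∀ (k : Type) [Field k] [NumberField k] (n : ℕ)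
  (G : Subgroup (Equiv.Perm (Fin n))), MulAction.IsPretransitive G (Fin n) → 1 < n →
  ∀ (i0 : Fin n) (b : ℕ), b = bM k G → Asy5 k (MulAction.stabilizer G i0) b →
    (∀ X, NK k G X = 0) ∨ MalleK k G

/-- the theorem for permutation groups -/
def SMain5 : Prop := ∀ (k : Type) [Field k] [NumberField k] (n : ℕ)
  (G : Subgroup (Equiv.Perm (Fin n))), MulAction.IsPretransitive G (Fin n) → 1 < n →
  Group.IsNilpotent G →
  (∀ g : G, g ≠ 1 → pind (g : Equiv.Perm (Fin n)) = mInd G →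
    g ∈ Subgroup.upperCentralSeries G 2) →
    (∀ X, NK k G X = 0) ∨ MalleK k G

end Pool.Agent.TF
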