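import Pool.Agent.TB.Stmt

/-!
# Weak-strong uniqueness for data in `L² ∩ bmo⁻¹₀`: the definitions of the statement
-/

set_option autoImplicit false

namespace Pool.Agent.TF

open MeasureTheory Set Filter Topology Pool.Agent.TO Pool.Agent.TB
open scoped Real ENNReal

/-- The norm of the Koch-Tataru space `X_T` of a field `w` on `(0, T) × ℝ³`. -/
noncomputable def XNorm (T : ℝ) (w : ℝ → E3 → E3) : ℝ≥0∞ :=
  (⨆ t ∈ Ioo 0 T, ENNReal.ofReal (√t) * eLpNorm (w t) ∞ volume) +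
    ⨆ t ∈ Ioo 0 T, ⨆ x : E3, (ENNReal.ofReal (t ^ (-(3 / 2) : ℝ)) *
      ∫⁻ s in Ioo 0 t, ∫⁻ y in Metric.ball x (√t), ‖w s y‖ₑ ^ 2) ^ (1 / 2 : ℝ)

/-- `u₀ ∈ bmo⁻¹₀`: the heat extension of `u₀` is in `X_1`, and its norm in `X_T` tends to `0`
as `T → 0`. -/
def BmoZ (u₀ : V3) : Prop :=
  XNorm 1 (fun t => heatF t u₀) < ∞ ∧
    Tendsto (fun T => XNorm T (fun t => heatF t u₀)) (𝓝[>] 0) (𝓝 0)

/-- the Kronecker symbol -/
noncomputable def kron (i j : Fin 3) : ℝ := if i = j then 1 else 0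

/-- `∂_k G_τ (x)`, where `G_τ` is the heat kernel `gauss τ` -/
noncomputable def gauss1 (τ : ℝ) (x : E3) (k : Fin 3) : ℝ := -(x k / (2 * τ)) * gauss τ x

/-- `∂_i ∂_j ∂_k G_τ (x)` -/
noncomputable def gauss3 (τ : ℝ) (x : E3) (i j k : Fin 3) : ℝ :=
  ((kron i j * x k + kron j k * x i + kron k i * x j) / (4 * τ ^ 2) -
    x i * x j * x k / (8 * τ ^ 3)) * gauss τ x

/-- The kernel of `e^{σ Δ} ℙ_{ij} ∂_k`, where `ℙ_{ij} = δ_{ij} + ∂_i ∂_j (-Δ)⁻¹` is the Leray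
projection, and `(-Δ)⁻¹ e^{σ Δ}` is the integral of `e^{τ Δ}` over `τ > σ`. -/
noncomputable def oseen (σ : ℝ) (x : E3) (i j k : Fin 3) : ℝ :=
  kron i j * gauss1 σ x k + ∫ τ in Ioi σ, gauss3 τ x i j k

/-- The component `i` of `B(w, w)(t, x)`, the integral of `e^{(t - s) Δ} ℙ div (w ⊗ w)(s)` over
`s ∈ (0, t)`. -/
noncomputable def bilin (w : ℝ → E3 → E3) (t : ℝ) (x : E3) (i : Fin 3) : ℝ :=
  ∫ s in Ioo 0 t, ∫ y, ∑ j, ∑ k, oseen (t - s) (x - y) i j k * (w s y j * w s y k)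

/-- `w = e^{t Δ} u₀ - B(w, w)` on `(0, T)` -/
def Mild (T : ℝ) (u₀ : V3) (w : ℝ → E3 → E3) : Prop :=
  ∀ t ∈ Ioo 0 T, ∀ᵐ x ∂(volume : Measure E3), ∀ i, w t x i = heatF t u₀ x i - bilin w t x i

/-- The field of a curve in `L²(ℝ³; ℝ³)`. -/
noncomputable def flds (v : ℝ → V3) : ℝ → E3 → E3 := fun t => fld (v t)

/-- The positive answer to Q1. For some absolute `ε₀ > 0`, for divergence-free
`u₀ ∈ L² ∩ bmo⁻¹₀` and `ε > 0` there are `T > 0` and a solution `u` of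
`u = e^{t Δ} u₀ - B(u, u)` on `(0, T)`, with norm at most `ε` in `X_T` (the mild solution), such
that every weak Leray solution with initial value `u₀` coincides with `u` on `(0, T)`, and so does
every solution `w` of `w = e^{t Δ} u₀ - B(w, w)` on `(0, T)` with norm at most `ε₀` in `X_T`. -/
def Statement : Prop :=
  ∃ ε₀ : ℝ≥0∞, 0 < ε₀ ∧ ∀ u₀ : V3, DivZero u₀ → BmoZ u₀ → ∀ ε : ℝ≥0∞, 0 < ε →
    ∃ T : ℝ, 0 < T ∧ ∃ u : ℝ → E3 → E3,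
      Measurable (Function.uncurry u) ∧ XNorm T u ≤ ε ∧ Mild T u₀ u ∧
      (∀ v : ℝ → V3, Leray T u₀ v → ∀ t ∈ Ioo 0 T, flds v t =ᵐ[volume] u t) ∧
      ∀ w : ℝ → E3 → E3, Measurable (Function.uncurry w) → XNorm T w ≤ ε₀ → Mild T u₀ w →
        ∀ t ∈ Ioo 0 T, w t =ᵐ[volume] u t

end Pool.Agent.TF
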