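import Pool.Agent.TP.Fin

/-!
# Translations and convolution operators
-/

set_option autoImplicit false

namespace Pool.Agent.TF

open MeasureTheory Set Filter Topology Pool.Agent.TO Pool.Agent.TB Pool.Agent.TC Pool.Agent.TP
open scoped ENNReal NNReal Real InnerProductSpace SchwartzMap LineDeriv

theorem mp_sub (a : E3) : MeasurePreserving (fun x : E3 => x - a) volume volume :=
  measurePreserving_sub_right volume a

/-- the translate `x ↦ f (x - a)` -/
noncomputable def tau (a : E3) : V3 →L[ℝ] V3 :=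
  (Lp.compMeasurePreservingₗᵢ ℝ (fun x : E3 => x - a) (mp_sub a)).toContinuousLinearMap

theorem coe_tau (a : E3) (f : V3) : (tau a f : E3 → E3) =ᵐ[volume] fun x => f (x - a) :=
  Lp.coeFn_compMeasurePreserving f (mp_sub a)

theorem norm_tau (a : E3) (f : V3) : ‖tau a f‖ = ‖f‖ :=
  Lp.norm_compMeasurePreserving f (mp_sub a)

theorem tau_tau (a b : E3) (f : V3) : tau a (tau b f) = tau (a + b) f := by
  apply Lp.ext
  filter_upwards [coe_tau a (tau b f), coe_tau (a + b) f,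
    (mp_sub a).quasiMeasurePreserving.ae (coe_tau b f)] with x h1 h2 h3
  rw [h1, h2, h3, sub_sub]

theorem tau_comm (a b : E3) (f : V3) : tau a (tau b f) = tau b (tau a f) := by
  rw [tau_tau, tau_tau, add_comm]

theorem tau_zero (f : V3) : tau 0 f = f := by
  apply Lp.ext
  filter_upwards [coe_tau 0 f] with x h1
  rw [h1, sub_zero]

theorem inner_tau_eq (a : E3) (f g : V3) : ⟪f, tau a g⟫_ℝ = ∫ x, ⟪f x, g (x - a)⟫_ℝ := by
  rw [L2.inner_def]
  apply integral_congr_ae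
  filter_upwards [coe_tau a g] with x hx
  rw [hx]

theorem inner_tau (a : E3) (f g : V3) : ⟪tau a f, g⟫_ℝ = ⟪f, tau (-a) g⟫_ℝ := by
  rw [real_inner_comm, inner_tau_eq, inner_tau_eq, corr_symm, ]

variable {κ κ' : E3 → ℝ} {L L' : ℝ}

theorem inner_cvL_tau (h : KK κ L) (f g : V3) :
    ⟪f, cvL h g⟫_ℝ = ∫ y, κ y * ⟪f, tau y g⟫_ℝ := by
  rw [inner_cvL]
  simp only [inner_tau_eq]

/-- an operator which commutes with the translations -/
def TI (T : V3 →L[ℝ] V3) : Prop := ∀ a f, T (tau a f) = tau a (T f)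

theorem ti_cvL (h : KK κ L) : TI (cvL h) := by
  intro a f
  apply ext_inner_left ℝ
  intro g
  have e : ⟪g, tau a (cvL h f)⟫_ℝ = ⟪tau (-a) g, cvL h f⟫_ℝ := by
    rw [inner_tau, neg_neg]
  rw [e, inner_cvL_tau, inner_cvL_tau]
  congr 1
  ext y
  rw [inner_tau, neg_neg, tau_comm]

theorem TI.comp {T S : V3 →L[ℝ] V3} (hT : TI T) (hS : TI S) : TI (T ∘L S) := by
  intro a f
  simp only [ContinuousLinearMap.comp_apply]
  rw [hS, hT]

theorem TI.cvL {T : V3 →L[ℝ] V3} (hT : TI T) (h : KK κ L) (f : V3) : T (cvL h f) = TP.cvL h (T f) := by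
  apply ext_inner_left ℝ
  intro g
  have e : ⟪g, T (TP.cvL h f)⟫_ℝ = ⟪(ContinuousLinearMap.adjoint T) g, TP.cvL h f⟫_ℝ := by
    rw [ContinuousLinearMap.adjoint_inner_left]
  rw [e, inner_cvL_tau, inner_cvL_tau]
  congr 1
  ext y
  rw [ContinuousLinearMap.adjoint_inner_left, hT]

theorem cvL_comm (h : KK κ L) (h' : KK κ' L') (f : V3) : cvL h (cvL h' f) = cvL h' (cvL h f) :=
  (ti_cvL h).cvL h' f

/-- the reflected kernel -/
theorem kk_refl (h : KK κ L) : KK (fun y => κ (-y)) L where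
  cont := h.cont.comp continuous_neg
  int := h.int.comp_neg
  le := by
    rw [integral_neg_eq_self (fun y => |κ y|)]
    exact h.le
  bdd := by
    obtain ⟨C, hC, hb⟩ := h.bdd
    exact ⟨C, hC, fun y => hb _⟩

theorem adj_cvL (h : KK κ L) (f g : V3) : ⟪f, cvL h g⟫_ℝ = ⟪cvL (kk_refl h) f, g⟫_ℝ := by
  rw [real_inner_comm g (cvL _ f), inner_cvL_tau, inner_cvL_tau,
    ← integral_neg_eq_self (fun y => κ y * ⟪f, tau y g⟫_ℝ)]
  congr 1
  ext y
  rw [real_inner_comm, inner_tau, neg_neg]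

theorem cvf_sub_kernel {F : Type*} [NormedAddCommGroup F] [NormedSpace ℝ F] {f : E3 → F} {x : E3}
    (h : Integrable (fun y => κ y • f (x - y)) (volume : Measure E3))
    (h' : Integrable (fun y => κ' y • f (x - y)) (volume : Measure E3)) :
    cvf (fun y => κ y - κ' y) f x = cvf κ f x - cvf κ' f x := by
  unfold cvf
  rw [← integral_sub h h']
  congr 1
  ext y
  rw [sub_smul]

theorem kk_sub (h : KK κ L) (h' : KK κ' L') : KK (fun y => κ y - κ' y) (L + L') where
  cont := h.cont.sub h'.cont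
  int := h.int.sub h'.int
  le := by
    calc ∫ y, |κ y - κ' y| ≤ ∫ y, (|κ y| + |κ' y|) :=
          integral_mono (h.int.sub h'.int).abs (h.int.abs.add h'.int.abs) fun y => abs_sub _ _
      _ = (∫ y, |κ y|) + ∫ y, |κ' y| := integral_add h.int.abs h'.int.abs
      _ ≤ L + L' := add_le_add h.le h'.le
  bdd := by
    obtain ⟨C, hC, hb⟩ := h.bdd
    obtain ⟨C', hC', hb'⟩ := h'.bdd
    exact ⟨C + C', by positivity, fun y => (abs_sub _ _).trans (add_le_add (hb y) (hb' y))⟩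

theorem kk_add (h : KK κ L) (h' : KK κ' L') : KK (fun y => κ y + κ' y) (L + L') where
  cont := h.cont.add h'.cont
  int := h.int.add h'.int
  le := by
    calc ∫ y, |κ y + κ' y| ≤ ∫ y, (|κ y| + |κ' y|) :=
          integral_mono (h.int.add h'.int).abs (h.int.abs.add h'.int.abs) fun y => abs_add_le _ _
      _ = (∫ y, |κ y|) + ∫ y, |κ' y| := integral_add h.int.abs h'.int.abs
      _ ≤ L + L' := add_le_add h.le h'.le
  bdd := by
    obtain ⟨C, hC, hb⟩ := h.bdd
    obtain ⟨C', hC', hb'⟩ := h'.bdd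
    exact ⟨C + C', by positivity, fun y => (abs_add_le _ _).trans (add_le_add (hb y) (hb' y))⟩

theorem kk_smul (c : ℝ) (h : KK κ L) : KK (fun y => c * κ y) (|c| * L) where
  cont := continuous_const.mul h.cont
  int := h.int.const_mul c
  le := by
    simp only [abs_mul]
    rw [integral_const_mul]
    exact mul_le_mul_of_nonneg_left h.le (abs_nonneg c)
  bdd := by
    obtain ⟨C, hC, hb⟩ := h.bdd
    exact ⟨|c| * C, by positivity, fun y => by
      rw [abs_mul]; exact mul_le_mul_of_nonneg_left (hb y) (abs_nonneg c)⟩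

theorem kk_mono (h : KK κ L) (hL : L ≤ L') : KK κ L' := ⟨h.cont, h.int, h.le.trans hL, h.bdd⟩

theorem kk_self (h : KK κ L) : KK κ (∫ y, |κ y|) := ⟨h.cont, h.int, le_rfl, h.bdd⟩

open Classical in
/-- the convolution operator of a kernel -/
noncomputable def cvO (κ : E3 → ℝ) : V3 →L[ℝ] V3 :=
  if h : KK κ (∫ y, |κ y|) then cvL h else 0

theorem cvL_indep (h : KK κ L) (h' : KK κ L') : cvL h = cvL h' := by
  ext1 f
  apply Lp.ext
  filter_upwards [coe_cvL h f, coe_cvL h' f] with x h1 h2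
  rw [h1, h2]

theorem cvO_eq (h : KK κ L) : cvO κ = cvL h := by
  rw [cvO, dif_pos (kk_self h)]
  exact cvL_indep _ _

theorem norm_cvO_le (h : KK κ L) (f : V3) : ‖cvO κ f‖ ≤ L * ‖f‖ := by
  rw [cvO_eq h]; exact norm_cvL_le h f

theorem bd_cvO (h : KK κ L) {f : V3} {A : ℝ} (hA : 0 ≤ A) (hf : Bd f A) :
    Bd (cvO κ f) (L * A) := by
  rw [cvO_eq h]; exact bd_cvL h hA hf

theorem coe_cvO (h : KK κ L) (f : V3) : (cvO κ f : E3 → E3) =ᵐ[volume] cvf κ f := by
  rw [cvO_eq h]; exact coe_cvL h f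

theorem cvO_sub (h : KK κ L) (h' : KK κ' L') (f : V3) :
    cvO (fun y => κ y - κ' y) f = cvO κ f - cvO κ' f := by
  apply Lp.ext
  filter_upwards [coe_cvO h f, coe_cvO h' f, coe_cvO (kk_sub h h') f,
    Lp.coeFn_sub (cvO κ f) (cvO κ' f)] with x h1 h2 h3 h4
  rw [h3, h4, Pi.sub_apply, h1, h2]
  exact cvf_sub_kernel (integrable_cvf h (Lp.stronglyMeasurable f) (lintegral_sq_lt f) x)
    (integrable_cvf h' (Lp.stronglyMeasurable f) (lintegral_sq_lt f) x)

theorem cvO_add (h : KK κ L) (h' : KK κ' L') (f : V3) :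
    cvO (fun y => κ y + κ' y) f = cvO κ f + cvO κ' f := by
  have e : (fun y => κ y) = fun y => (κ y + κ' y) - κ' y := by ext y; ring
  have h2 := cvO_sub (kk_add h h') h' f
  rw [← e] at h2
  rw [h2]; abel

theorem cvO_smul (c : ℝ) (h : KK κ L) (f : V3) : cvO (fun y => c * κ y) f = c • cvO κ f := by
  apply Lp.ext
  filter_upwards [coe_cvO h f, coe_cvO (kk_smul c h) f, Lp.coeFn_smul c (cvO κ f)] with x h1 h2 h3
  rw [h2, h3, Pi.smul_apply, h1]
  unfold cvf
  rw [← integral_smul]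
  congr 1
  ext y
  rw [mul_smul]

theorem ti_cvO (κ : E3 → ℝ) : TI (cvO κ) := by
  unfold cvO
  split_ifs with h
  · exact ti_cvL h
  · intro a f
    simp

theorem TI.cvO {T : V3 →L[ℝ] V3} (hT : TI T) (κ : E3 → ℝ) (f : V3) :
    T (cvO κ f) = TF.cvO κ (T f) := by
  unfold TF.cvO
  split_ifs with h
  · exact hT.cvL h f
  · simp

theorem cvO_comm (κ κ' : E3 → ℝ) (f : V3) : cvO κ (cvO κ' f) = cvO κ' (cvO κ f) :=
  (ti_cvO κ).cvO κ' f

theorem weak_cvO (κ : E3 → ℝ) {k : Fin 3} {f g : V3} (hfg : IsWeakDeriv k f g) :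
    IsWeakDeriv k (cvO κ f) (cvO κ g) := by
  unfold cvO
  split_ifs with h
  · exact weak_cvL h hfg
  · intro φ
    have e : ∀ ψ : 𝓢(E3, E3), ∫ x, ⟪ψ x, ((0 : V3 →L[ℝ] V3) f : V3) x⟫_ℝ = 0 := by
      intro ψ
      rw [integral_inner_eq]; simp
    have e' : ∀ ψ : 𝓢(E3, E3), ∫ x, ⟪ψ x, ((0 : V3 →L[ℝ] V3) g : V3) x⟫_ℝ = 0 := by
      intro ψ
      rw [integral_inner_eq]; simp
    rw [e, e', neg_zero]

/-- the derivative falls on the kernel -/
theorem weak_kernel (h : KK κ L) (h' : KK κ' L') {i : Fin 3}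
    (hl : ∀ y, HasLineDerivAt ℝ κ (κ' y) y (ee i)) (f : V3) :
    IsWeakDeriv i (cvO κ f) (cvO κ' f) := by
  rw [cvO_eq h, cvO_eq h']
  intro φ
  rw [integral_inner_eq, integral_inner_eq]
  obtain ⟨C, hC, hb⟩ := h.bdd
  obtain ⟨C', hC', hb'⟩ := h'.bdd
  have e0 : ∀ ψ : 𝓢(E3, E3), (ψ.toLp 2 (volume : Measure E3) : V3) = emb ψ := fun ψ => rfl
  rw [e0, e0, adj_cvL, adj_cvL]
  have hl2 : ∀ y, HasLineDerivAt ℝ (fun y => κ (-y)) (-(κ' (-y))) y (ee i) := by
    intro y
    have h1 := hl (-y)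
    unfold HasLineDerivAt at h1 ⊢
    have h2 : HasDerivAt (fun t : ℝ => -t) (-1) 0 := hasDerivAt_neg (0:ℝ)
    have h3 : HasDerivAt (fun t : ℝ => κ (-y + t • ee i)) (κ' (-y)) (-0) := by simpa using h1
    have h4 := h3.comp (0:ℝ) h2
    simp only [mul_neg, mul_one] at h4
    refine h4.congr_of_eventuallyEq (Eventually.of_forall fun t => ?_)
    simp only [Function.comp_apply]
    congr 1
    rw [neg_smul, neg_add]
  have h5 : cvL (kk_refl h) (emb (∂_{ee i} φ)) = -cvL (kk_refl h') (emb φ) := by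
    apply Lp.ext
    filter_upwards [coe_cvL_emb (kk_refl h) (∂_{ee i} φ), coe_cvL_emb (kk_refl h') φ,
      Lp.coeFn_neg (cvL (kk_refl h') (emb φ))] with x h1 h2 h3
    rw [h1, h3, Pi.neg_apply, h2, ibp (κ := fun y => κ (-y)) (κ' := fun y => -(κ' (-y)))
      (kk_refl h).cont (kk_refl h').cont.neg (fun y => hb _)
      (fun y => by rw [abs_neg]; exact hb' _) hl2 φ x]
    unfold cvf
    simp only [neg_smul]
    rw [integral_neg]
  rw [h5, inner_neg_left]

end Pool.Agent.TF
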